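import Mathlib
import Pool.Agent.T2h34.CP.Any

set_option autoImplicit false

/-!
# The generic rank of the cartesian product of a graph with a minimally rigid graph: statements

Let `H` be a graph on `W` with `n` vertices, minimally rigid in `ℝ^(d-1)`, and let `G` be any graph
on `V`. The space of infinitesimal motions of `G □ H` in `ℝ^d` has for generic placements the
dimension `max (D * m + (n + k) * s - n * e)`, the maximum over the partitions of `V` into classes,
`s` the number of the classes with one element, `m` the number of the other classes, `e` the number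
of the edges of `G` between different classes, `D = d (d + 1) / 2`, `k = d (d - 1) / 2`.

For the proof some of the fibres are made rigid: the vertices in a set `B` are divided into bodies
by a colouring `r`, and the fibres of the vertices of one body form one rigid body together. The
vertices outside `B` are called plates; their colours are used only once (`Inv r B`). The graph
`XG G H r B` is the resulting graph on `V × W`.

For a colouring `f` of `V` (a partition), `cls f` is the number of classes, `sing B f` the number of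
plates which are alone in their class, `pr G f` twice the number of the edges of `G` between
different classes. `val n k D G B f` is twice the expected dimension
`D * (cls f - sing B f) + (n + k) * sing B f - n * e`, `e` the number of edges between classes.
-/

namespace Pool.Agent.T2h34.RK

open Matrix Pool.Agent.H283R2.DR Pool.Agent.H789R5

/-- the number of classes of the colouring -/
noncomputable def cls {V : Type} (f : V → ℕ) : ℕ := (Set.range f).ncard

/-- the number of the points outside `B` which are alone in their class -/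
noncomputable def sing {V : Type} (B : Set V) (f : V → ℕ) : ℕ :=
  {x | x ∉ B ∧ ∀ y, f y = f x → y = x}.ncard

/-- twice the number of the edges between different classes -/
noncomputable def pr {V : Type} (G : SimpleGraph V) (f : V → ℕ) : ℕ :=
  {z : V × V | G.Adj z.1 z.2 ∧ f z.1 ≠ f z.2}.ncard

/-- twice the expected dimension of the space of motions -/
noncomputable def val {V : Type} (n k D : ℕ) (G : SimpleGraph V) (B : Set V) (f : V → ℕ) : ℤ :=
  2 * (D : ℤ) * (cls f : ℤ) + 2 * ((n : ℤ) + (k : ℤ) - (D : ℤ)) * (sing B f : ℤ) -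
    (n : ℤ) * (pr G f : ℤ)

/-- the colours of the plates are used only once -/
def Inv {V : Type} (r : V → ℕ) (B : Set V) : Prop := ∀ x, x ∉ B → ∀ y, r y = r x → y = x

/-- the product `G □ H` in which the bodies are made rigid -/
def XG {V W : Type} (G : SimpleGraph V) (H : SimpleGraph W) (r : V → ℕ) (B : Set V) :
    SimpleGraph (V × W) where
  Adj x y := (x.1 = y.1 ∧ H.Adj x.2 y.2) ∨ (x.2 = y.2 ∧ G.Adj x.1 y.1) ∨
    (x ≠ y ∧ x.1 ∈ B ∧ y.1 ∈ B ∧ r x.1 = r y.1)
  symm := ⟨by
    rintro x y (⟨h1, h2⟩ | ⟨h1, h2⟩ | ⟨h1, h2, h3, h4⟩)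
    · exact Or.inl ⟨h1.symm, h2.symm⟩
    · exact Or.inr (Or.inl ⟨h1.symm, h2.symm⟩)
    · exact Or.inr (Or.inr ⟨h1.symm, h3, h2, h4.symm⟩)⟩
  loopless := ⟨by
    rintro x (⟨_, h2⟩ | ⟨_, h2⟩ | ⟨h1, _⟩)
    · exact h2.ne rfl
    · exact h2.ne rfl
    · exact h1 rfl⟩

/-- **CNT.** The counting argument: a structure in which every plate has at least three neighbours,
at most one of them in a body, no two bodies are adjacent and every body has an edge to the outside,
has too many edges. -/
def S_CNT : Prop := ∀ (V : Type) [Finite V] [Nonempty V] (G : SimpleGraph V) (r : V → ℕ) (B : Set V)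
    (n k D : ℕ), Inv r B → D + 2 * k ≤ n → 1 ≤ k → k < D →
    (∀ x, x ∉ B → 3 ≤ {y | G.Adj x y}.ncard) →
    (∀ x y z, x ∉ B → y ∈ B → z ∈ B → G.Adj x y → G.Adj x z → y = z) →
    (∀ x y, x ∈ B → y ∈ B → G.Adj x y → r x = r y) →
    (∀ x, x ∈ B → ∃ y z, r y = r x ∧ G.Adj y z ∧ r z ≠ r x) →
    (n : ℤ) * ((pr G r : ℤ) - 2) ≤
      2 * ((D : ℤ) * cls r + ((n : ℤ) + k - D) * sing B r - D) → False

/-- **GLU.** Refining one class `c` (with at least two elements) of the partition `f` by a partition
`f'` of this class. (Take `F x = 2 * f' x + 1` in the class, `F x = 2 * f x` outside.) -/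
def S_GLU : Prop := ∀ (V : Type) [Finite V] (G : SimpleGraph V) (B : Set V) (n k D : ℕ) (f : V → ℕ)
    (c : ℕ) (_ : ∃ x y, x ≠ y ∧ f x = c ∧ f y = c) (f' : {x // f x = c} → ℕ),
    ∃ F : V → ℕ, (∀ x y, F x = F y → f x = f y) ∧ (∀ x y, f x = f y → f x ≠ c → F x = F y) ∧
      (∀ x y : {x // f x = c}, F x = F y ↔ f' x = f' y) ∧
      val n k D G B F = val n k D G B f - 2 * D +
        val n k D (G.comap (Subtype.val : {x // f x = c} → V)) (Subtype.val ⁻¹' B) f'

/-- **REMA.** Adding a plate `g` as a class of its own. -/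
def S_REMA : Prop := ∀ (V : Type) [Finite V] (G : SimpleGraph V) (B : Set V) (n k D : ℕ) (g : V)
    (_ : g ∉ B) (f' : {x // x ≠ g} → ℕ),
    ∃ f : V → ℕ, (∀ x y : {x // x ≠ g}, f x = f y ↔ f' x = f' y) ∧
      (∀ y : {x // x ≠ g}, f y ≠ f g) ∧
      val n k D G B f = val n k D (G.comap (Subtype.val : {x // x ≠ g} → V)) (Subtype.val ⁻¹' B) f' +
        2 * ((n : ℤ) + k) - 2 * n * {y | G.Adj g y}.ncard

/-- **REMC.** Adding a plate `g` to a class which contains all its neighbours and has at least two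
elements. -/
def S_REMC : Prop := ∀ (V : Type) [Finite V] (G : SimpleGraph V) (B : Set V) (n k D : ℕ) (g : V)
    (_ : g ∉ B) (f' : {x // x ≠ g} → ℕ) (c : ℕ) (_ : ∃ x y : {x // x ≠ g}, x ≠ y ∧ f' x = c ∧ f' y = c)
    (_ : ∀ y : {x // x ≠ g}, G.Adj g y → f' y = c),
    ∃ f : V → ℕ, (∀ x y : {x // x ≠ g}, f x = f y ↔ f' x = f' y) ∧
      val n k D G B f = val n k D (G.comap (Subtype.val : {x // x ≠ g} → V)) (Subtype.val ⁻¹' B) f'

/-- **ISO.** Adding an isolated body (the class `c` of `r`) as a class of its own. -/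
def S_ISO : Prop := ∀ (V : Type) [Finite V] (G : SimpleGraph V) (B : Set V) (n k D : ℕ) (r : V → ℕ)
    (c : ℕ) (_ : ∀ x, r x = c → x ∈ B) (_ : ∀ x y, r x = c → G.Adj x y → r y = c)
    (_ : ∃ x, r x = c) (f' : {x // r x ≠ c} → ℕ),
    ∃ f : V → ℕ, (∀ x y : {x // r x ≠ c}, f x = f y ↔ f' x = f' y) ∧
      (∀ x y, r x = c → r y = c → f x = f y) ∧
      val n k D G B f = val n k D (G.comap (Subtype.val : {x // r x ≠ c} → V))
        (Subtype.val ⁻¹' B) f' + 2 * D

/-- **LK.** The rigidity of `n` bodies attached to three plates (one of them is taken as the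
coordinate plane). Proof: write `ρ_i(θ)(q) = (γ + g·q) b_i - (b_i·q) g` for `θ = (γ, g)`; this is an
infinitesimal rigid motion of `ℝ^μ`, evaluated at `q`. Call `(ς1, ς2)` (a pair of infinitesimal rigid
motions `ς_i(q) = A_i q + c_i`) compatible at `(q', q'')` if there is `θ` with
`ς1(q') = ρ_1(θ)(q')` and `ς2(q'') = ρ_2(θ)(q'')`.
(a) For fixed `q'` with `b_1·q' ≠ 0` the solutions `θ` of `ρ_1(θ)(q') = ς1(q')` form a line with the
direction `(0, b_1)`; one solution is `g = - ς1(q') / (b_1·q')`, `γ = - g·q'`.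
(b) If `(ς1, ς2)` is compatible at all `(q', q'')` with `b_1·q' ≠ 0`, `b_2·q'' ≠ 0`, then there is
`θ` with `ς_i = ρ_i(θ)`: fix `q''`; after subtracting `ρ_i(θ0)` one may assume that
`ς1(q')` is a multiple of `ρ_1(0, b_2)(q') = (b_2·q') b_1 - (b_1·q') b_2` for all `q'`; then the
range of `A_1` and `c_1` are in the span of `b_1, b_2`, thus
`ς1(q) = t ((b_2·q) b_1 - (b_1·q) b_2) + x b_1 + y b_2`, and being a multiple of `ρ_1(0, b_2)(q)` for
all `q` forces `x = y = 0`, i.e. `ς1 = t ρ_1(0, b_2)`; similarly `ς2 = s ρ_2(0, b_1)`; add `(0, t b_2 + s b_1)`.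
(c) The spaces of the pairs compatible at one `(q', q'')` have therefore the intersection
`{(ρ_1(θ), ρ_2(θ))}`; by the greedy lemma (`greedy` in `Pool.Agent.T2h34.RK.Bas`) finitely many of
them, at most `μ (μ + 1)`, the dimension of the space of all pairs, have the same intersection.
Take these for the `(q1 h, q2 h)`; then `(ς1, ς2) = (ρ_1(θ), ρ_2(θ))`, and by (a) each
`(γ h, g h) - θ` is in the lines of `(0, b_1)` and `(0, b_2)`, hence zero; `h0` gives `θ = 0`. -/
def S_LK : Prop := ∀ (μ : ℕ) (_ : 2 ≤ μ) (W : Type) [Finite W] (_ : μ * (μ + 1) ≤ Nat.card W)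
    (b1 b2 : Fin μ → ℝ) (_ : LinearIndependent ℝ ![b1, b2]) (h0 : W),
    ∃ q1 q2 : W → Fin μ → ℝ, ∀ (A1 A2 : Matrix (Fin μ) (Fin μ) ℝ) (c1 c2 : Fin μ → ℝ) (γ : W → ℝ)
      (g : W → Fin μ → ℝ), A1ᵀ = -A1 → A2ᵀ = -A2 →
      (∀ h, A1 *ᵥ q1 h + c1 = (γ h + g h ⬝ᵥ q1 h) • b1 - (b1 ⬝ᵥ q1 h) • g h) →
      (∀ h, A2 *ᵥ q2 h + c2 = (γ h + g h ⬝ᵥ q2 h) • b2 - (b2 ⬝ᵥ q2 h) • g h) →
      γ h0 = 0 → g h0 = 0 → A1 = 0 ∧ c1 = 0 ∧ A2 = 0 ∧ c2 = 0 ∧ γ = 0 ∧ g = 0

/-- **TWO.** Two rigid bodies are joined rigidly by sufficiently many bars between points of two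
different hyperplanes. Proof: a rigid motion `x ↦ A x + c` which is orthogonal at each point `y` of
the second plane outside the first one to all lines to the first plane is zero there, hence zero.
Greedy lemma. -/
def S_TWO : Prop := ∀ (μ : ℕ) (_ : 1 ≤ μ) (W : Type) [Finite W]
    (_ : (μ + 1) * (μ + 2) / 2 ≤ Nat.card W) (β1 β2 : Fin μ → ℝ) (_ : β1 ≠ β2),
    ∃ q1 q2 : W → Fin μ → ℝ, ∀ (A : Matrix (Fin (μ + 1)) (Fin (μ + 1)) ℝ) (c : Fin (μ + 1) → ℝ),
      Aᵀ = -A →
      (∀ h, ((vecCons (β1 ⬝ᵥ q1 h) (q1 h) : Fin (μ + 1) → ℝ) - vecCons (β2 ⬝ᵥ q2 h) (q2 h)) ⬝ᵥ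
        (A *ᵥ (vecCons (β2 ⬝ᵥ q2 h) (q2 h) : Fin (μ + 1) → ℝ) + c) = 0) → A = 0 ∧ c = 0

/-- **NEC.** The expected dimension is a lower bound for the dimension of the space of motions.
Proof: `G □ H` is contained in the graph obtained from it by making all classes of `f` with at least
two elements complete graphs; without the edges between different classes this graph is a disjoint
union, and its space of motions has a dimension at least `(n + k) s + D (cls f - s)`; each edge
lowers the dimension by at most one (`mo_le_add`). See `mo_layers`, `edges_match`, `gen_count` in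
`Pool.Agent.T2h34.CP.Any` for the case that all classes have one element. -/
def S_NEC : Prop := ∀ (V W : Type) [Finite V] [Finite W] (G : SimpleGraph V) (H : SimpleGraph W)
    (d n k : ℕ), Nat.card W = n → d ≤ n → (∀ P : W → Fin d → ℝ, n + k ≤ mo H P) →
    ∀ (f : V → ℕ) (p : V × W → Fin d → ℝ),
      val n k (d * (d + 1) / 2) G ∅ f ≤ 2 * (mo (G □ H) p : ℤ)

end Pool.Agent.T2h34.RK
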