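import Mathlib
import Pool.Agent.T2h34.RK.Stm

set_option autoImplicit false

/-! The greedy lemma. -/

namespace Pool.Agent.T2h34.RK

/-- **The greedy lemma**: if the intersection of a family of subspaces is contained in `T`, then
the same holds for a subfamily with at most `dim E` members. -/
theorem greedy {E : Type*} [AddCommGroup E] [Module ℝ E] [FiniteDimensional ℝ E] {ι : Type*}
    [Nonempty ι] (K : ι → Submodule ℝ E) (T : Submodule ℝ E) (h : ⨅ i, K i ≤ T) {n : ℕ}
    (hn : Module.finrank ℝ E ≤ n) : ∃ s : Fin n → ι, ⨅ j, K (s j) ≤ T := by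
  have key : ∀ m : ℕ, ∃ s : Fin m → ι, (⨅ j, K (s j) ≤ T) ∨
      Module.finrank ℝ (⨅ j, K (s j) : Submodule ℝ E) + m ≤ Module.finrank ℝ E := by
    intro m
    induction m with
    | zero => exact ⟨Fin.elim0, Or.inr (by simpa using Submodule.finrank_le _)⟩
    | succ m ih =>
      obtain ⟨s, hs⟩ := ih
      have e : ∀ i : ι, (⨅ j, K ((Fin.snoc s i : Fin (m + 1) → ι) j)) = (⨅ j, K (s j)) ⊓ K i := by
        intro i
        apply le_antisymm
        · refine le_inf (le_iInf fun j => ?_) ?_
          · refine (iInf_le _ (Fin.castSucc j)).trans ?_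
            rw [Fin.snoc_castSucc]
          · refine (iInf_le _ (Fin.last m)).trans ?_
            rw [Fin.snoc_last]
        · refine le_iInf fun j => ?_
          refine Fin.lastCases ?_ (fun j => ?_) j
          · rw [Fin.snoc_last]
            exact inf_le_right
          · rw [Fin.snoc_castSucc]
            exact inf_le_left.trans (iInf_le _ j)
      by_cases hc : ∀ i, (⨅ j, K (s j)) ≤ K i
      · obtain ⟨i⟩ := ‹Nonempty ι›
        refine ⟨Fin.snoc s i, Or.inl ?_⟩
        rw [e]
        exact inf_le_left.trans ((le_iInf hc).trans h)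
      · push Not at hc
        obtain ⟨i, hi⟩ := hc
        refine ⟨Fin.snoc s i, ?_⟩
        rw [e]
        rcases hs with hs | hs
        · exact Or.inl (inf_le_left.trans hs)
        · right
          have h1 : (⨅ j, K (s j)) ⊓ K i < ⨅ j, K (s j) := by
            refine lt_of_le_of_ne inf_le_left ?_
            intro h2
            exact hi (inf_eq_left.1 h2)
          have h2 := Submodule.finrank_lt_finrank_of_lt h1
          omega
  obtain ⟨s, hs | hs⟩ := key n
  · exact ⟨s, hs⟩
  · refine ⟨s, ?_⟩
    have h1 : Module.finrank ℝ (⨅ j, K (s j) : Submodule ℝ E) = 0 := by omega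
    rw [Submodule.finrank_eq_zero] at h1
    rw [h1]
    exact bot_le

/-- the greedy lemma with an index set which is large enough -/
theorem greedy' {E : Type*} [AddCommGroup E] [Module ℝ E] [FiniteDimensional ℝ E] {ι W : Type*}
    [Nonempty ι] [Finite W] (K : ι → Submodule ℝ E) (T : Submodule ℝ E) (h : ⨅ i, K i ≤ T)
    (hn : Module.finrank ℝ E ≤ Nat.card W) : ∃ s : W → ι, ⨅ j, K (s j) ≤ T := by
  obtain ⟨s, hs⟩ := greedy K T h hn
  refine ⟨fun w => s (Finite.equivFin W w), ?_⟩
  refine le_trans (le_iInf fun j => ?_) hs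
  have h1 : s ((Finite.equivFin W) ((Finite.equivFin W).symm j)) = s j := by
    rw [Equiv.apply_symm_apply]
  refine (iInf_le _ ((Finite.equivFin W).symm j)).trans ?_
  show K (s ((Finite.equivFin W) ((Finite.equivFin W).symm j))) ≤ K (s j)
  rw [h1]

end Pool.Agent.T2h34.RK
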