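import Mathlib
import Pool.Agent.T2h34.RK.Bas
import Pool.Agent.T2h34.CP.Dich

set_option autoImplicit false
set_option linter.unusedSectionVars false

/-! Flat placements: the points of each fibre lie in a hyperplane through the origin. -/

namespace Pool.Agent.T2h34.RK

open Matrix Pool.Agent.H283R2.DR Pool.Agent.H283R2.DR.TA Pool.Agent.H789R5 Pool.Agent.T2h34.CP

/-! ### Skew-symmetric matrices -/

theorem skew_dot' {n : ℕ} {A : Matrix (Fin n) (Fin n) ℝ} (hA : Aᵀ = -A) (x y : Fin n → ℝ) :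
    x ⬝ᵥ (A *ᵥ y) = - (y ⬝ᵥ (A *ᵥ x)) := by
  rw [dotProduct_mulVec, ← mulVec_transpose, hA, neg_mulVec, neg_dotProduct, dotProduct_comm]

theorem skew_self' {n : ℕ} {A : Matrix (Fin n) (Fin n) ℝ} (hA : Aᵀ = -A) (x : Fin n → ℝ) :
    x ⬝ᵥ (A *ᵥ x) = 0 := by
  have := skew_dot' hA x x
  linarith

/-- trivial motions satisfy all length constraints -/
theorem triv_pair {n : ℕ} {A : Matrix (Fin n) (Fin n) ℝ} (hA : Aᵀ = -A) (b x y : Fin n → ℝ) :
    (x - y) ⬝ᵥ ((A *ᵥ x + b) - (A *ᵥ y + b)) = 0 := by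
  have : (A *ᵥ x + b) - (A *ᵥ y + b) = A *ᵥ (x - y) := by
    rw [mulVec_sub]
    abel
  rw [this]
  exact skew_self' hA _

/-- a framework whose points span the space, with all pairs of points joined, is rigid -/
theorem span_rigid {Y : Type*} {d : ℕ} {p v : Y → Fin d → ℝ} {U : Set Y}
    (hv : ∀ a ∈ U, ∀ b ∈ U, (p a - p b) ⬝ᵥ (v a - v b) = 0) (z0 : Y) (hz0 : z0 ∈ U)
    (z : Fin d → Y) (hz : ∀ i, z i ∈ U) (hl : LinearIndependent ℝ (fun i => p (z i) - p z0)) :
    ∃ (A : Matrix (Fin d) (Fin d) ℝ) (b : Fin d → ℝ), Aᵀ = -A ∧ ∀ y ∈ U, v y = A *ᵥ p y + b := by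
  classical
  rcases Nat.eq_zero_or_pos d with hd | hd
  · subst hd
    exact ⟨0, 0, by simp, fun y _ => Subsingleton.elim _ _⟩
  have : Nonempty (Fin d) := ⟨⟨0, hd⟩⟩
  let bs := basisOfLinearIndependentOfCardEqFinrank hl (by simp)
  have hbs : ∀ i, bs i = p (z i) - p z0 := by
    intro i
    simp [bs]
  let T : (Fin d → ℝ) →ₗ[ℝ] (Fin d → ℝ) := bs.constr ℝ (fun i => v (z i) - v z0)
  have hT : ∀ i, T (p (z i) - p z0) = v (z i) - v z0 := by
    intro i
    rw [← hbs]
    exact bs.constr_basis ℝ _ i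
  have hspan : ∀ x : Fin d → ℝ, x ∈ Submodule.span ℝ (Set.range fun i => p (z i) - p z0) := by
    intro x
    have h1 := bs.span_eq
    have h2 : Set.range bs = Set.range fun i => p (z i) - p z0 := by
      congr 1
      funext i
      exact hbs i
    rw [h2] at h1
    rw [h1]
    exact Submodule.mem_top
  have hbase : ∀ i j, (p (z i) - p z0) ⬝ᵥ T (p (z j) - p z0) +
      (p (z j) - p z0) ⬝ᵥ T (p (z i) - p z0) = 0 := by
    intro i j
    rw [hT, hT]
    have h1 := hv _ (hz i) _ (hz j)
    have h2 := hv _ (hz i) _ hz0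
    have h3 := hv _ (hz j) _ hz0
    have e1 : p (z i) - p (z j) = (p (z i) - p z0) - (p (z j) - p z0) := by abel
    have e2 : v (z i) - v (z j) = (v (z i) - v z0) - (v (z j) - v z0) := by abel
    rw [e1, e2] at h1
    simp only [sub_dotProduct (p (z i) - p z0), dotProduct_sub _ (v (z i) - v z0)] at h1
    linarith
  have h1 : ∀ (j) (x : Fin d → ℝ), x ⬝ᵥ T (p (z j) - p z0) + (p (z j) - p z0) ⬝ᵥ T x = 0 := by
    intro j x
    have hx := hspan x
    induction hx using Submodule.span_induction with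
    | mem x hx =>
      obtain ⟨i, rfl⟩ := hx
      exact hbase i j
    | zero => simp
    | add a b _ _ ha hb =>
      rw [map_add, add_dotProduct, dotProduct_add]
      linarith
    | smul r a _ ha =>
      rw [map_smul, smul_dotProduct, dotProduct_smul, ← smul_add, ha, smul_zero]
  have h2 : ∀ (y x : Fin d → ℝ), x ⬝ᵥ T y + y ⬝ᵥ T x = 0 := by
    intro y x
    have hy := hspan y
    induction hy using Submodule.span_induction with
    | mem y hy =>
      obtain ⟨j, rfl⟩ := hy
      exact h1 j x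
    | zero => simp
    | add a b _ _ ha hb =>
      rw [map_add, add_dotProduct, dotProduct_add]
      linarith
    | smul r a _ ha =>
      rw [map_smul, smul_dotProduct, dotProduct_smul, ← smul_add, ha, smul_zero]
  have hA : ∀ x, (LinearMap.toMatrix' T) *ᵥ x = T x := by
    intro x
    rw [← Matrix.toLin'_apply, Matrix.toLin'_toMatrix']
  refine ⟨LinearMap.toMatrix' T, v z0 - T (p z0), ?_, ?_⟩
  · ext i j
    have h3 := h2 (Pi.single i 1) (Pi.single j 1)
    rw [single_dotProduct, single_dotProduct, one_mul, one_mul] at h3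
    rw [Matrix.transpose_apply, Matrix.neg_apply]
    have e : ∀ i j, LinearMap.toMatrix' T i j = T (Pi.single j 1) i := by
      intro i j
      rw [LinearMap.toMatrix'_apply]
    rw [e, e]
    linarith
  · intro y hy
    rw [hA]
    have h3 : ∀ i, (p (z i) - p z0) ⬝ᵥ ((v y - v z0) - T (p y - p z0)) = 0 := by
      intro i
      have g1 := hv _ hy _ hz0
      have g2 := hv _ hy _ (hz i)
      have e1 : p y - p (z i) = (p y - p z0) - (p (z i) - p z0) := by abel
      have e2 : v y - v (z i) = (v y - v z0) - (v (z i) - v z0) := by abel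
      rw [e1, e2] at g2
      simp only [sub_dotProduct (p y - p z0), dotProduct_sub _ (v y - v z0)] at g2
      have g3 := hv _ (hz i) _ hz0
      have g4 := h2 (p (z i) - p z0) (p y - p z0)
      rw [hT] at g4
      rw [dotProduct_sub]
      linarith
    have h4 : ∀ x : Fin d → ℝ, x ⬝ᵥ ((v y - v z0) - T (p y - p z0)) = 0 := by
      intro x
      have hx := hspan x
      induction hx using Submodule.span_induction with
      | mem x hx =>
        obtain ⟨i, rfl⟩ := hx
        exact h3 i
      | zero => simp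
      | add a b _ _ ha hb => rw [add_dotProduct, ha, hb, add_zero]
      | smul r a _ ha => rw [smul_dotProduct, ha, smul_zero]
    have h5 := dotProduct_self_eq_zero.1 (h4 ((v y - v z0) - T (p y - p z0)))
    rw [map_sub] at h5
    have h6 : v y = (v y - v z0 - (T (p y) - T (p z0))) + (T (p y) + (v z0 - T (p z0))) := by abel
    rw [h5, zero_add] at h6
    exact h6

/-! ### General position -/

variable {V W : Type} {μ : ℕ}

theorem pos_comp {Y Z : Type} {d : ℕ} {q : Y → Fin d → ℝ} (hq : Pos q) {i : Z → Y}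
    (hi : Function.Injective i) : Pos (fun z => q (i z)) := by
  intro n x hn hx
  exact hq n (fun j => i (x j)) hn (hi.comp hx)

/-- points in general position span the space -/
theorem pos_span {Y : Type} {d : ℕ} {q : Y → Fin d → ℝ} (hq : Pos q)
    (hY : d + 1 ≤ Nat.card Y) : ∃ (z0 : Y) (z : Fin d → Y),
      LinearIndependent ℝ (fun i => q (z i) - q z0) := by
  classical
  have hfin : Finite Y := Nat.finite_of_card_ne_zero (by omega)
  have := Fintype.ofFinite Y
  have hc : Fintype.card (Fin (d + 1)) ≤ Fintype.card Y := by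
    rw [Nat.card_eq_fintype_card] at hY
    simpa using hY
  obtain ⟨f⟩ := Function.Embedding.nonempty_of_card_le hc
  have h1 := hq (d + 1) f le_rfl f.injective
  rw [affineIndependent_iff_linearIndependent_vsub ℝ _ 0] at h1
  refine ⟨f 0, fun i => f i.succ, ?_⟩
  exact h1.comp (fun i : Fin d => (⟨i.succ, Fin.succ_ne_zero i⟩ : {x : Fin (d + 1) // x ≠ 0}))
    (fun i j hij => Fin.succ_injective _ (congrArg Subtype.val hij))

/-- an affine function vanishing at points in general position is zero -/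
theorem pos_affine {Y : Type} {d : ℕ} {q : Y → Fin d → ℝ} (hq : Pos q)
    (hY : d + 1 ≤ Nat.card Y) {γ : ℝ} {g : Fin d → ℝ} (h : ∀ y, γ + g ⬝ᵥ q y = 0) :
    γ = 0 ∧ g = 0 := by
  classical
  obtain ⟨z0, z, hl⟩ := pos_span hq hY
  have h1 : g = 0 := by
    rcases Nat.eq_zero_or_pos d with hd | hd
    · subst hd
      exact Subsingleton.elim _ _
    have : Nonempty (Fin d) := ⟨⟨0, hd⟩⟩
    let bs := basisOfLinearIndependentOfCardEqFinrank hl (by simp)
    have hbs : ∀ i, bs i = q (z i) - q z0 := by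
      intro i
      simp [bs]
    have hspan : ∀ x : Fin d → ℝ, x ∈ Submodule.span ℝ (Set.range fun i => q (z i) - q z0) := by
      intro x
      have h1 := bs.span_eq
      have h2 : Set.range bs = Set.range fun i => q (z i) - q z0 := by
        congr 1
        funext i
        exact hbs i
      rw [h2] at h1
      rw [h1]
      exact Submodule.mem_top
    have h4 : ∀ x : Fin d → ℝ, x ⬝ᵥ g = 0 := by
      intro x
      have hx := hspan x
      induction hx using Submodule.span_induction with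
      | mem x hx =>
        obtain ⟨i, rfl⟩ := hx
        have g1 := h (z i)
        have g2 := h z0
        rw [dotProduct_comm, dotProduct_sub]
        linarith
      | zero => simp
      | add a b _ _ ha hb => rw [add_dotProduct, ha, hb, add_zero]
      | smul r a _ ha => rw [smul_dotProduct, ha, smul_zero]
    exact dotProduct_self_eq_zero.1 (h4 g)
  refine ⟨?_, h1⟩
  have := h z0
  rw [h1, zero_dotProduct, add_zero] at this
  exact this

/-- the rigidity in the hyperplane -/
theorem pos_rigid {Y : Type} {d : ℕ} {q : Y → Fin d → ℝ} (hq : Pos q)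
    (hY : d + 1 ≤ Nat.card Y) {v : Y → Fin d → ℝ}
    (hv : ∀ a b, (q a - q b) ⬝ᵥ (v a - v b) = 0) :
    ∃ (A : Matrix (Fin d) (Fin d) ℝ) (b : Fin d → ℝ), Aᵀ = -A ∧ ∀ y, v y = A *ᵥ q y + b := by
  obtain ⟨z0, z, hl⟩ := pos_span hq hY
  obtain ⟨A, b, hA, hb⟩ := span_rigid (U := Set.univ) (fun a _ b _ => hv a b) z0 trivial z
    (fun _ => trivial) hl
  exact ⟨A, b, hA, fun y => hb y trivial⟩

/-- a trivial motion of the space which vanishes at the points is zero -/
theorem pos_triv {Y : Type} {d : ℕ} {q : Y → Fin d → ℝ} (hq : Pos q)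
    (hY : d + 1 ≤ Nat.card Y) {A : Matrix (Fin d) (Fin d) ℝ} {c : Fin d → ℝ} (hA : Aᵀ = -A)
    (h : ∀ y, A *ᵥ q y + c = 0) : A = 0 ∧ c = 0 := by
  classical
  have hfin : Finite Y := Nat.finite_of_card_ne_zero (by omega)
  have := Fintype.ofFinite Y
  refine triv_zero hq (S := Finset.univ) ?_ hA (fun v _ => h v)
  rw [Nat.card_eq_fintype_card] at hY
  rw [Finset.card_univ]
  omega

/-! ### Flat placements -/

/-- the flat placement with the slopes `β` -/
def fl (β : V → Fin μ → ℝ) (q : V × W → Fin μ → ℝ) : V × W → Fin (μ + 1) → ℝ :=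
  fun x => vecCons (β x.1 ⬝ᵥ q x) (q x)

theorem fl_zero (β : V → Fin μ → ℝ) (q : V × W → Fin μ → ℝ) (x : V × W) :
    fl β q x 0 = β x.1 ⬝ᵥ q x := rfl

theorem fl_tail (β : V → Fin μ → ℝ) (q : V × W → Fin μ → ℝ) (x : V × W) :
    vecTail (fl β q x) = q x := rfl

theorem fl_aff (β : V → Fin μ → ℝ) : Aff (fun q : V × W → Fin μ → ℝ => fl β q) := by
  intro p0 p1 s
  funext x
  refine vec_ext ?_ rfl
  simp only [fl_zero, Pi.add_apply, Pi.smul_apply, Pi.sub_apply, dotProduct_add, dotProduct_smul,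
    dotProduct_sub, smul_eq_mul]

/-- the pairs of points of one fibre -/
theorem fl_pair (β : V → Fin μ → ℝ) (q : V × W → Fin μ → ℝ) (v : V × W → Fin (μ + 1) → ℝ) (g : V)
    (h h' : W) : (fl β q (g, h) - fl β q (g, h')) ⬝ᵥ (v (g, h) - v (g, h')) =
      (q (g, h) - q (g, h')) ⬝ᵥ ((vecTail (v (g, h)) + v (g, h) 0 • β g) -
        (vecTail (v (g, h')) + v (g, h') 0 • β g)) := by
  rw [dot_split]
  simp only [tail_sub, fl_tail, Pi.sub_apply, fl_zero, dotProduct_sub, dotProduct_add,
    dotProduct_smul, sub_dotProduct, smul_eq_mul]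
  rw [dotProduct_comm (β g) (q (g, h)), dotProduct_comm (β g) (q (g, h'))]
  ring

/-- motions of one fibre -/
theorem fl_motion (hW : μ + 1 ≤ Nat.card W) {β : V → Fin μ → ℝ} {q : V × W → Fin μ → ℝ}
    (hq : Pos q) {v : V × W → Fin (μ + 1) → ℝ} {g : V}
    (hv : ∀ h h', (fl β q (g, h) - fl β q (g, h')) ⬝ᵥ (v (g, h) - v (g, h')) = 0) :
    ∃ (A : Matrix (Fin μ) (Fin μ) ℝ) (c : Fin μ → ℝ), Aᵀ = -A ∧
      ∀ h, vecTail (v (g, h)) + v (g, h) 0 • β g = A *ᵥ q (g, h) + c := by
  have h1 : Pos (fun h => q (g, h)) := pos_comp hq (fun a b hab => congrArg Prod.snd hab)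
  exact pos_rigid h1 hW (fun a b => by rw [← fl_pair]; exact hv a b)

/-- a trivial motion which vanishes at the points of one fibre is zero -/
theorem fl_triv (hW : μ + 1 ≤ Nat.card W) {β : V → Fin μ → ℝ} {q : V × W → Fin μ → ℝ}
    (hq : Pos q) {A : Matrix (Fin (μ + 1)) (Fin (μ + 1)) ℝ} {c : Fin (μ + 1) → ℝ} (hA : Aᵀ = -A)
    {g : V} (h : ∀ h, A *ᵥ fl β q (g, h) + c = 0) : A = 0 ∧ c = 0 := by
  have h1 : Pos (fun h => q (g, h)) := pos_comp hq (fun a b hab => congrArg Prod.snd hab)
  obtain ⟨z0, z, hl⟩ := pos_span h1 hW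
  have h2 : LinearIndependent ℝ (fun i => fl β q (g, z i) - fl β q (g, z0)) := by
    let φ : (Fin (μ + 1) → ℝ) →ₗ[ℝ] (Fin μ → ℝ) :=
      { toFun := fun x => vecTail x
        map_add' := fun _ _ => rfl
        map_smul' := fun _ _ => rfl }
    exact LinearIndependent.of_comp φ hl
  have h3 : A = 0 := by
    refine skew_zero hA (Submodule.span ℝ (Set.range fun i => fl β q (g, z i) - fl β q (g, z0))) ?_ ?_
    · rw [finrank_span_eq_card h2]
      simp
    · intro w hw
      induction hw using Submodule.span_induction with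
      | mem w hw =>
        obtain ⟨i, rfl⟩ := hw
        simp only [Matrix.mulVec_sub]
        have e1 := h (z i)
        have e2 := h z0
        rw [← eq_neg_iff_add_eq_zero] at e1 e2
        rw [e1, e2, sub_self]
      | zero => simp
      | add a b _ _ ha hb => rw [Matrix.mulVec_add, ha, hb, add_zero]
      | smul r a _ ha => rw [Matrix.mulVec_smul, ha, smul_zero]
  refine ⟨h3, ?_⟩
  have e2 := h z0
  rw [h3, zero_mulVec, zero_add] at e2
  exact e2

/-- two different fibres with all pairs of points joined are rigid, together with all other points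
joined to them -/
theorem fl_rigid (hW : μ + 1 ≤ Nat.card W) {β : V → Fin μ → ℝ} {q : V × W → Fin μ → ℝ}
    (hq : Pos q) {v : V × W → Fin (μ + 1) → ℝ} {U : Set (V × W)}
    (hv : ∀ a ∈ U, ∀ b ∈ U, (fl β q a - fl β q b) ⬝ᵥ (v a - v b) = 0) {x y : V}
    (hx : ∀ h, (x, h) ∈ U) (hy : ∀ h, (y, h) ∈ U) (hβ : β x ≠ β y) :
    ∃ (A : Matrix (Fin (μ + 1)) (Fin (μ + 1)) ℝ) (b : Fin (μ + 1) → ℝ), Aᵀ = -A ∧
      ∀ z ∈ U, v z = A *ᵥ fl β q z + b := by
  have h1 : Pos (fun h => q (x, h)) := pos_comp hq (fun a b hab => congrArg Prod.snd hab)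
  have h1' : Pos (fun h => q (y, h)) := pos_comp hq (fun a b hab => congrArg Prod.snd hab)
  obtain ⟨z0, z, hl⟩ := pos_span h1 hW
  obtain ⟨h0, hh0⟩ : ∃ h, (β y - β x) ⬝ᵥ q (y, h) ≠ 0 := by
    by_contra hcon
    push Not at hcon
    have := (pos_affine h1' hW (γ := 0) (g := β y - β x) (fun h => by rw [zero_add]; exact hcon h)).2
    exact hβ (sub_eq_zero.1 this).symm
  refine span_rigid hv (x, z0) (hx z0) (Fin.cons (y, h0) (fun i => (x, z i))) ?_ ?_
  · intro i
    refine Fin.cases ?_ (fun i => ?_) i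
    · exact hy h0
    · exact hx (z i)
  · rw [Fintype.linearIndependent_iff]
    intro s hs
    rw [Fin.sum_univ_succ] at hs
    simp only [Fin.cons_zero, Fin.cons_succ] at hs
    have e0 := congrFun hs 0
    have e1 : vecTail (s 0 • (fl β q (y, h0) - fl β q (x, z0)) +
        ∑ i, s i.succ • (fl β q (x, z i) - fl β q (x, z0))) = 0 := by
      rw [hs]
      rfl
    have e2 : s 0 • (q (y, h0) - q (x, z0)) + ∑ i, s i.succ • (q (x, z i) - q (x, z0)) = 0 := by
      rw [← e1]
      funext j
      simp only [vecTail, Function.comp, Pi.add_apply, Pi.smul_apply, Finset.sum_apply,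
        Pi.sub_apply, smul_eq_mul]
      rfl
    simp only [Pi.add_apply, Pi.smul_apply, Finset.sum_apply, Pi.sub_apply, smul_eq_mul, fl_zero,
      Pi.zero_apply] at e0
    have e3 := congrArg (fun w => β x ⬝ᵥ w) e2
    simp only [dotProduct_add, dotProduct_smul, dotProduct_sub, dotProduct_sum, smul_eq_mul,
      dotProduct_zero] at e3
    have e4 : s 0 * ((β y - β x) ⬝ᵥ q (y, h0)) = 0 := by
      rw [sub_dotProduct]
      linarith
    have e5 : s 0 = 0 := (mul_eq_zero.1 e4).resolve_right hh0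
    rw [e5, zero_smul, zero_add] at e2
    have e6 := Fintype.linearIndependent_iff.1 hl _ e2
    intro i
    exact Fin.cases e5 e6 i

end Pool.Agent.T2h34.RK
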