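import Mathlib
import Pool.Agent.T2h34.RK.Flat

set_option autoImplicit false
set_option linter.unusedSectionVars false

/-! Merging of classes. -/

namespace Pool.Agent.T2h34.RK

open Matrix Pool.Agent.H283R2.DR Pool.Agent.H283R2.DR.TA Pool.Agent.H789R5 Pool.Agent.T2h34.CP

variable {V W : Type} {μ : ℕ}

open Classical in
/-- merging the set `C` to one class -/
noncomputable def mrg (C : Set V) (c0 : ℕ) (r : V → ℕ) : V → ℕ := fun x => if x ∈ C then c0 else r x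

theorem mrg_of {C : Set V} {c0 : ℕ} {r : V → ℕ} {x : V} (hx : x ∈ C) : mrg C c0 r x = c0 :=
  if_pos hx

theorem mrg_not {C : Set V} {c0 : ℕ} {r : V → ℕ} {x : V} (hx : x ∉ C) : mrg C c0 r x = r x :=
  if_neg hx

/-- bodies contain at least two fibres -/
def Bod (r : V → ℕ) (B : Set V) : Prop := ∀ x ∈ B, ∃ y, y ≠ x ∧ r y = r x

section comb

variable {r : V → ℕ} {B C : Set V} {x0 y0 : V}

theorem mrg_eq (hC : ∀ x y, r x = r y → x ∈ C → y ∈ C) (hx0 : x0 ∈ C) {x y : V}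
    (h : mrg C (r x0) r x = mrg C (r x0) r y) : (x ∈ C ∧ y ∈ C) ∨ (x ∉ C ∧ y ∉ C ∧ r x = r y) := by
  by_cases hx : x ∈ C
  · by_cases hy : y ∈ C
    · exact Or.inl ⟨hx, hy⟩
    · rw [mrg_of hx, mrg_not hy] at h
      exact absurd (hC _ _ h hx0) hy
  · by_cases hy : y ∈ C
    · rw [mrg_not hx, mrg_of hy] at h
      exact absurd (hC _ _ h.symm hx0) hx
    · rw [mrg_not hx, mrg_not hy] at h
      exact Or.inr ⟨hx, hy, h⟩

theorem mrg_ref (hC : ∀ x y, r x = r y → x ∈ C → y ∈ C) {x y : V} (h : r x = r y) :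
    mrg C (r x0) r x = mrg C (r x0) r y := by
  by_cases hx : x ∈ C
  · rw [mrg_of hx, mrg_of (hC _ _ h hx)]
  · rw [mrg_not hx, mrg_not (fun hy => hx (hC _ _ h.symm hy)), h]

theorem mrg_inv (hI : Inv r B) (hC : ∀ x y, r x = r y → x ∈ C → y ∈ C) (hx0 : x0 ∈ C) :
    Inv (mrg C (r x0) r) (B ∪ C) := by
  intro x hx y hy
  rw [Set.mem_union, not_or] at hx
  rcases mrg_eq hC hx0 hy with ⟨_, h2⟩ | ⟨_, _, h3⟩
  · exact absurd h2 hx.2
  · exact hI x hx.1 y h3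

theorem mrg_bod (hB : Bod r B) (hC : ∀ x y, r x = r y → x ∈ C → y ∈ C) (hx0 : x0 ∈ C)
    (hy0 : y0 ∈ C) (h0 : y0 ≠ x0) : Bod (mrg C (r x0) r) (B ∪ C) := by
  intro x hx
  by_cases hxC : x ∈ C
  · by_cases h : x = x0
    · exact ⟨y0, by rw [h]; exact h0, by rw [mrg_of hy0, mrg_of hxC]⟩
    · exact ⟨x0, Ne.symm h, by rw [mrg_of hx0, mrg_of hxC]⟩
  · rcases hx with hx | hx
    · obtain ⟨y, h1, h2⟩ := hB x hx
      exact ⟨y, h1, mrg_ref hC h2⟩
    · exact absurd hx hxC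

theorem mrg_cls [Finite V] (hC : ∀ x y, r x = r y → x ∈ C → y ∈ C) (hx0 : x0 ∈ C)
    (hy0 : y0 ∈ C) (h0 : r y0 ≠ r x0) : cls (mrg C (r x0) r) < cls r := by
  refine Set.ncard_lt_ncard ?_ (Set.finite_range r)
  refine ⟨?_, ?_⟩
  · rintro _ ⟨x, rfl⟩
    by_cases hx : x ∈ C
    · exact ⟨x0, (mrg_of hx).symm⟩
    · exact ⟨x, (mrg_not hx).symm⟩
  · intro h
    obtain ⟨z, hz⟩ := h ⟨y0, rfl⟩
    by_cases hzC : z ∈ C
    · rw [mrg_of hzC] at hz
      exact h0 hz.symm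
    · rw [mrg_not hzC] at hz
      exact hzC (hC _ _ hz.symm hy0)

theorem mrg_pr [Finite V] (G : SimpleGraph V) (hC : ∀ x y, r x = r y → x ∈ C → y ∈ C) :
    pr G (mrg C (r x0) r) ≤ pr G r := by
  refine Set.ncard_le_ncard ?_ (Set.toFinite _)
  rintro ⟨x, y⟩ ⟨h1, h2⟩
  exact ⟨h1, fun h => h2 (mrg_ref hC h)⟩

theorem mrg_sing {f : V → ℕ} (hf : ∀ x y, mrg C (r x0) r x = mrg C (r x0) r y → f x = f y)
    (hx0 : x0 ∈ C) (hy0 : y0 ∈ C) (h0 : y0 ≠ x0) : sing (B ∪ C) f = sing B f := by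
  have : {x | x ∉ B ∪ C ∧ ∀ y, f y = f x → y = x} = {x | x ∉ B ∧ ∀ y, f y = f x → y = x} := by
    ext x
    constructor
    · rintro ⟨h1, h2⟩
      exact ⟨fun h => h1 (Or.inl h), h2⟩
    · rintro ⟨h1, h2⟩
      refine ⟨?_, h2⟩
      rintro (h | h)
      · exact h1 h
      · have e1 := h2 x0 (hf _ _ (by rw [mrg_of hx0, mrg_of h]))
        have e2 := h2 y0 (hf _ _ (by rw [mrg_of hy0, mrg_of h]))
        exact h0 (e2.trans e1.symm)
  unfold sing
  rw [this]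

theorem mrg_val (n k D : ℕ) (G : SimpleGraph V) {f : V → ℕ}
    (hf : ∀ x y, mrg C (r x0) r x = mrg C (r x0) r y → f x = f y)
    (hx0 : x0 ∈ C) (hy0 : y0 ∈ C) (h0 : y0 ≠ x0) :
    val n k D G (B ∪ C) f = val n k D G B f := by
  unfold val
  rw [mrg_sing hf hx0 hy0 h0]

end comb

/-! ### Substructures -/

/-- the restriction to the fibres of a subset -/
def res {E : Type} (p : V → Prop) (q : V × W → E) : {x // p x} × W → E := fun z => q (z.1.1, z.2)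

theorem res_surj {E : Type} [Zero E] (p : V → Prop) (q' : {x // p x} × W → E) :
    ∃ q : V × W → E, res p q = q' := by
  classical
  refine ⟨fun z => if h : p z.1 then q' (⟨z.1, h⟩, z.2) else 0, ?_⟩
  funext ⟨⟨x, hx⟩, h⟩
  exact dif_pos hx

theorem res_good (p : V → Prop) {P : ({x // p x} × W → Fin μ → ℝ) → Prop} (hP : Good P) :
    Good (fun q : V × W → Fin μ → ℝ => P (res p q)) := by
  refine Aff.good hP (F := fun q : V × W → Fin μ → ℝ => res p q) ?_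
  intro p0 p1 s
  rfl

theorem res_exists (p : V → Prop) {P : ({x // p x} × W → Fin μ → ℝ) → Prop} (hP : ∃ q, P q) :
    ∃ q : V × W → Fin μ → ℝ, P (res p q) := by
  obtain ⟨q', hq'⟩ := hP
  obtain ⟨q, rfl⟩ := res_surj p q'
  exact ⟨q, hq'⟩

/-- the structure induced on a subset -/
abbrev SG (G : SimpleGraph V) (p : V → Prop) : SimpleGraph {x // p x} :=
  G.comap (Subtype.val : {x // p x} → V)

theorem res_mot (G : SimpleGraph V) (p : V → Prop) (r : V → ℕ) (B : Set V) (β : V → Fin μ → ℝ)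
    (q : V × W → Fin μ → ℝ) {v : V × W → Fin (μ + 1) → ℝ}
    (hv : v ∈ Mot (XG G (⊤ : SimpleGraph W) r B) (fl β q)) :
    res p v ∈ Mot (XG (SG G p) (⊤ : SimpleGraph W) (fun x => r x.1) (Subtype.val ⁻¹' B))
      (fl (fun x => β x.1) (res p q)) := by
  rw [mem_mot] at *
  rintro ⟨⟨x, hx⟩, h⟩ ⟨⟨y, hy⟩, h'⟩ hadj
  refine hv (x, h) (y, h') ?_
  rcases hadj with ⟨h1, h2⟩ | ⟨h1, h2⟩ | ⟨h1, h2, h3, h4⟩
  · exact Or.inl ⟨congrArg Subtype.val h1, h2⟩
  · exact Or.inr (Or.inl ⟨h1, h2⟩)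
  · refine Or.inr (Or.inr ⟨?_, h2, h3, h4⟩)
    intro h5
    apply h1
    rw [Prod.ext_iff] at h5
    exact Prod.ext (Subtype.ext h5.1) h5.2

/-- the restriction as a linear map -/
def resL (p : V → Prop) (W : Type) (μ : ℕ) :
    (V × W → Fin (μ + 1) → ℝ) →ₗ[ℝ] ({x // p x} × W → Fin (μ + 1) → ℝ) where
  toFun v := res p v
  map_add' _ _ := rfl
  map_smul' _ _ := rfl

theorem res_split [Finite V] [Finite W] (G : SimpleGraph V) (p : V → Prop) (r : V → ℕ) (B : Set V)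
    (β : V → Fin μ → ℝ) (q : V × W → Fin μ → ℝ) {a b : ℕ}
    (ha : mo (XG (SG G p) (⊤ : SimpleGraph W) (fun x => r x.1) (Subtype.val ⁻¹' B))
      (fl (fun x => β x.1) (res p q)) ≤ a)
    (hb : Module.finrank ℝ (Mot (XG G (⊤ : SimpleGraph W) r B) (fl β q) ⊓
      LinearMap.ker (resL p W μ) : Submodule ℝ (V × W → Fin (μ + 1) → ℝ)) ≤ b) :
    mo (XG G (⊤ : SimpleGraph W) r B) (fl β q) ≤ a + b := by
  have := Fintype.ofFinite V
  have := Fintype.ofFinite W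
  refine dim_le_add (resL p W μ) (le_trans (Submodule.finrank_mono ?_) ha) hb
  rintro _ ⟨v, hv, rfl⟩
  exact res_mot G p r B β q hv

/-! ### The claim -/

/-- the claim: a flat placement with few motions -/
def MM (n k D : ℕ) (W : Type) {V : Type} {μ : ℕ} (G : SimpleGraph V) (r : V → ℕ) (B : Set V)
    (β : V → Fin μ → ℝ) : Prop :=
  ∃ f : V → ℕ, (∀ x y, r x = r y → f x = f y) ∧ ∃ q : V × W → Fin μ → ℝ,
    2 * (mo (XG G (⊤ : SimpleGraph W) r B) (fl β q) : ℤ) ≤ val n k D G B f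

theorem fl_mo_good [Finite V] [Finite W] (X : SimpleGraph (V × W)) (β : V → Fin μ → ℝ) (m : ℕ) :
    Good (fun q : V × W → Fin μ → ℝ => mo X (fl β q) ≤ m) :=
  Aff.good (mo_good X m) (fl_aff β)

/-- few motions: the framework is rigid -/
theorem rigid_of_mo [Finite V] [Nonempty V] [Finite W] (hW : μ + 1 ≤ Nat.card W)
    (X : SimpleGraph (V × W)) (β : V → Fin μ → ℝ)
    (h : ∃ q : V × W → Fin μ → ℝ, mo X (fl β q) ≤ (μ + 1) * (μ + 1 + 1) / 2) :
    ∃ q : V × W → Fin μ → ℝ, InfRigid X (fl β q) := by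
  have := Fintype.ofFinite V
  have := Fintype.ofFinite W
  obtain ⟨q, h1, h2⟩ := good_and_exists (fl_mo_good X β _) (pos_good (V × W) μ) h
    (pos_exists (V × W) μ)
  refine ⟨q, ?_⟩
  rw [infRigid_iff]
  have hinj : Function.Injective (triv (fl β q)) := by
    rw [injective_iff_map_eq_zero]
    rintro ⟨⟨A, hA⟩, c⟩ h0
    obtain ⟨g⟩ := ‹Nonempty V›
    obtain ⟨e1, e2⟩ := fl_triv hW h2 (A := A) (c := c) hA (g := g) (fun y => congrFun h0 (g, y))
    exact Prod.ext (Subtype.ext e1) e2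
  have h3 : Module.finrank ℝ (LinearMap.range (triv (fl β q))) = (μ + 1) * (μ + 1 + 1) / 2 := by
    rw [LinearMap.finrank_range_of_inj hinj, finrank_triv]
  exact (Submodule.eq_of_le_of_finrank_le (range_triv_le X _) (by rw [h3]; exact h1)).ge

theorem fl_inf_good [Finite V] [Finite W] (X : SimpleGraph (V × W)) (β : V → Fin μ → ℝ) :
    Good (fun q : V × W → Fin μ → ℝ => InfRigid X (fl β q)) :=
  Aff.good (infRigid_good X) (fl_aff β)

/-- **The merging step.** -/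
theorem merge_step [Finite V] [Finite W] {n k D : ℕ} {G : SimpleGraph V} {r : V → ℕ} {B C : Set V}
    {β : V → Fin μ → ℝ} (hC : ∀ x y, r x = r y → x ∈ C → y ∈ C) {x0 y0 : V} (hx0 : x0 ∈ C)
    (hy0 : y0 ∈ C) (h0 : r y0 ≠ r x0)
    (hR : ∃ qC : {x // x ∈ C} × W → Fin μ → ℝ,
      InfRigid (XG (SG G (fun x => x ∈ C)) (⊤ : SimpleGraph W) (fun x => r x.1)
        (Subtype.val ⁻¹' B)) (fl (fun x => β x.1) qC))
    (hM : MM n k D W G (mrg C (r x0) r) (B ∪ C) β) : MM n k D W G r B β := by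
  have := Fintype.ofFinite V
  have := Fintype.ofFinite W
  obtain ⟨f, hf, q0, hq0⟩ := hM
  refine ⟨f, fun x y hxy => hf x y (mrg_ref hC hxy), ?_⟩
  obtain ⟨q, h1, h2⟩ := good_and_exists
    (fl_mo_good (XG G (⊤ : SimpleGraph W) (mrg C (r x0) r) (B ∪ C)) β
      (mo (XG G (⊤ : SimpleGraph W) (mrg C (r x0) r) (B ∪ C)) (fl β q0)))
    (res_good (fun x => x ∈ C) (fl_inf_good (XG (SG G (fun x => x ∈ C))
      (⊤ : SimpleGraph W) (fun x => r x.1) (Subtype.val ⁻¹' B)) (fun x => β x.1)))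
    ⟨q0, le_rfl⟩ (res_exists (fun x => x ∈ C) hR)
  refine ⟨q, ?_⟩
  have hne : y0 ≠ x0 := fun h => h0 (by rw [h])
  rw [← mrg_val n k D G hf hx0 hy0 hne]
  refine le_trans ?_ hq0
  have h3 : mo (XG G (⊤ : SimpleGraph W) r B) (fl β q) ≤
      mo (XG G (⊤ : SimpleGraph W) (mrg C (r x0) r) (B ∪ C)) (fl β q) := by
    apply Submodule.finrank_mono
    intro v hv
    have hv' := res_mot G (fun x => x ∈ C) r B β q hv
    rw [mem_mot] at hv hv' ⊢
    obtain ⟨A, b, hA, hb⟩ := h2 _ hv'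
    rintro z z' (⟨e1, e2⟩ | ⟨e1, e2⟩ | ⟨e1, e2, e3, e4⟩)
    · exact hv z z' (Or.inl ⟨e1, e2⟩)
    · exact hv z z' (Or.inr (Or.inl ⟨e1, e2⟩))
    · rcases mrg_eq hC hx0 e4 with ⟨e5, e6⟩ | ⟨e5, e6, e7⟩
      · have a1 := hb (⟨z.1, e5⟩, z.2)
        have a2 := hb (⟨z'.1, e6⟩, z'.2)
        have a3 : v z = A *ᵥ fl β q z + b := a1
        have a4 : v z' = A *ᵥ fl β q z' + b := a2
        rw [a3, a4]
        exact triv_pair hA b _ _
      · refine hv z z' (Or.inr (Or.inr ⟨e1, ?_, ?_, e7⟩))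
        · exact e2.resolve_right e5
        · exact e3.resolve_right e6
  have h4 := h3.trans h1
  exact_mod_cast Nat.mul_le_mul_left 2 h4

end Pool.Agent.T2h34.RK
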