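import Mathlib
import Pool.Agent.T2h34.RK.Mrg

set_option autoImplicit false
set_option linter.unusedSectionVars false

/-! Removal of plates of degree at most one and of isolated bodies. -/

namespace Pool.Agent.T2h34.RK

open Matrix Pool.Agent.H283R2.DR Pool.Agent.H283R2.DR.TA Pool.Agent.H789R5 Pool.Agent.T2h34.CP

variable {V W : Type} {μ : ℕ}

/-- the coordinates of the motion of a plate -/
def plL (W : Type) (β : V → Fin μ → ℝ) (g : V) :
    (V × W → Fin (μ + 1) → ℝ) →ₗ[ℝ] ((W → ℝ) × (W → Fin μ → ℝ)) where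
  toFun v := (fun h => v (g, h) 0, fun h => vecTail (v (g, h)) + v (g, h) 0 • β g)
  map_add' v v' := by
    refine Prod.ext rfl ?_
    funext h j
    simp only [Pi.add_apply, vecTail, Function.comp, Pi.smul_apply, smul_eq_mul, Prod.snd_add]
    ring
  map_smul' c v := by
    refine Prod.ext rfl ?_
    funext h j
    simp only [Pi.smul_apply, vecTail, Function.comp, Pi.add_apply, smul_eq_mul, Prod.smul_snd,
      RingHom.id_apply]
    ring

/-- a motion which is zero outside the plate `g` and has the coordinates zero is zero -/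
theorem pl_zero {β : V → Fin μ → ℝ} {g : V} {v : V × W → Fin (μ + 1) → ℝ}
    (h1 : resL (fun x => x ≠ g) W μ v = 0) (h2 : plL W β g v = 0) : v = 0 := by
  funext ⟨x, h⟩
  by_cases hx : x = g
  · subst hx
    have e1 : v (x, h) 0 = 0 := congrFun (congrArg Prod.fst h2) h
    have e2 : vecTail (v (x, h)) + v (x, h) 0 • β x = 0 := congrFun (congrArg Prod.snd h2) h
    rw [e1, zero_smul, add_zero] at e2
    exact vec_ext e1 e2
  · exact congrFun h1 (⟨x, hx⟩, h)

theorem fib_adj (G : SimpleGraph V) (r : V → ℕ) (B : Set V) (g : V) {h h' : W} (hh : h ≠ h') :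
    (XG G (⊤ : SimpleGraph W) r B).Adj (g, h) (g, h') := Or.inl ⟨rfl, hh⟩

theorem fib_mot {G : SimpleGraph V} {r : V → ℕ} {B : Set V} {β : V → Fin μ → ℝ}
    {q : V × W → Fin μ → ℝ} {v : V × W → Fin (μ + 1) → ℝ}
    (hv : v ∈ Mot (XG G (⊤ : SimpleGraph W) r B) (fl β q)) (g : V) (h h' : W) :
    (fl β q (g, h) - fl β q (g, h')) ⬝ᵥ (v (g, h) - v (g, h')) = 0 := by
  rw [mem_mot] at hv
  by_cases hh : h = h'
  · rw [hh, sub_self, zero_dotProduct]
  · exact hv _ _ (fib_adj G r B g hh)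

variable [Finite V] [Finite W]

/-- plates of degree zero -/
theorem rem0 (hW : μ + 1 ≤ Nat.card W) (G : SimpleGraph V) (r : V → ℕ) (B : Set V)
    (β : V → Fin μ → ℝ) (g : V) {q : V × W → Fin μ → ℝ} (hq : Pos q) :
    Module.finrank ℝ (Mot (XG G (⊤ : SimpleGraph W) r B) (fl β q) ⊓
      LinearMap.ker (resL (fun x => x ≠ g) W μ) : Submodule ℝ (V × W → Fin (μ + 1) → ℝ)) ≤
        Nat.card W + μ * (μ + 1) / 2 := by
  have := Fintype.ofFinite V
  have := Fintype.ofFinite W
  have h1 : Module.finrank ℝ (Mot (XG G (⊤ : SimpleGraph W) r B) (fl β q) ⊓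
      LinearMap.ker (resL (fun x => x ≠ g) W μ) : Submodule ℝ (V × W → Fin (μ + 1) → ℝ)) ≤
      Module.finrank ℝ ((⊤ : Submodule ℝ (W → ℝ)).prod
        (LinearMap.range (triv (fun h => q (g, h))))) := by
    refine dim_le_of_inj (plL W β g) _ ?_ ?_
    · rintro v ⟨hv1, hv2⟩
      refine ⟨trivial, ?_⟩
      obtain ⟨A, c, hA, hc⟩ := fl_motion hW hq (fun h h' => fib_mot hv1 g h h')
      exact ⟨(⟨A, hA⟩, c), funext fun h => (hc h).symm⟩
    · rintro v ⟨hv1, hv2⟩ h0
      exact pl_zero hv2 h0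
  refine h1.trans ?_
  rw [dim_prod_eq, finrank_top, Module.finrank_fintype_fun_eq_card, ← Nat.card_eq_fintype_card]
  have h2 : Module.finrank ℝ (LinearMap.range (triv (fun h => q (g, h)))) ≤ μ * (μ + 1) / 2 := by
    refine (LinearMap.finrank_range_le _).trans ?_
    rw [finrank_triv]
  omega

/-- plates with a neighbour -/
theorem rem1 (hW : μ + 1 ≤ Nat.card W) (G : SimpleGraph V) (r : V → ℕ) (B : Set V)
    (β : V → Fin μ → ℝ) (g g1 : V) (hg : G.Adj g g1) {q : V × W → Fin μ → ℝ} (hq : Pos q)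
    (h1 : ∀ h, (β g1 - β g) ⬝ᵥ q (g1, h) ≠ 0) :
    Module.finrank ℝ (Mot (XG G (⊤ : SimpleGraph W) r B) (fl β q) ⊓
      LinearMap.ker (resL (fun x => x ≠ g) W μ) : Submodule ℝ (V × W → Fin (μ + 1) → ℝ)) ≤
        μ * (μ + 1) / 2 := by
  have := Fintype.ofFinite V
  have := Fintype.ofFinite W
  have h2 : Module.finrank ℝ (Mot (XG G (⊤ : SimpleGraph W) r B) (fl β q) ⊓
      LinearMap.ker (resL (fun x => x ≠ g) W μ) : Submodule ℝ (V × W → Fin (μ + 1) → ℝ)) ≤
      Module.finrank ℝ (LinearMap.range (triv (fun h => q (g, h)))) := by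
    refine dim_le_of_inj ((LinearMap.snd ℝ (W → ℝ) (W → Fin μ → ℝ)).comp (plL W β g)) _ ?_ ?_
    · rintro v ⟨hv1, hv2⟩
      obtain ⟨A, c, hA, hc⟩ := fl_motion hW hq (fun h h' => fib_mot hv1 g h h')
      exact ⟨(⟨A, hA⟩, c), funext fun h => (hc h).symm⟩
    · rintro v ⟨hv1, hv2⟩ h0
      have h0' : ∀ h, vecTail (v (g, h)) + v (g, h) 0 • β g = 0 := fun h => congrFun h0 h
      refine pl_zero hv2 (Prod.ext ?_ h0)
      funext h
      have hv1' := (mem_mot _ _ _).1 hv1 (g1, h) (g, h) (Or.inr (Or.inl ⟨rfl, hg.symm⟩))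
      have hz : v (g1, h) = 0 := congrFun hv2 (⟨g1, hg.ne.symm⟩, h)
      have e1 : vecTail (v (g, h)) = - (v (g, h) 0 • β g) := by
        rw [eq_neg_iff_add_eq_zero]
        exact h0' h
      rw [hz, dot_split] at hv1'
      simp only [tail_sub, fl_tail, e1, Pi.sub_apply, fl_zero, Pi.zero_apply] at hv1'
      have e2 : vecTail (0 : Fin (μ + 1) → ℝ) = 0 := rfl
      rw [e2] at hv1'
      have e3 : v (g, h) 0 * ((β g1 - β g) ⬝ᵥ q (g1, h)) = 0 := by
        simp only [zero_sub, neg_neg, dotProduct_smul, smul_eq_mul, sub_dotProduct] at hv1' ⊢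
        rw [dotProduct_comm (q (g1, h)) (β g), dotProduct_comm (q (g, h)) (β g)] at hv1'
        linarith
      exact (mul_eq_zero.1 e3).resolve_right (h1 h)
  refine h2.trans ((LinearMap.finrank_range_le _).trans ?_)
  rw [finrank_triv]

/-- isolated bodies -/
theorem remB (hW : μ + 1 ≤ Nat.card W) (G : SimpleGraph V) (r : V → ℕ) (B : Set V)
    (hB : Bod r B) {β : V → Fin μ → ℝ} (hβ : ∀ x y, x ≠ y → β x ≠ β y) (c : ℕ)
    (hc : ∀ x, r x = c → x ∈ B) (hc' : ∃ x, r x = c) {q : V × W → Fin μ → ℝ} (hq : Pos q) :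
    Module.finrank ℝ (Mot (XG G (⊤ : SimpleGraph W) r B) (fl β q) ⊓
      LinearMap.ker (resL (fun x => r x ≠ c) W μ) : Submodule ℝ (V × W → Fin (μ + 1) → ℝ)) ≤
        (μ + 1) * (μ + 1 + 1) / 2 := by
  classical
  have := Fintype.ofFinite V
  have := Fintype.ofFinite W
  let ψ : (Sk (μ + 1) × (Fin (μ + 1) → ℝ)) →ₗ[ℝ] (V × W → Fin (μ + 1) → ℝ) :=
    { toFun := fun τ z => if r z.1 = c then
        (τ.1 : Matrix (Fin (μ + 1)) (Fin (μ + 1)) ℝ) *ᵥ fl β q z + τ.2 else 0
      map_add' := by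
        intro τ τ'
        funext z
        by_cases hz : r z.1 = c
        · simp only [hz, if_true, Prod.fst_add, Prod.snd_add, Submodule.coe_add, add_mulVec,
            Pi.add_apply]
          abel
        · simp only [hz, if_false, Pi.add_apply, add_zero]
      map_smul' := by
        intro s τ
        funext z
        by_cases hz : r z.1 = c
        · simp only [hz, if_true, Prod.smul_fst, Prod.smul_snd, Submodule.coe_smul, smul_mulVec,
            Pi.smul_apply, RingHom.id_apply, smul_add]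
        · simp only [hz, if_false, Pi.smul_apply, smul_zero] }
  have h1 : (Mot (XG G (⊤ : SimpleGraph W) r B) (fl β q) ⊓
      LinearMap.ker (resL (fun x => r x ≠ c) W μ) : Submodule ℝ (V × W → Fin (μ + 1) → ℝ)) ≤
      LinearMap.range ψ := by
    rintro v ⟨hv1, hv2⟩
    rw [SetLike.mem_coe, mem_mot] at hv1
    obtain ⟨x, hx⟩ := hc'
    obtain ⟨y, hy1, hy2⟩ := hB x (hc x hx)
    obtain ⟨A, b, hA, hb⟩ := fl_rigid hW hq (v := v) (U := {z | r z.1 = c}) (by
      intro z hz z' hz'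
      by_cases hzz : z = z'
      · rw [hzz, sub_self, zero_dotProduct]
      · exact hv1 z z' (Or.inr (Or.inr ⟨hzz, hc _ hz, hc _ hz', by
          rw [Set.mem_ofPred_eq] at hz hz'
          rw [hz, hz']⟩))) (x := x) (y := y) (fun h => hx) (fun h => hy2.trans hx)
      (hβ _ _ hy1.symm)
    refine ⟨(⟨A, hA⟩, b), ?_⟩
    funext z
    by_cases hz : r z.1 = c
    · refine (if_pos hz).trans ?_
      exact (hb z hz).symm
    · refine (if_neg hz).trans ?_
      exact (congrFun hv2 (⟨z.1, hz⟩, z.2)).symm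
  refine (Submodule.finrank_mono h1).trans ((LinearMap.finrank_range_le _).trans ?_)
  rw [finrank_triv]

end Pool.Agent.T2h34.RK
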