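import Mathlib
import Pool.Agent.T2h34.RK.Mrg

set_option autoImplicit false
set_option linter.unusedSectionVars false

/-! Evaluation at generic points. -/

namespace Pool.Agent.T2h34.RK

open Matrix Pool.Agent.H283R2.DR Pool.Agent.H283R2.DR.TA Pool.Agent.H789R5 Pool.Agent.T2h34.CP

section gel

variable {E : Type} [AddCommGroup E] [Module ℝ E] [FiniteDimensional ℝ E] {W : Type} {μ : ℕ}

/-- the evaluations -/
def Ev (D : W → E →ₗ[ℝ] ℝ × (Fin μ → ℝ)) (y : W → Fin μ → ℝ) : E →ₗ[ℝ] (W → ℝ) where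
  toFun e h := (D h e).1 + (D h e).2 ⬝ᵥ y h
  map_add' e e' := by
    funext h
    simp only [map_add, Prod.fst_add, Prod.snd_add, add_dotProduct, Pi.add_apply]
    ring
  map_smul' c e := by
    funext h
    simp only [map_smul, Prod.smul_fst, Prod.smul_snd, smul_dotProduct, Pi.smul_apply, smul_eq_mul,
      RingHom.id_apply]
    ring

theorem Ev_apply (D : W → E →ₗ[ℝ] ℝ × (Fin μ → ℝ)) (y : W → Fin μ → ℝ) (e : E) (h : W) :
    Ev D y e h = (D h e).1 + (D h e).2 ⬝ᵥ y h := rfl

/-- the elements of `L` on which `D h` vanishes for `h` in `Z` -/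
def LZ (L : Submodule ℝ E) (D : W → E →ₗ[ℝ] ℝ × (Fin μ → ℝ)) (Z : Finset W) : Submodule ℝ E where
  carrier := {e | e ∈ L ∧ ∀ h ∈ Z, D h e = 0}
  zero_mem' := ⟨L.zero_mem, fun h _ => map_zero _⟩
  add_mem' := by
    rintro e e' ⟨h1, h2⟩ ⟨h3, h4⟩
    exact ⟨L.add_mem h1 h3, fun h hh => by rw [map_add, h2 h hh, h4 h hh, add_zero]⟩
  smul_mem' := by
    rintro c e ⟨h1, h2⟩
    exact ⟨L.smul_mem c h1, fun h hh => by rw [map_smul, h2 h hh, smul_zero]⟩

theorem mem_LZ {L : Submodule ℝ E} {D : W → E →ₗ[ℝ] ℝ × (Fin μ → ℝ)} {Z : Finset W} {e : E} :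
    e ∈ LZ L D Z ↔ e ∈ L ∧ ∀ h ∈ Z, D h e = 0 := Iff.rfl

variable [Fintype W]

/-- the genericity of the points of evaluation -/
def GE (L : Submodule ℝ E) (D : W → E →ₗ[ℝ] ℝ × (Fin μ → ℝ)) (y : W → Fin μ → ℝ) : Prop :=
  ∀ (Z : Finset W) (y' : W → Fin μ → ℝ),
    Module.finrank ℝ (LinearMap.ker ((Ev D y).domRestrict (LZ L D Z))) ≤
      Module.finrank ℝ (LinearMap.ker ((Ev D y').domRestrict (LZ L D Z)))

theorem Ev_aff (L : Submodule ℝ E) (D : W → E →ₗ[ℝ] ℝ × (Fin μ → ℝ)) (Z : Finset W) :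
    Aff (fun y => (Ev D y).domRestrict (LZ L D Z)) := by
  intro a b s
  refine LinearMap.ext fun e => funext fun h => ?_
  simp only [LinearMap.domRestrict_apply, LinearMap.add_apply, LinearMap.smul_apply,
    LinearMap.sub_apply, Pi.add_apply, Pi.smul_apply, Pi.sub_apply, Ev_apply, smul_eq_mul,
    dotProduct_add, dotProduct_smul, dotProduct_sub]
  ring

theorem ge_good (L : Submodule ℝ E) (D : W → E →ₗ[ℝ] ℝ × (Fin μ → ℝ)) :
    Good (fun y : W → Fin μ → ℝ => GE L D y) :=
  good_forall fun Z => good_minker (Ev_aff L D Z)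

theorem ge_exists (L : Submodule ℝ E) (D : W → E →ₗ[ℝ] ℝ × (Fin μ → ℝ)) :
    ∃ y : W → Fin μ → ℝ, GE L D y :=
  good_family (fun (Z : Finset W) (y : W → Fin μ → ℝ) => ∀ y' : W → Fin μ → ℝ,
    Module.finrank ℝ (LinearMap.ker ((Ev D y).domRestrict (LZ L D Z))) ≤
      Module.finrank ℝ (LinearMap.ker ((Ev D y').domRestrict (LZ L D Z))))
    (fun Z => good_minker (Ev_aff L D Z))
    (fun Z => exists_minker (fun y => (Ev D y).domRestrict (LZ L D Z)))

/-- **Evaluation at generic points.** -/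
theorem gel (L : Submodule ℝ E) (D : W → E →ₗ[ℝ] ℝ × (Fin μ → ℝ)) {y : W → Fin μ → ℝ}
    (hy : GE L D y) : ∃ Z : Finset W,
      Module.finrank ℝ (L ⊓ LinearMap.ker (Ev D y) : Submodule ℝ E) + Fintype.card W ≤
        Module.finrank ℝ (LZ L D Z) + Z.card := by
  classical
  set S : Submodule ℝ E := L ⊓ LinearMap.ker (Ev D y) with hS
  set Z : Finset W := Finset.univ.filter (fun h => ∀ e ∈ S, D h e = 0) with hZ
  refine ⟨Z, ?_⟩
  have hSK : S ≤ LZ L D Z := by
    intro e he
    refine ⟨he.1, fun h hh => ?_⟩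
    rw [hZ, Finset.mem_filter] at hh
    exact hh.2 e he
  have h1 := dim_split (LZ L D Z) (Ev D y)
  have h2 : LZ L D Z ⊓ LinearMap.ker (Ev D y) = S := by
    apply le_antisymm
    · rintro e ⟨he, he'⟩
      exact ⟨he.1, he'⟩
    · intro e he
      exact ⟨hSK he, he.2⟩
  rw [h2] at h1
  have h3 : ∀ h, h ∉ Z → (Pi.single h 1 : W → ℝ) ∈ (LZ L D Z).map (Ev D y) := by
    intro h hh
    have : ∃ e ∈ S, D h e ≠ 0 := by
      by_contra hcon
      push Not at hcon
      apply hh
      rw [hZ, Finset.mem_filter]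
      exact ⟨Finset.mem_univ _, hcon⟩
    obtain ⟨e, he, hne⟩ := this
    have hz : (D h e).1 + (D h e).2 ⬝ᵥ y h = 0 := congrFun (LinearMap.mem_ker.1 he.2) h
    set ξ := (D h e).2 with hξ
    have hξ0 : ξ ≠ 0 := by
      intro h0
      rw [h0, zero_dotProduct, add_zero] at hz
      exact hne (Prod.ext hz h0)
    have hder : ∀ (s : ℝ) (e' : E), Ev D (y + s • (Pi.single h ξ : W → Fin μ → ℝ)) e' =
        Ev D y e' + s • Pi.single h ((D h e').2 ⬝ᵥ ξ) := by
      intro s e'
      funext z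
      simp only [Ev_apply, Pi.add_apply, Pi.smul_apply, dotProduct_add, dotProduct_smul,
        smul_eq_mul]
      by_cases hz : z = h
      · subst hz
        rw [Pi.single_eq_same, Pi.single_eq_same]
        ring
      · rw [Pi.single_eq_of_ne hz, Pi.single_eq_of_ne hz, dotProduct_zero]
        ring
    have hd := deriv_mem ((Ev D y).domRestrict (LZ L D Z))
      ((Ev D (y + (Pi.single h ξ : W → Fin μ → ℝ)) - Ev D y).domRestrict (LZ L D Z)) (by
        intro s
        have e2 : (Ev D y).domRestrict (LZ L D Z) +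
            s • (Ev D (y + (Pi.single h ξ : W → Fin μ → ℝ)) - Ev D y).domRestrict (LZ L D Z) =
            (Ev D (y + s • (Pi.single h ξ : W → Fin μ → ℝ))).domRestrict (LZ L D Z) := by
          refine LinearMap.ext fun z => ?_
          rw [LinearMap.add_apply, LinearMap.smul_apply, LinearMap.domRestrict_apply,
            LinearMap.domRestrict_apply, LinearMap.domRestrict_apply, LinearMap.sub_apply,
            hder]
          have := hder 1 (z : E)
          rw [one_smul, one_smul] at this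
          rw [this, add_sub_cancel_left]
        rw [e2]
        exact hy Z _) ⟨e, hSK he⟩ (by
          rw [LinearMap.mem_ker, LinearMap.domRestrict_apply]
          exact he.2)
    rw [LinearMap.domRestrict_apply, LinearMap.sub_apply] at hd
    have h1 := hder 1 e
    rw [one_smul, one_smul] at h1
    rw [h1, add_sub_cancel_left] at hd
    obtain ⟨⟨e', he'⟩, hee⟩ := hd
    have hne' : (D h e).2 ⬝ᵥ ξ ≠ 0 := by
      rw [Ne, dotProduct_self_eq_zero]
      exact hξ0
    refine ⟨((D h e).2 ⬝ᵥ ξ)⁻¹ • e', Submodule.smul_mem _ _ he', ?_⟩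
    rw [map_smul]
    rw [LinearMap.domRestrict_apply] at hee
    rw [hee, ← Pi.single_smul', smul_eq_mul, inv_mul_cancel₀ hne']
  have hli : LinearIndependent ℝ (fun h : {h // h ∉ Z} => (Pi.single (h : W) 1 : W → ℝ)) := by
    have h4 := (Pi.basisFun ℝ W).linearIndependent
    have h5 := h4.comp (fun h : {h // h ∉ Z} => (h : W)) Subtype.val_injective
    convert h5 using 1
    funext h
    simp [Pi.basisFun_apply]
  have h4 := finrank_span_eq_card hli
  have h5 : Submodule.span ℝ (Set.range fun h : {h // h ∉ Z} => (Pi.single (h : W) 1 : W → ℝ)) ≤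
      (LZ L D Z).map (Ev D y) := by
    rw [Submodule.span_le]
    rintro _ ⟨h, rfl⟩
    exact h3 h h.2
  have h6 := Submodule.finrank_mono h5
  rw [h4] at h6
  have h7 : Fintype.card {h // h ∉ Z} = Fintype.card W - Z.card := by
    rw [Fintype.card_subtype_compl]
    simp
  have h8 : Z.card ≤ Fintype.card W := Finset.card_le_univ Z
  omega

end gel

end Pool.Agent.T2h34.RK
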