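import Mathlib
import Pool.Agent.T2h34.RK.Gel

set_option autoImplicit false
set_option linter.unusedSectionVars false

/-! The auxiliary system for a plate with two neighbours. -/

namespace Pool.Agent.T2h34.RK

open Matrix Pool.Agent.H283R2.DR Pool.Agent.H283R2.DR.TA Pool.Agent.H789R5 Pool.Agent.T2h34.CP

variable {U W : Type} {μ : ℕ}

/-- velocities, a trivial motion of the hyperplane and the velocities of the bodies -/
abbrev ES (U W : Type) (μ : ℕ) : Type :=
  (U × W → Fin (μ + 1) → ℝ) × ((Sk μ × (Fin μ → ℝ)) × (W → ℝ × (Fin μ → ℝ)))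

/-- the difference of the velocities in the direction of the hyperplane -/
def NN (b : Fin μ → ℝ) (u : U) (h : W) (q : U × W → Fin μ → ℝ) (e : ES U W μ) : Fin μ → ℝ :=
  (e.2.1.1 : Matrix (Fin μ) (Fin μ) ℝ) *ᵥ q (u, h) + e.2.1.2 - vecTail (e.1 (u, h)) -
    e.1 (u, h) 0 • b

/-- the equations for the neighbour `u` -/
def eqn (β : U → Fin μ → ℝ) (b : Fin μ → ℝ) (u : U) (q : U × W → Fin μ → ℝ) :
    ES U W μ →ₗ[ℝ] (W → ℝ × (Fin μ → ℝ)) where
  toFun e h := (e.1 (u, h) 0 - (e.2.2 h).1 - (e.2.2 h).2 ⬝ᵥ q (u, h),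
    NN b u h q e - ((β u - b) ⬝ᵥ q (u, h)) • (e.2.2 h).2)
  map_add' e e' := by
    funext h
    refine Prod.ext ?_ ?_
    · simp only [Prod.fst_add, Prod.snd_add, Pi.add_apply, add_dotProduct]
      ring
    · funext j
      simp only [NN, Prod.fst_add, Prod.snd_add, Pi.add_apply, Submodule.coe_add, add_mulVec,
        vecTail, Function.comp, Pi.sub_apply, Pi.smul_apply, smul_eq_mul]
      ring
  map_smul' c e := by
    funext h
    refine Prod.ext ?_ ?_
    · simp only [Prod.smul_fst, Prod.smul_snd, Pi.smul_apply, smul_dotProduct, smul_eq_mul,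
        RingHom.id_apply]
      ring
    · funext j
      simp only [NN, Prod.smul_fst, Prod.smul_snd, Pi.smul_apply, Submodule.coe_smul, smul_mulVec,
        vecTail, Function.comp, Pi.sub_apply, Pi.add_apply, smul_eq_mul, RingHom.id_apply]
      ring

theorem eqn_fst (β : U → Fin μ → ℝ) (b : Fin μ → ℝ) (u : U) (q : U × W → Fin μ → ℝ)
    (e : ES U W μ) (h : W) :
    (eqn β b u q e h).1 = e.1 (u, h) 0 - (e.2.2 h).1 - (e.2.2 h).2 ⬝ᵥ q (u, h) := rfl

theorem eqn_snd (β : U → Fin μ → ℝ) (b : Fin μ → ℝ) (u : U) (q : U × W → Fin μ → ℝ)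
    (e : ES U W μ) (h : W) :
    (eqn β b u q e h).2 = NN b u h q e - ((β u - b) ⬝ᵥ q (u, h)) • (e.2.2 h).2 := rfl

theorem eqn_aff (β : U → Fin μ → ℝ) (b : Fin μ → ℝ) (u : U) :
    Aff (fun q : U × W → Fin μ → ℝ => eqn β b u q) := by
  intro p0 p1 s
  refine LinearMap.ext fun e => funext fun h => ?_
  refine Prod.ext ?_ ?_
  · simp only [LinearMap.add_apply, LinearMap.smul_apply, LinearMap.sub_apply, Pi.add_apply,
      Pi.smul_apply, Pi.sub_apply, Prod.fst_add, Prod.smul_fst, Prod.fst_sub, eqn_fst,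
      dotProduct_add, dotProduct_smul, dotProduct_sub, smul_eq_mul]
    ring
  · funext j
    simp only [LinearMap.add_apply, LinearMap.smul_apply, LinearMap.sub_apply, Pi.add_apply,
      Pi.smul_apply, Pi.sub_apply, Prod.snd_add, Prod.smul_snd, Prod.snd_sub, eqn_snd, NN,
      dotProduct_add, dotProduct_smul, dotProduct_sub, mulVec_add, mulVec_smul, mulVec_sub,
      smul_eq_mul]
    ring

open Classical in
/-- the auxiliary system -/
noncomputable def FZ (X : SimpleGraph (U × W)) (β : U → Fin μ → ℝ) (b : Fin μ → ℝ) (g1 g2 : U)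
    (Z : Finset W) (q : U × W → Fin μ → ℝ) :
    ES U W μ →ₗ[ℝ] (((U × W) × (U × W) → ℝ) ×
      ((W → ℝ × (Fin μ → ℝ)) × (W → ℝ × (Fin μ → ℝ)))) where
  toFun e := (rig X (fl β q) e.1, (eqn β b g1 q e, fun h => if h ∈ Z then eqn β b g2 q e h else 0))
  map_add' e e' := by
    refine Prod.ext (map_add _ _ _) (Prod.ext (map_add _ _ _) (funext fun h => ?_))
    by_cases hZ : h ∈ Z
    · simp only [hZ, if_true, map_add, Prod.snd_add, Pi.add_apply]
    · simp only [hZ, if_false, Prod.snd_add, Pi.add_apply, add_zero]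
  map_smul' c e := by
    refine Prod.ext (map_smul _ _ _) (Prod.ext (map_smul _ _ _) (funext fun h => ?_))
    by_cases hZ : h ∈ Z
    · simp only [hZ, if_true, map_smul, Prod.smul_snd, Pi.smul_apply, RingHom.id_apply]
    · simp only [hZ, if_false, Prod.smul_snd, Pi.smul_apply, RingHom.id_apply, smul_zero]

open Classical in
theorem FZ_22 (X : SimpleGraph (U × W)) (β : U → Fin μ → ℝ) (b : Fin μ → ℝ) (g1 g2 : U)
    (Z : Finset W) (q : U × W → Fin μ → ℝ) (e : ES U W μ) (h : W) :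
    (FZ X β b g1 g2 Z q e).2.2 h = if h ∈ Z then eqn β b g2 q e h else 0 := rfl

theorem FZ_aff (X : SimpleGraph (U × W)) (β : U → Fin μ → ℝ) (b : Fin μ → ℝ) (g1 g2 : U)
    (Z : Finset W) : Aff (FZ X β b g1 g2 Z) := by
  intro p0 p1 s
  refine LinearMap.ext fun e => ?_
  refine Prod.ext ?_ (Prod.ext ?_ ?_)
  · show rig X (fl β (p0 + s • (p1 - p0))) e.1 = rig X (fl β p0) e.1 +
      s • (rig X (fl β p1) e.1 - rig X (fl β p0) e.1)
    have h0 : fl β (p0 + s • (p1 - p0)) = fl β p0 + s • (fl β p1 - fl β p0) := fl_aff β p0 p1 s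
    rw [h0, rig_line]
    have : rig X (fl β p1 - fl β p0) = rig X (fl β p1) - rig X (fl β p0) := by
      have h1 := rig_line X (fl β p0) (fl β p1 - fl β p0) 1
      rw [one_smul, one_smul, add_sub_cancel] at h1
      rw [h1, add_sub_cancel_left]
    rw [this]
    rfl
  · show eqn β b g1 (p0 + s • (p1 - p0)) e = eqn β b g1 p0 e +
      s • (eqn β b g1 p1 e - eqn β b g1 p0 e)
    have h0 : eqn β b g1 (p0 + s • (p1 - p0)) = eqn (W := W) β b g1 p0 +
      s • (eqn β b g1 p1 - eqn β b g1 p0) := eqn_aff (W := W) β b g1 p0 p1 s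
    rw [h0]
    rfl
  · funext h
    have h0 : eqn β b g2 (p0 + s • (p1 - p0)) = eqn (W := W) β b g2 p0 +
      s • (eqn β b g2 p1 - eqn β b g2 p0) := eqn_aff (W := W) β b g2 p0 p1 s
    show (FZ X β b g1 g2 Z (p0 + s • (p1 - p0)) e).2.2 h = (FZ X β b g1 g2 Z p0 e).2.2 h +
      s • ((FZ X β b g1 g2 Z p1 e).2.2 h - (FZ X β b g1 g2 Z p0 e).2.2 h)
    rw [FZ_22, FZ_22, FZ_22, h0]
    by_cases hZ : h ∈ Z
    · simp only [hZ, if_true]
      rfl
    · simp only [hZ, if_false, sub_zero, smul_zero, add_zero]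

/-- the solutions of the auxiliary system -/
noncomputable def AZ (X : SimpleGraph (U × W)) (β : U → Fin μ → ℝ) (b : Fin μ → ℝ) (g1 g2 : U)
    (Z : Finset W) (q : U × W → Fin μ → ℝ) : Submodule ℝ (ES U W μ) :=
  LinearMap.ker (FZ X β b g1 g2 Z q)

theorem mem_AZ {X : SimpleGraph (U × W)} {β : U → Fin μ → ℝ} {b : Fin μ → ℝ} {g1 g2 : U}
    {Z : Finset W} {q : U × W → Fin μ → ℝ} {e : ES U W μ} :
    e ∈ AZ X β b g1 g2 Z q ↔ IsMotion X (fl β q) e.1 ∧ (∀ h, eqn β b g1 q e h = 0) ∧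
      ∀ h ∈ Z, eqn β b g2 q e h = 0 := by
  rw [AZ, LinearMap.mem_ker, ← mem_ker_rig, LinearMap.mem_ker]
  constructor
  · intro h
    have h1 : rig X (fl β q) e.1 = 0 := congrArg Prod.fst h
    have h2 : eqn β b g1 q e = 0 := congrArg (fun z => z.2.1) h
    have h3 : (FZ X β b g1 g2 Z q e).2.2 = 0 := congrArg (fun z => z.2.2) h
    refine ⟨h1, fun w => congrFun h2 w, fun w hw => ?_⟩
    have h4 := congrFun h3 w
    rw [FZ_22, if_pos hw] at h4
    exact h4
  · rintro ⟨h1, h2, h3⟩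
    refine Prod.ext h1 (Prod.ext (funext h2) (funext fun w => ?_))
    rw [FZ_22]
    split_ifs with hw
    · exact h3 w hw
    · rfl

/-- the genericity of the placement for the auxiliary system -/
def GZ (X : SimpleGraph (U × W)) (β : U → Fin μ → ℝ) (b : Fin μ → ℝ) (g1 g2 : U)
    (q : U × W → Fin μ → ℝ) : Prop :=
  ∀ (Z : Finset W) (q' : U × W → Fin μ → ℝ), Module.finrank ℝ (AZ X β b g1 g2 Z q) ≤
    Module.finrank ℝ (AZ X β b g1 g2 Z q')

variable [Finite U] [Fintype W]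

theorem gz_good (X : SimpleGraph (U × W)) (β : U → Fin μ → ℝ) (b : Fin μ → ℝ) (g1 g2 : U) :
    Good (fun q : U × W → Fin μ → ℝ => GZ X β b g1 g2 q) := by
  have := Fintype.ofFinite U
  exact good_forall fun Z => good_minker (FZ_aff X β b g1 g2 Z)

theorem gz_exists (X : SimpleGraph (U × W)) (β : U → Fin μ → ℝ) (b : Fin μ → ℝ) (g1 g2 : U) :
    ∃ q : U × W → Fin μ → ℝ, GZ X β b g1 g2 q := by
  have := Fintype.ofFinite U
  exact good_family (fun (Z : Finset W) (q : U × W → Fin μ → ℝ) => ∀ q' : U × W → Fin μ → ℝ,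
    Module.finrank ℝ (AZ X β b g1 g2 Z q) ≤ Module.finrank ℝ (AZ X β b g1 g2 Z q'))
    (fun Z => good_minker (FZ_aff X β b g1 g2 Z))
    (fun Z => exists_minker (fun q => FZ X β b g1 g2 Z q))

/-- permutation of the points -/
theorem AZ_perm (G : SimpleGraph U) (r : U → ℕ) (B : Set U) (β : U → Fin μ → ℝ) (b : Fin μ → ℝ)
    (g1 g2 : U) (π : W ≃ W) {Z Z' : Finset W} (hπ : ∀ h ∈ Z', π.symm h ∈ Z)
    (q : U × W → Fin μ → ℝ) :
    Module.finrank ℝ (AZ (XG G (⊤ : SimpleGraph W) r B) β b g1 g2 Z (fun x => q (x.1, π x.2))) ≤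
      Module.finrank ℝ (AZ (XG G (⊤ : SimpleGraph W) r B) β b g1 g2 Z' q) := by
  have := Fintype.ofFinite U
  let Φ : ES U W μ →ₗ[ℝ] ES U W μ :=
    { toFun := fun e => (fun z => e.1 (z.1, π.symm z.2), (e.2.1, fun h => e.2.2 (π.symm h)))
      map_add' := fun _ _ => rfl
      map_smul' := fun _ _ => rfl }
  have hE : ∀ (u : U) (e : ES U W μ) (h : W), eqn β b u q (Φ e) h =
      eqn β b u (fun x => q (x.1, π x.2)) e (π.symm h) := by
    intro u e h
    have e1 : q (u, π (π.symm h)) = q (u, h) := by rw [Equiv.apply_symm_apply]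
    refine Prod.ext ?_ ?_
    · rw [eqn_fst, eqn_fst, e1]
      rfl
    · rw [eqn_snd, eqn_snd, e1]
      unfold NN
      show _ = (e.2.1.1 : Matrix (Fin μ) (Fin μ) ℝ) *ᵥ q (u, π (π.symm h)) + e.2.1.2 -
        vecTail (e.1 (u, π.symm h)) - e.1 (u, π.symm h) 0 • b -
          ((β u - b) ⬝ᵥ q (u, h)) • (e.2.2 (π.symm h)).2
      rw [e1]
      rfl
  refine dim_le_of_inj Φ _ ?_ ?_
  · intro e he
    rw [mem_AZ] at he ⊢
    obtain ⟨h1, h2, h3⟩ := he
    refine ⟨?_, ?_, ?_⟩
    · rintro ⟨x, h⟩ ⟨y, h'⟩ hadj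
      have key := h1 (x, π.symm h) (y, π.symm h') (by
        rcases hadj with ⟨a1, a2⟩ | ⟨a1, a2⟩ | ⟨a1, a2, a3, a4⟩
        · exact Or.inl ⟨a1, fun hh => a2 (π.symm.injective hh)⟩
        · exact Or.inr (Or.inl ⟨congrArg π.symm a1, a2⟩)
        · refine Or.inr (Or.inr ⟨?_, a2, a3, a4⟩)
          intro hh
          apply a1
          rw [Prod.ext_iff] at hh ⊢
          exact ⟨hh.1, π.symm.injective hh.2⟩)
      have e1 : ∀ (u : U) (h : W), fl β (fun x => q (x.1, π x.2)) (u, π.symm h) = fl β q (u, h) := by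
        intro u h
        show vecCons (β u ⬝ᵥ q (u, π (π.symm h))) (q (u, π (π.symm h))) =
          vecCons (β u ⬝ᵥ q (u, h)) (q (u, h))
        rw [Equiv.apply_symm_apply]
      rw [e1, e1] at key
      exact key
    · intro h
      rw [hE]
      exact h2 _
    · intro h hh
      rw [hE]
      exact h3 _ (hπ h hh)
  · intro e _ h0
    have h1 : (fun z : U × W => e.1 (z.1, π.symm z.2)) = 0 := congrArg Prod.fst h0
    have h2 : e.2.1 = 0 := congrArg (fun z => z.2.1) h0
    have h3 : (fun h => e.2.2 (π.symm h)) = 0 := congrArg (fun z => z.2.2) h0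
    refine Prod.ext (funext fun z => ?_) (Prod.ext h2 (funext fun h => ?_))
    · have := congrFun h1 (z.1, π z.2)
      simp only [Equiv.symm_apply_apply] at this
      exact this
    · have := congrFun h3 (π h)
      simp only [Equiv.symm_apply_apply] at this
      exact this

/-- exchangeability -/
theorem AZ_card (G : SimpleGraph U) (r : U → ℕ) (B : Set U) (β : U → Fin μ → ℝ) (b : Fin μ → ℝ)
    (g1 g2 : U) {q : U × W → Fin μ → ℝ} (hq : GZ (XG G (⊤ : SimpleGraph W) r B) β b g1 g2 q)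
    {Z Z' : Finset W} (hZ : Z.card = Z'.card) :
    Module.finrank ℝ (AZ (XG G (⊤ : SimpleGraph W) r B) β b g1 g2 Z q) ≤
      Module.finrank ℝ (AZ (XG G (⊤ : SimpleGraph W) r B) β b g1 g2 Z' q) := by
  classical
  let e : {x // x ∈ Z} ≃ {x // x ∈ Z'} := Finset.equivOfCardEq hZ
  let π : W ≃ W := e.extendSubtype
  refine (hq Z (fun x => q (x.1, π x.2))).trans (AZ_perm G r B β b g1 g2 π ?_ q)
  intro h hh
  by_contra hc
  have := Equiv.extendSubtype_not_mem e (π.symm h) hc
  apply this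
  show π (π.symm h) ∈ Z'
  rw [Equiv.apply_symm_apply]
  exact hh

theorem AZ_anti {X : SimpleGraph (U × W)} {β : U → Fin μ → ℝ} {b : Fin μ → ℝ} {g1 g2 : U}
    {Z Z' : Finset W} (h : Z ⊆ Z') (q : U × W → Fin μ → ℝ) :
    AZ X β b g1 g2 Z' q ≤ AZ X β b g1 g2 Z q := by
  intro e he
  rw [mem_AZ] at he ⊢
  exact ⟨he.1, he.2.1, fun h' hh' => he.2.2 h' (h hh')⟩

/-- the dichotomy -/
theorem AZ_dich (G : SimpleGraph U) (r : U → ℕ) (B : Set U) (β : U → Fin μ → ℝ) (b : Fin μ → ℝ)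
    (g1 g2 : U) {q : U × W → Fin μ → ℝ} (hq : GZ (XG G (⊤ : SimpleGraph W) r B) β b g1 g2 q)
    (Z : Finset W) :
    Module.finrank ℝ (AZ (XG G (⊤ : SimpleGraph W) r B) β b g1 g2 Z q) + Z.card ≤
      Module.finrank ℝ (AZ (XG G (⊤ : SimpleGraph W) r B) β b g1 g2 ∅ q) ∨
    AZ (XG G (⊤ : SimpleGraph W) r B) β b g1 g2 Z q ≤
      AZ (XG G (⊤ : SimpleGraph W) r B) β b g1 g2 Finset.univ q := by
  classical
  have := Fintype.ofFinite U
  set X := XG G (⊤ : SimpleGraph W) r B with hX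
  induction Z using Finset.induction_on with
  | empty => left; simp
  | insert a Z ha ih =>
    have hsub : Z ⊆ insert a Z := Finset.subset_insert a Z
    rcases ih with ih | ih
    · by_cases hlt : Module.finrank ℝ (AZ X β b g1 g2 (insert a Z) q) <
        Module.finrank ℝ (AZ X β b g1 g2 Z q)
      · left
        rw [Finset.card_insert_of_notMem ha]
        omega
      · right
        have h1 : ∀ h, AZ X β b g1 g2 Z q ≤ AZ X β b g1 g2 (insert h Z) q := by
          intro h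
          by_cases hh : h ∈ Z
          · rw [Finset.insert_eq_of_mem hh]
          · have h2 : Module.finrank ℝ (AZ X β b g1 g2 (insert a Z) q) ≤
                Module.finrank ℝ (AZ X β b g1 g2 (insert h Z) q) :=
              AZ_card G r B β b g1 g2 hq (by
                rw [Finset.card_insert_of_notMem ha, Finset.card_insert_of_notMem hh])
            exact (Submodule.eq_of_le_of_finrank_le (AZ_anti (Finset.subset_insert h Z) q)
              (by omega)).ge
        intro e he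
        have he' := AZ_anti hsub q he
        rw [mem_AZ]
        refine ⟨(mem_AZ.1 he).1, (mem_AZ.1 he).2.1, fun h _ => ?_⟩
        exact (mem_AZ.1 (h1 h he')).2.2 h (Finset.mem_insert_self h Z)
    · right
      exact (AZ_anti hsub q).trans ih

/-- the number of the solutions without the second neighbour -/
theorem AZ_empty {X : SimpleGraph (U × W)} {β : U → Fin μ → ℝ} {b : Fin μ → ℝ} {g1 g2 : U}
    {q : U × W → Fin μ → ℝ} (h1 : ∀ h, (β g1 - b) ⬝ᵥ q (g1, h) ≠ 0) :
    Module.finrank ℝ (AZ X β b g1 g2 ∅ q) ≤ mo X (fl β q) + μ * (μ + 1) / 2 := by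
  have := Fintype.ofFinite U
  let φ : ES U W μ →ₗ[ℝ] (U × W → Fin (μ + 1) → ℝ) × (Sk μ × (Fin μ → ℝ)) :=
    { toFun := fun e => (e.1, e.2.1)
      map_add' := fun _ _ => rfl
      map_smul' := fun _ _ => rfl }
  have h2 : Module.finrank ℝ (AZ X β b g1 g2 ∅ q) ≤
      Module.finrank ℝ ((Mot X (fl β q)).prod (⊤ : Submodule ℝ (Sk μ × (Fin μ → ℝ)))) := by
    refine dim_le_of_inj φ _ ?_ ?_
    · intro e he
      exact ⟨(mem_mot _ _ _).2 (mem_AZ.1 he).1, trivial⟩
    · intro e he h0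
      have a1 : e.1 = 0 := congrArg Prod.fst h0
      have a2 : e.2.1 = 0 := congrArg Prod.snd h0
      refine Prod.ext a1 (Prod.ext a2 (funext fun h => ?_))
      have a3 := (mem_AZ.1 he).2.1 h
      have a4 : (eqn β b g1 q e h).2 = 0 := congrArg Prod.snd a3
      have a5 : (eqn β b g1 q e h).1 = 0 := congrArg Prod.fst a3
      rw [eqn_snd] at a4
      rw [eqn_fst] at a5
      have a6 : NN b g1 h q e = 0 := by
        unfold NN
        rw [a1, a2]
        funext j
        simp [vecTail]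
      rw [a6, zero_sub, neg_eq_zero] at a4
      have a7 : (e.2.2 h).2 = 0 := (smul_eq_zero.1 a4).resolve_left (h1 h)
      rw [a7, a1, zero_dotProduct] at a5
      refine Prod.ext ?_ a7
      simpa using a5
  have h3 : Module.finrank ℝ ((Mot X (fl β q)).prod (⊤ : Submodule ℝ (Sk μ × (Fin μ → ℝ)))) =
      mo X (fl β q) + μ * (μ + 1) / 2 := by
    rw [dim_prod_eq, finrank_top, finrank_triv]
    rfl
  rw [← h3]
  exact h2

end Pool.Agent.T2h34.RK
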