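import Mathlib
import Pool.Agent.T2h34.RK.Bas
import Pool.Agent.H789R5.RF.Rank

set_option autoImplicit false

/-! Task `LK`: bodies attached to three plates. -/

namespace Pool.Agent.T2h34.RK

open Matrix Pool.Agent.H283R2.DR Pool.Agent.H789R5

theorem LK.skew {μ : ℕ} {A : Matrix (Fin μ) (Fin μ) ℝ} (hA : Aᵀ = -A) (q r : Fin μ → ℝ) :
    (A *ᵥ q) ⬝ᵥ r = -((A *ᵥ r) ⬝ᵥ q) := by
  have h1 : (A *ᵥ q) ⬝ᵥ r = q ⬝ᵥ (Aᵀ *ᵥ r) := by
    rw [Matrix.mulVec_transpose, dotProduct_comm, Matrix.dotProduct_mulVec, dotProduct_comm]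
  rw [h1, hA, Matrix.neg_mulVec, dotProduct_neg, dotProduct_comm]

/-- a skew affine map which is pointwise a multiple of the standard one is a multiple of it -/
theorem LK.core {μ : ℕ} {b1 b2 : Fin μ → ℝ} (hw : (b1 ⬝ᵥ b1) • b2 - (b1 ⬝ᵥ b2) • b1 ≠ 0)
    {A : Matrix (Fin μ) (Fin μ) ℝ} {c : Fin μ → ℝ} (hA : Aᵀ = -A)
    (h : ∀ q, b1 ⬝ᵥ q ≠ 0 → ∃ t : ℝ, A *ᵥ q + c = t • ((b2 ⬝ᵥ q) • b1 - (b1 ⬝ᵥ q) • b2)) :
    ∃ t : ℝ, ∀ q, A *ᵥ q + c = t • ((b2 ⬝ᵥ q) • b1 - (b1 ⬝ᵥ q) • b2) := by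
  have hb1 : b1 ⬝ᵥ b1 ≠ 0 := by
    intro h1
    apply hw
    rw [dotProduct_self_eq_zero] at h1
    rw [h1]
    simp
  -- `c = 0`
  have hself : ∀ q, (A *ᵥ q) ⬝ᵥ q = 0 := by
    intro q
    have := LK.skew hA q q
    linarith
  have hc1 : ∀ q, b1 ⬝ᵥ q ≠ 0 → c ⬝ᵥ q = 0 := by
    intro q hq
    obtain ⟨t, ht⟩ := h q hq
    have h1 := congrArg (fun v => v ⬝ᵥ q) ht
    simp only [add_dotProduct, smul_dotProduct, sub_dotProduct, smul_eq_mul, hself] at h1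
    rw [zero_add] at h1
    rw [h1]
    ring
  have hc : c = 0 := by
    have hc2 : ∀ q, c ⬝ᵥ q = 0 := by
      intro q
      by_cases hq : b1 ⬝ᵥ q = 0
      · have h1 := hc1 (q + b1) (by rw [dotProduct_add, hq, zero_add]; exact hb1)
        have h2 := hc1 b1 hb1
        rw [dotProduct_add] at h1
        linarith
      · exact hc1 q hq
    exact dotProduct_self_eq_zero.1 (hc2 c)
  subst hc
  simp only [add_zero] at h ⊢
  choose! t ht using h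
  -- comparison of the factors
  have key : ∀ q r, b1 ⬝ᵥ q ≠ 0 → b1 ⬝ᵥ r ≠ 0 →
      (b2 ⬝ᵥ q) * (b1 ⬝ᵥ r) - (b1 ⬝ᵥ q) * (b2 ⬝ᵥ r) ≠ 0 → t q = t r := by
    intro q r hq hr hne
    have h1 := LK.skew hA q r
    rw [ht q hq, ht r hr] at h1
    simp only [smul_dotProduct, sub_dotProduct, smul_eq_mul] at h1
    have h2 : (t q - t r) * ((b2 ⬝ᵥ q) * (b1 ⬝ᵥ r) - (b1 ⬝ᵥ q) * (b2 ⬝ᵥ r)) = 0 := by
      linear_combination h1
    rcases mul_eq_zero.1 h2 with h3 | h3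
    · linarith
    · exact absurd h3 hne
  set w := (b1 ⬝ᵥ b1) • b2 - (b1 ⬝ᵥ b2) • b1 with hwdef
  have hw1 : b1 ⬝ᵥ w = 0 := by
    rw [hwdef]
    simp only [dotProduct_sub, dotProduct_smul, smul_eq_mul]
    ring
  have hw2 : b2 ⬝ᵥ w ≠ 0 := by
    intro h1
    apply hw
    have h2 : w ⬝ᵥ w = 0 := by
      nth_rewrite 1 [hwdef]
      simp only [sub_dotProduct, smul_dotProduct, smul_eq_mul, hw1, h1]
      ring
    exact dotProduct_self_eq_zero.1 h2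
  have hq1 : b1 ⬝ᵥ (b1 + w) ≠ 0 := by
    rw [dotProduct_add, hw1, add_zero]
    exact hb1
  have h01 : t b1 = t (b1 + w) := by
    apply key b1 (b1 + w) hb1 hq1
    simp only [dotProduct_add, hw1, add_zero]
    intro h1
    have h2 : (b1 ⬝ᵥ b1) * (b2 ⬝ᵥ w) = 0 := by linear_combination -h1
    rcases mul_eq_zero.1 h2 with h3 | h3
    · exact hb1 h3
    · exact hw2 h3
  have hall : ∀ r, b1 ⬝ᵥ r ≠ 0 → t r = t b1 := by
    intro r hr
    by_cases h1 : (b2 ⬝ᵥ r) * (b1 ⬝ᵥ b1) - (b1 ⬝ᵥ r) * (b2 ⬝ᵥ b1) = 0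
    · rw [h01]
      apply key r (b1 + w) hr hq1
      simp only [dotProduct_add, hw1, add_zero]
      intro h2
      have h3 : (b1 ⬝ᵥ r) * (b2 ⬝ᵥ w) = 0 := by linear_combination h1 - h2
      rcases mul_eq_zero.1 h3 with h4 | h4
      · exact hr h4
      · exact hw2 h4
    · exact key r b1 hr hb1 h1
  refine ⟨t b1, fun q => ?_⟩
  by_cases hq : b1 ⬝ᵥ q = 0
  · have hq2 : b1 ⬝ᵥ (q + b1) ≠ 0 := by rw [dotProduct_add, hq, zero_add]; exact hb1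
    have h1 := ht (q + b1) hq2
    rw [hall _ hq2, mulVec_add, ht b1 hb1] at h1
    have h2 : A *ᵥ q = t b1 • ((b2 ⬝ᵥ (q + b1)) • b1 - (b1 ⬝ᵥ (q + b1)) • b2) -
        t b1 • ((b2 ⬝ᵥ b1) • b1 - (b1 ⬝ᵥ b1) • b2) := by
      rw [← h1]; abel
    rw [h2]
    simp only [dotProduct_add]
    module
  · rw [ht q hq, hall q hq]

/-- the infinitesimal motion `ρ(γ, g)` of the plate with normal `b`, evaluated at `q` -/
def LK.rho {μ : ℕ} (b : Fin μ → ℝ) (γ : ℝ) (g q : Fin μ → ℝ) : Fin μ → ℝ :=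
  (γ + g ⬝ᵥ q) • b - (b ⬝ᵥ q) • g

/-- the matrix of `ρ` -/
def LK.rmat {μ : ℕ} (b g : Fin μ → ℝ) : Matrix (Fin μ) (Fin μ) ℝ :=
  vecMulVec b g - vecMulVec g b

theorem LK.rmat_skew {μ : ℕ} (b g : Fin μ → ℝ) : (LK.rmat b g)ᵀ = -LK.rmat b g := by
  ext i j
  simp only [LK.rmat, transpose_apply, Matrix.sub_apply, Matrix.neg_apply, vecMulVec_apply]
  ring

theorem LK.rmat_mulVec {μ : ℕ} (b : Fin μ → ℝ) (γ : ℝ) (g q : Fin μ → ℝ) :
    LK.rmat b g *ᵥ q + γ • b = LK.rho b γ g q := by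
  have h1 : ∀ x y : Fin μ → ℝ, vecMulVec x y *ᵥ q = (y ⬝ᵥ q) • x := by
    intro x y
    ext i
    simp only [mulVec, dotProduct, vecMulVec_apply, Pi.smul_apply, smul_eq_mul, Finset.sum_mul]
    apply Finset.sum_congr rfl
    intro j _
    ring
  rw [LK.rmat, LK.rho, sub_mulVec, h1, h1]
  module

theorem LK.rho_sub {μ : ℕ} (b : Fin μ → ℝ) (γ γ' : ℝ) (g g' q : Fin μ → ℝ) :
    LK.rho b (γ - γ') (g - g') q = LK.rho b γ g q - LK.rho b γ' g' q := by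
  simp only [LK.rho, sub_dotProduct]
  module

theorem LK.rho_add {μ : ℕ} (b : Fin μ → ℝ) (γ γ' : ℝ) (g g' q : Fin μ → ℝ) :
    LK.rho b (γ + γ') (g + g') q = LK.rho b γ g q + LK.rho b γ' g' q := by
  simp only [LK.rho, add_dotProduct]
  module

theorem LK.rho_smul {μ : ℕ} (b : Fin μ → ℝ) (s γ : ℝ) (g q : Fin μ → ℝ) :
    LK.rho b (s * γ) (s • g) q = s • LK.rho b γ g q := by
  simp only [LK.rho, smul_dotProduct, smul_eq_mul]
  module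

theorem LK.rho_self {μ : ℕ} (b : Fin μ → ℝ) (s : ℝ) (q : Fin μ → ℝ) :
    LK.rho b 0 (s • b) q = 0 := by
  simp only [LK.rho, smul_dotProduct, smul_eq_mul]
  module

/-- a motion `ρ(γ, g)` which vanishes at a point outside the plate is a multiple of `ρ(0, b)` -/
theorem LK.rho_zero {μ : ℕ} {b : Fin μ → ℝ} {γ : ℝ} {g q : Fin μ → ℝ} (hq : b ⬝ᵥ q ≠ 0)
    (h : LK.rho b γ g q = 0) : γ = 0 ∧ ∃ t : ℝ, g = t • b := by
  have h1 : g = ((γ + g ⬝ᵥ q) / (b ⬝ᵥ q)) • b := by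
    have h2 : (b ⬝ᵥ q) • g = (γ + g ⬝ᵥ q) • b := (sub_eq_zero.1 h).symm
    rw [div_eq_inv_mul, mul_smul, ← h2, smul_smul, inv_mul_cancel₀ hq, one_smul]
  refine ⟨?_, _, h1⟩
  have h3 : g ⬝ᵥ q = γ + g ⬝ᵥ q := by
    nth_rewrite 1 [h1]
    rw [smul_dotProduct, smul_eq_mul, div_mul_cancel₀ _ hq]
  linarith

theorem LK.indep {μ : ℕ} {b1 b2 : Fin μ → ℝ} (h : LinearIndependent ℝ ![b1, b2]) {s t : ℝ}
    (hst : s • b1 = t • b2) : s = 0 ∧ t = 0 := by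
  rw [LinearIndependent.pair_iff] at h
  have h1 := h s (-t) (by rw [hst]; module)
  exact ⟨h1.1, by linarith [h1.2]⟩

theorem LK.wne {μ : ℕ} {b1 b2 : Fin μ → ℝ} (h : LinearIndependent ℝ ![b1, b2]) :
    (b1 ⬝ᵥ b1) • b2 - (b1 ⬝ᵥ b2) • b1 ≠ 0 := by
  intro h1
  have h2 : (b1 ⬝ᵥ b2) • b1 = (b1 ⬝ᵥ b1) • b2 := (sub_eq_zero.1 h1).symm
  have h3 := (LK.indep h h2).2
  rw [dotProduct_self_eq_zero] at h3
  have h4 := h.ne_zero (0 : Fin 2)
  simp at h4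
  exact h4 h3

/-- the normal form: a pair of skew affine maps which is everywhere compatible -/
theorem LK.normal {μ : ℕ} {b1 b2 : Fin μ → ℝ} (hli : LinearIndependent ℝ ![b1, b2])
    {A1 A2 : Matrix (Fin μ) (Fin μ) ℝ} {c1 c2 : Fin μ → ℝ} (hA1 : A1ᵀ = -A1) (hA2 : A2ᵀ = -A2)
    (h : ∀ q r, b1 ⬝ᵥ q ≠ 0 → b2 ⬝ᵥ r ≠ 0 → ∃ (γ : ℝ) (g : Fin μ → ℝ),
      A1 *ᵥ q + c1 = LK.rho b1 γ g q ∧ A2 *ᵥ r + c2 = LK.rho b2 γ g r) :
    ∃ (γ : ℝ) (g : Fin μ → ℝ), (∀ q, A1 *ᵥ q + c1 = LK.rho b1 γ g q) ∧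
      ∀ r, A2 *ᵥ r + c2 = LK.rho b2 γ g r := by
  have hw1 := LK.wne hli
  have hli' : LinearIndependent ℝ ![b2, b1] := by
    rw [LinearIndependent.pair_iff] at hli ⊢
    intro s t hst
    have := hli t s (by rw [add_comm]; exact hst)
    exact ⟨this.2, this.1⟩
  have hw2 := LK.wne hli'
  have hb1 : b1 ⬝ᵥ b1 ≠ 0 := by
    intro h1
    rw [dotProduct_self_eq_zero] at h1
    have h4 := hli.ne_zero (0 : Fin 2)
    simp at h4
    exact h4 h1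
  have hb2 : b2 ⬝ᵥ b2 ≠ 0 := by
    intro h1
    rw [dotProduct_self_eq_zero] at h1
    have h4 := hli.ne_zero (1 : Fin 2)
    simp at h4
    exact h4 h1
  obtain ⟨γ0, g0, e1, e2⟩ := h b1 b2 hb1 hb2
  -- the first map minus `ρ`
  have hs1 : ∀ q, (A1 - LK.rmat b1 g0) *ᵥ q + (c1 - γ0 • b1) =
      (A1 *ᵥ q + c1) - LK.rho b1 γ0 g0 q := by
    intro q
    rw [← LK.rmat_mulVec, sub_mulVec]
    abel
  have hs2 : ∀ q, (A2 - LK.rmat b2 g0) *ᵥ q + (c2 - γ0 • b2) =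
      (A2 *ᵥ q + c2) - LK.rho b2 γ0 g0 q := by
    intro q
    rw [← LK.rmat_mulVec, sub_mulVec]
    abel
  have hk1 : (A1 - LK.rmat b1 g0)ᵀ = -(A1 - LK.rmat b1 g0) := by
    rw [transpose_sub, hA1, LK.rmat_skew]
    abel
  have hk2 : (A2 - LK.rmat b2 g0)ᵀ = -(A2 - LK.rmat b2 g0) := by
    rw [transpose_sub, hA2, LK.rmat_skew]
    abel
  obtain ⟨t, ht⟩ := LK.core hw1 hk1 (c := c1 - γ0 • b1) (by
    intro q hq
    obtain ⟨γ, g, f1, f2⟩ := h q b2 hq hb2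
    have h1 : LK.rho b2 (γ - γ0) (g - g0) b2 = 0 := by
      rw [LK.rho_sub, ← f2, ← e2, sub_self]
    obtain ⟨h2, t, h3⟩ := LK.rho_zero hb2 h1
    refine ⟨t, ?_⟩
    rw [hs1, f1, ← LK.rho_sub, h2, h3]
    simp only [LK.rho, smul_dotProduct, smul_eq_mul]
    module)
  obtain ⟨s, hs⟩ := LK.core hw2 hk2 (c := c2 - γ0 • b2) (by
    intro q hq
    obtain ⟨γ, g, f1, f2⟩ := h b1 q hb1 hq
    have h1 : LK.rho b1 (γ - γ0) (g - g0) b1 = 0 := by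
      rw [LK.rho_sub, ← f1, ← e1, sub_self]
    obtain ⟨h2, t, h3⟩ := LK.rho_zero hb1 h1
    refine ⟨t, ?_⟩
    rw [hs2, f2, ← LK.rho_sub, h2, h3]
    simp only [LK.rho, smul_dotProduct, smul_eq_mul]
    module)
  refine ⟨γ0 + 0, g0 + (t • b2 + s • b1), fun q => ?_, fun q => ?_⟩
  · have h1 := ht q
    rw [hs1, sub_eq_iff_eq_add] at h1
    rw [h1, LK.rho_add]
    simp only [LK.rho, smul_dotProduct, smul_eq_mul, add_dotProduct]
    module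
  · have h1 := hs q
    rw [hs2, sub_eq_iff_eq_add] at h1
    rw [h1, LK.rho_add]
    simp only [LK.rho, smul_dotProduct, smul_eq_mul, add_dotProduct]
    module

theorem t_LK : S_LK := by
  intro μ hμ W _ hcard b1 b2 hli h0
  have hb1 : b1 ⬝ᵥ b1 ≠ 0 := by
    intro h1
    rw [dotProduct_self_eq_zero] at h1
    have h4 := hli.ne_zero (0 : Fin 2)
    simp at h4
    exact h4 h1
  have hb2 : b2 ⬝ᵥ b2 ≠ 0 := by
    intro h1
    rw [dotProduct_self_eq_zero] at h1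
    have h4 := hli.ne_zero (1 : Fin 2)
    simp at h4
    exact h4 h1
  let E := (TA.Sk μ × (Fin μ → ℝ)) × (TA.Sk μ × (Fin μ → ℝ))
  let ι := {q : (Fin μ → ℝ) × (Fin μ → ℝ) // b1 ⬝ᵥ q.1 ≠ 0 ∧ b2 ⬝ᵥ q.2 ≠ 0}
  have : Nonempty ι := ⟨⟨(b1, b2), hb1, hb2⟩⟩
  -- the affine maps
  let ev1 : (Fin μ → ℝ) → E → (Fin μ → ℝ) := fun q x =>
    (x.1.1 : Matrix (Fin μ) (Fin μ) ℝ) *ᵥ q + x.1.2
  let ev2 : (Fin μ → ℝ) → E → (Fin μ → ℝ) := fun q x =>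
    (x.2.1 : Matrix (Fin μ) (Fin μ) ℝ) *ᵥ q + x.2.2
  have ev1_add : ∀ q x y, ev1 q (x + y) = ev1 q x + ev1 q y := by
    intro q x y
    show ((x.1.1 : Matrix (Fin μ) (Fin μ) ℝ) + (y.1.1 : Matrix (Fin μ) (Fin μ) ℝ)) *ᵥ q +
      (x.1.2 + y.1.2) = (_ *ᵥ q + _) + (_ *ᵥ q + _)
    rw [add_mulVec]
    abel
  have ev2_add : ∀ q x y, ev2 q (x + y) = ev2 q x + ev2 q y := by
    intro q x y
    show ((x.2.1 : Matrix (Fin μ) (Fin μ) ℝ) + (y.2.1 : Matrix (Fin μ) (Fin μ) ℝ)) *ᵥ q +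
      (x.2.2 + y.2.2) = (_ *ᵥ q + _) + (_ *ᵥ q + _)
    rw [add_mulVec]
    abel
  have ev1_smul : ∀ q (s : ℝ) x, ev1 q (s • x) = s • ev1 q x := by
    intro q s x
    show (s • (x.1.1 : Matrix (Fin μ) (Fin μ) ℝ)) *ᵥ q + s • x.1.2 = s • (_ *ᵥ q + _)
    rw [smul_mulVec, smul_add]
  have ev2_smul : ∀ q (s : ℝ) x, ev2 q (s • x) = s • ev2 q x := by
    intro q s x
    show (s • (x.2.1 : Matrix (Fin μ) (Fin μ) ℝ)) *ᵥ q + s • x.2.2 = s • (_ *ᵥ q + _)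
    rw [smul_mulVec, smul_add]
  let K : ι → Submodule ℝ E := fun i =>
    { carrier := {x | ∃ (γ : ℝ) (g : Fin μ → ℝ), ev1 i.1.1 x = LK.rho b1 γ g i.1.1 ∧
        ev2 i.1.2 x = LK.rho b2 γ g i.1.2}
      add_mem' := by
        rintro x y ⟨γ, g, h1, h2⟩ ⟨γ', g', h3, h4⟩
        refine ⟨γ + γ', g + g', ?_, ?_⟩
        · rw [ev1_add, LK.rho_add, h1, h3]
        · rw [ev2_add, LK.rho_add, h2, h4]
      zero_mem' := by
        refine ⟨0, 0, ?_, ?_⟩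
        · have := ev1_smul i.1.1 0 0
          rw [zero_smul, zero_smul] at this
          rw [this]
          simp [LK.rho]
        · have := ev2_smul i.1.2 0 0
          rw [zero_smul, zero_smul] at this
          rw [this]
          simp [LK.rho]
      smul_mem' := by
        rintro s x ⟨γ, g, h1, h2⟩
        refine ⟨s * γ, s • g, ?_, ?_⟩
        · rw [ev1_smul, LK.rho_smul, h1]
        · rw [ev2_smul, LK.rho_smul, h2] }
  let T : Submodule ℝ E :=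
    { carrier := {x | ∃ (γ : ℝ) (g : Fin μ → ℝ), (∀ q, ev1 q x = LK.rho b1 γ g q) ∧
        ∀ q, ev2 q x = LK.rho b2 γ g q}
      add_mem' := by
        rintro x y ⟨γ, g, h1, h2⟩ ⟨γ', g', h3, h4⟩
        refine ⟨γ + γ', g + g', fun q => ?_, fun q => ?_⟩
        · rw [ev1_add, LK.rho_add, h1, h3]
        · rw [ev2_add, LK.rho_add, h2, h4]
      zero_mem' := by
        refine ⟨0, 0, fun q => ?_, fun q => ?_⟩
        · have := ev1_smul q 0 0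
          rw [zero_smul, zero_smul] at this
          rw [this]
          simp [LK.rho]
        · have := ev2_smul q 0 0
          rw [zero_smul, zero_smul] at this
          rw [this]
          simp [LK.rho]
      smul_mem' := by
        rintro s x ⟨γ, g, h1, h2⟩
        refine ⟨s * γ, s • g, fun q => ?_, fun q => ?_⟩
        · rw [ev1_smul, LK.rho_smul, h1]
        · rw [ev2_smul, LK.rho_smul, h2] }
  have hKT : ⨅ i, K i ≤ T := by
    intro x hx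
    rw [Submodule.mem_iInf] at hx
    exact LK.normal hli x.1.1.2 x.2.1.2 (fun q r hq hr => hx ⟨(q, r), hq, hr⟩)
  have hfin : Module.finrank ℝ E ≤ Nat.card W := by
    refine le_trans (le_of_eq ?_) hcard
    show Module.finrank ℝ ((TA.Sk μ × (Fin μ → ℝ)) × (TA.Sk μ × (Fin μ → ℝ))) = _
    rw [Module.finrank_prod, finrank_triv]
    have h2 : 2 ∣ μ * (μ + 1) := (Nat.even_mul_succ_self μ).two_dvd
    omega
  obtain ⟨s, hs⟩ := greedy' K T hKT hfin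
  refine ⟨fun h => (s h).1.1, fun h => (s h).1.2, ?_⟩
  intro A1 A2 c1 c2 γ g hA1 hA2 e1 e2 hγ hg
  have hmem : (((⟨A1, hA1⟩, c1), (⟨A2, hA2⟩, c2)) : E) ∈ T := by
    apply hs
    rw [Submodule.mem_iInf]
    intro h
    exact ⟨γ h, g h, e1 h, e2 h⟩
  obtain ⟨γ0, g0, f1, f2⟩ := hmem
  have hz : ∀ h, γ h = γ0 ∧ g h = g0 := by
    intro h
    have h1 : LK.rho b1 (γ h - γ0) (g h - g0) (s h).1.1 = 0 := by
      rw [LK.rho_sub, sub_eq_zero, ← f1]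
      exact (e1 h).symm
    have h2 : LK.rho b2 (γ h - γ0) (g h - g0) (s h).1.2 = 0 := by
      rw [LK.rho_sub, sub_eq_zero, ← f2]
      exact (e2 h).symm
    obtain ⟨h3, t, h4⟩ := LK.rho_zero (s h).2.1 h1
    obtain ⟨_, t', h5⟩ := LK.rho_zero (s h).2.2 h2
    have h6 := LK.indep hli (h4.symm.trans h5)
    refine ⟨by linarith, ?_⟩
    rw [h6.1, zero_smul] at h4
    exact sub_eq_zero.1 h4
  have hγ0 : γ0 = 0 := (hz h0).1.symm.trans hγ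
  have hg0 : g0 = 0 := (hz h0).2.symm.trans hg
  subst hγ0
  subst hg0
  have z1 : ∀ q, A1 *ᵥ q + c1 = 0 := by
    intro q
    refine (f1 q).trans ?_
    simp [LK.rho]
  have z2 : ∀ q, A2 *ᵥ q + c2 = 0 := by
    intro q
    refine (f2 q).trans ?_
    simp [LK.rho]
  have c1z : c1 = 0 := by simpa using z1 0
  have c2z : c2 = 0 := by simpa using z2 0
  have mz : ∀ A : Matrix (Fin μ) (Fin μ) ℝ, (∀ q, A *ᵥ q = 0) → A = 0 := by
    intro A hA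
    ext i j
    have := congrFun (hA (Pi.single j 1)) i
    simpa using this
  refine ⟨mz A1 (fun q => ?_), c1z, mz A2 (fun q => ?_), c2z, ?_, ?_⟩
  · have := z1 q
    rwa [c1z, add_zero] at this
  · have := z2 q
    rwa [c2z, add_zero] at this
  · funext h
    exact (hz h).1
  · funext h
    exact (hz h).2

end Pool.Agent.T2h34.RK
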