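import Mathlib
import Pool.Agent.T2h34.RK.Sys
import Pool.Agent.T2h34.RK.T_LK

set_option autoImplicit false
set_option linter.unusedSectionVars false

/-! Plates with two neighbours: the solutions of the complete auxiliary system. -/

namespace Pool.Agent.T2h34.RK

open Matrix Pool.Agent.H283R2.DR Pool.Agent.H283R2.DR.TA Pool.Agent.H789R5 Pool.Agent.T2h34.CP

variable {U W : Type} {μ : ℕ}

/-- the system of `S_LK` -/
def LKs (b1 b2 : Fin μ → ℝ) (h0 : W) (q1 q2 : W → Fin μ → ℝ) :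
    (((Sk μ × (Fin μ → ℝ)) × (Sk μ × (Fin μ → ℝ))) × (W → ℝ × (Fin μ → ℝ))) →ₗ[ℝ]
      ((W → Fin μ → ℝ) × ((W → Fin μ → ℝ) × (ℝ × (Fin μ → ℝ)))) where
  toFun e := (fun h => (e.1.1.1 : Matrix (Fin μ) (Fin μ) ℝ) *ᵥ q1 h + e.1.1.2 -
      (((e.2 h).1 + (e.2 h).2 ⬝ᵥ q1 h) • b1 - (b1 ⬝ᵥ q1 h) • (e.2 h).2),
    (fun h => (e.1.2.1 : Matrix (Fin μ) (Fin μ) ℝ) *ᵥ q2 h + e.1.2.2 -
      (((e.2 h).1 + (e.2 h).2 ⬝ᵥ q2 h) • b2 - (b2 ⬝ᵥ q2 h) • (e.2 h).2), e.2 h0))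
  map_add' e e' := by
    refine Prod.ext ?_ (Prod.ext ?_ rfl)
    · funext h j
      simp only [Prod.fst_add, Prod.snd_add, Pi.add_apply, Submodule.coe_add, add_mulVec,
        Pi.sub_apply, Pi.smul_apply, smul_eq_mul, add_dotProduct]
      ring
    · funext h j
      simp only [Prod.fst_add, Prod.snd_add, Pi.add_apply, Submodule.coe_add, add_mulVec,
        Pi.sub_apply, Pi.smul_apply, smul_eq_mul, add_dotProduct]
      ring
  map_smul' c e := by
    refine Prod.ext ?_ (Prod.ext ?_ rfl)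
    · funext h j
      simp only [Prod.smul_fst, Prod.smul_snd, Pi.smul_apply, Submodule.coe_smul, smul_mulVec,
        Pi.sub_apply, Pi.add_apply, smul_eq_mul, smul_dotProduct, RingHom.id_apply]
      ring
    · funext h j
      simp only [Prod.smul_fst, Prod.smul_snd, Pi.smul_apply, Submodule.coe_smul, smul_mulVec,
        Pi.sub_apply, Pi.add_apply, smul_eq_mul, smul_dotProduct, RingHom.id_apply]
      ring

theorem LKs_aff (b1 b2 : Fin μ → ℝ) (h0 : W) (g1 g2 : U) :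
    Aff (fun q : U × W → Fin μ → ℝ => LKs b1 b2 h0 (fun h => q (g1, h)) (fun h => q (g2, h))) := by
  intro p0 p1 s
  refine LinearMap.ext fun e => ?_
  refine Prod.ext ?_ (Prod.ext ?_ ?_)
  · funext h j
    simp only [LKs, LinearMap.coe_mk, AddHom.coe_mk, LinearMap.add_apply, LinearMap.smul_apply,
      LinearMap.sub_apply, Prod.fst_add, Prod.smul_fst, Prod.fst_sub, Pi.add_apply, Pi.smul_apply,
      Pi.sub_apply, mulVec_add, mulVec_smul, mulVec_sub, dotProduct_add, dotProduct_smul,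
      dotProduct_sub, smul_eq_mul]
    ring
  · funext h j
    simp only [LKs, LinearMap.coe_mk, AddHom.coe_mk, LinearMap.add_apply, LinearMap.smul_apply,
      LinearMap.sub_apply, Prod.snd_add, Prod.smul_snd, Prod.snd_sub, Prod.fst_add, Prod.smul_fst,
      Prod.fst_sub, Pi.add_apply, Pi.smul_apply,
      Pi.sub_apply, mulVec_add, mulVec_smul, mulVec_sub, dotProduct_add, dotProduct_smul,
      dotProduct_sub, smul_eq_mul]
    ring
  · show e.2 h0 = e.2 h0 + s • (e.2 h0 - e.2 h0)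
    rw [sub_self, smul_zero, add_zero]

/-- the genericity of the bodies attached to the plate -/
def LKp (b1 b2 : Fin μ → ℝ) (h0 : W) (g1 g2 : U) (q : U × W → Fin μ → ℝ) : Prop :=
  ∀ e, LKs b1 b2 h0 (fun h => q (g1, h)) (fun h => q (g2, h)) e = 0 → e = 0

variable [Finite U] [Fintype W]

theorem lkp_good (b1 b2 : Fin μ → ℝ) (h0 : W) (g1 g2 : U) :
    Good (fun q : U × W → Fin μ → ℝ => LKp b1 b2 h0 g1 g2 q) := by
  have := Fintype.ofFinite U
  exact good_inj (LKs_aff b1 b2 h0 g1 g2)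

theorem lkp_exists (hμ : 2 ≤ μ) (hW : μ * (μ + 1) ≤ Nat.card W) {b1 b2 : Fin μ → ℝ}
    (hb : LinearIndependent ℝ ![b1, b2]) (h0 : W) {g1 g2 : U} (h12 : g1 ≠ g2) :
    ∃ q : U × W → Fin μ → ℝ, LKp b1 b2 h0 g1 g2 q := by
  classical
  obtain ⟨q1, q2, h⟩ := t_LK μ hμ W hW b1 b2 hb h0
  refine ⟨fun x => if x.1 = g1 then q1 x.2 else q2 x.2, ?_⟩
  have e1 : (fun h : W => (fun x : U × W => if x.1 = g1 then q1 x.2 else q2 x.2) (g1, h)) = q1 := by
    funext h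
    simp
  have e2 : (fun h : W => (fun x : U × W => if x.1 = g1 then q1 x.2 else q2 x.2) (g2, h)) = q2 := by
    funext h
    simp [Ne.symm h12]
  unfold LKp
  rw [e1, e2]
  rintro ⟨⟨⟨⟨A1, hA1⟩, c1⟩, ⟨⟨A2, hA2⟩, c2⟩⟩, θ⟩ he
  have a1 := congrArg Prod.fst he
  have a2 := congrArg (fun z => z.2.1) he
  have a3 : θ h0 = 0 := congrArg (fun z => z.2.2) he
  obtain ⟨r1, r2, r3, r4, r5, r6⟩ := h A1 A2 c1 c2 (fun h => (θ h).1) (fun h => (θ h).2) hA1 hA2
    (fun h => sub_eq_zero.1 (congrFun a1 h)) (fun h => sub_eq_zero.1 (congrFun a2 h))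
    (congrArg Prod.fst a3) (congrArg Prod.snd a3)
  refine Prod.ext (Prod.ext (Prod.ext (Subtype.ext r1) r2) (Prod.ext (Subtype.ext r3) r4)) ?_
  funext h
  exact Prod.ext (congrFun r5 h) (congrFun r6 h)

theorem big_skew {A : Matrix (Fin μ) (Fin μ) ℝ} (hA : Aᵀ = -A) (g : Fin μ → ℝ) :
    ∃ T : Matrix (Fin (μ + 1)) (Fin (μ + 1)) ℝ, Tᵀ = -T ∧ ∀ (s : ℝ) (y : Fin μ → ℝ),
      T *ᵥ vecCons s y = vecCons (g ⬝ᵥ y) (A *ᵥ y - s • g) := by
  have hA' : ∀ i j, A j i = - A i j := by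
    intro i j
    have := congrFun (congrFun hA i) j
    simpa using this
  let T : Matrix (Fin (μ + 1)) (Fin (μ + 1)) ℝ := fun i j =>
    Fin.cases (motive := fun _ => ℝ) (Fin.cases (motive := fun _ => ℝ) 0 g j)
      (fun i' => Fin.cases (motive := fun _ => ℝ) (- g i') (fun j' => A i' j') j) i
  have t00 : T 0 0 = 0 := rfl
  have t01 : ∀ j : Fin μ, T 0 j.succ = g j := fun j => rfl
  have t10 : ∀ i : Fin μ, T i.succ 0 = - g i := fun i => rfl
  have t11 : ∀ i j : Fin μ, T i.succ j.succ = A i j := fun i j => rfl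
  refine ⟨T, ?_, ?_⟩
  · ext i j
    rw [Matrix.transpose_apply, Matrix.neg_apply]
    refine Fin.cases ?_ (fun i => ?_) i
    · refine Fin.cases ?_ (fun j => ?_) j
      · rw [t00, neg_zero]
      · rw [t10, t01]
    · refine Fin.cases ?_ (fun j => ?_) j
      · rw [t01, t10, neg_neg]
      · rw [t11, t11, hA']
  · intro s y
    refine vec_ext ?_ ?_
    · simp only [mulVec, dotProduct, Fin.sum_univ_succ, t00, t01, cons_val_zero, cons_val_succ]
      ring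
    · funext i
      simp only [vecTail, Function.comp, mulVec, dotProduct, Fin.sum_univ_succ, t10, t11,
        cons_val_zero, cons_val_succ, Pi.sub_apply, Pi.smul_apply, smul_eq_mul]
      ring

/-- the solutions of the complete system: the bodies move equally -/
theorem az_const (hW : μ + 1 ≤ Nat.card W) {G : SimpleGraph U} {r : U → ℕ} {B : Set U}
    {β : U → Fin μ → ℝ} {b : Fin μ → ℝ} {g1 g2 : U} {h0 : W} {q : U × W → Fin μ → ℝ}
    (hq : Pos q) (hL : LKp (β g1 - b) (β g2 - b) h0 g1 g2 q) {e : ES U W μ}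
    (he : e ∈ AZ (XG G (⊤ : SimpleGraph W) r B) β b g1 g2 Finset.univ q) :
    ∀ h, e.2.2 h = e.2.2 h0 := by
  obtain ⟨m1, m2, m3⟩ := mem_AZ.1 he
  have hfib : ∀ (u : U) (h h' : W), (fl β q (u, h) - fl β q (u, h')) ⬝ᵥ
      (e.1 (u, h) - e.1 (u, h')) = 0 := by
    intro u h h'
    by_cases hh : h = h'
    · rw [hh, sub_self, zero_dotProduct]
    · exact m1 _ _ (Or.inl ⟨rfl, hh⟩)
  have key : ∀ u : U, (∀ h, eqn β b u q e h = 0) → ∃ (A : Matrix (Fin μ) (Fin μ) ℝ)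
      (c : Fin μ → ℝ), Aᵀ = -A ∧ ∀ h, A *ᵥ q (u, h) + c =
        ((e.2.2 h).1 + (e.2.2 h).2 ⬝ᵥ q (u, h)) • (β u - b) -
          ((β u - b) ⬝ᵥ q (u, h)) • (e.2.2 h).2 := by
    intro u hu
    obtain ⟨A, c, hA, hc⟩ := fl_motion hW hq (hfib u)
    refine ⟨A - e.2.1.1, c - e.2.1.2, ?_, fun h => ?_⟩
    · rw [transpose_sub, hA, e.2.1.1.2]
      abel
    · have a1 : (eqn β b u q e h).1 = 0 := by rw [hu h]; rfl
      have a2 : (eqn β b u q e h).2 = 0 := by rw [hu h]; rfl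
      rw [eqn_fst] at a1
      rw [eqn_snd] at a2
      have a3 : (e.2.2 h).1 + (e.2.2 h).2 ⬝ᵥ q (u, h) = e.1 (u, h) 0 := by linarith
      rw [a3]
      have a4 := sub_eq_zero.1 a2
      rw [← a4, sub_mulVec]
      unfold NN
      have a5 := hc h
      have a6 : A *ᵥ q (u, h) = vecTail (e.1 (u, h)) + e.1 (u, h) 0 • β u - c := by
        rw [a5]
        abel
      rw [a6, smul_sub]
      abel
  obtain ⟨A1, c1, hA1, hc1⟩ := key g1 m2
  obtain ⟨A2, c2, hA2, hc2⟩ := key g2 (fun h => m3 h (Finset.mem_univ h))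
  set γ0 := (e.2.2 h0).1 with hγ0
  set s0 := (e.2.2 h0).2 with hs0
  have hsk : ∀ d : Fin μ → ℝ, (vecMulVec d s0 - vecMulVec s0 d)ᵀ =
      -(vecMulVec d s0 - vecMulVec s0 d) := by
    intro d
    rw [transpose_sub, transpose_vecMulVec, transpose_vecMulVec]
    abel
  have hA1' : (A1 - (vecMulVec (β g1 - b) s0 - vecMulVec s0 (β g1 - b)))ᵀ =
      -(A1 - (vecMulVec (β g1 - b) s0 - vecMulVec s0 (β g1 - b))) := by
    rw [transpose_sub, hA1, hsk]
    abel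
  have hA2' : (A2 - (vecMulVec (β g2 - b) s0 - vecMulVec s0 (β g2 - b)))ᵀ =
      -(A2 - (vecMulVec (β g2 - b) s0 - vecMulVec s0 (β g2 - b))) := by
    rw [transpose_sub, hA2, hsk]
    abel
  have hz := hL ((((⟨_, hA1'⟩ : Sk μ), c1 - γ0 • (β g1 - b)),
    ((⟨_, hA2'⟩ : Sk μ), c2 - γ0 • (β g2 - b))), fun h => e.2.2 h - e.2.2 h0) (by
      refine Prod.ext ?_ (Prod.ext ?_ ?_)
      · funext h
        show (A1 - (vecMulVec (β g1 - b) s0 - vecMulVec s0 (β g1 - b))) *ᵥ q (g1, h) +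
          (c1 - γ0 • (β g1 - b)) - ((((e.2.2 h).1 - γ0) + ((e.2.2 h).2 - s0) ⬝ᵥ q (g1, h)) •
            (β g1 - b) - ((β g1 - b) ⬝ᵥ q (g1, h)) • ((e.2.2 h).2 - s0)) = 0
        have := hc1 h
        have e1 : A1 *ᵥ q (g1, h) = ((e.2.2 h).1 + (e.2.2 h).2 ⬝ᵥ q (g1, h)) • (β g1 - b) -
          ((β g1 - b) ⬝ᵥ q (g1, h)) • (e.2.2 h).2 - c1 := by
          rw [← this]
          abel
        rw [sub_mulVec, sub_mulVec, vecMulVec_mulVec, vecMulVec_mulVec, e1]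
        funext j
        simp only [Pi.add_apply, Pi.sub_apply, Pi.smul_apply, smul_eq_mul, sub_dotProduct,
          Pi.zero_apply, MulOpposite.smul_eq_mul_unop, MulOpposite.unop_op]
        ring
      · funext h
        show (A2 - (vecMulVec (β g2 - b) s0 - vecMulVec s0 (β g2 - b))) *ᵥ q (g2, h) +
          (c2 - γ0 • (β g2 - b)) - ((((e.2.2 h).1 - γ0) + ((e.2.2 h).2 - s0) ⬝ᵥ q (g2, h)) •
            (β g2 - b) - ((β g2 - b) ⬝ᵥ q (g2, h)) • ((e.2.2 h).2 - s0)) = 0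
        have := hc2 h
        have e1 : A2 *ᵥ q (g2, h) = ((e.2.2 h).1 + (e.2.2 h).2 ⬝ᵥ q (g2, h)) • (β g2 - b) -
          ((β g2 - b) ⬝ᵥ q (g2, h)) • (e.2.2 h).2 - c2 := by
          rw [← this]
          abel
        rw [sub_mulVec, sub_mulVec, vecMulVec_mulVec, vecMulVec_mulVec, e1]
        funext j
        simp only [Pi.add_apply, Pi.sub_apply, Pi.smul_apply, smul_eq_mul, sub_dotProduct,
          Pi.zero_apply, MulOpposite.smul_eq_mul_unop, MulOpposite.unop_op]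
        ring
      · exact sub_self _)
  intro h
  have h1 := congrArg Prod.snd hz
  exact sub_eq_zero.1 (congrFun h1 h)

/-- the common trivial motion -/
theorem az_triv (hW : μ + 1 ≤ Nat.card W) {G : SimpleGraph U} {r : U → ℕ} {B : Set U}
    {β : U → Fin μ → ℝ} {b : Fin μ → ℝ} {g1 g2 : U} {h0 : W} {q : U × W → Fin μ → ℝ}
    (hq : Pos q) (hL : LKp (β g1 - b) (β g2 - b) h0 g1 g2 q) {e : ES U W μ}
    (he : e ∈ AZ (XG G (⊤ : SimpleGraph W) r B) β b g1 g2 Finset.univ q) :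
    ∃ (T : Matrix (Fin (μ + 1)) (Fin (μ + 1)) ℝ) (t : Fin (μ + 1) → ℝ), Tᵀ = -T ∧
      ∀ u, u = g1 ∨ u = g2 → ∀ h, e.1 (u, h) = T *ᵥ fl β q (u, h) + t := by
  obtain ⟨m1, m2, m3⟩ := mem_AZ.1 he
  have hc := az_const hW hq hL he
  set γ0 := (e.2.2 h0).1 with hγ0
  set s0 := (e.2.2 h0).2 with hs0
  have hA : ((e.2.1.1 : Matrix (Fin μ) (Fin μ) ℝ) + (vecMulVec s0 b - vecMulVec b s0))ᵀ =
      -((e.2.1.1 : Matrix (Fin μ) (Fin μ) ℝ) + (vecMulVec s0 b - vecMulVec b s0)) := by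
    rw [transpose_add, transpose_sub, transpose_vecMulVec, transpose_vecMulVec, e.2.1.1.2]
    abel
  obtain ⟨T, hT, hT'⟩ := big_skew hA s0
  refine ⟨T, vecCons γ0 (e.2.1.2 - γ0 • b), hT, ?_⟩
  intro u hu h
  have a0 : eqn β b u q e h = 0 := by
    rcases hu with rfl | rfl
    · exact m2 h
    · exact m3 h (Finset.mem_univ h)
  have a1 : (eqn β b u q e h).1 = 0 := by rw [a0]; rfl
  have a2 : (eqn β b u q e h).2 = 0 := by rw [a0]; rfl
  rw [eqn_fst, hc h] at a1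
  rw [eqn_snd, hc h] at a2
  have e1 : fl β q (u, h) = vecCons (β u ⬝ᵥ q (u, h)) (q (u, h)) := rfl
  have a3 : e.1 (u, h) 0 = γ0 + s0 ⬝ᵥ q (u, h) := by
    rw [← hγ0, ← hs0] at a1
    linarith
  rw [e1, hT']
  refine vec_ext ?_ ?_
  · rw [a3]
    simp only [Pi.add_apply, cons_val_zero]
    ring
  · have a4 := sub_eq_zero.1 a2
    unfold NN at a4
    rw [a3] at a4
    have a5 : vecTail (e.1 (u, h)) = (e.2.1.1 : Matrix (Fin μ) (Fin μ) ℝ) *ᵥ q (u, h) + e.2.1.2 -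
        (γ0 + s0 ⬝ᵥ q (u, h)) • b - ((β u - b) ⬝ᵥ q (u, h)) • s0 := by
      rw [← hs0] at a4
      rw [← a4]
      abel
    rw [a5]
    have e2 : vecTail (vecCons (s0 ⬝ᵥ q (u, h)) (((e.2.1.1 : Matrix (Fin μ) (Fin μ) ℝ) +
        (vecMulVec s0 b - vecMulVec b s0)) *ᵥ q (u, h) - (β u ⬝ᵥ q (u, h)) • s0) +
        vecCons γ0 (e.2.1.2 - γ0 • b)) = (((e.2.1.1 : Matrix (Fin μ) (Fin μ) ℝ) +
        (vecMulVec s0 b - vecMulVec b s0)) *ᵥ q (u, h) - (β u ⬝ᵥ q (u, h)) • s0) +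
        (e.2.1.2 - γ0 • b) := rfl
    rw [e2, add_mulVec, sub_mulVec, vecMulVec_mulVec, vecMulVec_mulVec]
    funext j
    simp only [Pi.add_apply, Pi.sub_apply, Pi.smul_apply, smul_eq_mul, sub_dotProduct,
      MulOpposite.smul_eq_mul_unop, MulOpposite.unop_op]
    ring

end Pool.Agent.T2h34.RK
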