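import Mathlib
import Pool.Agent.T2h34.RK.LKU

set_option autoImplicit false
set_option linter.unusedSectionVars false

/-! Plates with two neighbours. -/

namespace Pool.Agent.T2h34.RK

open Matrix Pool.Agent.H283R2.DR Pool.Agent.H283R2.DR.TA Pool.Agent.H789R5 Pool.Agent.T2h34.CP

variable {U W : Type} {μ : ℕ}

section

variable [Finite U] [Fintype W]

/-- the solutions of the complete system come from the structure in which the neighbours are
merged -/
theorem az_univ (hW : μ + 1 ≤ Nat.card W) {G : SimpleGraph U} {r : U → ℕ} {B : Set U}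
    (hI : Inv r B) (hB : Bod r B) {β : U → Fin μ → ℝ} (hβ : ∀ x y, x ≠ y → β x ≠ β y)
    {b : Fin μ → ℝ} {g1 g2 : U} {h0 : W} {q : U × W → Fin μ → ℝ}
    (hq : Pos q) (hL : LKp (β g1 - b) (β g2 - b) h0 g1 g2 q) :
    Module.finrank ℝ (AZ (XG G (⊤ : SimpleGraph W) r B) β b g1 g2 Finset.univ q) ≤
      mo (XG G (⊤ : SimpleGraph W) (mrg {x | r x = r g1 ∨ r x = r g2} (r g1) r)
        (B ∪ {x | r x = r g1 ∨ r x = r g2})) (fl β q) := by
  have := Fintype.ofFinite U
  set C : Set U := {x | r x = r g1 ∨ r x = r g2} with hCdef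
  have hC : ∀ x y, r x = r y → x ∈ C → y ∈ C := by
    rintro x y hxy (h | h)
    · exact Or.inl (hxy.symm.trans h)
    · exact Or.inr (hxy.symm.trans h)
  refine dim_le_of_inj (LinearMap.fst ℝ _ _) (Mot (XG G (⊤ : SimpleGraph W) (mrg C (r g1) r)
    (B ∪ C)) (fl β q)) ?_ ?_
  · intro e he
    obtain ⟨m1, m2, m3⟩ := mem_AZ.1 he
    obtain ⟨T, t, hT, ht⟩ := az_triv hW hq hL he
    rw [mem_mot]
    show IsMotion _ (fl β q) e.1
    -- the motion on the merged class
    have hcl : ∀ u, (u = g1 ∨ u = g2) → ∀ x, r x = r u → ∀ h, e.1 (x, h) = T *ᵥ fl β q (x, h) + t := by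
      intro u hu x hx h
      by_cases huB : u ∈ B
      · obtain ⟨y, hy1, hy2⟩ := hB u huB
        have hinB : ∀ z, r z = r u → z ∈ B := by
          intro z hz
          by_contra hzB
          have := hI z hzB u hz.symm
          rw [this] at huB
          exact hzB huB
        obtain ⟨A', b', hA', hb'⟩ := fl_rigid hW hq (v := e.1) (U := {z | r z.1 = r u}) (by
          intro z hz z' hz'
          by_cases hzz : z = z'
          · rw [hzz, sub_self, zero_dotProduct]
          · exact m1 z z' (Or.inr (Or.inr ⟨hzz, hinB _ hz, hinB _ hz', by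
              rw [Set.mem_ofPred_eq] at hz hz'
              rw [hz, hz']⟩))) (x := u) (y := y) (fun h => rfl) (fun h => hy2)
          (hβ _ _ hy1.symm)
        have h1 : ∀ h, (A' - T) *ᵥ fl β q (u, h) + (b' - t) = 0 := by
          intro h
          have e1 := hb' (u, h) rfl
          have e2 := ht u hu h
          rw [e1] at e2
          rw [sub_mulVec]
          have e3 : A' *ᵥ fl β q (u, h) - T *ᵥ fl β q (u, h) + (b' - t) =
            (A' *ᵥ fl β q (u, h) + b') - (T *ᵥ fl β q (u, h) + t) := by abel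
          rw [e3, e2, sub_self]
        obtain ⟨e4, e5⟩ := fl_triv hW hq (A := A' - T) (c := b' - t) (by
          rw [transpose_sub, hA', hT]
          abel) (g := u) h1
        have e6 := hb' (x, h) hx
        rw [e6, sub_eq_zero.1 e4, sub_eq_zero.1 e5]
      · have : x = u := hI u huB x hx
        rw [this]
        exact ht u hu h
    rintro z z' (⟨e1, e2⟩ | ⟨e1, e2⟩ | ⟨e1, e2, e3, e4⟩)
    · exact m1 z z' (Or.inl ⟨e1, e2⟩)
    · exact m1 z z' (Or.inr (Or.inl ⟨e1, e2⟩))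
    · rcases mrg_eq hC (x0 := g1) (Or.inl rfl) e4 with ⟨e5, e6⟩ | ⟨e5, e6, e7⟩
      · have a1 : e.1 z = T *ᵥ fl β q z + t := by
          rcases e5 with h | h
          · exact hcl g1 (Or.inl rfl) z.1 h z.2
          · exact hcl g2 (Or.inr rfl) z.1 h z.2
        have a2 : e.1 z' = T *ᵥ fl β q z' + t := by
          rcases e6 with h | h
          · exact hcl g1 (Or.inl rfl) z'.1 h z'.2
          · exact hcl g2 (Or.inr rfl) z'.1 h z'.2
        rw [a1, a2]
        exact triv_pair hT t _ _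
      · refine m1 z z' (Or.inr (Or.inr ⟨e1, ?_, ?_, e7⟩))
        · exact e2.resolve_right e5
        · exact e3.resolve_right e6
  · intro e he h0'
    obtain ⟨m1, m2, m3⟩ := mem_AZ.1 he
    have hx : e.1 = 0 := h0'
    have hc := az_const hW hq hL he
    have hq1 : Pos (fun h => q (g1, h)) := pos_comp hq (fun a b hab => congrArg Prod.snd hab)
    have h1 : ∀ h, (e.2.2 h0).1 + (e.2.2 h0).2 ⬝ᵥ q (g1, h) = 0 := by
      intro h
      have a1 : (eqn β b g1 q e h).1 = 0 := by rw [m2 h]; rfl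
      rw [eqn_fst, hc h, hx] at a1
      simp only [Pi.zero_apply] at a1
      linarith
    obtain ⟨h2, h3⟩ := pos_affine hq1 hW h1
    have h4 : ∀ h, (e.2.1.1 : Matrix (Fin μ) (Fin μ) ℝ) *ᵥ q (g1, h) + e.2.1.2 = 0 := by
      intro h
      have a2 : (eqn β b g1 q e h).2 = 0 := by rw [m2 h]; rfl
      rw [eqn_snd, hc h, h3, smul_zero, sub_zero] at a2
      unfold NN at a2
      rw [hx] at a2
      simp only [Pi.zero_apply, zero_smul, sub_zero] at a2
      have e0 : vecTail (0 : Fin (μ + 1) → ℝ) = 0 := rfl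
      rw [e0, sub_zero] at a2
      exact a2
    obtain ⟨h5, h6⟩ := pos_triv hq1 hW e.2.1.1.2 h4
    refine Prod.ext hx (Prod.ext (Prod.ext (Subtype.ext h5) h6) (funext fun h => ?_))
    rw [hc h]
    exact Prod.ext h2 h3

/-- the residual of the second neighbour in the form of an affine function -/
def DD2 (β : U → Fin μ → ℝ) (b : Fin μ → ℝ) (g2 : U) (q : U × W → Fin μ → ℝ) (h : W) :
    ES U W μ →ₗ[ℝ] ℝ × (Fin μ → ℝ) where
  toFun e := (((β g2 - b) ⬝ᵥ q (g2, h)) * (eqn β b g2 q e h).1 - q (g2, h) ⬝ᵥ (eqn β b g2 q e h).2,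
    (eqn β b g2 q e h).2)
  map_add' e e' := by
    rw [map_add]
    refine Prod.ext ?_ rfl
    simp only [Prod.fst_add, Prod.snd_add, Pi.add_apply, dotProduct_add]
    ring
  map_smul' c e := by
    rw [map_smul]
    refine Prod.ext ?_ rfl
    simp only [Prod.smul_fst, Prod.smul_snd, Pi.smul_apply, dotProduct_smul, smul_eq_mul,
      RingHom.id_apply]
    ring

theorem LZ_eq {X : SimpleGraph (U × W)} {β : U → Fin μ → ℝ} {b : Fin μ → ℝ} {g1 g2 : U}
    {q : U × W → Fin μ → ℝ} (h2 : ∀ h, (β g2 - b) ⬝ᵥ q (g2, h) ≠ 0) (Z : Finset W) :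
    LZ (AZ X β b g1 g2 ∅ q) (DD2 β b g2 q) Z ≤ AZ X β b g1 g2 Z q := by
  intro e he
  obtain ⟨h3, h4⟩ := mem_LZ.1 he
  rw [mem_AZ] at h3 ⊢
  refine ⟨h3.1, h3.2.1, fun h hh => ?_⟩
  have h5 := h4 h hh
  have h6 : (eqn β b g2 q e h).2 = 0 := congrArg Prod.snd h5
  have h7 : ((β g2 - b) ⬝ᵥ q (g2, h)) * (eqn β b g2 q e h).1 -
    q (g2, h) ⬝ᵥ (eqn β b g2 q e h).2 = 0 := congrArg Prod.fst h5
  rw [h6, dotProduct_zero, sub_zero] at h7
  exact Prod.ext ((mul_eq_zero.1 h7).resolve_left (h2 h)) h6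

end

/-- the equation of a rung -/
theorem rung_eq {β1 b q1 y : Fin μ → ℝ} {x1 v : Fin (μ + 1) → ℝ} {A : Matrix (Fin μ) (Fin μ) ℝ}
    {c : Fin μ → ℝ} (hA : Aᵀ = -A) (hv : vecTail v + v 0 • b = A *ᵥ y + c) :
    ((vecCons (β1 ⬝ᵥ q1) q1 : Fin (μ + 1) → ℝ) - vecCons (b ⬝ᵥ y) y) ⬝ᵥ (x1 - v) =
      (x1 0 - v 0) * ((β1 - b) ⬝ᵥ q1) -
        (q1 - y) ⬝ᵥ (A *ᵥ q1 + c - vecTail x1 - x1 0 • b) := by
  have h1 : vecTail v = A *ᵥ y + c - v 0 • b := by
    rw [← hv]
    abel
  rw [dot_split]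
  have e1 : vecTail ((vecCons (β1 ⬝ᵥ q1) q1 : Fin (μ + 1) → ℝ) - vecCons (b ⬝ᵥ y) y) = q1 - y := rfl
  have e2 : vecTail (x1 - v) = vecTail x1 - vecTail v := rfl
  rw [e1, e2, h1]
  simp only [Pi.sub_apply, cons_val_zero]
  have h2 : (q1 - y) ⬝ᵥ (A *ᵥ q1) = (q1 - y) ⬝ᵥ (A *ᵥ y) := by
    have := skew_self' hA (q1 - y)
    rw [mulVec_sub, dotProduct_sub] at this
    linarith
  simp only [dotProduct_sub, dotProduct_add, dotProduct_smul, smul_eq_mul] at *
  rw [h2, sub_dotProduct β1, sub_dotProduct q1 y b, dotProduct_comm q1 b, dotProduct_comm y b]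
  ring

/-- **Plates with two neighbours.** -/
theorem st2 {V : Type} [Finite V] [Fintype W] (hμ : 2 ≤ μ) (hW : μ * (μ + 1) ≤ Nat.card W)
    (G : SimpleGraph V) (r : V → ℕ) (B : Set V) (hI : Inv r B) (hB : Bod r B)
    (β : V → Fin μ → ℝ) (hβ : Pos β) (g : V) (hg : g ∉ B) (g1 g2 : {x // x ≠ g})
    (h1 : G.Adj g g1) (h2 : G.Adj g g2) (h12 : g1 ≠ g2) {κ0 κm : ℕ}
    (hκ0 : ∃ q : {x // x ≠ g} × W → Fin μ → ℝ,
      mo (XG (SG G (fun x => x ≠ g)) (⊤ : SimpleGraph W) (fun x => r x.1) (Subtype.val ⁻¹' B))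
        (fl (fun x => β x.1) q) ≤ κ0)
    (hκm : ∃ q : {x // x ≠ g} × W → Fin μ → ℝ,
      mo (XG (SG G (fun x => x ≠ g)) (⊤ : SimpleGraph W)
        (mrg {x | r x.1 = r g1.1 ∨ r x.1 = r g2.1} (r g1.1) (fun x => r x.1))
        (Subtype.val ⁻¹' B ∪ {x | r x.1 = r g1.1 ∨ r x.1 = r g2.1}))
        (fl (fun x => β x.1) q) ≤ κm) :
    ∃ q : V × W → Fin μ → ℝ,
      mo (XG G (⊤ : SimpleGraph W) r B) (fl β q) + Nat.card W ≤ κ0 + μ * (μ + 1) / 2 ∨
      mo (XG G (⊤ : SimpleGraph W) r B) (fl β q) ≤ κm := by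
  classical
  have := Fintype.ofFinite V
  have hWpos : μ + 1 ≤ Nat.card W := by nlinarith
  have hWne : Nonempty W := by
    rw [← Finite.card_pos_iff]
    omega
  obtain ⟨h0⟩ := hWne
  -- the slopes
  have hβinj : ∀ x y : V, x ≠ y → β x ≠ β y := by
    intro x y hxy h
    have h3 := hβ 2 ![x, y] (by omega) (by
      intro i j hij
      fin_cases i <;> fin_cases j <;> simp_all)
    have h4 := h3.injective.ne (show (0 : Fin 2) ≠ 1 by decide)
    exact h4 h
  have hg1 : g1.1 ≠ g := g1.2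
  have hg2 : g2.1 ≠ g := g2.2
  have hg12 : g1.1 ≠ g2.1 := fun h => h12 (Subtype.ext h)
  have hβlin : LinearIndependent ℝ ![β g1 - β g, β g2 - β g] := by
    have h3 := hβ 3 ![g, g1, g2] (by omega) (by
      intro i j hij
      fin_cases i <;> fin_cases j <;> simp_all)
    rw [affineIndependent_iff_linearIndependent_vsub ℝ _ (0 : Fin 3)] at h3
    have h4 := h3.comp (fun i : Fin 2 => (⟨i.succ, Fin.succ_ne_zero i⟩ : {x : Fin 3 // x ≠ 0}))
      (fun i j hij => Fin.succ_injective _ (congrArg Subtype.val hij))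
    have e : ![β g1 - β g, β g2 - β g] = (fun i : {x : Fin 3 // x ≠ 0} =>
        β (![g, g1.1, g2.1] i) -ᵥ β (![g, g1.1, g2.1] 0)) ∘
        (fun i : Fin 2 => (⟨i.succ, Fin.succ_ne_zero i⟩ : {x : Fin 3 // x ≠ 0})) := by
      funext i
      fin_cases i <;> rfl
    rw [e]
    exact h4
  set G' := SG G (fun x => x ≠ g) with hG'
  set r' : {x // x ≠ g} → ℕ := fun x => r x.1 with hr'
  set B' : Set {x // x ≠ g} := Subtype.val ⁻¹' B with hB'
  set β' : {x // x ≠ g} → Fin μ → ℝ := fun x => β x.1 with hβ'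
  set X := XG G' (⊤ : SimpleGraph W) r' B' with hX
  set C : Set {x // x ≠ g} := {x | r' x = r' g1 ∨ r' x = r' g2} with hC
  have hI' : Inv r' B' := by
    intro x hx y hy
    exact Subtype.ext (hI x.1 hx y.1 hy)
  have hBod' : Bod r' B' := by
    intro x hx
    obtain ⟨y, hy1, hy2⟩ := hB x.1 hx
    have hyg : y ≠ g := by
      intro h
      rw [h] at hy2
      have := hI g hg x.1 hy2.symm
      exact x.2 this
    exact ⟨⟨y, hyg⟩, fun h => hy1 (congrArg Subtype.val h), hy2⟩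
  -- the choice of the placement of the other plates
  have gd : ∀ u : {x // x ≠ g}, ∀ h : W, Good (fun q : {x // x ≠ g} × W → Fin μ → ℝ =>
      (β' u - β g) ⬝ᵥ q (u, h) ≠ 0) := by
    intro u h
    refine good_ne (F := fun q : {x // x ≠ g} × W → Fin μ → ℝ => (β' u - β g) ⬝ᵥ q (u, h)) ?_
    intro p0 p1 s
    simp only [Pi.add_apply, Pi.smul_apply, Pi.sub_apply, dotProduct_add, dotProduct_smul,
      dotProduct_sub, smul_eq_mul]
  have ed : ∀ u : {x // x ≠ g}, ∀ h : W, ∃ q : {x // x ≠ g} × W → Fin μ → ℝ,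
      (β' u - β g) ⬝ᵥ q (u, h) ≠ 0 := by
    intro u h
    refine ⟨fun _ => β' u - β g, ?_⟩
    intro hz
    rw [dotProduct_self_eq_zero] at hz
    exact hβinj u.1 g u.2 (sub_eq_zero.1 hz)
  have G1 := fl_mo_good X β' κ0
  have G2 := fl_mo_good (XG G' (⊤ : SimpleGraph W) (mrg C (r' g1) r') (B' ∪ C)) β' κm
  have G3 := pos_good ({x // x ≠ g} × W) μ
  have G4 := good_forall (fun h => gd g1 h)
  have G5 := good_forall (fun h => gd g2 h)
  have G6 := gz_good X β' (β g) g1 g2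
  have G7 := lkp_good (U := {x // x ≠ g}) (β' g1 - β g) (β' g2 - β g) h0 g1 g2
  have E4 := good_family _ (fun h => gd g1 h) (fun h => ed g1 h)
  have E5 := good_family _ (fun h => gd g2 h) (fun h => ed g2 h)
  have E67 := good_and_exists G6 G7 (gz_exists X β' (β g) g1 g2)
    (lkp_exists hμ hW hβlin h0 h12)
  have E57 := good_and_exists G5 (good_and G6 G7) E5 E67
  have E47 := good_and_exists G4 (good_and G5 (good_and G6 G7)) E4 E57
  have E37 := good_and_exists G3 (good_and G4 (good_and G5 (good_and G6 G7)))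
    (pos_exists ({x // x ≠ g} × W) μ) E47
  have E27 := good_and_exists G2 (good_and G3 (good_and G4 (good_and G5 (good_and G6 G7))))
    hκm E37
  obtain ⟨q', q1, q2, q3, q4, q5, q6, q7⟩ := good_and_exists G1 (good_and G2 (good_and G3
    (good_and G4 (good_and G5 (good_and G6 G7))))) hκ0 E27
  -- the choice of the placement of the plate `g`
  obtain ⟨y, y1, y2⟩ := good_and_exists (ge_good (AZ X β' (β g) g1 g2 ∅ q')
    (DD2 β' (β g) g2 q')) (pos_good W μ) (ge_exists _ _) (pos_exists W μ)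
  obtain ⟨Z, hZ⟩ := gel _ _ y1
  -- the placement
  let q : V × W → Fin μ → ℝ := fun x => if h : x.1 ≠ g then q' (⟨x.1, h⟩, x.2) else y x.2
  have hqg : ∀ h, q (g, h) = y h := fun h => dif_neg (by simp)
  have hqr : res (fun x => x ≠ g) q = q' := by
    funext ⟨⟨x, hx⟩, h⟩
    exact dif_pos hx
  refine ⟨q, ?_⟩
  -- the motions come from the auxiliary system
  have hmain : mo (XG G (⊤ : SimpleGraph W) r B) (fl β q) ≤
      Module.finrank ℝ (AZ X β' (β g) g1 g2 ∅ q' ⊓ LinearMap.ker (Ev (DD2 β' (β g) g2 q') y) :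
        Submodule ℝ (ES {x // x ≠ g} W μ)) := by
    let Ψ : ES {x // x ≠ g} W μ →ₗ[ℝ] (V × W → Fin (μ + 1) → ℝ) :=
      { toFun := fun e z => if h : z.1 ≠ g then e.1 (⟨z.1, h⟩, z.2) else
          vecCons ((e.2.2 z.2).1 + (e.2.2 z.2).2 ⬝ᵥ y z.2)
            ((e.2.1.1 : Matrix (Fin μ) (Fin μ) ℝ) *ᵥ y z.2 + e.2.1.2 -
              ((e.2.2 z.2).1 + (e.2.2 z.2).2 ⬝ᵥ y z.2) • β g)
        map_add' := by
          intro e e'
          funext z
          by_cases h : z.1 ≠ g
          · simp only [h, dif_pos, Pi.add_apply, Prod.fst_add, ne_eq, not_false_eq_true]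
          · simp only [h, dif_neg, Pi.add_apply, not_false_eq_true]
            refine vec_ext ?_ ?_
            · simp only [cons_val_zero, Pi.add_apply, Prod.fst_add, Prod.snd_add, add_dotProduct]
              ring
            · funext j
              simp only [vecTail, Function.comp, cons_val_succ, Pi.add_apply, Prod.fst_add,
                Prod.snd_add, Submodule.coe_add, add_mulVec, add_dotProduct, Pi.sub_apply,
                Pi.smul_apply, smul_eq_mul]
              ring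
        map_smul' := by
          intro c e
          funext z
          by_cases h : z.1 ≠ g
          · simp only [h, dif_pos, Pi.smul_apply, Prod.smul_fst, ne_eq, not_false_eq_true,
              RingHom.id_apply]
          · simp only [h, dif_neg, Pi.smul_apply, not_false_eq_true, RingHom.id_apply]
            refine vec_ext ?_ ?_
            · simp only [cons_val_zero, Pi.smul_apply, Prod.smul_fst, Prod.smul_snd,
                smul_dotProduct, smul_eq_mul]
              ring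
            · funext j
              simp only [vecTail, Function.comp, cons_val_succ, Pi.smul_apply, Prod.smul_fst,
                Prod.smul_snd, Submodule.coe_smul, smul_mulVec, smul_dotProduct, Pi.sub_apply,
                Pi.add_apply, smul_eq_mul]
              ring }
    refine le_trans (Submodule.finrank_mono (t := (AZ X β' (β g) g1 g2 ∅ q' ⊓ LinearMap.ker
      (Ev (DD2 β' (β g) g2 q') y)).map Ψ) ?_) (Submodule.finrank_map_le _ _)
    intro v hv
    have hv1 := res_mot G (fun x => x ≠ g) r B β q hv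
    rw [hqr] at hv1
    rw [mem_mot] at hv
    -- the fibre of `g`
    obtain ⟨A, c, hA, hc⟩ := pos_rigid y2 hWpos
      (v := fun h => vecTail (v (g, h)) + v (g, h) 0 • β g) (by
        intro h h'
        have := fl_pair β q v g h h'
        rw [hqg, hqg] at this
        rw [← this]
        by_cases hh : h = h'
        · rw [hh, sub_self, zero_dotProduct]
        · exact hv _ _ (Or.inl ⟨rfl, hh⟩))
    set x := res (fun x => x ≠ g) v with hx
    have hfl : ∀ (u : {x // x ≠ g}) (h : W), fl β q (u.1, h) =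
        vecCons (β' u ⬝ᵥ q' (u, h)) (q' (u, h)) := by
      intro u h
      have : q (u.1, h) = q' (u, h) := by
        rw [← hqr]
        rfl
      show vecCons (β u.1 ⬝ᵥ q (u.1, h)) (q (u.1, h)) = _
      rw [this]
    have hflg : ∀ h, fl β q (g, h) = vecCons (β g ⬝ᵥ y h) (y h) := by
      intro h
      show vecCons (β g ⬝ᵥ q (g, h)) (q (g, h)) = _
      rw [hqg]
    have hrung : ∀ (u : {x // x ≠ g}), G.Adj g u → ∀ h,
        (x (u, h) 0 - v (g, h) 0) * ((β' u - β g) ⬝ᵥ q' (u, h)) -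
        (q' (u, h) - y h) ⬝ᵥ (A *ᵥ q' (u, h) + c - vecTail (x (u, h)) - x (u, h) 0 • β g) = 0 := by
      intro u hu h
      rw [← rung_eq hA (hc h), ← hfl, ← hflg]
      exact hv (u.1, h) (g, h) (Or.inr (Or.inl ⟨rfl, hu.symm⟩))
    let N1 : W → Fin μ → ℝ := fun h =>
      A *ᵥ q' (g1, h) + c - vecTail (x (g1, h)) - x (g1, h) 0 • β g
    obtain ⟨s1, hs1⟩ : ∃ s1 : W → Fin μ → ℝ, ∀ h,
        ((β' g1 - β g) ⬝ᵥ q' (g1, h)) • s1 h = N1 h :=
      ⟨fun h => ((β' g1 - β g) ⬝ᵥ q' (g1, h))⁻¹ • N1 h, fun h => by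
        rw [smul_smul, mul_inv_cancel₀ (q4 h), one_smul]⟩
    let e : ES {x // x ≠ g} W μ :=
      (x, ((⟨A, hA⟩, c), fun h => (x (g1, h) 0 - s1 h ⬝ᵥ q' (g1, h), s1 h)))
    -- the velocity of the plate
    have hw : ∀ h, v (g, h) 0 = (x (g1, h) 0 - s1 h ⬝ᵥ q' (g1, h)) + s1 h ⬝ᵥ y h := by
      intro h
      have a1 := hrung g1 h1 h
      have a2 : (q' (g1, h) - y h) ⬝ᵥ (A *ᵥ q' (g1, h) + c - vecTail (x (g1, h)) -
          x (g1, h) 0 • β g) = ((β' g1 - β g) ⬝ᵥ q' (g1, h)) *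
          ((q' (g1, h) - y h) ⬝ᵥ s1 h) := by
        have : A *ᵥ q' (g1, h) + c - vecTail (x (g1, h)) - x (g1, h) 0 • β g = N1 h := rfl
        rw [this, ← hs1 h, dotProduct_smul, smul_eq_mul]
      rw [a2] at a1
      have a3 : ((β' g1 - β g) ⬝ᵥ q' (g1, h)) * (x (g1, h) 0 - v (g, h) 0 -
          (q' (g1, h) - y h) ⬝ᵥ s1 h) = 0 := by linarith
      have a4 := (mul_eq_zero.1 a3).resolve_left (q4 h)
      rw [sub_dotProduct, dotProduct_comm (q' (g1, h)), dotProduct_comm (y h)] at a4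
      linarith
    refine ⟨e, ⟨?_, ?_⟩, ?_⟩
    · rw [SetLike.mem_coe, mem_AZ]
      refine ⟨(mem_mot _ _ _).1 hv1, fun h => ?_, fun h hh => absurd hh (Finset.notMem_empty h)⟩
      refine Prod.ext ?_ ?_
      · rw [eqn_fst]
        show x (g1, h) 0 - (x (g1, h) 0 - s1 h ⬝ᵥ q' (g1, h)) - s1 h ⬝ᵥ q' (g1, h) = 0
        ring
      · rw [eqn_snd]
        show N1 h - ((β' g1 - β g) ⬝ᵥ q' (g1, h)) • s1 h = 0
        rw [hs1, sub_self]
    · rw [SetLike.mem_coe, LinearMap.mem_ker]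
      funext h
      rw [Ev_apply]
      have a1 := hrung g2 h2 h
      have a5 := hw h
      show (((β' g2 - β g) ⬝ᵥ q' (g2, h)) * (x (g2, h) 0 - (x (g1, h) 0 - s1 h ⬝ᵥ q' (g1, h)) -
        s1 h ⬝ᵥ q' (g2, h)) - q' (g2, h) ⬝ᵥ ((A *ᵥ q' (g2, h) + c - vecTail (x (g2, h)) -
          x (g2, h) 0 • β g) - ((β' g2 - β g) ⬝ᵥ q' (g2, h)) • s1 h)) +
        ((A *ᵥ q' (g2, h) + c - vecTail (x (g2, h)) -
          x (g2, h) 0 • β g) - ((β' g2 - β g) ⬝ᵥ q' (g2, h)) • s1 h) ⬝ᵥ y h = 0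
      have a6 : x (g1, h) 0 - s1 h ⬝ᵥ q' (g1, h) = v (g, h) 0 - s1 h ⬝ᵥ y h := by linarith
      rw [a6]
      set N2 := A *ᵥ q' (g2, h) + c - vecTail (x (g2, h)) - x (g2, h) 0 • β g with hN2
      rw [sub_dotProduct (q' (g2, h))] at a1
      rw [dotProduct_sub (q' (g2, h)), sub_dotProduct N2, dotProduct_smul, smul_dotProduct,
        dotProduct_comm N2 (y h), dotProduct_comm (q' (g2, h)) (s1 h), smul_eq_mul, smul_eq_mul]
      linear_combination a1
    · funext z
      obtain ⟨z1, z2⟩ := z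
      by_cases hz : z1 ≠ g
      · exact dif_pos hz
      · rw [not_not] at hz
        subst hz
        refine (dif_neg (by simp)).trans ?_
        show vecCons ((x (g1, z2) 0 - s1 z2 ⬝ᵥ q' (g1, z2)) + s1 z2 ⬝ᵥ y z2)
          (A *ᵥ y z2 + c - ((x (g1, z2) 0 - s1 z2 ⬝ᵥ q' (g1, z2)) + s1 z2 ⬝ᵥ y z2) • β z1) =
          v (z1, z2)
        rw [← hw z2]
        refine vec_ext rfl ?_
        have a7 := hc z2
        show A *ᵥ y z2 + c - v (z1, z2) 0 • β z1 = vecTail (v (z1, z2))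
        rw [← a7]
        abel
  have hWc : Nat.card W = Fintype.card W := Nat.card_eq_fintype_card
  have e1 := Submodule.finrank_mono (LZ_eq (X := X) (g1 := g1) q5 Z)
  have e2 := AZ_empty (X := X) (β := β') (b := β g) (g1 := g1) (g2 := g2) (q := q') q4
  have e3 : Module.finrank ℝ (AZ X β' (β g) g1 g2 Finset.univ q') ≤
      mo (XG G' (⊤ : SimpleGraph W) (mrg C (r' g1) r') (B' ∪ C)) (fl β' q') := az_univ hWpos hI' hBod' (β := β') (fun x y hxy => hβinj x.1 y.1
    (fun h => hxy (Subtype.ext h))) (G := G') q3 q7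
  have e0 : mo X (fl β' q') ≤ κ0 := q1
  rcases AZ_dich G' r' B' β' (β g) g1 g2 q6 Z with e4 | e4
  · left
    rw [← hX] at e4
    omega
  · right
    rw [← hX] at e4
    have e5 := Submodule.finrank_mono e4
    have e6 : Z.card ≤ Fintype.card W := Finset.card_le_univ Z
    have e7 : mo (XG G' (⊤ : SimpleGraph W) (mrg C (r' g1) r') (B' ∪ C)) (fl β' q') ≤ κm := q2
    omega

end Pool.Agent.T2h34.RK
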