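import Mathlib
import Pool.Agent.T2h34.RK.Bas

set_option autoImplicit false

/-! Task REMA: adding a plate as a class of its own. -/

namespace Pool.Agent.T2h34.RK

theorem rng_add {α V : Type} (f' : α → ℕ) (f : V → ℕ) (v : α → V) (h1 : ∀ y, f (v y) = f' y + 1)
    (h2 : ∀ x, (∃ y, v y = x) ∨ f x = 0) (h3 : ∃ x, f x = 0) [Finite α] :
    cls f = cls f' + 1 := by
  unfold cls
  have e : Set.range f = insert 0 ((fun m : ℕ => m + 1) '' Set.range f') := by
    ext m
    constructor
    · rintro ⟨x, rfl⟩
      rcases h2 x with ⟨y, rfl⟩ | h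
      · right
        exact ⟨f' y, ⟨y, rfl⟩, (h1 y).symm⟩
      · left
        exact h
    · rintro (h | ⟨_, ⟨y, rfl⟩, rfl⟩)
      · obtain ⟨x, hx⟩ := h3
        exact ⟨x, by rw [hx, h]⟩
      · exact ⟨v y, h1 y⟩
  rw [e, Set.ncard_insert_of_notMem, Set.ncard_image_of_injective _ (add_left_injective 1)]
  rintro ⟨m, _, hm⟩
  exact Nat.succ_ne_zero m hm

theorem t_REMA : S_REMA := by
  intro V _ G B n k D g hg f'
  classical
  let f : V → ℕ := fun x => if h : x = g then 0 else f' ⟨x, h⟩ + 1
  have f1 : ∀ y : {x // x ≠ g}, f y = f' y + 1 := by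
    intro y
    show (if h : (y : V) = g then 0 else f' ⟨y, h⟩ + 1) = _
    rw [dif_neg y.2]
  have f2 : f g = 0 := dif_pos rfl
  refine ⟨f, ?_, ?_, ?_⟩
  · intro x y
    rw [f1, f1]
    omega
  · intro y
    rw [f1, f2]
    omega
  · have c1 : cls f = cls f' + 1 := by
      apply rng_add f' f Subtype.val f1
      · intro x
        by_cases h : x = g
        · right
          rw [h, f2]
        · left
          exact ⟨⟨x, h⟩, rfl⟩
      · exact ⟨g, f2⟩
    have c2 : sing B f = sing (Subtype.val ⁻¹' B) f' + 1 := by
      unfold sing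
      have e : {x | x ∉ B ∧ ∀ y, f y = f x → y = x} =
          insert g (Subtype.val '' {x : {x // x ≠ g} | x ∉ (Subtype.val ⁻¹' B : Set {x // x ≠ g}) ∧
            ∀ y, f' y = f' x → y = x}) := by
        ext x
        constructor
        · rintro ⟨hx1, hx2⟩
          by_cases h : x = g
          · exact Or.inl h
          · right
            refine ⟨⟨x, h⟩, ⟨hx1, ?_⟩, rfl⟩
            intro y hy
            apply Subtype.ext
            apply hx2
            rw [f1]
            show _ = f ((⟨x, h⟩ : {x // x ≠ g}) : V)
            rw [f1, hy]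
        · rintro (rfl | ⟨x, ⟨hx1, hx2⟩, rfl⟩)
          · refine ⟨hg, ?_⟩
            intro y hy
            by_contra h
            have := f1 ⟨y, h⟩
            have h3 : f y = f' ⟨y, h⟩ + 1 := this
            rw [f2] at hy
            omega
          · refine ⟨hx1, ?_⟩
            intro y hy
            by_cases h : y = g
            · rw [h, f2, f1] at hy
              omega
            · have h3 : f y = f' ⟨y, h⟩ + 1 := f1 ⟨y, h⟩
              rw [h3, f1] at hy
              have h4 := hx2 ⟨y, h⟩ (by omega)
              exact congrArg Subtype.val h4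
      rw [e, Set.ncard_insert_of_notMem, Set.ncard_image_of_injective _ Subtype.val_injective]
      rintro ⟨x, _, hx⟩
      exact x.2 hx
    have c3 : pr G f = pr (G.comap (Subtype.val : {x // x ≠ g} → V)) f' +
        2 * {y | G.Adj g y}.ncard := by
      unfold pr
      have e : {z : V × V | G.Adj z.1 z.2 ∧ f z.1 ≠ f z.2} =
          (Prod.map Subtype.val Subtype.val '' {z : {x // x ≠ g} × {x // x ≠ g} |
            (G.comap (Subtype.val : {x // x ≠ g} → V)).Adj z.1 z.2 ∧ f' z.1 ≠ f' z.2}) ∪
          ((fun y => (g, y)) '' {y | G.Adj g y} ∪ (fun y => (y, g)) '' {y | G.Adj g y}) := by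
        ext z
        obtain ⟨x, y⟩ := z
        constructor
        · rintro ⟨h1, h2⟩
          simp only at h1 h2
          by_cases hx : x = g
          · right
            left
            subst hx
            exact ⟨y, h1, rfl⟩
          · by_cases hy : y = g
            · right
              right
              subst hy
              exact ⟨x, h1.symm, rfl⟩
            · left
              refine ⟨(⟨x, hx⟩, ⟨y, hy⟩), ⟨h1, ?_⟩, rfl⟩
              intro h3
              apply h2
              have h4 : f x = f' ⟨x, hx⟩ + 1 := f1 ⟨x, hx⟩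
              have h5 : f y = f' ⟨y, hy⟩ + 1 := f1 ⟨y, hy⟩
              rw [h4, h5]
              simp only at h3
              rw [h3]
        · rintro (⟨⟨x', y'⟩, ⟨h1, h2⟩, h3⟩ | ⟨y', h1, h3⟩ | ⟨y', h1, h3⟩)
          · simp only [Prod.map_apply, Prod.mk.injEq] at h3
            obtain ⟨rfl, rfl⟩ := h3
            refine ⟨h1, ?_⟩
            simp only at h2 ⊢
            rw [f1, f1]
            omega
          · simp only [Prod.mk.injEq] at h3
            obtain ⟨rfl, rfl⟩ := h3
            refine ⟨h1, ?_⟩
            have h1' : G.Adj g y' := h1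
            simp only
            have h5 : f y' = f' ⟨y', h1'.ne'⟩ + 1 := f1 ⟨y', h1'.ne'⟩
            rw [f2, h5]
            omega
          · simp only [Prod.mk.injEq] at h3
            obtain ⟨rfl, rfl⟩ := h3
            have h1' : G.Adj g y' := h1
            refine ⟨h1'.symm, ?_⟩
            simp only
            have h5 : f y' = f' ⟨y', h1'.ne'⟩ + 1 := f1 ⟨y', h1'.ne'⟩
            rw [f2, h5]
            omega
      rw [e, Set.ncard_union_eq, Set.ncard_union_eq, Set.ncard_image_of_injective,
        Set.ncard_image_of_injective, Set.ncard_image_of_injective, two_mul]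
      · intro a b h
        exact (Prod.mk.inj h).1
      · intro a b h
        exact (Prod.mk.inj h).2
      · exact Function.Injective.prodMap Subtype.val_injective Subtype.val_injective
      · rw [Set.disjoint_left]
        rintro _ ⟨y1, h1, rfl⟩ ⟨y2, h2, h3⟩
        simp only [Prod.mk.injEq] at h3
        have h2' : G.Adj g y2 := h2
        exact h2'.ne' h3.1
      · rw [Set.disjoint_left]
        rintro _ ⟨⟨x', y'⟩, _, rfl⟩ (⟨y1, h1, h3⟩ | ⟨y1, h1, h3⟩)
        · simp only [Prod.map_apply, Prod.mk.injEq] at h3
          exact x'.2 h3.1.symm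
        · simp only [Prod.map_apply, Prod.mk.injEq] at h3
          exact y'.2 h3.2.symm
    unfold val
    rw [c1, c2, c3]
    push_cast
    ring

end Pool.Agent.T2h34.RK
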