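import Mathlib
import Pool.Agent.T2h34.RK.T_REMA

set_option autoImplicit false

namespace Pool.Agent.T2h34.RK

theorem t_ISO : S_ISO := by
  intro V _ G B n k D r c hB hG hc f'
  classical
  let f : V → ℕ := fun x => if h : r x = c then 0 else f' ⟨x, h⟩ + 1
  have f2 : ∀ x, r x = c → f x = 0 := fun x h => dif_pos h
  have f3 : ∀ x (h : r x ≠ c), f x = f' ⟨x, h⟩ + 1 := fun x h => dif_neg h
  have f1 : ∀ y : {x // r x ≠ c}, f y = f' y + 1 := fun y => f3 y.1 y.2
  obtain ⟨a, ha⟩ := hc
  refine ⟨f, ?_, ?_, ?_⟩
  · intro x y
    rw [f1, f1]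
    omega
  · intro x y hx hy
    rw [f2 x hx, f2 y hy]
  · have c1 : cls f = cls f' + 1 := by
      apply rng_add f' f Subtype.val f1
      · intro x
        by_cases h : r x = c
        · right
          exact f2 x h
        · left
          exact ⟨⟨x, h⟩, rfl⟩
      · exact ⟨a, f2 a ha⟩
    have c2 : sing B f = sing (Subtype.val ⁻¹' B) f' := by
      unfold sing
      have e : {x | x ∉ B ∧ ∀ y, f y = f x → y = x} =
          (Subtype.val '' {x : {x // r x ≠ c} | x ∉ (Subtype.val ⁻¹' B : Set {x // r x ≠ c}) ∧
            ∀ y, f' y = f' x → y = x}) := by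
        ext x
        constructor
        · rintro ⟨hx1, hx2⟩
          by_cases h : r x = c
          · exact absurd (hB x h) hx1
          · refine ⟨⟨x, h⟩, ⟨hx1, ?_⟩, rfl⟩
            intro y hy
            apply Subtype.ext
            apply hx2
            rw [f1, hy, f3 x h]
        · rintro ⟨x, ⟨hx1, hx2⟩, rfl⟩
          refine ⟨hx1, ?_⟩
          intro y hy
          by_cases h : r y = c
          · exfalso
            rw [f2 y h, f1] at hy
            omega
          · rw [f3 y h, f1] at hy
            exact congrArg Subtype.val (hx2 ⟨y, h⟩ (by omega))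
      rw [e, Set.ncard_image_of_injective _ Subtype.val_injective]
    have c3 : pr G f = pr (G.comap (Subtype.val : {x // r x ≠ c} → V)) f' := by
      unfold pr
      have e : {z : V × V | G.Adj z.1 z.2 ∧ f z.1 ≠ f z.2} =
          (Prod.map Subtype.val Subtype.val '' {z : {x // r x ≠ c} × {x // r x ≠ c} |
            (G.comap (Subtype.val : {x // r x ≠ c} → V)).Adj z.1 z.2 ∧ f' z.1 ≠ f' z.2}) := by
        ext z
        obtain ⟨x, y⟩ := z
        constructor
        · rintro ⟨h1, h2⟩
          simp only at h1 h2
          by_cases hx : r x = c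
          · exfalso
            apply h2
            rw [f2 x hx, f2 y (hG x y hx h1)]
          · by_cases hy : r y = c
            · exfalso
              apply h2
              rw [f2 y hy, f2 x (hG y x hy h1.symm)]
            · refine ⟨(⟨x, hx⟩, ⟨y, hy⟩), ⟨h1, ?_⟩, rfl⟩
              intro h3
              apply h2
              rw [f3 x hx, f3 y hy]
              simp only at h3
              rw [h3]
        · rintro ⟨⟨x', y'⟩, ⟨h1, h2⟩, h3⟩
          simp only [Prod.map_apply, Prod.mk.injEq] at h3
          obtain ⟨rfl, rfl⟩ := h3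
          refine ⟨h1, ?_⟩
          simp only at h2 ⊢
          rw [f1, f1]
          omega
      rw [e, Set.ncard_image_of_injective]
      exact Function.Injective.prodMap Subtype.val_injective Subtype.val_injective
    unfold val
    rw [c1, c2, c3]
    push_cast
    ring

end Pool.Agent.T2h34.RK
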