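import Mathlib
import Pool.Agent.T2h34.RK.Bas

set_option autoImplicit false

namespace Pool.Agent.T2h34.RK

theorem t_REMC : S_REMC := by
  intro V _ G B n k D g hg f' c hc hn
  classical
  let f : V → ℕ := fun x => if h : x = g then c else f' ⟨x, h⟩
  have f1 : ∀ y : {x // x ≠ g}, f y = f' y := by
    intro y
    show (if h : (y : V) = g then c else f' ⟨y, h⟩) = _
    rw [dif_neg y.2]
  have f2 : f g = c := dif_pos rfl
  have f3 : ∀ x (h : x ≠ g), f x = f' ⟨x, h⟩ := fun x h => f1 ⟨x, h⟩
  obtain ⟨a, b, hab, ha, hb⟩ := hc
  refine ⟨f, ?_, ?_⟩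
  · intro x y
    rw [f1, f1]
  · have c1 : cls f = cls f' := by
      unfold cls
      congr 1
      ext m
      constructor
      · rintro ⟨x, rfl⟩
        by_cases h : x = g
        · exact ⟨a, by rw [h, f2, ha]⟩
        · exact ⟨⟨x, h⟩, (f3 x h).symm⟩
      · rintro ⟨x, rfl⟩
        exact ⟨x, f1 x⟩
    have c2 : sing B f = sing (Subtype.val ⁻¹' B) f' := by
      unfold sing
      have e : {x | x ∉ B ∧ ∀ y, f y = f x → y = x} =
          (Subtype.val '' {x : {x // x ≠ g} | x ∉ (Subtype.val ⁻¹' B : Set {x // x ≠ g}) ∧
            ∀ y, f' y = f' x → y = x}) := by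
        ext x
        constructor
        · rintro ⟨hx1, hx2⟩
          by_cases h : x = g
          · exfalso
            have := hx2 a (by rw [h, f2, f1, ha])
            exact a.2 (this.trans h)
          · refine ⟨⟨x, h⟩, ⟨hx1, ?_⟩, rfl⟩
            intro y hy
            apply Subtype.ext
            apply hx2
            rw [f1, hy, f3 x h]
        · rintro ⟨x, ⟨hx1, hx2⟩, rfl⟩
          refine ⟨hx1, ?_⟩
          intro y hy
          by_cases h : y = g
          · exfalso
            rw [h, f2, f1] at hy
            have h1 := hx2 a (by rw [ha, hy])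
            have h2 := hx2 b (by rw [hb, hy])
            exact hab (h1.trans h2.symm)
          · rw [f3 y h, f1] at hy
            exact congrArg Subtype.val (hx2 ⟨y, h⟩ hy)
      rw [e, Set.ncard_image_of_injective _ Subtype.val_injective]
    have c3 : pr G f = pr (G.comap (Subtype.val : {x // x ≠ g} → V)) f' := by
      unfold pr
      have e : {z : V × V | G.Adj z.1 z.2 ∧ f z.1 ≠ f z.2} =
          (Prod.map Subtype.val Subtype.val '' {z : {x // x ≠ g} × {x // x ≠ g} |
            (G.comap (Subtype.val : {x // x ≠ g} → V)).Adj z.1 z.2 ∧ f' z.1 ≠ f' z.2}) := by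
        ext z
        obtain ⟨x, y⟩ := z
        constructor
        · rintro ⟨h1, h2⟩
          simp only at h1 h2
          by_cases hx : x = g
          · exfalso
            subst hx
            apply h2
            rw [f2, f3 y h1.ne']
            exact (hn ⟨y, h1.ne'⟩ h1).symm
          · by_cases hy : y = g
            · exfalso
              subst hy
              apply h2
              rw [f2, f3 x h1.ne]
              exact hn ⟨x, h1.ne⟩ h1.symm
            · refine ⟨(⟨x, hx⟩, ⟨y, hy⟩), ⟨h1, ?_⟩, rfl⟩
              intro h3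
              apply h2
              rw [f3 x hx, f3 y hy]
              exact h3
        · rintro ⟨⟨x', y'⟩, ⟨h1, h2⟩, h3⟩
          simp only [Prod.map_apply, Prod.mk.injEq] at h3
          obtain ⟨rfl, rfl⟩ := h3
          refine ⟨h1, ?_⟩
          simp only at h2 ⊢
          rw [f1, f1]
          exact h2
      rw [e, Set.ncard_image_of_injective]
      exact Function.Injective.prodMap Subtype.val_injective Subtype.val_injective
    unfold val
    rw [c1, c2, c3]

end Pool.Agent.T2h34.RK
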