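import Mathlib
import Pool.Agent.T2h34.RK.Bas
import Pool.Agent.H789R5.RF.Rank

set_option autoImplicit false

/-! Task `TWO`: two bodies joined by bars between points of two hyperplanes. -/

namespace Pool.Agent.T2h34.RK

open Matrix Pool.Agent.H283R2.DR Pool.Agent.H789R5

theorem TWO.skew {m : ℕ} {A : Matrix (Fin m) (Fin m) ℝ} (hA : Aᵀ = -A) (q r : Fin m → ℝ) :
    (A *ᵥ q) ⬝ᵥ r = -((A *ᵥ r) ⬝ᵥ q) := by
  have h1 : (A *ᵥ q) ⬝ᵥ r = q ⬝ᵥ (Aᵀ *ᵥ r) := by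
    rw [Matrix.mulVec_transpose, dotProduct_comm, Matrix.dotProduct_mulVec, dotProduct_comm]
  rw [h1, hA, Matrix.neg_mulVec, dotProduct_neg, dotProduct_comm]

theorem TWO.core {μ : ℕ} {β1 β2 : Fin μ → ℝ} (hβ : β1 ≠ β2)
    {A : Matrix (Fin (μ + 1)) (Fin (μ + 1)) ℝ} {c : Fin (μ + 1) → ℝ} (hA : Aᵀ = -A)
    (h : ∀ q1 q2 : Fin μ → ℝ,
      ((vecCons (β1 ⬝ᵥ q1) q1 : Fin (μ + 1) → ℝ) - vecCons (β2 ⬝ᵥ q2) q2) ⬝ᵥ
        (A *ᵥ (vecCons (β2 ⬝ᵥ q2) q2 : Fin (μ + 1) → ℝ) + c) = 0) : A = 0 ∧ c = 0 := by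
  have hδ : (β1 - β2) ⬝ᵥ (β1 - β2) ≠ 0 := by
    intro h1
    rw [dotProduct_self_eq_zero, sub_eq_zero] at h1
    exact hβ h1
  -- the motion vanishes at the points of the second plane outside the first one
  have h1 : ∀ q : Fin μ → ℝ, (β1 - β2) ⬝ᵥ q ≠ 0 →
      A *ᵥ (vecCons (β2 ⬝ᵥ q) q : Fin (μ + 1) → ℝ) + c = 0 := by
    intro q hq
    set v := A *ᵥ (vecCons (β2 ⬝ᵥ q) q : Fin (μ + 1) → ℝ) + c with hv
    have e0 := h 0 q
    have e1 : ∀ q1 : Fin μ → ℝ, (vecCons (β1 ⬝ᵥ q1) q1 : Fin (μ + 1) → ℝ) ⬝ᵥ v = 0 := by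
      intro q1
      have e2 := h q1 q
      rw [← hv, sub_dotProduct] at e0 e2
      have e3 : (vecCons (β1 ⬝ᵥ (0 : Fin μ → ℝ)) (0 : Fin μ → ℝ) : Fin (μ + 1) → ℝ) ⬝ᵥ v = 0 := by
        rw [Matrix.cons_dotProduct]
        simp
      rw [e3] at e0
      linarith
    have e2 : (vecCons (β2 ⬝ᵥ q) q : Fin (μ + 1) → ℝ) ⬝ᵥ v = 0 := by
      have e3 := h q q
      rw [← hv, sub_dotProduct, e1 q] at e3
      linarith
    have e3 : v 0 = 0 := by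
      have e4 := e1 q
      rw [Matrix.cons_dotProduct] at e4 e2
      have e5 : ((β1 - β2) ⬝ᵥ q) * v 0 = 0 := by
        rw [sub_dotProduct]
        change (β1 ⬝ᵥ q) * v 0 + _ = 0 at e4
        change (β2 ⬝ᵥ q) * v 0 + _ = 0 at e2
        linear_combination e4 - e2
      exact (mul_eq_zero.1 e5).resolve_left hq
    have e4 : ∀ i : Fin μ, v i.succ = 0 := by
      intro i
      have e5 := e1 (Pi.single i 1)
      rw [Matrix.cons_dotProduct] at e5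
      change _ * v 0 + _ = 0 at e5
      rw [e3, mul_zero, zero_add, single_one_dotProduct] at e5
      exact e5
    funext j
    refine Fin.cases ?_ (fun i => ?_) j
    · exact e3
    · exact e4 i
  -- `c = 0` and `A` vanishes on the second plane
  have hlin : ∀ (s : ℝ) (q : Fin μ → ℝ), (vecCons (β2 ⬝ᵥ (s • q)) (s • q) : Fin (μ + 1) → ℝ) =
      s • (vecCons (β2 ⬝ᵥ q) q : Fin (μ + 1) → ℝ) := by
    intro s q
    rw [Matrix.smul_cons, dotProduct_smul]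
  have hadd : ∀ (q r : Fin μ → ℝ), (vecCons (β2 ⬝ᵥ (q + r)) (q + r) : Fin (μ + 1) → ℝ) =
      (vecCons (β2 ⬝ᵥ q) q : Fin (μ + 1) → ℝ) + vecCons (β2 ⬝ᵥ r) r := by
    intro q r
    rw [dotProduct_add]
    funext j
    refine Fin.cases ?_ (fun i => ?_) j
    · simp
    · simp
  have hc : c = 0 := by
    have e1 := h1 (β1 - β2) hδ
    have e2 := h1 ((2 : ℝ) • (β1 - β2)) (by
      rw [dotProduct_smul, smul_eq_mul]
      exact mul_ne_zero two_ne_zero hδ)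
    rw [hlin, mulVec_smul] at e2
    have e3 : A *ᵥ (vecCons (β2 ⬝ᵥ (β1 - β2)) (β1 - β2) : Fin (μ + 1) → ℝ) = -c :=
      eq_neg_of_add_eq_zero_left e1
    rw [e3] at e2
    have e4 : -c = 0 := by
      rw [← e2]
      module
    exact neg_eq_zero.1 e4
  subst hc
  simp only [add_zero] at h1
  have h2 : ∀ q : Fin μ → ℝ, A *ᵥ (vecCons (β2 ⬝ᵥ q) q : Fin (μ + 1) → ℝ) = 0 := by
    intro q
    by_cases hq : (β1 - β2) ⬝ᵥ q = 0
    · have e1 := h1 (q + (β1 - β2)) (by rw [dotProduct_add, hq, zero_add]; exact hδ)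
      rw [hadd, mulVec_add, h1 _ hδ, add_zero] at e1
      exact e1
    · exact h1 q hq
  -- `A e₀ = 0`
  let e0 : Fin (μ + 1) → ℝ := vecCons 1 0
  have h3 : ∀ r : Fin (μ + 1) → ℝ, (A *ᵥ e0) ⬝ᵥ r = 0 := by
    intro r
    have e1 : r = (r 0 - β2 ⬝ᵥ (fun i : Fin μ => r i.succ)) • e0 +
        vecCons (β2 ⬝ᵥ (fun i : Fin μ => r i.succ)) (fun i : Fin μ => r i.succ) := by
      funext j
      refine Fin.cases ?_ (fun i => ?_) j
      · simp [e0]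
      · simp [e0]
    rw [e1, dotProduct_add, dotProduct_smul]
    have e2 : (A *ᵥ e0) ⬝ᵥ e0 = 0 := by
      have := TWO.skew hA e0 e0
      linarith
    rw [e2, TWO.skew hA, h2]
    simp
  have h4 : A *ᵥ e0 = 0 := dotProduct_self_eq_zero.1 (h3 _)
  refine ⟨?_, rfl⟩
  have h5 : ∀ r : Fin (μ + 1) → ℝ, A *ᵥ r = 0 := by
    intro r
    have e1 : r = (r 0 - β2 ⬝ᵥ (fun i : Fin μ => r i.succ)) • e0 +
        vecCons (β2 ⬝ᵥ (fun i : Fin μ => r i.succ)) (fun i : Fin μ => r i.succ) := by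
      funext j
      refine Fin.cases ?_ (fun i => ?_) j
      · simp [e0]
      · simp [e0]
    rw [e1, mulVec_add, mulVec_smul, h4, h2]
    simp
  ext i j
  have := congrFun (h5 (Pi.single j 1)) i
  simpa using this

theorem t_TWO : S_TWO := by
  intro μ hμ W _ hcard β1 β2 hβ
  let E := TA.Sk (μ + 1) × (Fin (μ + 1) → ℝ)
  let ι := (Fin μ → ℝ) × (Fin μ → ℝ)
  let K : ι → Submodule ℝ E := fun i =>
    { carrier := {x | ((vecCons (β1 ⬝ᵥ i.1) i.1 : Fin (μ + 1) → ℝ) - vecCons (β2 ⬝ᵥ i.2) i.2) ⬝ᵥ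
        ((x.1 : Matrix (Fin (μ + 1)) (Fin (μ + 1)) ℝ) *ᵥ
          (vecCons (β2 ⬝ᵥ i.2) i.2 : Fin (μ + 1) → ℝ) + x.2) = 0}
      add_mem' := by
        intro x y hx hy
        simp only [Set.mem_ofPred_eq] at *
        show ((vecCons (β1 ⬝ᵥ i.1) i.1 : Fin (μ + 1) → ℝ) - vecCons (β2 ⬝ᵥ i.2) i.2) ⬝ᵥ
          (((x.1 : Matrix (Fin (μ + 1)) (Fin (μ + 1)) ℝ) + (y.1 : Matrix _ _ ℝ)) *ᵥ
          (vecCons (β2 ⬝ᵥ i.2) i.2 : Fin (μ + 1) → ℝ) + (x.2 + y.2)) = 0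
        rw [add_mulVec, add_add_add_comm, dotProduct_add, hx, hy, add_zero]
      zero_mem' := by
        simp only [Set.mem_ofPred_eq]
        show ((vecCons (β1 ⬝ᵥ i.1) i.1 : Fin (μ + 1) → ℝ) - vecCons (β2 ⬝ᵥ i.2) i.2) ⬝ᵥ
          ((0 : Matrix (Fin (μ + 1)) (Fin (μ + 1)) ℝ) *ᵥ
          (vecCons (β2 ⬝ᵥ i.2) i.2 : Fin (μ + 1) → ℝ) + 0) = 0
        rw [zero_mulVec, add_zero, dotProduct_zero]
      smul_mem' := by
        intro s x hx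
        simp only [Set.mem_ofPred_eq] at *
        show ((vecCons (β1 ⬝ᵥ i.1) i.1 : Fin (μ + 1) → ℝ) - vecCons (β2 ⬝ᵥ i.2) i.2) ⬝ᵥ
          ((s • (x.1 : Matrix (Fin (μ + 1)) (Fin (μ + 1)) ℝ)) *ᵥ
          (vecCons (β2 ⬝ᵥ i.2) i.2 : Fin (μ + 1) → ℝ) + s • x.2) = 0
        rw [smul_mulVec, ← smul_add, dotProduct_smul, hx, smul_zero] }
  have hKT : ⨅ i, K i ≤ (⊥ : Submodule ℝ E) := by
    intro x hx
    rw [Submodule.mem_iInf] at hx
    have h1 := TWO.core hβ x.1.2 (fun q1 q2 => hx (q1, q2))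
    rw [Submodule.mem_bot]
    exact Prod.ext (Subtype.ext h1.1) h1.2
  have hfin : Module.finrank ℝ E ≤ Nat.card W := by
    refine le_trans (le_of_eq ?_) hcard
    exact finrank_triv (μ + 1)
  obtain ⟨s, hs⟩ := greedy' K ⊥ hKT hfin
  refine ⟨fun h => (s h).1, fun h => (s h).2, ?_⟩
  intro A c hA h
  have hmem : (((⟨A, hA⟩, c)) : E) ∈ (⊥ : Submodule ℝ E) := by
    apply hs
    rw [Submodule.mem_iInf]
    intro w
    exact h w
  rw [Submodule.mem_bot] at hmem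
  exact ⟨congrArg (fun x : E => (x.1 : Matrix (Fin (μ + 1)) (Fin (μ + 1)) ℝ)) hmem,
    congrArg (fun x : E => x.2) hmem⟩

end Pool.Agent.T2h34.RK
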