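import Mathlib
import Pool.Agent.T2h34.RK.Rem
import Pool.Agent.T2h34.RK.St2
import Pool.Agent.T2h34.RK.T_TWO
import Pool.Agent.T2h34.RK.T_REMA
import Pool.Agent.T2h34.RK.T_REMC
import Pool.Agent.T2h34.RK.T_ISO

set_option autoImplicit false
set_option linter.unusedSectionVars false

/-! The steps of the induction. -/

namespace Pool.Agent.T2h34.RK

open Matrix Pool.Agent.H283R2.DR Pool.Agent.H283R2.DR.TA Pool.Agent.H789R5 Pool.Agent.T2h34.CP

variable {V W : Type} {μ : ℕ}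

/-! ### Substructures -/

theorem sub_inv {r : V → ℕ} {B : Set V} (p : V → Prop) (hI : Inv r B) :
    Inv (fun x : {x // p x} => r x.1) (Subtype.val ⁻¹' B) := by
  intro x hx y hy
  exact Subtype.ext (hI x.1 hx y.1 hy)

theorem sub_bod {r : V → ℕ} {B : Set V} (p : V → Prop) (hB : Bod r B)
    (hp : ∀ x y, r x = r y → x ∈ B → p x → p y) :
    Bod (fun x : {x // p x} => r x.1) (Subtype.val ⁻¹' B) := by
  intro x hx
  obtain ⟨y, h1, h2⟩ := hB x.1 hx
  exact ⟨⟨y, hp x.1 y h2.symm hx x.2⟩, fun h => h1 (congrArg Subtype.val h), h2⟩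

theorem sub_cls_le [Finite V] (r : V → ℕ) (p : V → Prop) :
    cls (fun x : {x // p x} => r x.1) ≤ cls r := by
  refine Set.ncard_le_ncard ?_ (Set.finite_range r)
  rintro _ ⟨x, rfl⟩
  exact ⟨x.1, rfl⟩

theorem sub_cls_lt [Finite V] (r : V → ℕ) (p : V → Prop) {x0 : V} (h : ∀ x, p x → r x ≠ r x0) :
    cls (fun x : {x // p x} => r x.1) < cls r := by
  refine Set.ncard_lt_ncard ?_ (Set.finite_range r)
  refine ⟨?_, ?_⟩
  · rintro _ ⟨x, rfl⟩
    exact ⟨x.1, rfl⟩
  · intro hc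
    obtain ⟨x, hx⟩ := hc ⟨x0, rfl⟩
    exact h x.1 x.2 hx

theorem sub_pr_le [Finite V] (G : SimpleGraph V) (r : V → ℕ) (p : V → Prop) :
    pr (SG G p) (fun x : {x // p x} => r x.1) ≤ pr G r := by
  refine Set.ncard_le_ncard_of_injOn (fun z => (z.1.1, z.2.1)) ?_ ?_ (Set.toFinite _)
  · rintro ⟨x, y⟩ ⟨h1, h2⟩
    exact ⟨h1, h2⟩
  · rintro ⟨x, y⟩ _ ⟨x', y'⟩ _ h
    rw [Prod.ext_iff] at h
    exact Prod.ext (Subtype.ext h.1) (Subtype.ext h.2)

theorem pos_inj {β : V → Fin μ → ℝ} (hμ : 1 ≤ μ) (hβ : Pos β) : ∀ x y : V, x ≠ y → β x ≠ β y := by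
  intro x y hxy h
  have h3 := hβ 2 ![x, y] (by omega) (by
    intro i j hij
    fin_cases i <;> fin_cases j <;> simp_all)
  have h4 := h3.injective.ne (show (0 : Fin 2) ≠ 1 by decide)
  exact h4 h

theorem sub_pos {β : V → Fin μ → ℝ} (p : V → Prop) (hβ : Pos β) :
    Pos (fun x : {x // p x} => β x.1) := pos_comp hβ Subtype.val_injective

section steps

variable [Finite V] [Finite W] {n k D : ℕ} (hn : n = Nat.card W) (hk : k = μ * (μ + 1) / 2)
  (hD : D = (μ + 1) * (μ + 1 + 1) / 2)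

include hn hk in
/-- plates of degree at most one -/
theorem stepA (hμ : 2 ≤ μ) (hW : μ + 1 ≤ Nat.card W) (G : SimpleGraph V) (r : V → ℕ) (B : Set V)
    (hI : Inv r B) (β : V → Fin μ → ℝ) (hβ : Pos β) (g : V) (hg : g ∉ B)
    (hd : {y | G.Adj g y}.ncard ≤ 1)
    (hM : MM n k D W (SG G (fun x => x ≠ g)) (fun x => r x.1) (Subtype.val ⁻¹' B)
      (fun x => β x.1)) : MM n k D W G r B β := by
  have := Fintype.ofFinite V
  have := Fintype.ofFinite W
  obtain ⟨f', hf', q', hq'⟩ := hM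
  obtain ⟨f, h1, h2, h3⟩ := t_REMA V G B n k D g hg f'
  refine ⟨f, ?_, ?_⟩
  · intro x y hxy
    by_cases hx : x = g
    · subst hx
      rw [hI x hg y hxy.symm]
    · by_cases hy : y = g
      · subst hy
        rw [hI y hg x hxy]
      · exact (h1 ⟨x, hx⟩ ⟨y, hy⟩).2 (hf' ⟨x, hx⟩ ⟨y, hy⟩ hxy)
  · have G1 : Good (fun q : V × W → Fin μ → ℝ =>
        mo (XG (SG G (fun x => x ≠ g)) (⊤ : SimpleGraph W) (fun x => r x.1) (Subtype.val ⁻¹' B))
          (fl (fun x => β x.1) (res (fun x => x ≠ g) q)) ≤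
        mo (XG (SG G (fun x => x ≠ g)) (⊤ : SimpleGraph W) (fun x => r x.1) (Subtype.val ⁻¹' B))
          (fl (fun x => β x.1) q')) :=
      res_good (fun x => x ≠ g) (fl_mo_good _ _ _)
    have E1 := res_exists (W := W) (μ := μ) (fun x => x ≠ g) (P := fun q =>
        mo (XG (SG G (fun x => x ≠ g)) (⊤ : SimpleGraph W) (fun x => r x.1) (Subtype.val ⁻¹' B))
          (fl (fun x => β x.1) q) ≤
        mo (XG (SG G (fun x => x ≠ g)) (⊤ : SimpleGraph W) (fun x => r x.1) (Subtype.val ⁻¹' B))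
          (fl (fun x => β x.1) q')) ⟨q', le_rfl⟩
    rcases Nat.lt_or_ge {y | G.Adj g y}.ncard 1 with hd0 | hd1
    · have hd00 : {y | G.Adj g y}.ncard = 0 := by omega
      obtain ⟨q, e1, e2⟩ := good_and_exists G1 (pos_good (V × W) μ) E1 (pos_exists (V × W) μ)
      refine ⟨q, ?_⟩
      have h4 := res_split G (fun x => x ≠ g) r B β q e1 (rem0 hW G r B β g e2)
      rw [h3, hd00]
      rw [← hn, ← hk] at h4
      push_cast
      zify at h4
      linarith
    · have hd01 : {y | G.Adj g y}.ncard = 1 := by omega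
      obtain ⟨g1, hg1⟩ := Set.ncard_eq_one.1 hd01
      have hadj : G.Adj g g1 := by
        have : g1 ∈ {y | G.Adj g y} := by rw [hg1]; rfl
        exact this
      have gd : ∀ h : W, Good (fun q : V × W → Fin μ → ℝ => (β g1 - β g) ⬝ᵥ q (g1, h) ≠ 0) := by
        intro h
        refine good_ne (F := fun q : V × W → Fin μ → ℝ => (β g1 - β g) ⬝ᵥ q (g1, h)) ?_
        intro p0 p1 s
        simp only [Pi.add_apply, Pi.smul_apply, Pi.sub_apply, dotProduct_add, dotProduct_smul,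
          dotProduct_sub, smul_eq_mul]
      have ed : ∀ h : W, ∃ q : V × W → Fin μ → ℝ, (β g1 - β g) ⬝ᵥ q (g1, h) ≠ 0 := by
        intro h
        refine ⟨fun _ => β g1 - β g, ?_⟩
        intro hz
        rw [dotProduct_self_eq_zero] at hz
        exact pos_inj (by omega) hβ g1 g hadj.ne.symm (sub_eq_zero.1 hz)
      have E2 := good_and_exists (pos_good (V × W) μ) (good_forall gd) (pos_exists (V × W) μ)
        (good_family _ gd ed)
      obtain ⟨q, e1, e2, e3⟩ := good_and_exists G1 (good_and (pos_good (V × W) μ)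
        (good_forall gd)) E1 E2
      refine ⟨q, ?_⟩
      have h4 := res_split G (fun x => x ≠ g) r B β q e1 (rem1 hW G r B β g g1 hadj e2 e3)
      rw [h3, hd01]
      rw [← hk] at h4
      push_cast
      zify at h4
      linarith

include hn hk in
/-- plates of degree two -/
theorem stepB (hμ : 2 ≤ μ) (hW : μ * (μ + 1) ≤ Nat.card W) (G : SimpleGraph V) (r : V → ℕ)
    (B : Set V) (hI : Inv r B) (hB : Bod r B) (β : V → Fin μ → ℝ) (hβ : Pos β) (g : V)
    (hg : g ∉ B) (g1 g2 : {x // x ≠ g}) (h12 : g1 ≠ g2) (hd : {y | G.Adj g y} = {g1.1, g2.1})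
    (hM : MM n k D W (SG G (fun x => x ≠ g)) (fun x => r x.1) (Subtype.val ⁻¹' B)
      (fun x => β x.1))
    (hM' : MM n k D W (SG G (fun x => x ≠ g))
      (mrg {x | r x.1 = r g1.1 ∨ r x.1 = r g2.1} (r g1.1) (fun x => r x.1))
      (Subtype.val ⁻¹' B ∪ {x | r x.1 = r g1.1 ∨ r x.1 = r g2.1}) (fun x => β x.1)) :
    MM n k D W G r B β := by
  have := Fintype.ofFinite V
  have := Fintype.ofFinite W
  have ha1 : G.Adj g g1 := by
    have : g1.1 ∈ {y | G.Adj g y} := by rw [hd]; exact Or.inl rfl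
    exact this
  have ha2 : G.Adj g g2 := by
    have : g2.1 ∈ {y | G.Adj g y} := by rw [hd]; exact Or.inr rfl
    exact this
  have hne : g1.1 ≠ g2.1 := fun h => h12 (Subtype.ext h)
  have hd2 : {y | G.Adj g y}.ncard = 2 := by
    rw [hd]
    exact Set.ncard_pair hne
  obtain ⟨f0, hf0, q0, hq0⟩ := hM
  obtain ⟨fm, hfm, qm, hqm⟩ := hM'
  have href : ∀ f : V → ℕ, (∀ x y : {x // x ≠ g}, r x.1 = r y.1 → f x.1 = f y.1) →
      ∀ x y, r x = r y → f x = f y := by
    intro f h x y hxy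
    by_cases hx : x = g
    · subst hx
      rw [hI x hg y hxy.symm]
    · by_cases hy : y = g
      · subst hy
        rw [hI y hg x hxy]
      · exact h ⟨x, hx⟩ ⟨y, hy⟩ hxy
  obtain ⟨q, hq | hq⟩ := st2 hμ hW G r B hI hB β hβ g hg g1 g2 ha1 ha2 h12 ⟨q0, le_rfl⟩
    ⟨qm, le_rfl⟩
  · obtain ⟨f, h1, h2, h3⟩ := t_REMA V G B n k D g hg f0
    refine ⟨f, href f (fun x y hxy => (h1 x y).2 (hf0 x y hxy)), q, ?_⟩
    rw [h3, hd2]
    rw [← hn, ← hk] at hq
    push_cast
    zify at hq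
    linarith
  · have hC : ∀ x y : {x // x ≠ g}, r x.1 = r y.1 →
        x ∈ ({x | r x.1 = r g1.1 ∨ r x.1 = r g2.1} : Set {x // x ≠ g}) →
        y ∈ ({x | r x.1 = r g1.1 ∨ r x.1 = r g2.1} : Set {x // x ≠ g}) := by
      rintro x y hxy (h | h)
      · exact Or.inl (hxy.symm.trans h)
      · exact Or.inr (hxy.symm.trans h)
    have m1 : g1 ∈ ({x | r x.1 = r g1.1 ∨ r x.1 = r g2.1} : Set {x // x ≠ g}) := Or.inl rfl
    have m2 : g2 ∈ ({x | r x.1 = r g1.1 ∨ r x.1 = r g2.1} : Set {x // x ≠ g}) := Or.inr rfl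
    have h12' : fm g1 = fm g2 := by
      refine hfm g1 g2 ?_
      rw [mrg_of m1, mrg_of m2]
    have hv := mrg_val (r := fun x : {x // x ≠ g} => r x.1) (x0 := g1) (y0 := g2) n k D
      (B := Subtype.val ⁻¹' B) (SG G (fun x => x ≠ g)) hfm (Or.inl rfl) (Or.inr rfl) h12.symm
    obtain ⟨f, h1, h3⟩ := t_REMC V G B n k D g hg fm (fm g1)
      ⟨g1, g2, h12, rfl, h12'.symm⟩ (by
        intro y hy
        have : y.1 ∈ {y | G.Adj g y} := hy
        rw [hd] at this
        rcases this with h | h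
        · rw [Subtype.ext h]
        · have h' : y.1 = g2.1 := h
          rw [Subtype.ext h']
          exact h12'.symm)
    refine ⟨f, href f (fun x y hxy => (h1 x y).2 (hfm x y ?_)), q, ?_⟩
    · exact mrg_ref (r := fun x : {x // x ≠ g} => r x.1) (x0 := g1) hC hxy
    · rw [h3, ← hv]
      refine le_trans ?_ hqm
      exact_mod_cast Nat.mul_le_mul_left 2 hq

include hD in
/-- isolated bodies -/
theorem stepI (hμ : 2 ≤ μ) (hW : μ + 1 ≤ Nat.card W) (G : SimpleGraph V) (r : V → ℕ) (B : Set V)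
    (hB : Bod r B) (β : V → Fin μ → ℝ) (hβ : Pos β) (c : ℕ)
    (hc : ∀ x, r x = c → x ∈ B) (hc1 : ∀ x y, r x = c → G.Adj x y → r y = c)
    (hc2 : ∃ x, r x = c)
    (hM : MM n k D W (SG G (fun x => r x ≠ c)) (fun x => r x.1) (Subtype.val ⁻¹' B)
      (fun x => β x.1)) : MM n k D W G r B β := by
  have := Fintype.ofFinite V
  have := Fintype.ofFinite W
  obtain ⟨f', hf', q', hq'⟩ := hM
  obtain ⟨f, h1, h2, h3⟩ := t_ISO V G B n k D r c hc hc1 hc2 f'
  refine ⟨f, ?_, ?_⟩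
  · intro x y hxy
    by_cases hx : r x = c
    · exact h2 x y hx (hxy.symm.trans hx)
    · exact (h1 ⟨x, hx⟩ ⟨y, fun h => hx (hxy.trans h)⟩).2 (hf' _ _ hxy)
  · obtain ⟨q, e1, e2⟩ := good_and_exists
      (res_good (W := W) (μ := μ) (fun x => r x ≠ c) (P := fun q =>
        mo (XG (SG G (fun x => r x ≠ c)) (⊤ : SimpleGraph W) (fun x => r x.1) (Subtype.val ⁻¹' B))
          (fl (fun x => β x.1) q) ≤
        mo (XG (SG G (fun x => r x ≠ c)) (⊤ : SimpleGraph W) (fun x => r x.1) (Subtype.val ⁻¹' B))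
          (fl (fun x => β x.1) q')) (fl_mo_good _ _ _)) (pos_good (V × W) μ)
      (res_exists (W := W) (μ := μ) (fun x => r x ≠ c) (P := fun q =>
        mo (XG (SG G (fun x => r x ≠ c)) (⊤ : SimpleGraph W) (fun x => r x.1) (Subtype.val ⁻¹' B))
          (fl (fun x => β x.1) q) ≤
        mo (XG (SG G (fun x => r x ≠ c)) (⊤ : SimpleGraph W) (fun x => r x.1) (Subtype.val ⁻¹' B))
          (fl (fun x => β x.1) q')) ⟨q', le_rfl⟩) (pos_exists (V × W) μ)
    refine ⟨q, ?_⟩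
    have h4 := res_split G (fun x => r x ≠ c) r B β q e1
      (remB hW G r B hB (pos_inj (by omega) hβ) c hc hc2 e2)
    rw [h3]
    rw [← hD] at h4
    zify at h4
    linarith

end steps

end Pool.Agent.T2h34.RK
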