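import Mathlib
import Pool.Agent.T2h34.RK.Steps

set_option autoImplicit false
set_option linter.unusedSectionVars false

/-! Rigid substructures. -/

namespace Pool.Agent.T2h34.RK

open Matrix Pool.Agent.H283R2.DR Pool.Agent.H283R2.DR.TA Pool.Agent.H789R5 Pool.Agent.T2h34.CP

variable {U W : Type} {μ : ℕ}

/-- the system of `S_TWO` -/
def TWs (β1 β2 : Fin μ → ℝ) (q1 q2 : W → Fin μ → ℝ) :
    (Sk (μ + 1) × (Fin (μ + 1) → ℝ)) →ₗ[ℝ] (W → ℝ) where
  toFun e h := ((vecCons (β1 ⬝ᵥ q1 h) (q1 h) : Fin (μ + 1) → ℝ) -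
    vecCons (β2 ⬝ᵥ q2 h) (q2 h)) ⬝ᵥ ((e.1 : Matrix (Fin (μ + 1)) (Fin (μ + 1)) ℝ) *ᵥ
      (vecCons (β2 ⬝ᵥ q2 h) (q2 h) : Fin (μ + 1) → ℝ) + e.2)
  map_add' e e' := by
    funext h
    simp only [Prod.fst_add, Prod.snd_add, Submodule.coe_add, add_mulVec, dotProduct_add,
      Pi.add_apply]
    ring
  map_smul' c e := by
    funext h
    simp only [Prod.smul_fst, Prod.smul_snd, Submodule.coe_smul, smul_mulVec, dotProduct_add,
      dotProduct_smul, Pi.smul_apply, smul_eq_mul, RingHom.id_apply]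
    ring

/-- a bilinear form of this kind -/
def TWb (a b : W → Fin (μ + 1) → ℝ) (t : ℝ) :
    (Sk (μ + 1) × (Fin (μ + 1) → ℝ)) →ₗ[ℝ] (W → ℝ) where
  toFun e h := a h ⬝ᵥ ((e.1 : Matrix (Fin (μ + 1)) (Fin (μ + 1)) ℝ) *ᵥ b h + t • e.2)
  map_add' e e' := by
    funext h
    simp only [Prod.fst_add, Prod.snd_add, Submodule.coe_add, add_mulVec, dotProduct_add,
      Pi.add_apply, smul_add]
    ring
  map_smul' c e := by
    funext h
    simp only [Prod.smul_fst, Prod.smul_snd, Submodule.coe_smul, smul_mulVec, dotProduct_add,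
      dotProduct_smul, Pi.smul_apply, smul_eq_mul, RingHom.id_apply]
    ring

theorem tw_good [Finite U] [Finite W] (β1 β2 : Fin μ → ℝ) (x y : U) :
    Good (fun q : U × W → Fin μ → ℝ =>
      ∀ e, TWs β1 β2 (fun h => q (x, h)) (fun h => q (y, h)) e = 0 → e = 0) := by
  refine good_inj2 (F := fun q : U × W → Fin μ → ℝ =>
    TWs β1 β2 (fun h => q (x, h)) (fun h => q (y, h))) ?_
  intro p0 p1
  let P : (Fin μ → ℝ) → (Fin μ → ℝ) → Fin (μ + 1) → ℝ := fun β q => vecCons (β ⬝ᵥ q) q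
  have hP : ∀ (β q q' : Fin μ → ℝ) (s : ℝ), P β (q + s • (q' - q)) = P β q + s • P β (q' - q) := by
    intro β q q' s
    refine vec_ext ?_ rfl
    simp only [P, cons_val_zero, Pi.add_apply, Pi.smul_apply, dotProduct_add, dotProduct_smul,
      smul_eq_mul]
  refine ⟨TWb (fun h => P β1 (p1 (x, h) - p0 (x, h)) - P β2 (p1 (y, h) - p0 (y, h)))
      (fun h => P β2 (p0 (y, h))) 1 +
    TWb (fun h => P β1 (p0 (x, h)) - P β2 (p0 (y, h)))
      (fun h => P β2 (p1 (y, h) - p0 (y, h))) 0,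
    TWb (fun h => P β1 (p1 (x, h) - p0 (x, h)) - P β2 (p1 (y, h) - p0 (y, h)))
      (fun h => P β2 (p1 (y, h) - p0 (y, h))) 0, ?_⟩
  intro s
  refine LinearMap.ext fun e => funext fun h => ?_
  show (P β1 (p0 (x, h) + s • (p1 (x, h) - p0 (x, h))) - P β2 (p0 (y, h) + s • (p1 (y, h) -
    p0 (y, h)))) ⬝ᵥ ((e.1 : Matrix (Fin (μ + 1)) (Fin (μ + 1)) ℝ) *ᵥ
      P β2 (p0 (y, h) + s • (p1 (y, h) - p0 (y, h))) + e.2) =
    (P β1 (p0 (x, h)) - P β2 (p0 (y, h))) ⬝ᵥ ((e.1 : Matrix (Fin (μ + 1)) (Fin (μ + 1)) ℝ) *ᵥ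
      P β2 (p0 (y, h)) + e.2) +
    s * ((P β1 (p1 (x, h) - p0 (x, h)) - P β2 (p1 (y, h) - p0 (y, h))) ⬝ᵥ
      ((e.1 : Matrix (Fin (μ + 1)) (Fin (μ + 1)) ℝ) *ᵥ P β2 (p0 (y, h)) + (1 : ℝ) • e.2) +
      (P β1 (p0 (x, h)) - P β2 (p0 (y, h))) ⬝ᵥ
      ((e.1 : Matrix (Fin (μ + 1)) (Fin (μ + 1)) ℝ) *ᵥ P β2 (p1 (y, h) - p0 (y, h)) +
        (0 : ℝ) • e.2)) +
    (s * s) * ((P β1 (p1 (x, h) - p0 (x, h)) - P β2 (p1 (y, h) - p0 (y, h))) ⬝ᵥ
      ((e.1 : Matrix (Fin (μ + 1)) (Fin (μ + 1)) ℝ) *ᵥ P β2 (p1 (y, h) - p0 (y, h)) +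
        (0 : ℝ) • e.2))
  rw [hP, hP]
  simp only [mulVec_add, mulVec_smul, dotProduct_add, add_dotProduct, sub_dotProduct,
    dotProduct_smul, smul_dotProduct, smul_eq_mul, one_smul, zero_smul, dotProduct_zero]
  ring

theorem tw_exists [Finite U] [Finite W] (hμ : 1 ≤ μ) (hW : (μ + 1) * (μ + 2) / 2 ≤ Nat.card W)
    {β1 β2 : Fin μ → ℝ} (hβ : β1 ≠ β2) {x y : U} (hxy : x ≠ y) :
    ∃ q : U × W → Fin μ → ℝ,
      ∀ e, TWs β1 β2 (fun h => q (x, h)) (fun h => q (y, h)) e = 0 → e = 0 := by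
  classical
  obtain ⟨q1, q2, h⟩ := t_TWO μ hμ W hW β1 β2 hβ
  refine ⟨fun z => if z.1 = x then q1 z.2 else q2 z.2, ?_⟩
  have e1 : (fun h : W => (fun z : U × W => if z.1 = x then q1 z.2 else q2 z.2) (x, h)) = q1 := by
    funext h
    simp
  have e2 : (fun h : W => (fun z : U × W => if z.1 = x then q1 z.2 else q2 z.2) (y, h)) = q2 := by
    funext h
    simp [Ne.symm hxy]
  rw [e1, e2]
  rintro ⟨⟨A, hA⟩, c⟩ he
  obtain ⟨h1, h2⟩ := h A c hA (fun w => congrFun he w)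
  exact Prod.ext (Subtype.ext h1) h2

/-- the motion of a body -/
theorem body_mot (hW : μ + 1 ≤ Nat.card W) {G : SimpleGraph U} {r : U → ℕ} {B : Set U}
    (hI : Inv r B) (hB : Bod r B) {β : U → Fin μ → ℝ} (hβ : ∀ x y, x ≠ y → β x ≠ β y)
    {q : U × W → Fin μ → ℝ} (hq : Pos q) {v : U × W → Fin (μ + 1) → ℝ}
    (hv : v ∈ Mot (XG G (⊤ : SimpleGraph W) r B) (fl β q)) {u : U} (hu : u ∈ B) :
    ∃ (A : Matrix (Fin (μ + 1)) (Fin (μ + 1)) ℝ) (b : Fin (μ + 1) → ℝ), Aᵀ = -A ∧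
      ∀ z : U × W, r z.1 = r u → v z = A *ᵥ fl β q z + b := by
  rw [mem_mot] at hv
  obtain ⟨y, hy1, hy2⟩ := hB u hu
  have hinB : ∀ z, r z = r u → z ∈ B := by
    intro z hz
    by_contra hzB
    have := hI z hzB u hz.symm
    rw [this] at hu
    exact hzB hu
  exact fl_rigid hW hq (v := v) (U := {z | r z.1 = r u}) (by
    intro z hz z' hz'
    by_cases hzz : z = z'
    · rw [hzz, sub_self, zero_dotProduct]
    · exact hv z z' (Or.inr (Or.inr ⟨hzz, hinB _ hz, hinB _ hz', by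
        rw [Set.mem_ofPred_eq] at hz hz'
        rw [hz, hz']⟩))) (x := u) (y := y) (fun h => rfl) (fun h => hy2) (hβ _ _ hy1.symm)

/-- two bodies joined by an edge -/
theorem two_rigid [Finite U] [Finite W] (hμ : 1 ≤ μ) (hW : (μ + 1) * (μ + 2) / 2 ≤ Nat.card W)
    (hW' : μ + 1 ≤ Nat.card W) (G : SimpleGraph U) (r : U → ℕ) (B : Set U) (hI : Inv r B)
    (hB : Bod r B) (β : U → Fin μ → ℝ) (hβ : ∀ x y, x ≠ y → β x ≠ β y) (x0 y0 : U)
    (hx : x0 ∈ B) (hy : y0 ∈ B) (hall : ∀ z, r z = r x0 ∨ r z = r y0) (hadj : G.Adj x0 y0) :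
    ∃ q : U × W → Fin μ → ℝ, InfRigid (XG G (⊤ : SimpleGraph W) r B) (fl β q) := by
  have := Fintype.ofFinite U
  have := Fintype.ofFinite W
  obtain ⟨q, h1, h2⟩ := good_and_exists (pos_good (U × W) μ)
    (tw_good (W := W) (β x0) (β y0) x0 y0) (pos_exists (U × W) μ)
    (tw_exists hμ hW (hβ _ _ hadj.ne) hadj.ne)
  refine ⟨q, ?_⟩
  intro v hv
  have hv' := (mem_mot _ _ _).2 hv
  obtain ⟨A1, b1, hA1, hb1⟩ := body_mot hW' hI hB hβ h1 hv' hx
  obtain ⟨A2, b2, hA2, hb2⟩ := body_mot hW' hI hB hβ h1 hv' hy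
  have hsk : (A2 - A1)ᵀ = -(A2 - A1) := by
    rw [transpose_sub, hA1, hA2]
    abel
  have hz := h2 (⟨A2 - A1, hsk⟩, b2 - b1) (by
    funext h
    show (fl β q (x0, h) - fl β q (y0, h)) ⬝ᵥ ((A2 - A1) *ᵥ fl β q (y0, h) + (b2 - b1)) = 0
    have e1 := hv (x0, h) (y0, h) (Or.inr (Or.inl ⟨rfl, hadj⟩))
    rw [hb1 (x0, h) rfl, hb2 (y0, h) rfl] at e1
    have e2 := triv_pair hA1 b1 (fl β q (x0, h)) (fl β q (y0, h))
    have e3 : (A1 *ᵥ fl β q (x0, h) + b1) - (A2 *ᵥ fl β q (y0, h) + b2) =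
      ((A1 *ᵥ fl β q (x0, h) + b1) - (A1 *ᵥ fl β q (y0, h) + b1)) -
        ((A2 - A1) *ᵥ fl β q (y0, h) + (b2 - b1)) := by
      rw [sub_mulVec]
      abel
    rw [e3, dotProduct_sub, e2, zero_sub, neg_eq_zero] at e1
    exact e1)
  have e4 : A2 - A1 = 0 := congrArg (fun z => (z.1 : Matrix (Fin (μ + 1)) (Fin (μ + 1)) ℝ)) hz
  have e5 : b2 - b1 = 0 := congrArg Prod.snd hz
  refine ⟨A1, b1, hA1, fun z => ?_⟩
  rcases hall z.1 with h | h
  · exact hb1 z h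
  · rw [hb2 z h, sub_eq_zero.1 e4, sub_eq_zero.1 e5]

/-- a plate attached to bodies at two places -/
theorem five_rigid [Finite U] [Finite W] (hμ : 2 ≤ μ)
    (hW : (μ + 1) * (μ + 1 + 1) / 2 + 2 * (μ * (μ + 1) / 2) ≤ Nat.card W)
    (G : SimpleGraph U) (r : U → ℕ) (B : Set U) (hI : Inv r B)
    (hB : Bod r B) (β : U → Fin μ → ℝ) (hβ : Pos β) (g : U) (hg : g ∉ B) (g1 g2 : {x // x ≠ g})
    (ha1 : G.Adj g g1) (ha2 : G.Adj g g2) (h12 : g1 ≠ g2) (hb1 : g1.1 ∈ B) (hb2 : g2.1 ∈ B)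
    (hall : ∀ z, z ≠ g → r z = r g1 ∨ r z = r g2) :
    ∃ q : U × W → Fin μ → ℝ, InfRigid (XG G (⊤ : SimpleGraph W) r B) (fl β q) := by
  classical
  have := Fintype.ofFinite U
  have := Fintype.ofFinite W
  have hdiv : 2 * (μ * (μ + 1) / 2) = μ * (μ + 1) := by
    have h2 : 2 ∣ μ * (μ + 1) := (Nat.even_mul_succ_self μ).two_dvd
    omega
  have hdiv' : 2 * ((μ + 1) * (μ + 1 + 1) / 2) = (μ + 1) * (μ + 1 + 1) := by
    have h2 : 2 ∣ (μ + 1) * (μ + 1 + 1) := (Nat.even_mul_succ_self (μ + 1)).two_dvd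
    omega
  have hWpos : μ + 1 ≤ Nat.card W := by nlinarith
  have hWk : μ * (μ + 1) ≤ Nat.card W := by omega
  have hβinj := pos_inj (by omega : 1 ≤ μ) hβ
  have hI' := sub_inv (fun x => x ≠ g) hI
  have hB' := sub_bod (fun x => x ≠ g) hB (by
    intro x y hxy hx hxg hyg
    subst hyg
    exact hxg (hI y hg x hxy))
  have hβ' : ∀ x y : {x // x ≠ g}, x ≠ y → β x.1 ≠ β y.1 := fun x y hxy =>
    hβinj x.1 y.1 (fun h => hxy (Subtype.ext h))
  obtain ⟨q0, hq0⟩ := pos_exists ({x // x ≠ g} × W) μ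
  have hinB : ∀ z : {x // x ≠ g}, z ∈ (Subtype.val ⁻¹' B : Set {x // x ≠ g}) := by
    intro z
    show z.1 ∈ B
    by_contra hzB
    rcases hall z.1 z.2 with h | h
    · have := hI z.1 hzB g1.1 h.symm
      rw [this] at hb1
      exact hzB hb1
    · have := hI z.1 hzB g2.1 h.symm
      rw [this] at hb2
      exact hzB hb2
  have hκ0 : mo (XG (SG G (fun x => x ≠ g)) (⊤ : SimpleGraph W) (fun x => r x.1)
      (Subtype.val ⁻¹' B)) (fl (fun x => β x.1) q0) ≤ 2 * ((μ + 1) * (μ + 1 + 1) / 2) := by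
    let ψ : ((Sk (μ + 1) × (Fin (μ + 1) → ℝ)) × (Sk (μ + 1) × (Fin (μ + 1) → ℝ))) →ₗ[ℝ]
        ({x // x ≠ g} × W → Fin (μ + 1) → ℝ) :=
      { toFun := fun τ z => if r z.1.1 = r g1.1 then
          (τ.1.1 : Matrix (Fin (μ + 1)) (Fin (μ + 1)) ℝ) *ᵥ fl (fun x => β x.1) q0 z + τ.1.2 else
          (τ.2.1 : Matrix (Fin (μ + 1)) (Fin (μ + 1)) ℝ) *ᵥ fl (fun x => β x.1) q0 z + τ.2.2
        map_add' := by
          intro τ τ'
          funext z
          by_cases hz : r z.1.1 = r g1.1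
          · simp only [hz, if_true, Prod.fst_add, Prod.snd_add, Submodule.coe_add, add_mulVec,
              Pi.add_apply]
            abel
          · simp only [hz, if_false, Prod.fst_add, Prod.snd_add, Submodule.coe_add, add_mulVec,
              Pi.add_apply]
            abel
        map_smul' := by
          intro s τ
          funext z
          by_cases hz : r z.1.1 = r g1.1
          · simp only [hz, if_true, Prod.smul_fst, Prod.smul_snd, Submodule.coe_smul, smul_mulVec,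
              Pi.smul_apply, RingHom.id_apply, smul_add]
          · simp only [hz, if_false, Prod.smul_fst, Prod.smul_snd, Submodule.coe_smul, smul_mulVec,
              Pi.smul_apply, RingHom.id_apply, smul_add] }
    have h1 : Mot (XG (SG G (fun x => x ≠ g)) (⊤ : SimpleGraph W) (fun x => r x.1)
        (Subtype.val ⁻¹' B)) (fl (fun x => β x.1) q0) ≤ LinearMap.range ψ := by
      intro v hv
      obtain ⟨A1, b1, hA1, hb1⟩ := body_mot hWpos hI' hB' hβ' hq0 hv (hinB g1)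
      obtain ⟨A2, b2, hA2, hb2⟩ := body_mot hWpos hI' hB' hβ' hq0 hv (hinB g2)
      refine ⟨((⟨A1, hA1⟩, b1), (⟨A2, hA2⟩, b2)), ?_⟩
      funext z
      by_cases hz : r z.1.1 = r g1.1
      · refine (if_pos hz).trans ?_
        exact (hb1 z hz).symm
      · refine (if_neg hz).trans ?_
        exact (hb2 z ((hall z.1.1 z.1.2).resolve_left hz)).symm
    refine (Submodule.finrank_mono h1).trans ((LinearMap.finrank_range_le _).trans ?_)
    rw [Module.finrank_prod, finrank_triv]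
    omega
  have hκm : mo (XG (SG G (fun x => x ≠ g)) (⊤ : SimpleGraph W)
      (mrg {x | r x.1 = r g1.1 ∨ r x.1 = r g2.1} (r g1.1) (fun x => r x.1))
      (Subtype.val ⁻¹' B ∪ {x | r x.1 = r g1.1 ∨ r x.1 = r g2.1}))
      (fl (fun x => β x.1) q0) ≤ (μ + 1) * (μ + 1 + 1) / 2 := by
    apply mo_of_infRigid
    intro v hv
    have hm : ∀ z : {x // x ≠ g}, z ∈ ({x | r x.1 = r g1.1 ∨ r x.1 = r g2.1} : Set {x // x ≠ g}) :=
      fun z => hall z.1 z.2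
    obtain ⟨A, b, hA, hb⟩ := fl_rigid hWpos hq0 (v := v) (U := Set.univ) (by
      intro z _ z' _
      by_cases hzz : z = z'
      · rw [hzz, sub_self, zero_dotProduct]
      · exact hv z z' (Or.inr (Or.inr ⟨hzz, Or.inl (hinB _), Or.inl (hinB _), by
          rw [mrg_of (hm _), mrg_of (hm _)]⟩))) (x := g1) (y := g2) (fun h => trivial)
      (fun h => trivial) (hβ' _ _ h12)
    exact ⟨A, b, hA, fun z => hb z trivial⟩
  have hne : Nonempty U := ⟨g⟩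
  refine rigid_of_mo hWpos _ β ?_
  obtain ⟨q, hq | hq⟩ := st2 hμ hWk G r B hI hB β hβ g hg g1 g2 ha1 ha2 h12 ⟨q0, hκ0⟩ ⟨q0, hκm⟩
  · refine ⟨q, ?_⟩
    omega
  · exact ⟨q, hq⟩

end Pool.Agent.T2h34.RK
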