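import Mathlib
import Pool.Agent.T2h34.RK.Bas

set_option autoImplicit false

/-! Task GLU: refining one class of a partition. -/

namespace Pool.Agent.T2h34.RK

theorem t_GLU : S_GLU := by
  intro V _ G B n k D f c hc f'
  classical
  obtain ⟨a, b, hab, ha, hb⟩ := hc
  let F : V → ℕ := fun x => if h : f x = c then 2 * f' ⟨x, h⟩ + 1 else 2 * f x
  have F1 : ∀ x (h : f x = c), F x = 2 * f' ⟨x, h⟩ + 1 := fun x h => dif_pos h
  have F1' : ∀ x : {x // f x = c}, F x = 2 * f' x + 1 := fun x => F1 x.1 x.2
  have F2 : ∀ x, f x ≠ c → F x = 2 * f x := fun x h => dif_neg h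
  have F3 : ∀ x y, F x = F y → f x = f y := by
    intro x y h
    by_cases hx : f x = c
    · by_cases hy : f y = c
      · rw [hx, hy]
      · exfalso
        rw [F1 x hx, F2 y hy] at h
        omega
    · by_cases hy : f y = c
      · exfalso
        rw [F2 x hx, F1 y hy] at h
        omega
      · rw [F2 x hx, F2 y hy] at h
        omega
  refine ⟨F, F3, ?_, ?_, ?_⟩
  · intro x y h h1
    rw [F2 x h1, F2 y (by rw [← h]; exact h1), h]
  · intro x y
    rw [F1', F1']
    omega
  · have c1 : cls F + 1 = cls f + cls f' := by
      unfold cls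
      have e : Set.range F = ((fun m : ℕ => 2 * m) '' (Set.range f \ {c})) ∪
          ((fun m : ℕ => 2 * m + 1) '' Set.range f') := by
        ext m
        constructor
        · rintro ⟨x, rfl⟩
          by_cases h : f x = c
          · right
            exact ⟨f' ⟨x, h⟩, ⟨_, rfl⟩, (F1 x h).symm⟩
          · left
            exact ⟨f x, ⟨⟨x, rfl⟩, h⟩, (F2 x h).symm⟩
        · rintro (⟨_, ⟨⟨x, rfl⟩, h⟩, rfl⟩ | ⟨_, ⟨x, rfl⟩, rfl⟩)
          · exact ⟨x, F2 x h⟩
          · exact ⟨x, F1' x⟩
      have i1 : Function.Injective (fun m : ℕ => 2 * m) := by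
        intro x y h
        simp only at h
        omega
      have i2 : Function.Injective (fun m : ℕ => 2 * m + 1) := by
        intro x y h
        simp only at h
        omega
      rw [e, Set.ncard_union_eq, Set.ncard_image_of_injective _ i1,
        Set.ncard_image_of_injective _ i2]
      · have h1 := Set.ncard_sdiff_singleton_add_one (s := Set.range f) (a := c) ⟨a, ha⟩
        omega
      · rw [Set.disjoint_left]
        rintro _ ⟨m1, _, rfl⟩ ⟨m2, _, h⟩
        simp only at h
        omega
    have c2 : sing B F = sing B f + sing (Subtype.val ⁻¹' B) f' := by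
      unfold sing
      have e : {x | x ∉ B ∧ ∀ y, F y = F x → y = x} =
          {x | x ∉ B ∧ ∀ y, f y = f x → y = x} ∪
          (Subtype.val '' {x : {x // f x = c} | x ∉ (Subtype.val ⁻¹' B : Set {x // f x = c}) ∧
            ∀ y, f' y = f' x → y = x}) := by
        ext x
        constructor
        · rintro ⟨hx1, hx2⟩
          by_cases h : f x = c
          · right
            refine ⟨⟨x, h⟩, ⟨hx1, ?_⟩, rfl⟩
            intro y hy
            apply Subtype.ext
            apply hx2
            rw [F1', hy, F1 x h]
          · left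
            refine ⟨hx1, ?_⟩
            intro y hy
            apply hx2
            rw [F2 x h, F2 y (by rw [hy]; exact h), hy]
        · rintro (⟨hx1, hx2⟩ | ⟨x, ⟨hx1, hx2⟩, rfl⟩)
          · refine ⟨hx1, ?_⟩
            intro y hy
            exact hx2 y (F3 y x hy)
          · refine ⟨hx1, ?_⟩
            intro y hy
            have h1 : f y = c := (F3 y x hy).trans x.2
            rw [F1 y h1, F1'] at hy
            exact congrArg Subtype.val (hx2 ⟨y, h1⟩ (by omega))
      rw [e, Set.ncard_union_eq, Set.ncard_image_of_injective _ Subtype.val_injective]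
      rw [Set.disjoint_left]
      rintro _ ⟨_, hx2⟩ ⟨x, _, rfl⟩
      have h1 := hx2 a (by rw [ha, x.2])
      have h2 := hx2 b (by rw [hb, x.2])
      exact hab (h1.trans h2.symm)
    have c3 : pr G F = pr G f + pr (G.comap (Subtype.val : {x // f x = c} → V)) f' := by
      unfold pr
      have e : {z : V × V | G.Adj z.1 z.2 ∧ F z.1 ≠ F z.2} =
          {z : V × V | G.Adj z.1 z.2 ∧ f z.1 ≠ f z.2} ∪
          (Prod.map Subtype.val Subtype.val '' {z : {x // f x = c} × {x // f x = c} |
            (G.comap (Subtype.val : {x // f x = c} → V)).Adj z.1 z.2 ∧ f' z.1 ≠ f' z.2}) := by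
        ext z
        obtain ⟨x, y⟩ := z
        constructor
        · rintro ⟨h1, h2⟩
          simp only at h1 h2
          by_cases hxy : f x = f y
          · right
            by_cases hx : f x = c
            · refine ⟨(⟨x, hx⟩, ⟨y, hxy ▸ hx⟩), ⟨h1, ?_⟩, rfl⟩
              intro h3
              apply h2
              rw [F1 x hx, F1 y (hxy ▸ hx)]
              simp only at h3
              rw [h3]
            · exfalso
              apply h2
              rw [F2 x hx, F2 y (by rw [← hxy]; exact hx), hxy]
          · left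
            exact ⟨h1, hxy⟩
        · rintro (⟨h1, h2⟩ | ⟨⟨x', y'⟩, ⟨h1, h2⟩, h3⟩)
          · exact ⟨h1, fun h => h2 (F3 _ _ h)⟩
          · simp only [Prod.map_apply, Prod.mk.injEq] at h3
            obtain ⟨rfl, rfl⟩ := h3
            refine ⟨h1, ?_⟩
            simp only at h2 ⊢
            rw [F1', F1']
            omega
      rw [e, Set.ncard_union_eq, Set.ncard_image_of_injective]
      · exact Function.Injective.prodMap Subtype.val_injective Subtype.val_injective
      · rw [Set.disjoint_left]
        rintro _ ⟨_, h2⟩ ⟨⟨x', y'⟩, _, rfl⟩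
        simp only [Prod.map_apply] at h2
        exact h2 (x'.2.trans y'.2.symm)
    have c1' : (cls F : ℤ) = cls f + cls f' - 1 := by
      have : ((cls F + 1 : ℕ) : ℤ) = ((cls f + cls f' : ℕ) : ℤ) := by rw [c1]
      push_cast at this
      linarith
    unfold val
    rw [c1', c2, c3]
    push_cast
    ring

end Pool.Agent.T2h34.RK
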