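import Mathlib
import Pool.Agent.T2h34.RK.Rig
import Pool.Agent.T2h34.RK.T_GLU
import Pool.Agent.T2h69.RK.Cnt

set_option autoImplicit false
set_option linter.unusedSectionVars false

/-! The induction. -/

namespace Pool.Agent.T2h34.RK

open Matrix Pool.Agent.H283R2.DR Pool.Agent.H283R2.DR.TA Pool.Agent.H789R5 Pool.Agent.T2h34.CP

variable {V W : Type} {μ : ℕ}

theorem XG_mono {G G' : SimpleGraph V} (h : G ≤ G') (H : SimpleGraph W) (r : V → ℕ) (B : Set V) :
    XG G H r B ≤ XG G' H r B := by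
  rintro x y (h1 | ⟨h1, h2⟩ | h1)
  · exact Or.inl h1
  · exact Or.inr (Or.inl ⟨h1, h h2⟩)
  · exact Or.inr (Or.inr h1)

theorem cls_anti [Finite V] {f r : V → ℕ} (h : ∀ x y, r x = r y → f x = f y) : cls f ≤ cls r := by
  have h1 : Function.FactorsThrough f r := fun x y hxy => h x y hxy
  obtain ⟨φ, hφ⟩ := (Function.factorsThrough_iff f).1 h1
  have h2 : Set.range f = φ '' Set.range r := by
    rw [hφ, Set.range_comp]
  unfold cls
  rw [h2]
  exact Set.ncard_image_le (Set.finite_range r)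

theorem cls_le [Finite V] (f : V → ℕ) : cls f ≤ Nat.card V := by
  unfold cls
  rw [← Set.image_univ, ← Set.ncard_univ]
  exact Set.ncard_image_le (Set.toFinite _)

theorem sing_le [Finite V] (B : Set V) (f : V → ℕ) : sing B f ≤ Nat.card V := by
  unfold sing
  rw [← Set.ncard_univ]
  exact Set.ncard_le_ncard (Set.subset_univ _) (Set.toFinite _)

theorem val_congr [Finite V] (n k D : ℕ) (G : SimpleGraph V) (B : Set V) {f r : V → ℕ}
    (h : ∀ x y, r x = r y ↔ f x = f y) : val n k D G B f = val n k D G B r := by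
  have h1 : cls f = cls r := le_antisymm (cls_anti fun x y => (h x y).1)
    (cls_anti fun x y => (h x y).2)
  have h2 : sing B f = sing B r := by
    unfold sing
    congr 1
    ext x
    simp only [h]
  have h3 : pr G f = pr G r := by
    unfold pr
    congr 1
    ext z
    simp only [h, ne_eq]
  unfold val
  rw [h1, h2, h3]

theorem mrg_cls_le [Finite V] {r : V → ℕ} {C : Set V} {x0 : V} :
    cls (mrg C (r x0) r) ≤ cls r := by
  refine Set.ncard_le_ncard ?_ (Set.finite_range r)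
  rintro _ ⟨x, rfl⟩
  by_cases hx : x ∈ C
  · exact ⟨x0, (mrg_of hx).symm⟩
  · exact ⟨x, (mrg_not hx).symm⟩

/-- deletion of an edge between different classes -/
theorem del_pr [Finite V] (G : SimpleGraph V) (r : V → ℕ) {a b : V} (hab : G.Adj a b)
    (hr : r a ≠ r b) : pr (G.deleteEdges {s(a, b)}) r < pr G r ∧
      pr G r ≤ pr (G.deleteEdges {s(a, b)}) r + 2 := by
  have hsub : {z : V × V | (G.deleteEdges {s(a, b)}).Adj z.1 z.2 ∧ r z.1 ≠ r z.2} ⊆
      {z : V × V | G.Adj z.1 z.2 ∧ r z.1 ≠ r z.2} := by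
    rintro z ⟨h1, h2⟩
    exact ⟨(G.deleteEdges_le _) h1, h2⟩
  constructor
  · refine Set.ncard_lt_ncard ⟨hsub, ?_⟩ (Set.toFinite _)
    intro h
    have h1 : ((a, b) : V × V) ∈ {z : V × V | G.Adj z.1 z.2 ∧ r z.1 ≠ r z.2} := ⟨hab, hr⟩
    have h2 := (h h1).1
    rw [SimpleGraph.deleteEdges_adj] at h2
    exact h2.2 rfl
  · have h1 : {z : V × V | G.Adj z.1 z.2 ∧ r z.1 ≠ r z.2} ⊆
        {z : V × V | (G.deleteEdges {s(a, b)}).Adj z.1 z.2 ∧ r z.1 ≠ r z.2} ∪
          {(a, b), (b, a)} := by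
      rintro ⟨x, y⟩ ⟨h1, h2⟩
      by_cases hxy : s(x, y) = s(a, b)
      · right
        rw [Sym2.eq_iff] at hxy
        rcases hxy with ⟨rfl, rfl⟩ | ⟨rfl, rfl⟩
        · exact Or.inl rfl
        · exact Or.inr rfl
      · left
        refine ⟨?_, h2⟩
        rw [SimpleGraph.deleteEdges_adj]
        exact ⟨h1, hxy⟩
    have h2 := Set.ncard_le_ncard h1 (Set.toFinite _)
    have h3 := Set.ncard_union_le
      {z : V × V | (G.deleteEdges {s(a, b)}).Adj z.1 z.2 ∧ r z.1 ≠ r z.2} {(a, b), (b, a)}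
    have h4 : ({(a, b), (b, a)} : Set (V × V)).ncard ≤ 2 := Set.ncard_insert_le _ _ |>.trans (by
      rw [Set.ncard_singleton])
    unfold pr
    omega

/-- a best partition -/
theorem exists_best [Finite V] (n k D : ℕ) (G : SimpleGraph V) (B : Set V) (r : V → ℕ) :
    ∃ f : V → ℕ, (∀ x y, r x = r y → f x = f y) ∧ ∀ f' : V → ℕ,
      (∀ x y, r x = r y → f' x = f' y) → val n k D G B f' ≤ val n k D G B f := by
  let M : ℤ := 2 * (D : ℤ) * Nat.card V + 2 * ((n : ℤ) + k) * Nat.card V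
  have hM : ∀ f : V → ℕ, val n k D G B f ≤ M := by
    intro f
    have h1 : (cls f : ℤ) ≤ Nat.card V := by exact_mod_cast cls_le f
    have h2 : (sing B f : ℤ) ≤ Nat.card V := by exact_mod_cast sing_le B f
    have h3 : (0 : ℤ) ≤ sing B f := by positivity
    have h4 : (0 : ℤ) ≤ (n : ℤ) * pr G f := by positivity
    have h5 : 2 * (D : ℤ) * cls f ≤ 2 * (D : ℤ) * Nat.card V :=
      mul_le_mul_of_nonneg_left h1 (by positivity)
    have h6 : 2 * ((n : ℤ) + k) * sing B f ≤ 2 * ((n : ℤ) + k) * Nat.card V :=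
      mul_le_mul_of_nonneg_left h2 (by positivity)
    have h7 : 0 ≤ 2 * (D : ℤ) * sing B f := by positivity
    show val n k D G B f ≤ 2 * (D : ℤ) * Nat.card V + 2 * ((n : ℤ) + k) * Nat.card V
    unfold val
    linarith
  obtain ⟨m, ⟨f, hf, hfm⟩, hmin⟩ := (wellFounded_lt (α := ℕ)).has_min
    {m : ℕ | ∃ f : V → ℕ, (∀ x y, r x = r y → f x = f y) ∧ (m : ℤ) = M - val n k D G B f}
    ⟨(M - val n k D G B r).toNat, r, fun _ _ h => h, by
      rw [Int.toNat_of_nonneg]
      have := hM r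
      linarith⟩
  refine ⟨f, hf, fun f' hf' => ?_⟩
  by_contra hlt
  push Not at hlt
  refine hmin (M - val n k D G B f').toNat ⟨f', hf', ?_⟩ ?_
  · rw [Int.toNat_of_nonneg]
    have := hM f'
    linarith
  · have h1 : ((M - val n k D G B f').toNat : ℤ) = M - val n k D G B f' := by
      rw [Int.toNat_of_nonneg]
      have := hM f'
      linarith
    have : ((M - val n k D G B f').toNat : ℤ) < m := by
      rw [h1, hfm]
      linarith
    exact_mod_cast this

theorem main_ind (hμ : 2 ≤ μ) (W : Type) [Finite W] (n k D : ℕ) (hn : n = Nat.card W)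
    (hk : k = μ * (μ + 1) / 2) (hD : D = (μ + 1) * (μ + 1 + 1) / 2) (hnD : D + 2 * k ≤ n) :
    ∀ (N : ℕ) (V : Type) [Finite V] (G : SimpleGraph V) (r : V → ℕ) (B : Set V)
      (β : V → Fin μ → ℝ), Inv r B → Bod r B → Pos β → cls r + pr G r = N →
      MM n k D W G r B β := by
  intro N
  induction N using Nat.strong_induction_on with
  | _ N ih =>
  intro V _ G r B β hI hB hβ hN
  classical
  have := Fintype.ofFinite V
  have := Fintype.ofFinite W
  have hdiv : 2 * (μ * (μ + 1) / 2) = μ * (μ + 1) := by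
    have h2 : 2 ∣ μ * (μ + 1) := (Nat.even_mul_succ_self μ).two_dvd
    omega
  have hdiv' : 2 * ((μ + 1) * (μ + 1 + 1) / 2) = (μ + 1) * (μ + 1 + 1) := by
    have h2 : 2 ∣ (μ + 1) * (μ + 1 + 1) := (Nat.even_mul_succ_self (μ + 1)).two_dvd
    omega
  have hk1 : 1 ≤ k := by
    rw [hk]
    have : 2 ≤ μ * (μ + 1) := by nlinarith
    omega
  have hkD : k < D := by
    have : μ * (μ + 1) < (μ + 1) * (μ + 1 + 1) := by nlinarith
    omega
  have hWk : μ * (μ + 1) ≤ Nat.card W := by omega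
  have hWpos : μ + 1 ≤ Nat.card W := by nlinarith
  have hWD : (μ + 1) * (μ + 2) / 2 ≤ Nat.card W := by
    have : (μ + 1) * (μ + 2) = (μ + 1) * (μ + 1 + 1) := rfl
    rw [this]
    omega
  have hβinj := pos_inj (by omega : 1 ≤ μ) hβ
  -- 1. no vertices
  rcases isEmpty_or_nonempty V with hV | hV
  · refine ⟨r, fun _ _ h => h, 0, ?_⟩
    have h1 : mo (XG G (⊤ : SimpleGraph W) r B) (fl β 0) = 0 := by
      have : Subsingleton (V × W → Fin (μ + 1) → ℝ) := by
        have : IsEmpty (V × W) := inferInstance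
        infer_instance
      exact Module.finrank_zero_of_subsingleton
    have h2 : cls r = 0 := by
      unfold cls
      rw [Set.range_eq_empty r, Set.ncard_empty]
    have h3 : sing B r = 0 := by
      unfold sing
      rw [Set.ncard_eq_zero (Set.toFinite _), Set.eq_empty_iff_forall_notMem]
      exact fun x => isEmptyElim x
    have h4 : pr G r = 0 := by
      unfold pr
      rw [Set.ncard_eq_zero (Set.toFinite _), Set.eq_empty_iff_forall_notMem]
      exact fun x => isEmptyElim x.1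
    unfold val
    rw [h1, h2, h3, h4]
    simp
  -- the induction hypothesis for substructures
  have ihS : ∀ (G' : SimpleGraph V) (p : V → Prop), pr G' r ≤ pr G r →
      (∀ x y, r x = r y → x ∈ B → p x → p y) →
      cls (fun x : {x // p x} => r x.1) + pr G' r < cls r + pr G r →
      MM n k D W (SG G' p) (fun x : {x // p x} => r x.1) (Subtype.val ⁻¹' B)
        (fun x => β x.1) := by
    intro G' p hG' hp hlt
    have h1 := sub_pr_le G' r p
    refine ih _ ?_ {x // p x} (SG G' p) _ _ _ (sub_inv p hI) (sub_bod p hB hp) (sub_pos p hβ) rfl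
    omega
  -- the induction hypothesis after merging
  have ihM : ∀ (C : Set V), (∀ x y, r x = r y → x ∈ C → y ∈ C) → ∀ x0 ∈ C, ∀ y0 ∈ C,
      r y0 ≠ r x0 → MM n k D W G (mrg C (r x0) r) (B ∪ C) β := by
    intro C hC x0 hx0 y0 hy0 h0
    have h1 := mrg_cls hC hx0 hy0 h0
    have h2 := mrg_pr (x0 := x0) G hC
    refine ih _ ?_ V G _ _ β (mrg_inv hI hC hx0) (mrg_bod hB hC hx0 hy0
      (fun h => h0 (by rw [h]))) hβ rfl
    omega
  have hginv : ∀ g, g ∉ B → ∀ x, x ≠ g → r x ≠ r g := fun g hg x hx h => hx (hI g hg x h)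
  have hgp : ∀ g, g ∉ B → ∀ x y, r x = r y → x ∈ B → x ≠ g → y ≠ g := by
    intro g hg x y hxy _ hxg hyg
    subst hyg
    exact hxg (hI y hg x hxy)
  -- 2. plates of degree at most one
  by_cases c1 : ∃ g, g ∉ B ∧ {y | G.Adj g y}.ncard ≤ 1
  · obtain ⟨g, hg, hd⟩ := c1
    refine stepA hn hk hμ hWpos G r B hI β hβ g hg hd (ihS G _ le_rfl (hgp g hg) ?_)
    have := sub_cls_lt r (fun x => x ≠ g) (x0 := g) (hginv g hg)
    omega
  -- 3. plates of degree two
  by_cases c2 : ∃ g, g ∉ B ∧ {y | G.Adj g y}.ncard = 2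
  · obtain ⟨g, hg, hd⟩ := c2
    obtain ⟨g1, g2, h12, hd'⟩ := Set.ncard_eq_two.1 hd
    have ha1 : G.Adj g g1 := by
      have : g1 ∈ {y | G.Adj g y} := by rw [hd']; exact Or.inl rfl
      exact this
    have ha2 : G.Adj g g2 := by
      have : g2 ∈ {y | G.Adj g y} := by rw [hd']; exact Or.inr rfl
      exact this
    have hcl := sub_cls_lt r (fun x => x ≠ g) (x0 := g) (hginv g hg)
    refine stepB hn hk hμ hWk G r B hI hB β hβ g hg ⟨g1, ha1.ne.symm⟩ ⟨g2, ha2.ne.symm⟩
      (fun h => h12 (congrArg Subtype.val h)) hd' (ihS G _ le_rfl (hgp g hg) (by omega)) ?_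
    have hC : ∀ x y : {x // x ≠ g}, r x.1 = r y.1 →
        x ∈ ({x | r x.1 = r g1 ∨ r x.1 = r g2} : Set {x // x ≠ g}) →
        y ∈ ({x | r x.1 = r g1 ∨ r x.1 = r g2} : Set {x // x ≠ g}) := by
      rintro x y hxy (h | h)
      · exact Or.inl (hxy.symm.trans h)
      · exact Or.inr (hxy.symm.trans h)
    have m1 : (⟨g1, ha1.ne.symm⟩ : {x // x ≠ g}) ∈
      ({x | r x.1 = r g1 ∨ r x.1 = r g2} : Set {x // x ≠ g}) := Or.inl rfl
    have m2 : (⟨g2, ha2.ne.symm⟩ : {x // x ≠ g}) ∈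
      ({x | r x.1 = r g1 ∨ r x.1 = r g2} : Set {x // x ≠ g}) := Or.inr rfl
    have h1 := mrg_cls_le (r := fun x : {x // x ≠ g} => r x.1)
      (C := ({x | r x.1 = r g1 ∨ r x.1 = r g2} : Set {x // x ≠ g})) (x0 := ⟨g1, ha1.ne.symm⟩)
    have h2 := mrg_pr (r := fun x : {x // x ≠ g} => r x.1) (x0 := ⟨g1, ha1.ne.symm⟩)
      (SG G (fun x => x ≠ g)) hC
    have h3 := sub_pr_le G r (fun x => x ≠ g)
    have h4 : cls (fun x : {x // x ≠ g} => r x.1) +
      pr (SG G (fun x => x ≠ g)) (fun x : {x // x ≠ g} => r x.1) < N := by omega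
    refine ih _ (lt_of_le_of_lt (Nat.add_le_add h1 h2) h4) {x // x ≠ g}
      (SG G (fun x => x ≠ g)) _ _ _
      (mrg_inv (r := fun x : {x // x ≠ g} => r x.1) (sub_inv _ hI) hC m1)
      (mrg_bod (r := fun x : {x // x ≠ g} => r x.1) (sub_bod _ hB (hgp g hg)) hC m1 m2
        (fun h => h12 (congrArg Subtype.val h).symm)) (sub_pos _ hβ) rfl
  -- 4. isolated bodies
  by_cases c3 : ∃ x, x ∈ B ∧ ∀ y z, r y = r x → G.Adj y z → r z = r x
  · obtain ⟨x, hx, hx'⟩ := c3
    have hinB : ∀ z, r z = r x → z ∈ B := by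
      intro z hz
      by_contra hzB
      have := hI z hzB x hz.symm
      rw [this] at hx
      exact hzB hx
    refine stepI hD hμ hWpos G r B hB β hβ (r x) hinB hx' ⟨x, rfl⟩ (ihS G _ le_rfl ?_ ?_)
    · intro y z hyz _ hy hz
      exact hy (hyz.trans hz)
    · have := sub_cls_lt r (fun y => r y ≠ r x) (x0 := x) (fun y hy => hy)
      omega
  -- 5. two adjacent bodies
  by_cases c4 : ∃ x y, x ∈ B ∧ y ∈ B ∧ G.Adj x y ∧ r x ≠ r y
  · obtain ⟨x, y, hx, hy, hxy, hrxy⟩ := c4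
    have hC : ∀ u w, r u = r w → u ∈ ({z | r z = r x ∨ r z = r y} : Set V) →
        w ∈ ({z | r z = r x ∨ r z = r y} : Set V) := by
      rintro u w huw (h | h)
      · exact Or.inl (huw.symm.trans h)
      · exact Or.inr (huw.symm.trans h)
    have m1 : x ∈ ({z | r z = r x ∨ r z = r y} : Set V) := Or.inl rfl
    have m2 : y ∈ ({z | r z = r x ∨ r z = r y} : Set V) := Or.inr rfl
    refine merge_step hC m1 m2 hrxy.symm ?_ (ihM _ hC x m1 y m2 hrxy.symm)
    exact two_rigid (by omega) hWD hWpos _ _ _ (sub_inv _ hI)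
      (sub_bod _ hB (fun u w huw _ hu => hC u w huw hu)) _
      (fun u w huw => hβinj u.1 w.1 (fun h => huw (Subtype.ext h))) ⟨x, m1⟩ ⟨y, m2⟩ hx hy
      (fun z => z.2) hxy
  -- 6. plates with two neighbours in bodies
  by_cases c5 : ∃ g y z, g ∉ B ∧ y ∈ B ∧ z ∈ B ∧ G.Adj g y ∧ G.Adj g z ∧ y ≠ z
  · obtain ⟨g, y, z, hg, hy, hz, hgy, hgz, hyz⟩ := c5
    have hC : ∀ u w, r u = r w → u ∈ ({x | x = g ∨ r x = r y ∨ r x = r z} : Set V) →
        w ∈ ({x | x = g ∨ r x = r y ∨ r x = r z} : Set V) := by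
      rintro u w huw (h | h | h)
      · left
        rw [h] at huw
        exact hI g hg w huw.symm
      · exact Or.inr (Or.inl (huw.symm.trans h))
      · exact Or.inr (Or.inr (huw.symm.trans h))
    have m0 : g ∈ ({x | x = g ∨ r x = r y ∨ r x = r z} : Set V) := Or.inl rfl
    have m1 : y ∈ ({x | x = g ∨ r x = r y ∨ r x = r z} : Set V) := Or.inr (Or.inl rfl)
    have m2 : z ∈ ({x | x = g ∨ r x = r y ∨ r x = r z} : Set V) := Or.inr (Or.inr rfl)
    have hne : r g ≠ r y := fun h => hgy.ne (hI g hg y h.symm).symm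
    refine merge_step hC m1 m0 hne ?_ (ihM _ hC y m1 g m0 hne)
    refine five_rigid hμ (by omega) _ _ _ (sub_inv _ hI)
      (sub_bod _ hB (fun u w huw _ hu => hC u w huw hu)) _ (sub_pos _ hβ) ⟨g, m0⟩ hg
      ⟨⟨y, m1⟩, fun h => hgy.ne (congrArg Subtype.val h).symm⟩
      ⟨⟨z, m2⟩, fun h => hgz.ne (congrArg Subtype.val h).symm⟩ hgy hgz
      (fun h => hyz (congrArg (fun w => w.1.1) h)) hy hz ?_
    rintro ⟨w, hw⟩ hwg
    rcases hw with h | h | h
    · exact absurd (Subtype.ext h) hwg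
    · exact Or.inl h
    · exact Or.inr h
  -- 7. the counting argument
  push Not at c1 c2 c3 c4 c5
  have d1 : ∀ x, x ∉ B → 3 ≤ {y | G.Adj x y}.ncard := by
    intro x hx
    have := c1 x hx
    have := c2 x hx
    omega
  have d2 : ∀ x y z, x ∉ B → y ∈ B → z ∈ B → G.Adj x y → G.Adj x z → y = z := c5
  have d3 : ∀ x y, x ∈ B → y ∈ B → G.Adj x y → r x = r y := c4
  obtain ⟨a, b, hab, hrab⟩ : ∃ a b, G.Adj a b ∧ r a ≠ r b := by
    obtain ⟨x⟩ := hV
    by_cases hx : x ∈ B
    · obtain ⟨y, z, h1, h2, h3⟩ := c3 x hx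
      exact ⟨y, z, h2, fun h => h3 (h.symm.trans h1)⟩
    · have h1 : {y | G.Adj x y}.Nonempty := by
        rw [← Set.ncard_pos (Set.toFinite _)]
        have := d1 x hx
        omega
      obtain ⟨y, hy⟩ := h1
      exact ⟨x, y, hy, fun h => (SimpleGraph.Adj.ne hy) (hI x hx y h.symm).symm⟩
  obtain ⟨p1, p2⟩ := del_pr G r hab hrab
  set G' := G.deleteEdges {s(a, b)} with hG'
  have hG'G : G' ≤ G := G.deleteEdges_le _
  have hcount : val n k D G' B r < 2 * D := by
    by_contra hge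
    push Not at hge
    refine cnt_lt V G r B n k D hI hnD hk1 hkD d1 d2 d3 c3 ?_
    unfold val at hge
    have h1 : ((pr G r : ℤ) - 2) ≤ pr G' r := by
      have : (pr G r : ℤ) ≤ pr G' r + 2 := by exact_mod_cast p2
      linarith
    have h2 : (n : ℤ) * ((pr G r : ℤ) - 2) ≤ n * pr G' r :=
      mul_le_mul_of_nonneg_left h1 (by positivity)
    linarith
  obtain ⟨f, hf, hbest⟩ := exists_best n k D G' B r
  have hconst : (2 * D : ℤ) ≤ val n k D G' B (fun _ => 0) := by
    have h1 : cls (fun _ : V => 0) = 1 := by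
      unfold cls
      rw [Set.range_const, Set.ncard_singleton]
    have h2 : pr G' (fun _ : V => 0) = 0 := by
      unfold pr
      rw [Set.ncard_eq_zero (Set.toFinite _), Set.eq_empty_iff_forall_notMem]
      rintro z ⟨_, h⟩
      exact h rfl
    unfold val
    rw [h1, h2]
    have h3 : (0 : ℤ) ≤ 2 * ((n : ℤ) + k - D) * (sing B (fun _ : V => 0) : ℤ) := by
      apply mul_nonneg
      · have : (D : ℤ) + 2 * k ≤ n := by exact_mod_cast hnD
        have hk0 : (0 : ℤ) ≤ k := by positivity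
        linarith
      · positivity
    push_cast
    linarith
  have hfr : ∃ x y, f x = f y ∧ r x ≠ r y := by
    by_contra hcon
    push Not at hcon
    have h1 := val_congr n k D G' B (fun x y => ⟨hf x y, hcon x y⟩)
    have h2 := hbest (fun _ => 0) (fun _ _ _ => rfl)
    linarith
  obtain ⟨x, y, hfxy, hrxy⟩ := hfr
  have hC : ∀ u w, r u = r w → u ∈ ({z | f z = f x} : Set V) → w ∈ ({z | f z = f x} : Set V) :=
    fun u w huw hu => (hf u w huw).symm.trans hu
  have m1 : x ∈ ({z | f z = f x} : Set V) := rfl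
  have m2 : y ∈ ({z | f z = f x} : Set V) := hfxy.symm
  obtain ⟨f', hf', q', hq'⟩ := ihS G' (fun z => f z = f x) p1.le
    (fun u w huw _ hu => hC u w huw hu) (by
      have := sub_cls_le r (fun z => f z = f x)
      omega)
  obtain ⟨F, hF1, hF2, hF3, hF4⟩ := t_GLU V G' B n k D f (f x)
    ⟨x, y, fun h => hrxy (by rw [h]), rfl, hfxy.symm⟩ f'
  have hFr : ∀ u w, r u = r w → F u = F w := by
    intro u w huw
    by_cases hu : f u = f x
    · have hw : f w = f x := (hf u w huw).symm.trans hu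
      exact (hF3 ⟨u, hu⟩ ⟨w, hw⟩).2 (hf' ⟨u, hu⟩ ⟨w, hw⟩ huw)
    · exact hF2 u w (hf u w huw) hu
  have hval := hbest F hFr
  have hmo : mo (XG (SG G' (fun z => f z = f x)) (⊤ : SimpleGraph W) (fun z => r z.1)
      (Subtype.val ⁻¹' B)) (fl (fun z => β z.1) q') ≤ D := by
    rw [hF4] at hval
    have h1 : val n k D (SG G' (fun z => f z = f x)) (Subtype.val ⁻¹' B) f' ≤ 2 * D := by
      have : val n k D (G'.comap (Subtype.val : {z // f z = f x} → V)) (Subtype.val ⁻¹' B) f' ≤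
        2 * D := by linarith
      exact this
    have h2 := hq'.trans h1
    have h3 : (mo (XG (SG G' (fun z => f z = f x)) (⊤ : SimpleGraph W) (fun z => r z.1)
      (Subtype.val ⁻¹' B)) (fl (fun z => β z.1) q') : ℤ) ≤ D := by linarith
    exact_mod_cast h3
  have hle : SG G' (fun z => f z = f x) ≤ SG G (fun z => f z = f x) := by
    intro u w huw
    exact hG'G huw
  have hne : Nonempty {z // f z = f x} := ⟨⟨x, rfl⟩⟩
  refine merge_step hC m1 m2 hrxy.symm ?_ (ihM _ hC x m1 y m2 hrxy.symm)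
  refine rigid_of_mo (V := {z // f z = f x}) hWpos (XG (SG G (fun z => f z = f x))
    (⊤ : SimpleGraph W) (fun z => r z.1) (Subtype.val ⁻¹' B)) (fun z => β z.1) ⟨q', ?_⟩
  rw [← hD]
  exact (mo_anti (XG_mono hle _ _ _) _).trans hmo

end Pool.Agent.T2h34.RK
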