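import Pool.Agent.T2h34.RK.Bas

/-!
# RK/NEC (helper26): the lower bound for the dimension of the space of motions
-/

set_option autoImplicit false
set_option linter.unusedSectionVars false

namespace Pool.Agent.T2h34.RK

open Matrix Pool.Agent.H283R2.DR Pool.Agent.H789R5

namespace NEC

open Finset

/-- the edges of the product between different classes -/
def XC {V W : Type} (G : SimpleGraph V) (f : V → ℕ) : SimpleGraph (V × W) where
  Adj x y := x.2 = y.2 ∧ G.Adj x.1 y.1 ∧ f x.1 ≠ f y.1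
  symm := ⟨by
    rintro x y ⟨h1, h2, h3⟩
    exact ⟨h1.symm, h2.symm, h3.symm⟩⟩
  loopless := ⟨by
    rintro x ⟨h1, h2, h3⟩
    exact h3 rfl⟩

theorem two_ncard {V W : Type} [Fintype V] [Fintype W] (G : SimpleGraph V) (f : V → ℕ) :
    2 * (XC G f : SimpleGraph (V × W)).edgeSet.ncard ≤ pr G f * Nat.card W := by
  classical
  have h1 := SimpleGraph.dart_card_eq_twice_card_edges (XC G f : SimpleGraph (V × W))
  have h2 : (XC G f : SimpleGraph (V × W)).edgeSet.ncard =
      (XC G f : SimpleGraph (V × W)).edgeFinset.card := by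
    rw [← SimpleGraph.coe_edgeFinset, Set.ncard_coe_finset]
  rw [h2, ← h1]
  let F : (XC G f : SimpleGraph (V × W)).Dart →
      {z : V × V | G.Adj z.1 z.2 ∧ f z.1 ≠ f z.2} × W :=
    fun e => (⟨(e.fst.1, e.snd.1), e.adj.2⟩, e.fst.2)
  have h3 : Function.Injective F := by
    intro e e' h
    have a1 : ((e.fst.1, e.snd.1) : V × V) = (e'.fst.1, e'.snd.1) :=
      Subtype.ext_iff.1 (Prod.ext_iff.1 h).1
    have a2 : e.fst.2 = e'.fst.2 := (Prod.ext_iff.1 h).2
    have b1 : e.fst.1 = e'.fst.1 := (Prod.ext_iff.1 a1).1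
    have b2 : e.snd.1 = e'.snd.1 := (Prod.ext_iff.1 a1).2
    have c1 : e.fst.2 = e.snd.2 := e.adj.1
    have c2 : e'.fst.2 = e'.snd.2 := e'.adj.1
    apply SimpleGraph.Dart.ext
    apply Prod.ext
    · exact Prod.ext b1 a2
    · exact Prod.ext b2 (by rw [← c1, ← c2]; exact a2)
  have h4 := Nat.card_le_card_of_injective F h3
  rw [Nat.card_prod, Nat.card_eq_fintype_card (α := (XC G f : SimpleGraph (V × W)).Dart)] at h4
  exact h4

/-- the graph without the edges between different classes; the classes with at least two elements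
are made rigid -/
def BG {V W : Type} (H : SimpleGraph W) (f : V → ℕ) : SimpleGraph (V × W) where
  Adj x y := x ≠ y ∧ f x.1 = f y.1 ∧ ((∀ z, f z = f x.1 → z = x.1) → H.Adj x.2 y.2)
  symm := ⟨by
    rintro x y ⟨h1, h2, h3⟩
    refine ⟨h1.symm, h2.symm, fun h => (h3 fun z hz => ?_).symm⟩
    rw [h z (hz.trans h2), h x.1 h2]⟩
  loopless := ⟨by
    rintro x ⟨h1, _⟩
    exact h1 rfl⟩

theorem edges_sub {V W : Type} (G : SimpleGraph V) (H : SimpleGraph W) (f : V → ℕ) :
    (BG H f ⊔ G □ H).edgeSet \ (BG H f).edgeSet ⊆ (XC G f : SimpleGraph (V × W)).edgeSet := by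
  intro e
  induction e using Sym2.ind with
  | _ x y =>
    rintro ⟨h, h'⟩
    rw [SimpleGraph.mem_edgeSet, SimpleGraph.sup_adj] at h
    rw [SimpleGraph.mem_edgeSet] at h'
    rw [SimpleGraph.mem_edgeSet]
    rcases h with h | h
    · exact absurd h h'
    · have hne : x ≠ y := h.ne
      rw [SimpleGraph.boxProd_adj] at h
      rcases h with ⟨h1, h2⟩ | ⟨h1, h2⟩
      · refine ⟨h2, h1, fun hf => h' ⟨hne, hf, fun hs => ?_⟩⟩
        exact absurd (hs y.1 hf.symm) h1.ne.symm
      · exact absurd ⟨hne, by rw [h2], fun _ => h1⟩ h'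

theorem mo_ge {Y : Type} [Fintype Y] {d : ℕ} (hd : d ≤ Fintype.card Y) (G : SimpleGraph Y)
    (P : Y → Fin d → ℝ) : d * (d + 1) / 2 ≤ mo G P := by
  obtain ⟨q, hq⟩ := exists_mg Y d
  have h1 : Module.finrank ℝ (LinearMap.range (TA.triv q)) = d * (d + 1) / 2 := by
    rw [LinearMap.finrank_range_of_inj (triv_inj hq hd), finrank_triv]
  have h2 : Module.finrank ℝ (LinearMap.range (TA.triv q)) ≤ mo G q :=
    Submodule.finrank_mono (TA.range_triv_le G q)
  have h3 := hq.min G P
  omega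

/-- the part of the graph in one class -/
def GC {V W : Type} (H : SimpleGraph W) (f : V → ℕ) (c : ℕ) :
    SimpleGraph ({x : V // f x = c} × W) :=
  (BG H f).comap (fun z => (z.1.1, z.2))

theorem mo_sum {V W : Type} [Fintype V] [Fintype W] (H : SimpleGraph W) (f : V → ℕ) {d : ℕ}
    (p : V × W → Fin d → ℝ) [Fintype (Set.range f)] :
    ∑ c : Set.range f, mo (GC H f c.1) (fun z => p (z.1.1, z.2)) ≤ mo (BG H f) p := by
  classical
  let Φ : (∀ c : Set.range f, Mot (GC H f c.1) (fun z => p (z.1.1, z.2))) →ₗ[ℝ]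
      (V × W → Fin d → ℝ) :=
    { toFun := fun w x => (w ⟨f x.1, x.1, rfl⟩ : {y : V // f y = f x.1} × W → Fin d → ℝ)
        (⟨x.1, rfl⟩, x.2)
      map_add' := fun _ _ => rfl
      map_smul' := fun _ _ => rfl }
  have key : ∀ w, ∀ (c : Set.range f) (y : V × W) (hy : f y.1 = c.1),
      Φ w y = (w c : {y : V // f y = c.1} × W → Fin d → ℝ) (⟨y.1, hy⟩, y.2) := by
    rintro w ⟨c, hc⟩ y hy
    change f y.1 = c at hy
    subst hy
    rfl
  have h1 : ∀ w, Φ w ∈ Mot (BG H f) p := by
    intro w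
    rw [mem_mot]
    intro x y h
    have h2 := (mem_mot _ _ _).1 (w ⟨f x.1, x.1, rfl⟩).2 (⟨x.1, rfl⟩, x.2)
      (⟨y.1, h.2.1.symm⟩, y.2) h
    rw [key w ⟨f x.1, x.1, rfl⟩ x rfl, key w ⟨f x.1, x.1, rfl⟩ y h.2.1.symm]
    exact h2
  have hinj : Function.Injective (LinearMap.codRestrict _ Φ h1) := by
    rw [injective_iff_map_eq_zero]
    intro w hw
    have h2 : Φ w = 0 := congrArg Subtype.val hw
    funext c
    apply Subtype.ext
    funext z
    have h3 := key w c (z.1.1, z.2) z.1.2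
    rw [h2] at h3
    exact h3.symm
  have h3 := LinearMap.finrank_le_finrank_of_injective hinj
  rw [Module.finrank_pi_fintype] at h3
  exact h3

theorem mo_single {V W : Type} [Fintype V] [Fintype W] (H : SimpleGraph W) (f : V → ℕ) {d : ℕ}
    (p : V × W → Fin d → ℝ) (x : V) (hx : ∀ y, f y = f x → y = x) (c : ℕ) (hc : f x = c) :
    mo H (fun y => p (x, y)) ≤ mo (GC H f c) (fun z => p (z.1.1, z.2)) := by
  classical
  subst hc
  let Ψ : Mot H (fun y => p (x, y)) →ₗ[ℝ] ({y : V // f y = f x} × W → Fin d → ℝ) :=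
    { toFun := fun w z => (w : W → Fin d → ℝ) z.2
      map_add' := fun _ _ => rfl
      map_smul' := fun _ _ => rfl }
  have h1 : ∀ w, Ψ w ∈ Mot (GC H f (f x)) (fun z => p (z.1.1, z.2)) := by
    intro w
    rw [mem_mot]
    intro z z' h
    have e1 : z.1.1 = x := hx _ z.1.2
    have e2 : z'.1.1 = x := hx _ z'.1.2
    have h2 : H.Adj z.2 z'.2 := by
      refine h.2.2 fun y hy => ?_
      show y = z.1.1
      rw [e1]
      exact hx y (hy.trans z.1.2)
    have h3 := (mem_mot _ _ _).1 w.2 z.2 z'.2 h2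
    show (p (z.1.1, z.2) - p (z'.1.1, z'.2)) ⬝ᵥ _ = 0
    rw [e1, e2]
    exact h3
  have hinj : Function.Injective (LinearMap.codRestrict _ Ψ h1) := by
    rw [injective_iff_map_eq_zero]
    intro w hw
    have h2 : Ψ w = 0 := congrArg Subtype.val hw
    apply Subtype.ext
    funext y
    exact congrFun h2 (⟨x, rfl⟩, y)
  exact LinearMap.finrank_le_finrank_of_injective hinj

end NEC

open NEC in
theorem t_NEC : S_NEC := by
  classical
  intro V W _ _ G H d n k hn hd hk f p
  have : Fintype V := Fintype.ofFinite V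
  have : Fintype W := Fintype.ofFinite W
  have : Fintype (Set.range f) := Fintype.ofFinite _
  obtain ⟨D, hD⟩ : ∃ D, D = d * (d + 1) / 2 := ⟨_, rfl⟩
  rw [← hD]
  have hW : Fintype.card W = n := by rw [← Nat.card_eq_fintype_card, hn]
  -- the classes
  have h1 : ∀ c : Set.range f, (if ∃ x, (∀ y, f y = f x → y = x) ∧ f x = c.1 then n + k else D) ≤
      mo (GC H f c.1) (fun z => p (z.1.1, z.2)) := by
    intro c
    split_ifs with h
    · obtain ⟨x, hx, hc⟩ := h
      exact (hk _).trans (mo_single H f p x hx c.1 hc)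
    · rw [hD]
      refine mo_ge ?_ _ _
      rw [Fintype.card_prod, hW]
      have hne : 0 < Fintype.card {x : V // f x = c.1} := by
        obtain ⟨x, hx⟩ := c.2
        exact Fintype.card_pos_iff.2 ⟨⟨x, hx⟩⟩
      calc d ≤ 1 * n := by rw [one_mul]; exact hd
        _ ≤ _ := Nat.mul_le_mul_right _ hne
  have h2 := (Finset.sum_le_sum fun c (_ : c ∈ Finset.univ) => h1 c).trans (mo_sum H f p)
  have h3 := mo_le_add (G := BG H f) (G' := BG H f ⊔ G □ H) p
  have h4 := mo_anti (G := G □ H) (G' := BG H f ⊔ G □ H) le_sup_right p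
  have h5 := Set.ncard_le_ncard (edges_sub G H f) (Set.toFinite _)
  have h6 := two_ncard (W := W) G f
  rw [hn] at h6
  -- the sum
  have h7 : (∑ c : Set.range f, (if ∃ x, (∀ y, f y = f x → y = x) ∧ f x = c.1 then n + k else D) : ℕ)
      = (D : ℤ) * (cls f : ℤ) + ((n : ℤ) + (k : ℤ) - (D : ℤ)) * (sing ∅ f : ℤ) := by
    have e1 : (sing ∅ f : ℕ) = (Finset.univ.filter fun c : Set.range f =>
        ∃ x, (∀ y, f y = f x → y = x) ∧ f x = c.1).card := by
      unfold sing
      have e2 : {x : V | x ∉ (∅ : Set V) ∧ ∀ y, f y = f x → y = x} = {x | ∀ y, f y = f x → y = x} := by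
        ext x
        simp
      rw [e2, ← Set.ncard_coe_finset]
      have e3 : ((Finset.univ.filter fun c : Set.range f =>
          ∃ x, (∀ y, f y = f x → y = x) ∧ f x = c.1 : Finset (Set.range f)) : Set (Set.range f)) =
          (fun x => (⟨f x, x, rfl⟩ : Set.range f)) '' {x | ∀ y, f y = f x → y = x} := by
        ext c
        simp only [Finset.coe_filter, Finset.mem_univ, true_and, Set.mem_ofPred_eq, Set.mem_image]
        constructor
        · rintro ⟨x, hx, hc⟩
          exact ⟨x, hx, Subtype.ext hc⟩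
        · rintro ⟨x, hx, hc⟩
          exact ⟨x, hx, congrArg Subtype.val hc⟩
      rw [e3, Set.ncard_image_of_injOn]
      intro x hx x' hx' h
      exact hx' x (congrArg Subtype.val h)
    have e4 : (cls f : ℕ) = Fintype.card (Set.range f) := by
      unfold cls
      rw [← Nat.card_coe_set_eq, Nat.card_eq_fintype_card]
    rw [e1, e4, Finset.card_filter, Fintype.card, Finset.card_eq_sum_ones]
    push_cast
    rw [Finset.mul_sum, Finset.mul_sum, ← Finset.sum_add_distrib]
    refine Finset.sum_congr rfl fun c _ => ?_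
    split_ifs
    · ring
    · ring
  have h8 : ((∑ c : Set.range f, (if ∃ x, (∀ y, f y = f x → y = x) ∧ f x = c.1 then n + k else D) : ℕ)
      : ℤ) ≤ (mo (BG H f) p : ℤ) := by exact_mod_cast h2
  rw [h7] at h8
  unfold val
  have h9 : ((mo (BG H f) p : ℕ) : ℤ) ≤ (mo (BG H f ⊔ G □ H) p : ℤ) +
      (((BG H f ⊔ G □ H).edgeSet \ (BG H f).edgeSet).ncard : ℤ) := by exact_mod_cast h3
  have h10 : ((mo (BG H f ⊔ G □ H) p : ℕ) : ℤ) ≤ (mo (G □ H) p : ℤ) := by exact_mod_cast h4
  have h11 : ((((BG H f ⊔ G □ H).edgeSet \ (BG H f).edgeSet).ncard : ℕ) : ℤ) ≤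
      ((XC G f : SimpleGraph (V × W)).edgeSet.ncard : ℤ) := by exact_mod_cast h5
  have h12 : (2 : ℤ) * ((XC G f : SimpleGraph (V × W)).edgeSet.ncard : ℤ) ≤
      (pr G f : ℤ) * (n : ℤ) := by exact_mod_cast h6
  nlinarith

end Pool.Agent.T2h34.RK
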