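import Mathlib
import Pool.Agent.T2h34.RK.Ind
import Pool.Agent.T2h34.RK.T_NEC

set_option autoImplicit false
set_option linter.unusedSectionVars false

/-! The rank of the product of a graph with a graph which is rigid in one dimension less. -/

namespace Pool.Agent.T2h34.RK

open Matrix Pool.Agent.H283R2.DR Pool.Agent.H283R2.DR.TA Pool.Agent.H789R5 Pool.Agent.T2h34.CP

/-- **Upper bound.** -/
theorem upper {μ : ℕ} (hμ : 2 ≤ μ) (V W : Type) [Finite V] [Finite W] (G : SimpleGraph V)
    (H : SimpleGraph W) (hH : GenRigid μ H) (n : ℕ) (hn : n = Nat.card W)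
    (hnD : (μ + 1) * (μ + 1 + 1) / 2 + 2 * (μ * (μ + 1) / 2) ≤ n) :
    ∃ (f : V → ℕ) (p : V × W → Fin (μ + 1) → ℝ), 2 * (mo (G □ H) p : ℤ) ≤
      val n (μ * (μ + 1) / 2) ((μ + 1) * (μ + 1 + 1) / 2) G ∅ f := by
  classical
  have := Fintype.ofFinite V
  have := Fintype.ofFinite W
  obtain ⟨β, hβ⟩ := pos_exists V μ
  let r : V → ℕ := fun x => (Fintype.equivFin V x : ℕ)
  have hr : ∀ x y, r x = r y → x = y := by
    intro x y h
    exact (Fintype.equivFin V).injective (Fin.ext h)
  obtain ⟨f, -, q0, hq0⟩ := main_ind hμ W n _ _ hn rfl rfl hnD _ V G r ∅ β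
    (fun x _ y hxy => hr y x hxy) (fun x hx => absurd hx (Set.notMem_empty x)) hβ rfl
  have gH : ∀ g : V, Good (fun q : V × W → Fin μ → ℝ => InfRigid H (fun h => q (g, h))) := by
    intro g
    refine Aff.good (infRigid_good H) (F := fun q : V × W → Fin μ → ℝ => fun h => q (g, h)) ?_
    intro p0 p1 s
    rfl
  have eH : ∀ g : V, ∃ q : V × W → Fin μ → ℝ, InfRigid H (fun h => q (g, h)) := by
    intro g
    obtain ⟨p, hp⟩ := hH
    exact ⟨fun x => p x.2, hp⟩
  obtain ⟨q, h1, h2⟩ := good_and_exists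
    (fl_mo_good (XG G (⊤ : SimpleGraph W) r ∅) β (mo (XG G (⊤ : SimpleGraph W) r ∅) (fl β q0)))
    (good_forall gH) ⟨q0, le_rfl⟩ (good_family _ gH eH)
  refine ⟨f, fl β q, ?_⟩
  have h3 : mo (G □ H) (fl β q) ≤ mo (XG G (⊤ : SimpleGraph W) r ∅) (fl β q) := by
    apply Submodule.finrank_mono
    intro v hv
    rw [mem_mot] at hv ⊢
    rintro ⟨x, h⟩ ⟨y, h'⟩ (⟨e1, e2⟩ | ⟨e1, e2⟩ | ⟨_, e2, _⟩)
    · have e1' : x = y := e1
      subst e1'
      rw [fl_pair]
      obtain ⟨A, c, hA, hc⟩ := h2 x (fun h => vecTail (v (x, h)) + v (x, h) 0 • β x) (by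
        intro w w' hww
        rw [← fl_pair]
        exact hv (x, w) (x, w') (by
          rw [SimpleGraph.boxProd_adj]
          exact Or.inr ⟨hww, rfl⟩))
      rw [hc h, hc h']
      exact triv_pair hA c _ _
    · refine hv _ _ ?_
      rw [SimpleGraph.boxProd_adj]
      exact Or.inl ⟨e2, e1⟩
    · exact absurd e2 (Set.notMem_empty _)
  refine le_trans ?_ hq0
  have h4 := h3.trans h1
  exact_mod_cast Nat.mul_le_mul_left 2 h4

/-- the number of the motions of a graph with few edges -/
theorem mo_ge {W : Type} [Fintype W] {d : ℕ} (H : SimpleGraph W) (P : W → Fin d → ℝ) :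
    d * Fintype.card W ≤ mo H P + H.edgeSet.ncard := by
  have h1 := mo_le_add (G := (⊥ : SimpleGraph W)) (G' := H) P
  have h2 : mo (⊥ : SimpleGraph W) P = d * Fintype.card W := by
    have h3 : Mot (⊥ : SimpleGraph W) P = ⊤ := by
      rw [eq_top_iff]
      intro v _
      rw [mem_mot]
      intro a b hab
      exact absurd hab (by simp)
    unfold mo
    rw [h3, finrank_top, finrank_all]
  have h3 : (H.edgeSet \ (⊥ : SimpleGraph W).edgeSet).ncard ≤ H.edgeSet.ncard :=
    Set.ncard_le_ncard Set.sdiff_subset (Set.toFinite _)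
  omega

/-! ### Classes of colourings -/

/-- the number of the classes with one element -/
noncomputable def oneCl {V : Type} (f : V → ℕ) : ℕ := {c | {x | f x = c}.ncard = 1}.ncard

/-- the number of the classes with at least two elements -/
noncomputable def bigCl {V : Type} (f : V → ℕ) : ℕ := {c | 2 ≤ {x | f x = c}.ncard}.ncard

/-- the number of the edges between different classes -/
noncomputable def cross {V : Type} (G : SimpleGraph V) (f : V → ℕ) : ℕ :=
  {e | e ∈ G.edgeSet ∧ ∃ x y, e = s(x, y) ∧ f x ≠ f y}.ncard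

theorem oneCl_eq {V : Type} [Finite V] (f : V → ℕ) : sing ∅ f = oneCl f := by
  unfold sing oneCl
  have h1 : {c | {x | f x = c}.ncard = 1} = f '' {x | x ∉ (∅ : Set V) ∧ ∀ y, f y = f x → y = x} := by
    ext c
    constructor
    · intro hc
      obtain ⟨x, hx⟩ := Set.ncard_eq_one.1 hc
      have hxc : f x = c := by
        have : x ∈ {x | f x = c} := by rw [hx]; rfl
        exact this
      refine ⟨x, ⟨Set.notMem_empty _, fun y hy => ?_⟩, hxc⟩
      have : y ∈ {x | f x = c} := hy.trans hxc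
      rw [hx] at this
      exact this
    · rintro ⟨x, ⟨_, hx⟩, rfl⟩
      show {y | f y = f x}.ncard = 1
      rw [Set.ncard_eq_one]
      refine ⟨x, ?_⟩
      ext y
      exact ⟨fun h => hx y h, fun h => by rw [Set.mem_singleton_iff.1 h]; rfl⟩
  rw [h1]
  refine (Set.InjOn.ncard_image ?_).symm
  rintro x ⟨_, hx⟩ y _ hxy
  exact (hx y hxy.symm).symm

theorem bigCl_eq {V : Type} [Finite V] (f : V → ℕ) : cls f = oneCl f + bigCl f := by
  have f1 : {c | {x | f x = c}.ncard = 1}.Finite := by
    refine (Set.finite_range f).subset ?_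
    intro c hc
    have h1 : {y | f y = c}.ncard = 1 := hc
    obtain ⟨x, hx⟩ := Set.ncard_eq_one.1 h1
    have : x ∈ {x | f x = c} := by rw [hx]; rfl
    exact ⟨x, this⟩
  have f2 : {c | 2 ≤ {x | f x = c}.ncard}.Finite := by
    refine (Set.finite_range f).subset ?_
    intro c hc
    have h1 : 2 ≤ {y | f y = c}.ncard := hc
    have h2 : {y | f y = c}.Nonempty := by
      rw [← Set.ncard_pos (Set.toFinite _)]
      omega
    obtain ⟨x, hx⟩ := h2
    exact ⟨x, hx⟩
  have hdis : Disjoint {c | {x | f x = c}.ncard = 1} {c | 2 ≤ {x | f x = c}.ncard} := by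
    rw [Set.disjoint_left]
    intro c h1 h2
    have h1' : {y | f y = c}.ncard = 1 := h1
    have h2' : 2 ≤ {y | f y = c}.ncard := h2
    omega
  unfold cls oneCl bigCl
  rw [← Set.ncard_union_eq hdis f1 f2]
  congr 1
  ext c
  constructor
  · rintro ⟨x, rfl⟩
    have h1 : 0 < {y | f y = f x}.ncard := by
      rw [Set.ncard_pos (Set.toFinite _)]
      exact ⟨x, rfl⟩
    rcases Nat.lt_or_ge {y | f y = f x}.ncard 2 with h2 | h2
    · left
      show {y | f y = f x}.ncard = 1
      omega
    · right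
      exact h2
  · intro hc
    have h1 : 0 < {y | f y = c}.ncard := by
      rcases hc with hc | hc
      · have : {y | f y = c}.ncard = 1 := hc
        omega
      · have : 2 ≤ {y | f y = c}.ncard := hc
        omega
    rw [Set.ncard_pos (Set.toFinite _)] at h1
    obtain ⟨x, hx⟩ := h1
    exact ⟨x, hx⟩

theorem cross_eq {V : Type} [Finite V] (G : SimpleGraph V) (f : V → ℕ) :
    pr G f = 2 * cross G f := by
  classical
  have := Fintype.ofFinite V
  let K : SimpleGraph V :=
    { Adj := fun x y => G.Adj x y ∧ f x ≠ f y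
      symm := ⟨fun x y h => ⟨h.1.symm, h.2.symm⟩⟩
      loopless := ⟨fun x h => h.2 rfl⟩ }
  have h1 : {e | e ∈ G.edgeSet ∧ ∃ x y, e = s(x, y) ∧ f x ≠ f y} = K.edgeSet := by
    ext e
    induction e using Sym2.ind with
    | _ x y =>
      constructor
      · rintro ⟨h1, x', y', h2, h3⟩
        show K.Adj x y
        refine ⟨h1, ?_⟩
        rcases Sym2.eq_iff.1 h2 with ⟨rfl, rfl⟩ | ⟨rfl, rfl⟩
        · exact h3
        · exact h3.symm
      · intro h
        have h' : K.Adj x y := h
        exact ⟨h'.1, x, y, rfl, h'.2⟩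
  have h2 := SimpleGraph.dart_card_eq_twice_card_edges K
  have h3 : pr G f = Fintype.card K.Dart := by
    unfold pr
    rw [← Nat.card_eq_fintype_card, ← Nat.card_coe_set_eq]
    refine Nat.card_congr ⟨fun z => ⟨z.1, z.2⟩, fun e => ⟨(e.fst, e.snd), e.adj⟩, ?_, ?_⟩
    · intro z
      rfl
    · intro e
      rfl
  have h4 : cross G f = K.edgeFinset.card := by
    unfold cross
    rw [h1, ← SimpleGraph.coe_edgeFinset, Set.ncard_coe_finset]
  rw [h3, h2, h4]

end Pool.Agent.T2h34.RK
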