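import Mathlib
import Pool.Agent.T2h34.RK.Rig

set_option autoImplicit false
set_option linter.unusedSectionVars false

/-! Bodies with one neighbour. -/

namespace Pool.Agent.T2h34.RK

open Matrix Pool.Agent.H283R2.DR Pool.Agent.H283R2.DR.TA Pool.Agent.H789R5 Pool.Agent.T2h34.CP

variable {U W : Type} {μ : ℕ}

/-- velocities and a trivial motion of the space -/
abbrev EB (U W : Type) (μ : ℕ) : Type :=
  (U × W → Fin (μ + 1) → ℝ) × (Sk (μ + 1) × (Fin (μ + 1) → ℝ))

/-- the difference of the velocity of a point and of the body -/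
def eqB (β : U → Fin μ → ℝ) (g1 : U) (q : U × W → Fin μ → ℝ) :
    EB U W μ →ₗ[ℝ] (W → Fin (μ + 1) → ℝ) where
  toFun e h := e.1 (g1, h) -
    ((e.2.1 : Matrix (Fin (μ + 1)) (Fin (μ + 1)) ℝ) *ᵥ fl β q (g1, h) + e.2.2)
  map_add' e e' := by
    funext h
    simp only [Prod.fst_add, Prod.snd_add, Pi.add_apply, Submodule.coe_add, add_mulVec]
    abel
  map_smul' c e := by
    funext h
    simp only [Prod.smul_fst, Prod.smul_snd, Pi.smul_apply, Submodule.coe_smul, smul_mulVec,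
      RingHom.id_apply, smul_sub, smul_add]

theorem eqB_apply (β : U → Fin μ → ℝ) (g1 : U) (q : U × W → Fin μ → ℝ) (e : EB U W μ) (h : W) :
    eqB β g1 q e h = e.1 (g1, h) -
      ((e.2.1 : Matrix (Fin (μ + 1)) (Fin (μ + 1)) ℝ) *ᵥ fl β q (g1, h) + e.2.2) := rfl

theorem eqB_aff (β : U → Fin μ → ℝ) (g1 : U) :
    Aff (fun q : U × W → Fin μ → ℝ => eqB β g1 q) := by
  intro p0 p1 s
  refine LinearMap.ext fun e => funext fun h => ?_
  have h0 : fl β (p0 + s • (p1 - p0)) = fl β p0 + s • (fl β p1 - fl β p0) := fl_aff β p0 p1 s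
  simp only [LinearMap.add_apply, LinearMap.smul_apply, LinearMap.sub_apply, Pi.add_apply,
    Pi.smul_apply, Pi.sub_apply, eqB_apply]
  rw [h0]
  simp only [Pi.add_apply, Pi.smul_apply, Pi.sub_apply, mulVec_add, mulVec_smul, mulVec_sub]
  rw [sub_sub_sub_cancel_left]
  have : (e.2.1 : Matrix (Fin (μ + 1)) (Fin (μ + 1)) ℝ) *ᵥ fl β p0 (g1, h) + e.2.2 -
    ((e.2.1 : Matrix (Fin (μ + 1)) (Fin (μ + 1)) ℝ) *ᵥ fl β p1 (g1, h) + e.2.2) =
    -((e.2.1 : Matrix (Fin (μ + 1)) (Fin (μ + 1)) ℝ) *ᵥ fl β p1 (g1, h) -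
      (e.2.1 : Matrix (Fin (μ + 1)) (Fin (μ + 1)) ℝ) *ᵥ fl β p0 (g1, h)) := by abel
  rw [this, smul_neg]
  abel

open Classical in
/-- the auxiliary system -/
noncomputable def FB (X : SimpleGraph (U × W)) (β : U → Fin μ → ℝ) (g1 : U)
    (Z : Finset W) (q : U × W → Fin μ → ℝ) :
    EB U W μ →ₗ[ℝ] (((U × W) × (U × W) → ℝ) × (W → Fin (μ + 1) → ℝ)) where
  toFun e := (rig X (fl β q) e.1, fun h => if h ∈ Z then eqB β g1 q e h else 0)
  map_add' e e' := by
    refine Prod.ext (map_add _ _ _) (funext fun h => ?_)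
    by_cases hZ : h ∈ Z
    · simp only [hZ, if_true, map_add, Prod.snd_add, Pi.add_apply]
    · simp only [hZ, if_false, Prod.snd_add, Pi.add_apply, add_zero]
  map_smul' c e := by
    refine Prod.ext (map_smul _ _ _) (funext fun h => ?_)
    by_cases hZ : h ∈ Z
    · simp only [hZ, if_true, map_smul, Prod.smul_snd, Pi.smul_apply, RingHom.id_apply]
    · simp only [hZ, if_false, Prod.smul_snd, Pi.smul_apply, RingHom.id_apply, smul_zero]

open Classical in
theorem FB_2 (X : SimpleGraph (U × W)) (β : U → Fin μ → ℝ) (g1 : U)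
    (Z : Finset W) (q : U × W → Fin μ → ℝ) (e : EB U W μ) (h : W) :
    (FB X β g1 Z q e).2 h = if h ∈ Z then eqB β g1 q e h else 0 := rfl

theorem FB_aff (X : SimpleGraph (U × W)) (β : U → Fin μ → ℝ) (g1 : U) (Z : Finset W) :
    Aff (FB X β g1 Z) := by
  intro p0 p1 s
  refine LinearMap.ext fun e => ?_
  refine Prod.ext ?_ ?_
  · show rig X (fl β (p0 + s • (p1 - p0))) e.1 = rig X (fl β p0) e.1 +
      s • (rig X (fl β p1) e.1 - rig X (fl β p0) e.1)
    have h0 : fl β (p0 + s • (p1 - p0)) = fl β p0 + s • (fl β p1 - fl β p0) := fl_aff β p0 p1 s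
    rw [h0, rig_line]
    have : rig X (fl β p1 - fl β p0) = rig X (fl β p1) - rig X (fl β p0) := by
      have h1 := rig_line X (fl β p0) (fl β p1 - fl β p0) 1
      rw [one_smul, one_smul, add_sub_cancel] at h1
      rw [h1, add_sub_cancel_left]
    rw [this]
    rfl
  · funext h
    have h0 : eqB β g1 (p0 + s • (p1 - p0)) = eqB (W := W) β g1 p0 +
      s • (eqB β g1 p1 - eqB β g1 p0) := eqB_aff (W := W) β g1 p0 p1 s
    show (FB X β g1 Z (p0 + s • (p1 - p0)) e).2 h = (FB X β g1 Z p0 e).2 h +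
      s • ((FB X β g1 Z p1 e).2 h - (FB X β g1 Z p0 e).2 h)
    rw [FB_2, FB_2, FB_2, h0]
    by_cases hZ : h ∈ Z
    · simp only [hZ, if_true]
      rfl
    · simp only [hZ, if_false, sub_zero, smul_zero, add_zero]

/-- the solutions of the auxiliary system -/
noncomputable def AB (X : SimpleGraph (U × W)) (β : U → Fin μ → ℝ) (g1 : U)
    (Z : Finset W) (q : U × W → Fin μ → ℝ) : Submodule ℝ (EB U W μ) :=
  LinearMap.ker (FB X β g1 Z q)

theorem mem_AB {X : SimpleGraph (U × W)} {β : U → Fin μ → ℝ} {g1 : U}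
    {Z : Finset W} {q : U × W → Fin μ → ℝ} {e : EB U W μ} :
    e ∈ AB X β g1 Z q ↔ IsMotion X (fl β q) e.1 ∧ ∀ h ∈ Z, eqB β g1 q e h = 0 := by
  rw [AB, LinearMap.mem_ker, ← mem_ker_rig, LinearMap.mem_ker]
  constructor
  · intro h
    have h1 : rig X (fl β q) e.1 = 0 := congrArg Prod.fst h
    have h3 : (FB X β g1 Z q e).2 = 0 := congrArg (fun z => z.2) h
    refine ⟨h1, fun w hw => ?_⟩
    have h4 := congrFun h3 w
    rw [FB_2, if_pos hw] at h4
    exact h4
  · rintro ⟨h1, h3⟩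
    refine Prod.ext h1 (funext fun w => ?_)
    rw [FB_2]
    split_ifs with hw
    · exact h3 w hw
    · rfl

/-- the genericity of the placement for the auxiliary system -/
def GB (X : SimpleGraph (U × W)) (β : U → Fin μ → ℝ) (g1 : U)
    (q : U × W → Fin μ → ℝ) : Prop :=
  ∀ (Z : Finset W) (q' : U × W → Fin μ → ℝ), Module.finrank ℝ (AB X β g1 Z q) ≤
    Module.finrank ℝ (AB X β g1 Z q')

section

variable [Finite U] [Fintype W]

theorem gb_good (X : SimpleGraph (U × W)) (β : U → Fin μ → ℝ) (g1 : U) :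
    Good (fun q : U × W → Fin μ → ℝ => GB X β g1 q) := by
  have := Fintype.ofFinite U
  exact good_forall fun Z => good_minker (FB_aff X β g1 Z)

theorem gb_exists (X : SimpleGraph (U × W)) (β : U → Fin μ → ℝ) (g1 : U) :
    ∃ q : U × W → Fin μ → ℝ, GB X β g1 q := by
  have := Fintype.ofFinite U
  exact good_family (fun (Z : Finset W) (q : U × W → Fin μ → ℝ) => ∀ q' : U × W → Fin μ → ℝ,
    Module.finrank ℝ (AB X β g1 Z q) ≤ Module.finrank ℝ (AB X β g1 Z q'))
    (fun Z => good_minker (FB_aff X β g1 Z))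
    (fun Z => exists_minker (fun q => FB X β g1 Z q))

/-- permutation of the points -/
theorem AB_perm (G : SimpleGraph U) (r : U → ℕ) (B : Set U) (β : U → Fin μ → ℝ)
    (g1 : U) (π : W ≃ W) {Z Z' : Finset W} (hπ : ∀ h ∈ Z', π.symm h ∈ Z)
    (q : U × W → Fin μ → ℝ) :
    Module.finrank ℝ (AB (XG G (⊤ : SimpleGraph W) r B) β g1 Z (fun x => q (x.1, π x.2))) ≤
      Module.finrank ℝ (AB (XG G (⊤ : SimpleGraph W) r B) β g1 Z' q) := by
  have := Fintype.ofFinite U
  let Φ : EB U W μ →ₗ[ℝ] EB U W μ :=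
    { toFun := fun e => (fun z => e.1 (z.1, π.symm z.2), e.2)
      map_add' := fun _ _ => rfl
      map_smul' := fun _ _ => rfl }
  have e1 : ∀ (u : U) (h : W), fl β (fun x => q (x.1, π x.2)) (u, π.symm h) = fl β q (u, h) := by
    intro u h
    show vecCons (β u ⬝ᵥ q (u, π (π.symm h))) (q (u, π (π.symm h))) =
      vecCons (β u ⬝ᵥ q (u, h)) (q (u, h))
    rw [Equiv.apply_symm_apply]
  refine dim_le_of_inj Φ _ ?_ ?_
  · intro e he
    rw [mem_AB] at he ⊢
    obtain ⟨h1, h3⟩ := he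
    refine ⟨?_, ?_⟩
    · rintro ⟨x, h⟩ ⟨y, h'⟩ hadj
      have key := h1 (x, π.symm h) (y, π.symm h') (by
        rcases hadj with ⟨a1, a2⟩ | ⟨a1, a2⟩ | ⟨a1, a2, a3, a4⟩
        · exact Or.inl ⟨a1, fun hh => a2 (π.symm.injective hh)⟩
        · exact Or.inr (Or.inl ⟨congrArg π.symm a1, a2⟩)
        · refine Or.inr (Or.inr ⟨?_, a2, a3, a4⟩)
          intro hh
          apply a1
          rw [Prod.ext_iff] at hh ⊢
          exact ⟨hh.1, π.symm.injective hh.2⟩)
      rw [e1, e1] at key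
      exact key
    · intro h hh
      have h5 := h3 _ (hπ h hh)
      rw [eqB_apply, e1] at h5
      rw [eqB_apply]
      exact h5
  · intro e _ h0
    have h1 : (fun z : U × W => e.1 (z.1, π.symm z.2)) = 0 := congrArg Prod.fst h0
    have h2 : e.2 = 0 := congrArg (fun z => z.2) h0
    refine Prod.ext (funext fun z => ?_) h2
    have := congrFun h1 (z.1, π z.2)
    simp only [Equiv.symm_apply_apply] at this
    exact this

/-- exchangeability -/
theorem AB_card (G : SimpleGraph U) (r : U → ℕ) (B : Set U) (β : U → Fin μ → ℝ)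
    (g1 : U) {q : U × W → Fin μ → ℝ} (hq : GB (XG G (⊤ : SimpleGraph W) r B) β g1 q)
    {Z Z' : Finset W} (hZ : Z.card = Z'.card) :
    Module.finrank ℝ (AB (XG G (⊤ : SimpleGraph W) r B) β g1 Z q) ≤
      Module.finrank ℝ (AB (XG G (⊤ : SimpleGraph W) r B) β g1 Z' q) := by
  classical
  let e : {x // x ∈ Z} ≃ {x // x ∈ Z'} := Finset.equivOfCardEq hZ
  let π : W ≃ W := e.extendSubtype
  refine (hq Z (fun x => q (x.1, π x.2))).trans (AB_perm G r B β g1 π ?_ q)
  intro h hh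
  by_contra hc
  have := Equiv.extendSubtype_not_mem e (π.symm h) hc
  apply this
  show π (π.symm h) ∈ Z'
  rw [Equiv.apply_symm_apply]
  exact hh

theorem AB_anti {X : SimpleGraph (U × W)} {β : U → Fin μ → ℝ} {g1 : U}
    {Z Z' : Finset W} (h : Z ⊆ Z') (q : U × W → Fin μ → ℝ) :
    AB X β g1 Z' q ≤ AB X β g1 Z q := by
  intro e he
  rw [mem_AB] at he ⊢
  exact ⟨he.1, fun h' hh' => he.2 h' (h hh')⟩

/-- the dichotomy -/
theorem AB_dich (G : SimpleGraph U) (r : U → ℕ) (B : Set U) (β : U → Fin μ → ℝ)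
    (g1 : U) {q : U × W → Fin μ → ℝ} (hq : GB (XG G (⊤ : SimpleGraph W) r B) β g1 q)
    (Z : Finset W) :
    Module.finrank ℝ (AB (XG G (⊤ : SimpleGraph W) r B) β g1 Z q) + Z.card ≤
      Module.finrank ℝ (AB (XG G (⊤ : SimpleGraph W) r B) β g1 ∅ q) ∨
    AB (XG G (⊤ : SimpleGraph W) r B) β g1 Z q ≤
      AB (XG G (⊤ : SimpleGraph W) r B) β g1 Finset.univ q := by
  classical
  have := Fintype.ofFinite U
  set X := XG G (⊤ : SimpleGraph W) r B with hX
  induction Z using Finset.induction_on with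
  | empty => left; simp
  | insert a Z ha ih =>
    have hsub : Z ⊆ insert a Z := Finset.subset_insert a Z
    rcases ih with ih | ih
    · by_cases hlt : Module.finrank ℝ (AB X β g1 (insert a Z) q) <
        Module.finrank ℝ (AB X β g1 Z q)
      · left
        rw [Finset.card_insert_of_notMem ha]
        omega
      · right
        have h1 : ∀ h, AB X β g1 Z q ≤ AB X β g1 (insert h Z) q := by
          intro h
          by_cases hh : h ∈ Z
          · rw [Finset.insert_eq_of_mem hh]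
          · have h2 : Module.finrank ℝ (AB X β g1 (insert a Z) q) ≤
                Module.finrank ℝ (AB X β g1 (insert h Z) q) :=
              AB_card G r B β g1 hq (by
                rw [Finset.card_insert_of_notMem ha, Finset.card_insert_of_notMem hh])
            exact (Submodule.eq_of_le_of_finrank_le (AB_anti (Finset.subset_insert h Z) q)
              (by omega)).ge
        intro e he
        have he' := AB_anti hsub q he
        rw [mem_AB]
        refine ⟨(mem_AB.1 he).1, fun h _ => ?_⟩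
        exact (mem_AB.1 (h1 h he')).2 h (Finset.mem_insert_self h Z)
    · right
      exact (AB_anti hsub q).trans ih

theorem AB_empty {X : SimpleGraph (U × W)} {β : U → Fin μ → ℝ} {g1 : U}
    {q : U × W → Fin μ → ℝ} :
    Module.finrank ℝ (AB X β g1 ∅ q) ≤ mo X (fl β q) + (μ + 1) * (μ + 1 + 1) / 2 := by
  have := Fintype.ofFinite U
  have h2 : AB X β g1 ∅ q ≤
      (Mot X (fl β q)).prod (⊤ : Submodule ℝ (Sk (μ + 1) × (Fin (μ + 1) → ℝ))) := by
    intro e he
    exact ⟨(mem_mot _ _ _).2 (mem_AB.1 he).1, trivial⟩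
  refine (Submodule.finrank_mono h2).trans ?_
  rw [dim_prod_eq, finrank_top, finrank_triv]
  rfl

/-- the residual in the form of an affine function -/
def DB (β : U → Fin μ → ℝ) (b : Fin μ → ℝ) (g1 : U) (q : U × W → Fin μ → ℝ) (h : W) :
    EB U W μ →ₗ[ℝ] ℝ × (Fin μ → ℝ) where
  toFun e := (fl β q (g1, h) ⬝ᵥ eqB β g1 q e h,
    -(vecTail (eqB β g1 q e h) + (eqB β g1 q e h) 0 • b))
  map_add' e e' := by
    rw [map_add]
    refine Prod.ext ?_ ?_
    · simp only [Pi.add_apply, dotProduct_add, Prod.fst_add]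
    · funext j
      simp only [Pi.add_apply, Pi.neg_apply, vecTail, Function.comp, Prod.snd_add, Pi.smul_apply,
        smul_eq_mul]
      ring
  map_smul' c e := by
    rw [map_smul]
    refine Prod.ext ?_ ?_
    · simp only [Pi.smul_apply, dotProduct_smul, Prod.smul_fst, RingHom.id_apply]
    · funext j
      simp only [Pi.add_apply, Pi.neg_apply, vecTail, Function.comp, Prod.smul_snd, Pi.smul_apply,
        smul_eq_mul, RingHom.id_apply]
      ring

theorem LB_eq {X : SimpleGraph (U × W)} {β : U → Fin μ → ℝ} {b : Fin μ → ℝ} {g1 : U}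
    {q : U × W → Fin μ → ℝ} (h2 : ∀ h, (β g1 - b) ⬝ᵥ q (g1, h) ≠ 0) (Z : Finset W) :
    LZ (AB X β g1 ∅ q) (DB β b g1 q) Z ≤ AB X β g1 Z q := by
  intro e he
  obtain ⟨h3, h4⟩ := mem_LZ.1 he
  rw [mem_AB] at h3 ⊢
  refine ⟨h3.1, fun h hh => ?_⟩
  have h5 := h4 h hh
  have h6 : -(vecTail (eqB β g1 q e h) + (eqB β g1 q e h) 0 • b) = 0 := congrArg Prod.snd h5
  have h7 : fl β q (g1, h) ⬝ᵥ eqB β g1 q e h = 0 := congrArg Prod.fst h5
  rw [neg_eq_zero] at h6
  have h8 : vecTail (eqB β g1 q e h) = - ((eqB β g1 q e h) 0 • b) := by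
    rw [eq_neg_iff_add_eq_zero]
    exact h6
  rw [dot_split, fl_tail, h8, fl_zero] at h7
  have h9 : (eqB β g1 q e h) 0 * ((β g1 - b) ⬝ᵥ q (g1, h)) = 0 := by
    rw [dotProduct_neg, dotProduct_smul, smul_eq_mul, dotProduct_comm (q (g1, h))] at h7
    rw [sub_dotProduct]
    linarith
  have h10 := (mul_eq_zero.1 h9).resolve_right (h2 h)
  rw [h10, zero_smul, neg_zero] at h8
  exact vec_ext h10 h8

end

/-- **Bodies with one neighbour.** -/
theorem st1 {V : Type} [Finite V] [Fintype W] (hW : μ + 1 ≤ Nat.card W)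
    (G : SimpleGraph V) (r : V → ℕ) (B : Set V) (hI : Inv r B) (hB : Bod r B)
    (β : V → Fin μ → ℝ) (hβ : ∀ x y, x ≠ y → β x ≠ β y) (x1 : V) (hx1 : x1 ∈ B)
    (g1 : {x // r x ≠ r x1})
    (honly : ∀ y z, r y = r x1 → r z ≠ r x1 → G.Adj y z → y = x1 ∧ z = g1.1) {κ0 κm : ℕ}
    (hadj : G.Adj x1 g1)
    (hκ0 : ∃ q : {x // r x ≠ r x1} × W → Fin μ → ℝ,
      mo (XG (SG G (fun x => r x ≠ r x1)) (⊤ : SimpleGraph W) (fun x => r x.1)
        (Subtype.val ⁻¹' B)) (fl (fun x => β x.1) q) ≤ κ0)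
    (hκm : ∃ q : V × W → Fin μ → ℝ,
      mo (XG G (⊤ : SimpleGraph W)
        (mrg {x | r x = r x1 ∨ r x = r g1.1} (r x1) r) (B ∪ {x | r x = r x1 ∨ r x = r g1.1}))
        (fl β q) ≤ κm) :
    ∃ q : V × W → Fin μ → ℝ,
      mo (XG G (⊤ : SimpleGraph W) r B) (fl β q) + Nat.card W ≤
        κ0 + (μ + 1) * (μ + 1 + 1) / 2 ∨
      mo (XG G (⊤ : SimpleGraph W) r B) (fl β q) ≤ κm := by
  classical
  have := Fintype.ofFinite V
  set G' := SG G (fun x => r x ≠ r x1) with hG'
  set r' : {x // r x ≠ r x1} → ℕ := fun x => r x.1 with hr'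
  set B' : Set {x // r x ≠ r x1} := Subtype.val ⁻¹' B with hB'
  set β' : {x // r x ≠ r x1} → Fin μ → ℝ := fun x => β x.1 with hβ'
  set X := XG G' (⊤ : SimpleGraph W) r' B' with hX
  set C : Set V := {x | r x = r x1 ∨ r x = r g1.1} with hC
  have hCcl : ∀ x y, r x = r y → x ∈ C → y ∈ C := by
    rintro x y hxy (h | h)
    · exact Or.inl (hxy.symm.trans h)
    · exact Or.inr (hxy.symm.trans h)
  have hI' : Inv r' B' := sub_inv _ hI
  have hBod' : Bod r' B' := sub_bod _ hB (fun x y hxy _ hx hy => hx (hxy.trans hy))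
  have hgx : g1.1 ≠ x1 := fun h => g1.2 (by rw [h])
  -- the choice of the placement
  have gd : ∀ h : W, Good (fun q : V × W → Fin μ → ℝ =>
      (β g1.1 - β x1) ⬝ᵥ q (g1.1, h) ≠ 0) := by
    intro h
    refine good_ne (F := fun q : V × W → Fin μ → ℝ => (β g1.1 - β x1) ⬝ᵥ q (g1.1, h)) ?_
    intro p0 p1 s
    simp only [Pi.add_apply, Pi.smul_apply, Pi.sub_apply, dotProduct_add, dotProduct_smul,
      dotProduct_sub, smul_eq_mul]
  have ed : ∀ h : W, ∃ q : V × W → Fin μ → ℝ, (β g1.1 - β x1) ⬝ᵥ q (g1.1, h) ≠ 0 := by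
    intro h
    refine ⟨fun _ => β g1.1 - β x1, ?_⟩
    intro hz
    rw [dotProduct_self_eq_zero] at hz
    exact hβ g1.1 x1 hgx (sub_eq_zero.1 hz)
  have G1 : Good (fun q : V × W → Fin μ → ℝ => mo X (fl β' (res (fun x => r x ≠ r x1) q)) ≤ κ0) :=
    res_good (fun x => r x ≠ r x1) (fl_mo_good X β' κ0)
  have E1 : ∃ q : V × W → Fin μ → ℝ, mo X (fl β' (res (fun x => r x ≠ r x1) q)) ≤ κ0 :=
    res_exists (fun x => r x ≠ r x1) (P := fun q => mo X (fl β' q) ≤ κ0) hκ0
  have G5 : Good (fun q : V × W → Fin μ → ℝ => GB X β' g1 (res (fun x => r x ≠ r x1) q)) :=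
    res_good (fun x => r x ≠ r x1) (gb_good X β' g1)
  have E5 : ∃ q : V × W → Fin μ → ℝ, GB X β' g1 (res (fun x => r x ≠ r x1) q) :=
    res_exists (fun x => r x ≠ r x1) (P := fun q => GB X β' g1 q) (gb_exists X β' g1)
  have G2 := fl_mo_good (XG G (⊤ : SimpleGraph W) (mrg C (r x1) r) (B ∪ C)) β κm
  have G3 := pos_good (V × W) μ
  have G4 := good_forall gd
  have E4 := good_family _ gd ed
  have E45 := good_and_exists G4 G5 E4 E5
  have E35 := good_and_exists G3 (good_and G4 G5) (pos_exists (V × W) μ) E45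
  have E25 := good_and_exists G2 (good_and G3 (good_and G4 G5)) hκm E35
  obtain ⟨q0, a1, a2, a3, a4, a5⟩ := good_and_exists G1 (good_and G2 (good_and G3
    (good_and G4 G5))) E1 E25
  set q' := res (fun x => r x ≠ r x1) q0 with hq'
  have a4' : ∀ h, (β' g1 - β x1) ⬝ᵥ q' (g1, h) ≠ 0 := a4
  -- the placements of the fibre of `x1`
  let qy : (W → Fin μ → ℝ) → (V × W → Fin μ → ℝ) := fun y z => if z.1 = x1 then y z.2 else q0 z
  have hqy : Aff qy := by
    intro p0 p1 s
    funext z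
    show (if z.1 = x1 then (p0 + s • (p1 - p0)) z.2 else q0 z) =
      (if z.1 = x1 then p0 z.2 else q0 z) + s • ((if z.1 = x1 then p1 z.2 else q0 z) -
        (if z.1 = x1 then p0 z.2 else q0 z))
    by_cases hz : z.1 = x1
    · simp only [hz, if_true]
      rfl
    · simp only [hz, if_false, sub_self, smul_zero, add_zero]
  have hqy0 : qy (fun h => q0 (x1, h)) = q0 := by
    funext z
    show (if z.1 = x1 then q0 (x1, z.2) else q0 z) = q0 z
    by_cases hz : z.1 = x1
    · rw [if_pos hz, ← hz]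
    · rw [if_neg hz]
  have hqyr : ∀ y, res (fun x => r x ≠ r x1) (qy y) = q' := by
    intro y
    funext ⟨⟨x, hx⟩, h⟩
    exact if_neg (fun hxx => hx (congrArg r hxx))
  obtain ⟨y, y1, y2, y3⟩ := good_and_exists (ge_good (AB X β' g1 ∅ q') (DB β' (β x1) g1 q'))
    (good_and (Aff.good (pos_good (V × W) μ) hqy) (Aff.good G2 hqy)) (ge_exists _ _)
    ⟨fun h => q0 (x1, h), by rw [hqy0]; exact a3, by rw [hqy0]; exact a2⟩
  obtain ⟨Z, hZ⟩ := gel _ _ y1
  set q := qy y with hq
  have hqx1 : ∀ h, q (x1, h) = y h := fun h => if_pos rfl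
  have hqr : res (fun x => r x ≠ r x1) q = q' := hqyr y
  have hqg : ∀ h, fl β q (g1.1, h) = fl β' q' (g1, h) := by
    intro h
    have : q (g1.1, h) = q' (g1, h) := by
      rw [← hqr]
      rfl
    show vecCons (β g1.1 ⬝ᵥ q (g1.1, h)) (q (g1.1, h)) =
      vecCons (β' g1 ⬝ᵥ q' (g1, h)) (q' (g1, h))
    rw [this]
  refine ⟨q, ?_⟩
  let Ψ : EB {x // r x ≠ r x1} W μ →ₗ[ℝ] (V × W → Fin (μ + 1) → ℝ) :=
    { toFun := fun e z => if h : r z.1 ≠ r x1 then e.1 (⟨z.1, h⟩, z.2) else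
        (e.2.1 : Matrix (Fin (μ + 1)) (Fin (μ + 1)) ℝ) *ᵥ fl β q z + e.2.2
      map_add' := by
        intro e e'
        funext z
        by_cases h : r z.1 ≠ r x1
        · simp only [h, dif_pos, Pi.add_apply, Prod.fst_add, ne_eq, not_false_eq_true]
        · simp only [h, dif_neg, Pi.add_apply, not_false_eq_true, Prod.fst_add, Prod.snd_add,
            Submodule.coe_add, add_mulVec]
          abel
      map_smul' := by
        intro c e
        funext z
        by_cases h : r z.1 ≠ r x1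
        · simp only [h, dif_pos, Pi.smul_apply, Prod.smul_fst, ne_eq, not_false_eq_true,
            RingHom.id_apply]
        · simp only [h, dif_neg, Pi.smul_apply, not_false_eq_true, RingHom.id_apply,
            Prod.smul_fst, Prod.smul_snd, Submodule.coe_smul, smul_mulVec, smul_add] }
  have hΨ1 : ∀ (e : EB {x // r x ≠ r x1} W μ) (z : V × W) (hz : r z.1 ≠ r x1),
      Ψ e z = e.1 (⟨z.1, hz⟩, z.2) := fun e z hz => dif_pos hz
  have hΨ2 : ∀ (e : EB {x // r x ≠ r x1} W μ) (z : V × W), r z.1 = r x1 →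
      Ψ e z = (e.2.1 : Matrix (Fin (μ + 1)) (Fin (μ + 1)) ℝ) *ᵥ fl β q z + e.2.2 :=
    fun e z hz => dif_neg (by rw [not_not]; exact hz)
  have hmain : mo (XG G (⊤ : SimpleGraph W) r B) (fl β q) ≤
      Module.finrank ℝ (AB X β' g1 ∅ q' ⊓ LinearMap.ker (Ev (DB β' (β x1) g1 q') y) :
        Submodule ℝ (EB {x // r x ≠ r x1} W μ)) := by
    refine le_trans (Submodule.finrank_mono (t := (AB X β' g1 ∅ q' ⊓ LinearMap.ker
      (Ev (DB β' (β x1) g1 q') y)).map Ψ) ?_) (Submodule.finrank_map_le _ _)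
    intro v hv
    have hv1 := res_mot G (fun x => r x ≠ r x1) r B β q hv
    rw [hqr] at hv1
    obtain ⟨A, b, hA, hb⟩ := body_mot hW hI hB hβ y2 hv hx1
    rw [mem_mot] at hv
    refine ⟨(res (fun x => r x ≠ r x1) v, (⟨A, hA⟩, b)), ⟨?_, ?_⟩, ?_⟩
    · rw [SetLike.mem_coe, mem_AB]
      exact ⟨(mem_mot _ _ _).1 hv1, fun h hh => absurd hh (Finset.notMem_empty h)⟩
    · rw [SetLike.mem_coe, LinearMap.mem_ker]
      funext h
      rw [Ev_apply]
      have e1 := hv (g1.1, h) (x1, h) (Or.inr (Or.inl ⟨rfl, hadj.symm⟩))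
      rw [hb (x1, h) rfl] at e1
      have e2 := triv_pair hA b (fl β q (g1.1, h)) (fl β q (x1, h))
      have e3 : v (g1.1, h) - (A *ᵥ fl β q (x1, h) + b) = (v (g1.1, h) -
        (A *ᵥ fl β q (g1.1, h) + b)) + ((A *ᵥ fl β q (g1.1, h) + b) -
          (A *ᵥ fl β q (x1, h) + b)) := by abel
      rw [e3, dotProduct_add, e2, add_zero] at e1
      have e4 : eqB β' g1 q' (res (fun x => r x ≠ r x1) v, ((⟨A, hA⟩ : Sk (μ + 1)), b)) h =
          v (g1.1, h) - (A *ᵥ fl β q (g1.1, h) + b) := by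
        rw [eqB_apply, hqg]
        rfl
      show fl β' q' (g1, h) ⬝ᵥ eqB β' g1 q' (res (fun x => r x ≠ r x1) v,
          ((⟨A, hA⟩ : Sk (μ + 1)), b)) h +
        (-(vecTail (eqB β' g1 q' (res (fun x => r x ≠ r x1) v, ((⟨A, hA⟩ : Sk (μ + 1)), b)) h) +
          (eqB β' g1 q' (res (fun x => r x ≠ r x1) v, ((⟨A, hA⟩ : Sk (μ + 1)), b)) h) 0 •
            β x1)) ⬝ᵥ y h = 0
      rw [e4, ← hqg]
      set δ := v (g1.1, h) - (A *ᵥ fl β q (g1.1, h) + b) with hδ
      rw [sub_dotProduct, dot_split (fl β q (x1, h)), fl_tail, fl_zero, hqx1] at e1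
      rw [neg_dotProduct, add_dotProduct, smul_dotProduct, smul_eq_mul,
        dotProduct_comm (vecTail δ)]
      linarith
    · funext z
      by_cases hz : r z.1 ≠ r x1
      · exact hΨ1 _ z hz
      · rw [not_not] at hz
        rw [hΨ2 _ z hz]
        exact (hb z hz).symm
  have huniv : Module.finrank ℝ (AB X β' g1 Finset.univ q') ≤
      mo (XG G (⊤ : SimpleGraph W) (mrg C (r x1) r) (B ∪ C)) (fl β q) := by
    refine dim_le_of_inj Ψ _ ?_ ?_
    · intro e he
      obtain ⟨m1, m2⟩ := mem_AB.1 he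
      rw [mem_mot]
      have hτ : ∀ z : V × W, z.1 ∈ C → Ψ e z =
          (e.2.1 : Matrix (Fin (μ + 1)) (Fin (μ + 1)) ℝ) *ᵥ fl β q z + e.2.2 := by
        intro z hz
        by_cases hz1 : r z.1 = r x1
        · exact hΨ2 e z hz1
        · have hz2 : r z.1 = r g1.1 := hz.resolve_left hz1
          have hg : ∀ h, e.1 (g1, h) =
              (e.2.1 : Matrix (Fin (μ + 1)) (Fin (μ + 1)) ℝ) *ᵥ fl β' q' (g1, h) + e.2.2 :=
            fun h => sub_eq_zero.1 (m2 h (Finset.mem_univ h))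
          rw [hΨ1 e z hz1]
          by_cases hgB : g1.1 ∈ B
          · have hPos' : Pos q' := by
              rw [hq']
              exact pos_comp a3 (i := fun z : {x // r x ≠ r x1} × W => (z.1.1, z.2)) (by
                intro z z' hzz
                rw [Prod.ext_iff] at hzz
                exact Prod.ext (Subtype.ext hzz.1) hzz.2)
            obtain ⟨A', b', hA', hb'⟩ := body_mot hW hI' hBod'
              (β := β') (fun x y hxy => hβ x.1 y.1 (fun h => hxy (Subtype.ext h))) hPos'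
              ((mem_mot _ _ _).2 m1) (u := g1) hgB
            have h1 : ∀ h, (A' - (e.2.1 : Matrix (Fin (μ + 1)) (Fin (μ + 1)) ℝ)) *ᵥ
                fl β' q' (g1, h) + (b' - e.2.2) = 0 := by
              intro h
              have e1 := hb' (g1, h) rfl
              rw [hg h] at e1
              rw [sub_mulVec]
              have e3 : A' *ᵥ fl β' q' (g1, h) -
                (e.2.1 : Matrix (Fin (μ + 1)) (Fin (μ + 1)) ℝ) *ᵥ fl β' q' (g1, h) +
                (b' - e.2.2) = (A' *ᵥ fl β' q' (g1, h) + b') -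
                ((e.2.1 : Matrix (Fin (μ + 1)) (Fin (μ + 1)) ℝ) *ᵥ fl β' q' (g1, h) + e.2.2) := by
                abel
              rw [e3, ← e1, sub_self]
            obtain ⟨e4, e5⟩ := fl_triv hW hPos' (β := β')
              (A := A' - (e.2.1 : Matrix (Fin (μ + 1)) (Fin (μ + 1)) ℝ)) (c := b' - e.2.2) (by
                rw [transpose_sub, hA', e.2.1.2]
                abel) (g := g1) h1
            have e6 := hb' (⟨z.1, hz1⟩, z.2) hz2
            rw [e6, sub_eq_zero.1 e4, sub_eq_zero.1 e5, ← hqr]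
            rfl
          · have hzg : z.1 = g1.1 := hI g1.1 hgB z.1 hz2
            have e7 : ((⟨z.1, hz1⟩ : {x // r x ≠ r x1}), z.2) = (g1, z.2) :=
              Prod.ext (Subtype.ext hzg) rfl
            rw [e7, hg, ← hqg]
            have e8 : (g1.1, z.2) = z := Prod.ext hzg.symm rfl
            rw [e8]
      have hout : ∀ z z' : V × W, r z.1 ≠ r x1 → r z'.1 ≠ r x1 →
          (XG G (⊤ : SimpleGraph W) r B).Adj z z' →
          (fl β q z - fl β q z') ⬝ᵥ (Ψ e z - Ψ e z') = 0 := by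
        intro z z' hz hz' hadj'
        rw [hΨ1 e z hz, hΨ1 e z' hz']
        have e1 := m1 (⟨z.1, hz⟩, z.2) (⟨z'.1, hz'⟩, z'.2) (by
          rcases hadj' with ⟨b1, b2⟩ | ⟨b1, b2⟩ | ⟨b1, b2, b3, b4⟩
          · exact Or.inl ⟨Subtype.ext b1, b2⟩
          · exact Or.inr (Or.inl ⟨b1, b2⟩)
          · refine Or.inr (Or.inr ⟨?_, b2, b3, b4⟩)
            intro hh
            apply b1
            rw [Prod.ext_iff] at hh
            exact Prod.ext (congrArg Subtype.val hh.1) hh.2)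
        rw [← hqr] at e1
        exact e1
      rintro z z' (⟨e1, e2⟩ | ⟨e1, e2⟩ | ⟨e1, e2, e3, e4⟩)
      · by_cases hz : r z.1 = r x1
        · have hz' : r z'.1 = r x1 := by rw [← e1]; exact hz
          rw [hΨ2 e z hz, hΨ2 e z' hz']
          exact triv_pair e.2.1.2 _ _ _
        · exact hout z z' hz (by rw [← e1]; exact hz) (Or.inl ⟨e1, e2⟩)
      · by_cases hz : r z.1 = r x1
        · by_cases hz' : r z'.1 = r x1
          · rw [hΨ2 e z hz, hΨ2 e z' hz']
            exact triv_pair e.2.1.2 _ _ _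
          · obtain ⟨c1, c2⟩ := honly z.1 z'.1 hz hz' e2
            rw [hτ z (Or.inl hz), hτ z' (Or.inr (by rw [c2]))]
            exact triv_pair e.2.1.2 _ _ _
        · by_cases hz' : r z'.1 = r x1
          · obtain ⟨c1, c2⟩ := honly z'.1 z.1 hz' hz e2.symm
            rw [hτ z' (Or.inl hz'), hτ z (Or.inr (by rw [c2]))]
            exact triv_pair e.2.1.2 _ _ _
          · exact hout z z' hz hz' (Or.inr (Or.inl ⟨e1, e2⟩))
      · rcases mrg_eq hCcl (x0 := x1) (Or.inl rfl) e4 with ⟨e5, e6⟩ | ⟨e5, e6, e7⟩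
        · rw [hτ z e5, hτ z' e6]
          exact triv_pair e.2.1.2 _ _ _
        · exact hout z z' (fun h => e5 (Or.inl h)) (fun h => e6 (Or.inl h))
            (Or.inr (Or.inr ⟨e1, e2.resolve_right e5, e3.resolve_right e6, e7⟩))
    · intro e he h0
      have h1 : ∀ z, Ψ e z = 0 := fun z => congrFun h0 z
      obtain ⟨h2, h3⟩ := fl_triv hW y2 (β := β)
        (A := (e.2.1 : Matrix (Fin (μ + 1)) (Fin (μ + 1)) ℝ)) (c := e.2.2) e.2.1.2 (g := x1)
        (fun h => by rw [← hΨ2 e (x1, h) rfl]; exact h1 _)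
      refine Prod.ext (funext fun z => ?_) (Prod.ext (Subtype.ext h2) h3)
      rw [← hΨ1 e (z.1.1, z.2) z.1.2]
      exact h1 _
  have hWc : Nat.card W = Fintype.card W := Nat.card_eq_fintype_card
  have e1 := Submodule.finrank_mono (LB_eq (X := X) (g1 := g1) a4' Z)
  have e2 := AB_empty (X := X) (β := β') (g1 := g1) (q := q')
  have e0 : mo X (fl β' q') ≤ κ0 := a1
  have e7 : mo (XG G (⊤ : SimpleGraph W) (mrg C (r x1) r) (B ∪ C)) (fl β q) ≤ κm := y3
  rcases AB_dich G' r' B' β' g1 a5 Z with e4 | e4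
  · left
    rw [← hX] at e4
    omega
  · right
    rw [← hX] at e4
    have e5 := Submodule.finrank_mono e4
    have e6 : Z.card ≤ Fintype.card W := Finset.card_le_univ Z
    omega

end Pool.Agent.T2h34.RK
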