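import Mathlib
import Pool.Agent.T2h34.RK.Stm

set_option autoImplicit false

/-!
# The generic rank of products: statements, second part

Here the threshold for the number `n` of the vertices of `H` is lowered to `n ≥ D`, `n ≥ 2 k`,
`n ≥ 4 k - D`, and the fibres may be different graphs.
-/

namespace Pool.Agent.T2h34.RK

open Matrix Pool.Agent.H283R2.DR Pool.Agent.H789R5

/-- **CNT2.** Pure counting. Let `s` be the number of the plates (`= sing B r`), `m` the number of
the bodies (`cls r = s + m`), `T` the number of pairs (vertex in `B`, plate) which are adjacent.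
`pr G r ≥ 3 s + T`; `T ≥ 2 m` (by the last hypothesis; an edge leaving a body ends in a plate). Hence
`2 (D (s + m) + (n + k - D) s) - n (pr - 2) ≤ D T + 2 (n + k) s - n (3 s + T - 2)
 = T (D - n) + s (2 k - n) + 2 n`.
`s = 0` and `s = 1` are impossible: if there is one plate `x` only, then it has at least three
neighbours in `B`, in the body of the first one there are two edges to plates, i.e. to `x`, with
different ends in this body, against the second hypothesis. `s = 2`: `T ≥ 4`; `s = 3`: `T ≥ 3`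
(each plate has at most `s - 1` neighbours which are plates); `s ≥ 4`: `T ≥ 0`. In each case
`T (D - n) + s (2 k - n) + 2 n ≤ 2 D`. -/
def S_CNT2 : Prop := ∀ (V : Type) [Finite V] [Nonempty V] (G : SimpleGraph V) (r : V → ℕ)
    (B : Set V) (n k D : ℕ), Inv r B → D ≤ n → 2 * k ≤ n → 4 * k ≤ n + D →
    (∀ x, x ∉ B → 3 ≤ {y | G.Adj x y}.ncard) →
    (∀ x y z, x ∉ B → y ∈ B → z ∈ B → G.Adj x y → G.Adj x z → r y = r z → y = z) →
    (∀ x y, x ∈ B → y ∈ B → G.Adj x y → r x = r y) →
    (∀ x, x ∈ B → 2 ≤ {z : V × V | G.Adj z.1 z.2 ∧ r z.1 = r x ∧ r z.2 ≠ r x}.ncard) →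
    2 * ((D : ℤ) * cls r + ((n : ℤ) + k - D) * sing B r) ≤ (n : ℤ) * ((pr G r : ℤ) - 2) + 2 * D

/-- **PEN.** Adding a body (the class `c` of `r`) as a class of its own, where edges may leave the
body. The same as `S_ISO` (see `T_ISO`), with the term for the edges. -/
def S_PEN : Prop := ∀ (V : Type) [Finite V] (G : SimpleGraph V) (B : Set V) (n k D : ℕ) (r : V → ℕ)
    (c : ℕ) (_ : ∀ x, r x = c → x ∈ B) (_ : ∃ x, r x = c) (f' : {x // r x ≠ c} → ℕ),
    ∃ f : V → ℕ, (∀ x y : {x // r x ≠ c}, f x = f y ↔ f' x = f' y) ∧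
      (∀ x y, r x = c → r y = c → f x = f y) ∧
      val n k D G B f = val n k D (G.comap (Subtype.val : {x // r x ≠ c} → V))
        (Subtype.val ⁻¹' B) f' + 2 * D -
        2 * n * {z : V × V | G.Adj z.1 z.2 ∧ r z.1 = c ∧ r z.2 ≠ c}.ncard

/-- the graph on `V × W` with the fibres `H x`, in which the fibres of adjacent vertices of `G` are
joined by the edges between corresponding points -/
def FG {V W : Type} (G : SimpleGraph V) (H : V → SimpleGraph W) : SimpleGraph (V × W) where
  Adj x y := (x.1 = y.1 ∧ (H x.1).Adj x.2 y.2) ∨ (x.2 = y.2 ∧ G.Adj x.1 y.1)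
  symm := ⟨by
    rintro x y (⟨h1, h2⟩ | ⟨h1, h2⟩)
    · refine Or.inl ⟨h1.symm, ?_⟩
      rw [← h1]
      exact h2.symm
    · exact Or.inr ⟨h1.symm, h2.symm⟩⟩
  loopless := ⟨by
    rintro x (⟨_, h2⟩ | ⟨_, h2⟩)
    · exact h2.ne rfl
    · exact h2.ne rfl⟩

/-- **NECF.** `S_NEC` for different fibres: adapt the proof in `T_NEC` (the fibre graph `H` is
replaced by `H x`). -/
def S_NECF : Prop := ∀ (V W : Type) [Finite V] [Finite W] (G : SimpleGraph V)
    (H : V → SimpleGraph W) (d n k : ℕ), Nat.card W = n → d ≤ n →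
    (∀ (x : V) (P : W → Fin d → ℝ), n + k ≤ mo (H x) P) →
    ∀ (f : V → ℕ) (p : V × W → Fin d → ℝ),
      val n k (d * (d + 1) / 2) G ∅ f ≤ 2 * (mo (FG G H) p : ℤ)

end Pool.Agent.T2h34.RK
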