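import Mathlib
import Pool.Agent.T2h34.RK.Ind
import Pool.Agent.T2h34.RK.St1
import Pool.Agent.T2h34.RK.Stm2

set_option autoImplicit false
set_option linter.unusedSectionVars false

/-! The induction with the lower threshold. -/

namespace Pool.Agent.T2h34.RK

open Matrix Pool.Agent.H283R2.DR Pool.Agent.H283R2.DR.TA Pool.Agent.H789R5 Pool.Agent.T2h34.CP

variable {V W : Type} {μ : ℕ}

/-- bodies with one outgoing edge -/
theorem stepJ (hPEN : S_PEN) [Finite V] [Finite W] {n k D : ℕ} (hn : n = Nat.card W)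
    (hD : D = (μ + 1) * (μ + 1 + 1) / 2) (hμ : 2 ≤ μ) (hW : μ + 1 ≤ Nat.card W)
    (G : SimpleGraph V) (r : V → ℕ) (B : Set V) (hI : Inv r B)
    (hB : Bod r B) (β : V → Fin μ → ℝ) (hβ : Pos β) (x1 g1 : V) (hx1 : x1 ∈ B)
    (hc : {z : V × V | G.Adj z.1 z.2 ∧ r z.1 = r x1 ∧ r z.2 ≠ r x1} = {(x1, g1)})
    (hM : MM n k D W (SG G (fun x => r x ≠ r x1)) (fun x => r x.1) (Subtype.val ⁻¹' B)
      (fun x => β x.1))
    (hM' : MM n k D W G (mrg {x | r x = r x1 ∨ r x = r g1} (r x1) r)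
      (B ∪ {x | r x = r x1 ∨ r x = r g1}) β) : MM n k D W G r B β := by
  have := Fintype.ofFinite V
  have := Fintype.ofFinite W
  obtain ⟨hadj, -, hg1⟩ : G.Adj x1 g1 ∧ r x1 = r x1 ∧ r g1 ≠ r x1 := by
    have h1 : ((x1, g1) : V × V) ∈ {z : V × V | G.Adj z.1 z.2 ∧ r z.1 = r x1 ∧ r z.2 ≠ r x1} := by
      rw [hc]
      rfl
    exact h1
  have honly : ∀ y z, r y = r x1 → r z ≠ r x1 → G.Adj y z → y = x1 ∧ z = g1 := by
    intro y z h1 h2 h3
    have h4 : ((y, z) : V × V) ∈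
        {z : V × V | G.Adj z.1 z.2 ∧ r z.1 = r x1 ∧ r z.2 ≠ r x1} := ⟨h3, h1, h2⟩
    rw [hc] at h4
    exact Prod.ext_iff.1 h4
  have hinB : ∀ z, r z = r x1 → z ∈ B := by
    intro z hz
    by_contra hzB
    have := hI z hzB x1 hz.symm
    rw [this] at hx1
    exact hzB hx1
  obtain ⟨f0, hf0, q0, hq0⟩ := hM
  obtain ⟨fm, hfm, qm, hqm⟩ := hM'
  obtain ⟨q, hq | hq⟩ := st1 hW G r B hI hB β (pos_inj (by omega) hβ) x1 hx1 ⟨g1, hg1⟩ honly hadj
    ⟨q0, le_rfl⟩ ⟨qm, le_rfl⟩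
  · obtain ⟨f, h1, h2, h3⟩ := hPEN V G B n k D r (r x1) hinB ⟨x1, rfl⟩ f0
    refine ⟨f, ?_, q, ?_⟩
    · intro x y hxy
      by_cases hx : r x = r x1
      · exact h2 x y hx (hxy.symm.trans hx)
      · exact (h1 ⟨x, hx⟩ ⟨y, fun h => hx (hxy.trans h)⟩).2 (hf0 _ _ hxy)
    · rw [h3, hc, Set.ncard_singleton]
      rw [← hn, ← hD] at hq
      push_cast
      zify at hq
      linarith
  · have hCcl : ∀ x y, r x = r y → x ∈ ({x | r x = r x1 ∨ r x = r g1} : Set V) →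
        y ∈ ({x | r x = r x1 ∨ r x = r g1} : Set V) := by
      rintro x y hxy (h | h)
      · exact Or.inl (hxy.symm.trans h)
      · exact Or.inr (hxy.symm.trans h)
    refine ⟨fm, fun x y hxy => hfm x y (mrg_ref hCcl hxy), q, ?_⟩
    have hv := mrg_val (r := r) (x0 := x1) (y0 := g1) n k D (B := B) G hfm (Or.inl rfl)
      (Or.inr rfl) (fun h => hg1 (by rw [h]))
    rw [← hv]
    refine le_trans ?_ hqm
    exact_mod_cast Nat.mul_le_mul_left 2 hq

/-- a plate attached to a body at two places -/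
theorem five_rigid2 {U : Type} [Finite U] [Finite W] (hμ : 2 ≤ μ)
    (hW : μ * (μ + 1) ≤ Nat.card W)
    (G : SimpleGraph U) (r : U → ℕ) (B : Set U) (hI : Inv r B)
    (hB : Bod r B) (β : U → Fin μ → ℝ) (hβ : Pos β) (g : U) (hg : g ∉ B) (g1 g2 : {x // x ≠ g})
    (ha1 : G.Adj g g1) (ha2 : G.Adj g g2) (h12 : g1 ≠ g2) (hb1 : g1.1 ∈ B)
    (hall : ∀ z, z ≠ g → r z = r g1) :
    ∃ q : U × W → Fin μ → ℝ, InfRigid (XG G (⊤ : SimpleGraph W) r B) (fl β q) := by
  classical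
  have := Fintype.ofFinite U
  have := Fintype.ofFinite W
  have hWpos : μ + 1 ≤ Nat.card W := by nlinarith
  have hβinj := pos_inj (by omega : 1 ≤ μ) hβ
  have hβ' : ∀ x y : {x // x ≠ g}, x ≠ y → β x.1 ≠ β y.1 := fun x y hxy =>
    hβinj x.1 y.1 (fun h => hxy (Subtype.ext h))
  obtain ⟨q0, hq0⟩ := pos_exists ({x // x ≠ g} × W) μ
  have hinB : ∀ z : {x // x ≠ g}, z ∈ (Subtype.val ⁻¹' B : Set {x // x ≠ g}) := by
    intro z
    show z.1 ∈ B
    by_contra hzB
    have := hI z.1 hzB g1.1 (hall z.1 z.2).symm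
    rw [this] at hb1
    exact hzB hb1
  have hκ0 : mo (XG (SG G (fun x => x ≠ g)) (⊤ : SimpleGraph W) (fun x => r x.1)
      (Subtype.val ⁻¹' B)) (fl (fun x => β x.1) q0) ≤ (μ + 1) * (μ + 1 + 1) / 2 := by
    apply mo_of_infRigid
    intro v hv
    obtain ⟨A, b, hA, hb⟩ := fl_rigid hWpos hq0 (v := v) (U := Set.univ) (by
      intro z _ z' _
      by_cases hzz : z = z'
      · rw [hzz, sub_self, zero_dotProduct]
      · exact hv z z' (Or.inr (Or.inr ⟨hzz, hinB _, hinB _, by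
          show r z.1.1 = r z'.1.1
          rw [hall _ z.1.2, hall _ z'.1.2]⟩))) (x := g1) (y := g2) (fun h => trivial)
      (fun h => trivial) (hβ' _ _ h12)
    exact ⟨A, b, hA, fun z => hb z trivial⟩
  have hκm : mo (XG (SG G (fun x => x ≠ g)) (⊤ : SimpleGraph W)
      (mrg {x | r x.1 = r g1.1 ∨ r x.1 = r g2.1} (r g1.1) (fun x => r x.1))
      (Subtype.val ⁻¹' B ∪ {x | r x.1 = r g1.1 ∨ r x.1 = r g2.1}))
      (fl (fun x => β x.1) q0) ≤ (μ + 1) * (μ + 1 + 1) / 2 := by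
    apply mo_of_infRigid
    intro v hv
    have hm : ∀ z : {x // x ≠ g}, z ∈ ({x | r x.1 = r g1.1 ∨ r x.1 = r g2.1} : Set {x // x ≠ g}) :=
      fun z => Or.inl (hall z.1 z.2)
    obtain ⟨A, b, hA, hb⟩ := fl_rigid hWpos hq0 (v := v) (U := Set.univ) (by
      intro z _ z' _
      by_cases hzz : z = z'
      · rw [hzz, sub_self, zero_dotProduct]
      · exact hv z z' (Or.inr (Or.inr ⟨hzz, Or.inl (hinB _), Or.inl (hinB _), by
          rw [mrg_of (hm _), mrg_of (hm _)]⟩))) (x := g1) (y := g2) (fun h => trivial)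
      (fun h => trivial) (hβ' _ _ h12)
    exact ⟨A, b, hA, fun z => hb z trivial⟩
  have hne : Nonempty U := ⟨g⟩
  refine rigid_of_mo hWpos _ β ?_
  obtain ⟨q, hq | hq⟩ := st2 hμ hW G r B hI hB β hβ g hg g1 g2 ha1 ha2 h12 ⟨q0, hκ0⟩ ⟨q0, hκm⟩
  · refine ⟨q, ?_⟩
    have : μ * (μ + 1) / 2 ≤ μ * (μ + 1) := Nat.div_le_self _ _
    omega
  · exact ⟨q, hq⟩

theorem main_ind2 (hPEN : S_PEN) (hCNT : S_CNT2) (hμ : 2 ≤ μ) (W : Type) [Finite W] (n k D : ℕ)
    (hn : n = Nat.card W) (hk : k = μ * (μ + 1) / 2) (hD : D = (μ + 1) * (μ + 1 + 1) / 2)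
    (hnD : D ≤ n) (hnk : 2 * k ≤ n) (hnk' : 4 * k ≤ n + D) :
    ∀ (N : ℕ) (V : Type) [Finite V] (G : SimpleGraph V) (r : V → ℕ) (B : Set V)
      (β : V → Fin μ → ℝ), Inv r B → Bod r B → Pos β → cls r + pr G r = N →
      MM n k D W G r B β := by
  intro N
  induction N using Nat.strong_induction_on with
  | _ N ih =>
  intro V _ G r B β hI hB hβ hN
  classical
  have := Fintype.ofFinite V
  have := Fintype.ofFinite W
  have hdiv : 2 * (μ * (μ + 1) / 2) = μ * (μ + 1) := by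
    have h2 : 2 ∣ μ * (μ + 1) := (Nat.even_mul_succ_self μ).two_dvd
    omega
  have hdiv' : 2 * ((μ + 1) * (μ + 1 + 1) / 2) = (μ + 1) * (μ + 1 + 1) := by
    have h2 : 2 ∣ (μ + 1) * (μ + 1 + 1) := (Nat.even_mul_succ_self (μ + 1)).two_dvd
    omega
  have hk1 : 1 ≤ k := by
    rw [hk]
    have : 2 ≤ μ * (μ + 1) := by nlinarith
    omega
  have hkD : k < D := by
    have : μ * (μ + 1) < (μ + 1) * (μ + 1 + 1) := by nlinarith
    omega
  have hWk : μ * (μ + 1) ≤ Nat.card W := by omega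
  have hWpos : μ + 1 ≤ Nat.card W := by nlinarith
  have hWD : (μ + 1) * (μ + 2) / 2 ≤ Nat.card W := by
    have : (μ + 1) * (μ + 2) = (μ + 1) * (μ + 1 + 1) := rfl
    rw [this]
    omega
  have hβinj := pos_inj (by omega : 1 ≤ μ) hβ
  -- 1. no vertices
  rcases isEmpty_or_nonempty V with hV | hV
  · refine ⟨r, fun _ _ h => h, 0, ?_⟩
    have h1 : mo (XG G (⊤ : SimpleGraph W) r B) (fl β 0) = 0 := by
      have : Subsingleton (V × W → Fin (μ + 1) → ℝ) := by
        have : IsEmpty (V × W) := inferInstance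
        infer_instance
      exact Module.finrank_zero_of_subsingleton
    have h2 : cls r = 0 := by
      unfold cls
      rw [Set.range_eq_empty r, Set.ncard_empty]
    have h3 : sing B r = 0 := by
      unfold sing
      rw [Set.ncard_eq_zero (Set.toFinite _), Set.eq_empty_iff_forall_notMem]
      exact fun x => isEmptyElim x
    have h4 : pr G r = 0 := by
      unfold pr
      rw [Set.ncard_eq_zero (Set.toFinite _), Set.eq_empty_iff_forall_notMem]
      exact fun x => isEmptyElim x.1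
    unfold val
    rw [h1, h2, h3, h4]
    simp
  -- the induction hypothesis for substructures
  have ihS : ∀ (G' : SimpleGraph V) (p : V → Prop), pr G' r ≤ pr G r →
      (∀ x y, r x = r y → x ∈ B → p x → p y) →
      cls (fun x : {x // p x} => r x.1) + pr G' r < cls r + pr G r →
      MM n k D W (SG G' p) (fun x : {x // p x} => r x.1) (Subtype.val ⁻¹' B)
        (fun x => β x.1) := by
    intro G' p hG' hp hlt
    have h1 := sub_pr_le G' r p
    refine ih _ ?_ {x // p x} (SG G' p) _ _ _ (sub_inv p hI) (sub_bod p hB hp) (sub_pos p hβ) rfl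
    omega
  -- the induction hypothesis after merging
  have ihM : ∀ (C : Set V), (∀ x y, r x = r y → x ∈ C → y ∈ C) → ∀ x0 ∈ C, ∀ y0 ∈ C,
      r y0 ≠ r x0 → MM n k D W G (mrg C (r x0) r) (B ∪ C) β := by
    intro C hC x0 hx0 y0 hy0 h0
    have h1 := mrg_cls hC hx0 hy0 h0
    have h2 := mrg_pr (x0 := x0) G hC
    refine ih _ ?_ V G _ _ β (mrg_inv hI hC hx0) (mrg_bod hB hC hx0 hy0
      (fun h => h0 (by rw [h]))) hβ rfl
    omega
  have hginv : ∀ g, g ∉ B → ∀ x, x ≠ g → r x ≠ r g := fun g hg x hx h => hx (hI g hg x h)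
  have hgp : ∀ g, g ∉ B → ∀ x y, r x = r y → x ∈ B → x ≠ g → y ≠ g := by
    intro g hg x y hxy _ hxg hyg
    subst hyg
    exact hxg (hI y hg x hxy)
  -- 2. plates of degree at most one
  by_cases c1 : ∃ g, g ∉ B ∧ {y | G.Adj g y}.ncard ≤ 1
  · obtain ⟨g, hg, hd⟩ := c1
    refine stepA hn hk hμ hWpos G r B hI β hβ g hg hd (ihS G _ le_rfl (hgp g hg) ?_)
    have := sub_cls_lt r (fun x => x ≠ g) (x0 := g) (hginv g hg)
    omega
  -- 3. plates of degree two
  by_cases c2 : ∃ g, g ∉ B ∧ {y | G.Adj g y}.ncard = 2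
  · obtain ⟨g, hg, hd⟩ := c2
    obtain ⟨g1, g2, h12, hd'⟩ := Set.ncard_eq_two.1 hd
    have ha1 : G.Adj g g1 := by
      have : g1 ∈ {y | G.Adj g y} := by rw [hd']; exact Or.inl rfl
      exact this
    have ha2 : G.Adj g g2 := by
      have : g2 ∈ {y | G.Adj g y} := by rw [hd']; exact Or.inr rfl
      exact this
    have hcl := sub_cls_lt r (fun x => x ≠ g) (x0 := g) (hginv g hg)
    refine stepB hn hk hμ hWk G r B hI hB β hβ g hg ⟨g1, ha1.ne.symm⟩ ⟨g2, ha2.ne.symm⟩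
      (fun h => h12 (congrArg Subtype.val h)) hd' (ihS G _ le_rfl (hgp g hg) (by omega)) ?_
    have hC : ∀ x y : {x // x ≠ g}, r x.1 = r y.1 →
        x ∈ ({x | r x.1 = r g1 ∨ r x.1 = r g2} : Set {x // x ≠ g}) →
        y ∈ ({x | r x.1 = r g1 ∨ r x.1 = r g2} : Set {x // x ≠ g}) := by
      rintro x y hxy (h | h)
      · exact Or.inl (hxy.symm.trans h)
      · exact Or.inr (hxy.symm.trans h)
    have m1 : (⟨g1, ha1.ne.symm⟩ : {x // x ≠ g}) ∈
      ({x | r x.1 = r g1 ∨ r x.1 = r g2} : Set {x // x ≠ g}) := Or.inl rfl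
    have m2 : (⟨g2, ha2.ne.symm⟩ : {x // x ≠ g}) ∈
      ({x | r x.1 = r g1 ∨ r x.1 = r g2} : Set {x // x ≠ g}) := Or.inr rfl
    have h1 := mrg_cls_le (r := fun x : {x // x ≠ g} => r x.1)
      (C := ({x | r x.1 = r g1 ∨ r x.1 = r g2} : Set {x // x ≠ g})) (x0 := ⟨g1, ha1.ne.symm⟩)
    have h2 := mrg_pr (r := fun x : {x // x ≠ g} => r x.1) (x0 := ⟨g1, ha1.ne.symm⟩)
      (SG G (fun x => x ≠ g)) hC
    have h3 := sub_pr_le G r (fun x => x ≠ g)
    have h4 : cls (fun x : {x // x ≠ g} => r x.1) +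
      pr (SG G (fun x => x ≠ g)) (fun x : {x // x ≠ g} => r x.1) < N := by omega
    refine ih _ (lt_of_le_of_lt (Nat.add_le_add h1 h2) h4) {x // x ≠ g}
      (SG G (fun x => x ≠ g)) _ _ _
      (mrg_inv (r := fun x : {x // x ≠ g} => r x.1) (sub_inv _ hI) hC m1)
      (mrg_bod (r := fun x : {x // x ≠ g} => r x.1) (sub_bod _ hB (hgp g hg)) hC m1 m2
        (fun h => h12 (congrArg Subtype.val h).symm)) (sub_pos _ hβ) rfl
  -- 4. isolated bodies
  by_cases c3 : ∃ x, x ∈ B ∧ {z : V × V | G.Adj z.1 z.2 ∧ r z.1 = r x ∧ r z.2 ≠ r x}.ncard = 0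
  · obtain ⟨x, hx, hx0⟩ := c3
    have hx' : ∀ y z, r y = r x → G.Adj y z → r z = r x := by
      intro y z h1 h2
      by_contra h3
      rw [Set.ncard_eq_zero (Set.toFinite _)] at hx0
      have h4 : ((y, z) : V × V) ∈
        {z : V × V | G.Adj z.1 z.2 ∧ r z.1 = r x ∧ r z.2 ≠ r x} := ⟨h2, h1, h3⟩
      rw [hx0] at h4
      exact h4
    have hinB : ∀ z, r z = r x → z ∈ B := by
      intro z hz
      by_contra hzB
      have := hI z hzB x hz.symm
      rw [this] at hx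
      exact hzB hx
    refine stepI hD hμ hWpos G r B hB β hβ (r x) hinB hx' ⟨x, rfl⟩ (ihS G _ le_rfl ?_ ?_)
    · intro y z hyz _ hy hz
      exact hy (hyz.trans hz)
    · have := sub_cls_lt r (fun y => r y ≠ r x) (x0 := x) (fun y hy => hy)
      omega
  -- 4'. bodies with one outgoing edge
  by_cases c3' : ∃ x, x ∈ B ∧ {z : V × V | G.Adj z.1 z.2 ∧ r z.1 = r x ∧ r z.2 ≠ r x}.ncard = 1
  · obtain ⟨x, hx, hx1⟩ := c3'
    obtain ⟨⟨x1, g1⟩, hc⟩ := Set.ncard_eq_one.1 hx1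
    obtain ⟨hadj, hr1, hg1⟩ : G.Adj x1 g1 ∧ r x1 = r x ∧ r g1 ≠ r x := by
      have h1 : ((x1, g1) : V × V) ∈ {z : V × V | G.Adj z.1 z.2 ∧ r z.1 = r x ∧ r z.2 ≠ r x} := by
        rw [hc]
        rfl
      exact h1
    have hx1B : x1 ∈ B := by
      by_contra hzB
      have := hI x1 hzB x hr1.symm
      rw [this] at hx
      exact hzB hx
    rw [← hr1] at hc hg1
    have hC : ∀ u w, r u = r w → u ∈ ({z | r z = r x1 ∨ r z = r g1} : Set V) →
        w ∈ ({z | r z = r x1 ∨ r z = r g1} : Set V) := by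
      rintro u w huw (h | h)
      · exact Or.inl (huw.symm.trans h)
      · exact Or.inr (huw.symm.trans h)
    refine stepJ hPEN hn hD hμ hWpos G r B hI hB β hβ x1 g1 hx1B hc (ihS G _ le_rfl ?_ ?_)
      (ihM _ hC x1 (Or.inl rfl) g1 (Or.inr rfl) hg1)
    · intro y z hyz _ hy hz
      exact hy (hyz.trans hz)
    · have := sub_cls_lt r (fun y => r y ≠ r x1) (x0 := x1) (fun y hy => hy)
      omega
  -- 5. two adjacent bodies
  by_cases c4 : ∃ x y, x ∈ B ∧ y ∈ B ∧ G.Adj x y ∧ r x ≠ r y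
  · obtain ⟨x, y, hx, hy, hxy, hrxy⟩ := c4
    have hC : ∀ u w, r u = r w → u ∈ ({z | r z = r x ∨ r z = r y} : Set V) →
        w ∈ ({z | r z = r x ∨ r z = r y} : Set V) := by
      rintro u w huw (h | h)
      · exact Or.inl (huw.symm.trans h)
      · exact Or.inr (huw.symm.trans h)
    have m1 : x ∈ ({z | r z = r x ∨ r z = r y} : Set V) := Or.inl rfl
    have m2 : y ∈ ({z | r z = r x ∨ r z = r y} : Set V) := Or.inr rfl
    refine merge_step hC m1 m2 hrxy.symm ?_ (ihM _ hC x m1 y m2 hrxy.symm)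
    exact two_rigid (by omega) hWD hWpos _ _ _ (sub_inv _ hI)
      (sub_bod _ hB (fun u w huw _ hu => hC u w huw hu)) _
      (fun u w huw => hβinj u.1 w.1 (fun h => huw (Subtype.ext h))) ⟨x, m1⟩ ⟨y, m2⟩ hx hy
      (fun z => z.2) hxy
  -- 6. plates with two neighbours in a body
  by_cases c5 : ∃ g y z, g ∉ B ∧ y ∈ B ∧ z ∈ B ∧ G.Adj g y ∧ G.Adj g z ∧ r y = r z ∧ y ≠ z
  · obtain ⟨g, y, z, hg, hy, hz, hgy, hgz, hryz, hyz⟩ := c5
    have hC : ∀ u w, r u = r w → u ∈ ({x | x = g ∨ r x = r y} : Set V) →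
        w ∈ ({x | x = g ∨ r x = r y} : Set V) := by
      rintro u w huw (h | h)
      · left
        rw [h] at huw
        exact hI g hg w huw.symm
      · exact Or.inr (huw.symm.trans h)
    have m0 : g ∈ ({x | x = g ∨ r x = r y} : Set V) := Or.inl rfl
    have m1 : y ∈ ({x | x = g ∨ r x = r y} : Set V) := Or.inr rfl
    have m2 : z ∈ ({x | x = g ∨ r x = r y} : Set V) := Or.inr hryz.symm
    have hne : r g ≠ r y := fun h => hgy.ne (hI g hg y h.symm).symm
    refine merge_step hC m1 m0 hne ?_ (ihM _ hC y m1 g m0 hne)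
    refine five_rigid2 hμ hWk _ _ _ (sub_inv _ hI)
      (sub_bod _ hB (fun u w huw _ hu => hC u w huw hu)) _ (sub_pos _ hβ) ⟨g, m0⟩ hg
      ⟨⟨y, m1⟩, fun h => hgy.ne (congrArg Subtype.val h).symm⟩
      ⟨⟨z, m2⟩, fun h => hgz.ne (congrArg Subtype.val h).symm⟩ hgy hgz
      (fun h => hyz (congrArg (fun w => w.1.1) h)) hy ?_
    rintro ⟨w, hw⟩ hwg
    rcases hw with h | h
    · exact absurd (Subtype.ext h) hwg
    · exact h
  -- 7. the counting argument
  push Not at c1 c2 c3 c3' c4 c5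
  have d1 : ∀ x, x ∉ B → 3 ≤ {y | G.Adj x y}.ncard := by
    intro x hx
    have := c1 x hx
    have := c2 x hx
    omega
  have d2 : ∀ x y z, x ∉ B → y ∈ B → z ∈ B → G.Adj x y → G.Adj x z → r y = r z → y = z := c5
  have d3 : ∀ x y, x ∈ B → y ∈ B → G.Adj x y → r x = r y := c4
  have d4 : ∀ x, x ∈ B →
      2 ≤ {z : V × V | G.Adj z.1 z.2 ∧ r z.1 = r x ∧ r z.2 ≠ r x}.ncard := by
    intro x hx
    have h1 := c3 x hx
    have h2 := c3' x hx
    omega
  obtain ⟨a, b, hab, hrab⟩ : ∃ a b, G.Adj a b ∧ r a ≠ r b := by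
    obtain ⟨x⟩ := hV
    by_cases hx : x ∈ B
    · have h0 : {z : V × V | G.Adj z.1 z.2 ∧ r z.1 = r x ∧ r z.2 ≠ r x}.Nonempty := by
        rw [← Set.ncard_pos (Set.toFinite _)]
        have := d4 x hx
        omega
      obtain ⟨⟨y, z⟩, h1, h2, h3⟩ := h0
      exact ⟨y, z, h1, fun h => h3 (h.symm.trans h2)⟩
    · have h1 : {y | G.Adj x y}.Nonempty := by
        rw [← Set.ncard_pos (Set.toFinite _)]
        have := d1 x hx
        omega
      obtain ⟨y, hy⟩ := h1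
      exact ⟨x, y, hy, fun h => (SimpleGraph.Adj.ne hy) (hI x hx y h.symm).symm⟩
  obtain ⟨p1, p2⟩ := del_pr G r hab hrab
  set G' := G.deleteEdges {s(a, b)} with hG'
  have hG'G : G' ≤ G := G.deleteEdges_le _
  have hcount : val n k D G' B r ≤ 2 * D := by
    have h0 := hCNT V G r B n k D hI hnD hnk hnk' d1 d2 d3 d4
    unfold val
    have h1 : ((pr G r : ℤ) - 2) ≤ pr G' r := by
      have : (pr G r : ℤ) ≤ pr G' r + 2 := by exact_mod_cast p2
      linarith
    have h2 : (n : ℤ) * ((pr G r : ℤ) - 2) ≤ n * pr G' r :=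
      mul_le_mul_of_nonneg_left h1 (by positivity)
    linarith
  obtain ⟨f, hf, hbest⟩ := exists_best n k D G' B r
  have hconst : (2 * D : ℤ) ≤ val n k D G' B (fun _ => 0) := by
    have h1 : cls (fun _ : V => 0) = 1 := by
      unfold cls
      rw [Set.range_const, Set.ncard_singleton]
    have h2 : pr G' (fun _ : V => 0) = 0 := by
      unfold pr
      rw [Set.ncard_eq_zero (Set.toFinite _), Set.eq_empty_iff_forall_notMem]
      rintro z ⟨_, h⟩
      exact h rfl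
    unfold val
    rw [h1, h2]
    have h3 : (0 : ℤ) ≤ 2 * ((n : ℤ) + k - D) * (sing B (fun _ : V => 0) : ℤ) := by
      apply mul_nonneg
      · have : (D : ℤ) ≤ n := by exact_mod_cast hnD
        have hk0 : (0 : ℤ) ≤ k := by positivity
        linarith
      · positivity
    push_cast
    linarith
  obtain ⟨f, hf, hbest, hfr⟩ : ∃ f : V → ℕ, (∀ x y, r x = r y → f x = f y) ∧
      (∀ f' : V → ℕ, (∀ x y, r x = r y → f' x = f' y) →
        val n k D G' B f' ≤ val n k D G' B f) ∧ ∃ x y, f x = f y ∧ r x ≠ r y := by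
    by_cases hfr : ∃ x y, f x = f y ∧ r x ≠ r y
    · exact ⟨f, hf, hbest, hfr⟩
    · push Not at hfr
      have h1 := val_congr n k D G' B (fun x y => ⟨hf x y, hfr x y⟩)
      refine ⟨fun _ => 0, fun _ _ _ => rfl, fun f' hf' => ?_, a, b, rfl, hrab⟩
      have h2 := hbest f' hf'
      linarith
  obtain ⟨x, y, hfxy, hrxy⟩ := hfr
  have hC : ∀ u w, r u = r w → u ∈ ({z | f z = f x} : Set V) → w ∈ ({z | f z = f x} : Set V) :=
    fun u w huw hu => (hf u w huw).symm.trans hu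
  have m1 : x ∈ ({z | f z = f x} : Set V) := rfl
  have m2 : y ∈ ({z | f z = f x} : Set V) := hfxy.symm
  obtain ⟨f', hf', q', hq'⟩ := ihS G' (fun z => f z = f x) p1.le
    (fun u w huw _ hu => hC u w huw hu) (by
      have := sub_cls_le r (fun z => f z = f x)
      omega)
  obtain ⟨F, hF1, hF2, hF3, hF4⟩ := t_GLU V G' B n k D f (f x)
    ⟨x, y, fun h => hrxy (by rw [h]), rfl, hfxy.symm⟩ f'
  have hFr : ∀ u w, r u = r w → F u = F w := by
    intro u w huw
    by_cases hu : f u = f x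
    · have hw : f w = f x := (hf u w huw).symm.trans hu
      exact (hF3 ⟨u, hu⟩ ⟨w, hw⟩).2 (hf' ⟨u, hu⟩ ⟨w, hw⟩ huw)
    · exact hF2 u w (hf u w huw) hu
  have hval := hbest F hFr
  have hmo : mo (XG (SG G' (fun z => f z = f x)) (⊤ : SimpleGraph W) (fun z => r z.1)
      (Subtype.val ⁻¹' B)) (fl (fun z => β z.1) q') ≤ D := by
    rw [hF4] at hval
    have h1 : val n k D (SG G' (fun z => f z = f x)) (Subtype.val ⁻¹' B) f' ≤ 2 * D := by
      have : val n k D (G'.comap (Subtype.val : {z // f z = f x} → V)) (Subtype.val ⁻¹' B) f' ≤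
        2 * D := by linarith
      exact this
    have h2 := hq'.trans h1
    have h3 : (mo (XG (SG G' (fun z => f z = f x)) (⊤ : SimpleGraph W) (fun z => r z.1)
      (Subtype.val ⁻¹' B)) (fl (fun z => β z.1) q') : ℤ) ≤ D := by linarith
    exact_mod_cast h3
  have hle : SG G' (fun z => f z = f x) ≤ SG G (fun z => f z = f x) := by
    intro u w huw
    exact hG'G huw
  have hne : Nonempty {z // f z = f x} := ⟨⟨x, rfl⟩⟩
  refine merge_step hC m1 m2 hrxy.symm ?_ (ihM _ hC x m1 y m2 hrxy.symm)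
  refine rigid_of_mo (V := {z // f z = f x}) hWpos (XG (SG G (fun z => f z = f x))
    (⊤ : SimpleGraph W) (fun z => r z.1) (Subtype.val ⁻¹' B)) (fun z => β z.1) ⟨q', ?_⟩
  rw [← hD]
  exact (mo_anti (XG_mono hle _ _ _) _).trans hmo

end Pool.Agent.T2h34.RK
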