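import Mathlib
import Pool.Agent.T2h34.RK.Ind2
import Pool.Agent.T2h34.RK.Fin

set_option autoImplicit false
set_option linter.unusedSectionVars false

/-! The rank of products, with the lower threshold and different fibres. -/

namespace Pool.Agent.T2h34.RK

open Matrix Pool.Agent.H283R2.DR Pool.Agent.H283R2.DR.TA Pool.Agent.H789R5 Pool.Agent.T2h34.CP

/-- **Upper bound.** -/
theorem upper2 (hPEN : S_PEN) (hCNT : S_CNT2) {μ : ℕ} (hμ : 2 ≤ μ) (V W : Type) [Finite V]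
    [Finite W] (G : SimpleGraph V) (H : V → SimpleGraph W) (hH : ∀ x, GenRigid μ (H x)) (n : ℕ)
    (hn : n = Nat.card W) (hnD : (μ + 1) * (μ + 1 + 1) / 2 ≤ n) (hnk : 2 * (μ * (μ + 1) / 2) ≤ n)
    (hnk' : 4 * (μ * (μ + 1) / 2) ≤ n + (μ + 1) * (μ + 1 + 1) / 2) :
    ∃ (f : V → ℕ) (p : V × W → Fin (μ + 1) → ℝ), 2 * (mo (FG G H) p : ℤ) ≤
      val n (μ * (μ + 1) / 2) ((μ + 1) * (μ + 1 + 1) / 2) G ∅ f := by
  classical
  have := Fintype.ofFinite V
  have := Fintype.ofFinite W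
  obtain ⟨β, hβ⟩ := pos_exists V μ
  let r : V → ℕ := fun x => (Fintype.equivFin V x : ℕ)
  have hr : ∀ x y, r x = r y → x = y := by
    intro x y h
    exact (Fintype.equivFin V).injective (Fin.ext h)
  obtain ⟨f, -, q0, hq0⟩ := main_ind2 hPEN hCNT hμ W n _ _ hn rfl rfl hnD hnk hnk' _ V G r ∅ β
    (fun x _ y hxy => hr y x hxy) (fun x hx => absurd hx (Set.notMem_empty x)) hβ rfl
  have gH : ∀ g : V, Good (fun q : V × W → Fin μ → ℝ => InfRigid (H g) (fun h => q (g, h))) := by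
    intro g
    refine Aff.good (infRigid_good (H g)) (F := fun q : V × W → Fin μ → ℝ => fun h => q (g, h)) ?_
    intro p0 p1 s
    rfl
  have eH : ∀ g : V, ∃ q : V × W → Fin μ → ℝ, InfRigid (H g) (fun h => q (g, h)) := by
    intro g
    obtain ⟨p, hp⟩ := hH g
    exact ⟨fun x => p x.2, hp⟩
  obtain ⟨q, h1, h2⟩ := good_and_exists
    (fl_mo_good (XG G (⊤ : SimpleGraph W) r ∅) β (mo (XG G (⊤ : SimpleGraph W) r ∅) (fl β q0)))
    (good_forall gH) ⟨q0, le_rfl⟩ (good_family _ gH eH)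
  refine ⟨f, fl β q, ?_⟩
  have h3 : mo (FG G H) (fl β q) ≤ mo (XG G (⊤ : SimpleGraph W) r ∅) (fl β q) := by
    apply Submodule.finrank_mono
    intro v hv
    rw [mem_mot] at hv ⊢
    rintro ⟨x, h⟩ ⟨y, h'⟩ (⟨e1, e2⟩ | ⟨e1, e2⟩ | ⟨_, e2, _⟩)
    · have e1' : x = y := e1
      subst e1'
      rw [fl_pair]
      obtain ⟨A, c, hA, hc⟩ := h2 x (fun h => vecTail (v (x, h)) + v (x, h) 0 • β x) (by
        intro w w' hww
        rw [← fl_pair]
        exact hv (x, w) (x, w') (Or.inl ⟨rfl, hww⟩))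
      rw [hc h, hc h']
      exact triv_pair hA c _ _
    · exact hv _ _ (Or.inr ⟨e1, e2⟩)
    · exact absurd e2 (Set.notMem_empty _)
  refine le_trans ?_ hq0
  have h4 := h3.trans h1
  exact_mod_cast Nat.mul_le_mul_left 2 h4

/-- the rank of a graph and the motions at any placement -/
theorem rank_ge {Y : Type} [Fintype Y] {d : ℕ} (X : SimpleGraph Y) (P : Y → Fin d → ℝ) :
    d * Fintype.card Y ≤ genRank d X + mo X P := by
  obtain ⟨p, hp⟩ := exists_mg Y d
  have h1 := genRank_add hp X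
  have h2 := hp.min X P
  omega

end Pool.Agent.T2h34.RK
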