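import Pool.Agent.T2h34.RK.Stm2

/-! Task CNT2 of project RK. -/

set_option autoImplicit false
set_option linter.all false

namespace Pool.Agent.T2h34.RK

theorem cnt2_arith (n k D s T m p : ℤ) (h1 : D ≤ n) (h2 : 2 * k ≤ n) (h3 : 4 * k ≤ n + D)
    (hk : 0 ≤ k) (hD : 0 ≤ D)
    (hp : 3 * s + T ≤ p) (hm : 2 * m ≤ T) (hT0 : 0 ≤ T) (hs : 2 ≤ s)
    (hs2 : s = 2 → 4 ≤ T) (hs3 : s = 3 → 3 ≤ T) :
    2 * (D * (s + m) + (n + k - D) * s) ≤ n * (p - 2) + 2 * D := by
  have hn : 0 ≤ n := by linarith
  have e1 : n * (3 * s + T - 2) ≤ n * (p - 2) := mul_le_mul_of_nonneg_left (by linarith) hn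
  have e2 : D * (2 * m) ≤ D * T := mul_le_mul_of_nonneg_left hm hD
  have key : T * (D - n) + s * (2 * k - n) + 2 * n ≤ 2 * D := by
    rcases Int.lt_or_le s 4 with h4 | h4
    · rcases Int.lt_or_le s 3 with h5 | h5
      · have h6 : s = 2 := by omega
        have h7 := hs2 h6
        have h8 : T * (D - n) ≤ 4 * (D - n) := mul_le_mul_of_nonpos_right h7 (by linarith)
        rw [h6]
        linarith
      · have h6 : s = 3 := by omega
        have h7 := hs3 h6
        have h8 : T * (D - n) ≤ 3 * (D - n) := mul_le_mul_of_nonpos_right h7 (by linarith)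
        rw [h6]
        linarith
    · have h8 : T * (D - n) ≤ 0 := mul_nonpos_of_nonneg_of_nonpos hT0 (by linarith)
      have h9 : s * (2 * k - n) ≤ 4 * (2 * k - n) := mul_le_mul_of_nonpos_right h4 (by linarith)
      linarith
  nlinarith

theorem t_CNT2 : S_CNT2 := by
  intro V _ hne G r B n k D hInv hDn h2k h4k h3 huniq hBB hout
  classical
  haveI : Fintype V := Fintype.ofFinite V
  obtain ⟨Pl, hPl⟩ : ∃ Pl : Finset V, Pl = Finset.univ.filter (fun x => x ∉ B) := ⟨_, rfl⟩
  obtain ⟨Bo, hBo⟩ : ∃ Bo : Finset ℕ, Bo = (Finset.univ.filter (fun x => x ∈ B)).image r := ⟨_, rfl⟩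
  obtain ⟨TT, hTT⟩ : ∃ TT : Finset (V × V), TT = Finset.univ.filter
    (fun z => z.1 ∉ B ∧ z.2 ∈ B ∧ G.Adj z.1 z.2) := ⟨_, rfl⟩
  have mPl : ∀ x, x ∈ Pl ↔ x ∉ B := fun x => by rw [hPl, Finset.mem_filter]; simp
  have mTT : ∀ z, z ∈ TT ↔ z.1 ∉ B ∧ z.2 ∈ B ∧ G.Adj z.1 z.2 := fun z => by
    rw [hTT, Finset.mem_filter]; simp
  have mBo : ∀ c, c ∈ Bo ↔ ∃ x, x ∈ B ∧ r x = c := fun c => by
    rw [hBo, Finset.mem_image]; simp
  -- sing and cls
  have hsing : sing B r = Pl.card := by
    unfold sing
    rw [Set.ncard_eq_toFinset_card']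
    congr 1
    ext x
    rw [Set.mem_toFinset, mPl]
    exact ⟨fun h => h.1, fun h => ⟨h, fun y hy => hInv x h y hy⟩⟩
  have hinjP : Set.InjOn r (Pl : Set V) := by
    intro x hx y hy hxy
    exact (hInv x ((mPl x).1 hx) y hxy.symm).symm
  have hcls : cls r = Pl.card + Bo.card := by
    unfold cls
    rw [Set.ncard_eq_toFinset_card']
    rw [← Finset.card_image_of_injOn hinjP, ← Finset.card_union_of_disjoint]
    · congr 1
      ext c
      rw [Set.mem_toFinset, Finset.mem_union, Finset.mem_image, mBo]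
      constructor
      · rintro ⟨x, rfl⟩
        by_cases hx : x ∈ B
        · exact Or.inr ⟨x, hx, rfl⟩
        · exact Or.inl ⟨x, (mPl x).2 hx, rfl⟩
      · rintro (⟨x, -, rfl⟩ | ⟨x, -, rfl⟩)
        · exact ⟨x, rfl⟩
        · exact ⟨x, rfl⟩
    · rw [Finset.disjoint_left]
      rintro c hc hc'
      obtain ⟨x, hx, rfl⟩ := Finset.mem_image.1 hc
      obtain ⟨y, hy, hxy⟩ := (mBo _).1 hc'
      have h5 := hInv x ((mPl x).1 hx) y hxy
      exact ((mPl x).1 hx) (h5 ▸ hy)
  -- pairs
  have hpr : 3 * Pl.card + TT.card ≤ pr G r := by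
    unfold pr
    rw [Set.ncard_eq_toFinset_card']
    have e1 : (Finset.univ.filter (fun z : V × V => z.1 ∉ B ∧ G.Adj z.1 z.2)) ∪ TT.image Prod.swap ⊆
        ({z : V × V | G.Adj z.1 z.2 ∧ r z.1 ≠ r z.2}).toFinset := by
      intro z hz
      rw [Finset.mem_union, Finset.mem_filter, Finset.mem_image] at hz
      rw [Set.mem_toFinset]
      rcases hz with ⟨-, h4, h5⟩ | ⟨w, hw, rfl⟩
      · exact ⟨h5, fun h6 => h5.ne (hInv z.1 h4 z.2 h6.symm).symm⟩
      · obtain ⟨h4, h5, h6⟩ := (mTT w).1 hw
        refine ⟨h6.symm, fun h7 => ?_⟩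
        have h8 := hInv w.1 h4 w.2 h7
        exact h6.ne h8.symm
    refine le_trans ?_ (Finset.card_le_card e1)
    rw [Finset.card_union_of_disjoint]
    · rw [Finset.card_image_of_injective _ Prod.swap_injective]
      apply Nat.add_le_add_right
      have e2 : (Finset.univ.filter (fun z : V × V => z.1 ∉ B ∧ G.Adj z.1 z.2)).card =
          ∑ x ∈ Pl, {y | G.Adj x y}.ncard := by
        rw [Finset.card_eq_sum_card_fiberwise (f := Prod.fst) (t := Pl)]
        · apply Finset.sum_congr rfl
          intro x hx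
          rw [Set.ncard_eq_toFinset_card']
          apply Finset.card_bij (fun z _ => z.2)
          · intro z hz
            rw [Finset.mem_filter, Finset.mem_filter] at hz
            rw [Set.mem_toFinset]
            show G.Adj x z.2
            rw [← hz.2]
            exact hz.1.2.2
          · intro z hz z' hz' h
            rw [Finset.mem_filter, Finset.mem_filter] at hz hz'
            exact Prod.ext (hz.2.trans hz'.2.symm) h
          · intro y hy
            rw [Set.mem_toFinset] at hy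
            refine ⟨(x, y), ?_, rfl⟩
            rw [Finset.mem_filter, Finset.mem_filter]
            exact ⟨⟨Finset.mem_univ _, (mPl x).1 hx, hy⟩, rfl⟩
        · intro z hz
          rw [Finset.mem_coe, Finset.mem_filter] at hz
          rw [Finset.mem_coe, mPl]
          exact hz.2.1
      rw [e2, mul_comm, ← smul_eq_mul, ← Finset.sum_const]
      exact Finset.sum_le_sum fun x hx => h3 x ((mPl x).1 hx)
    · rw [Finset.disjoint_left]
      rintro z hz hz'
      obtain ⟨w, hw, rfl⟩ := Finset.mem_image.1 hz'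
      exact (Finset.mem_filter.1 hz).2.1 ((mTT w).1 hw).2.1
  -- edges leaving a body
  have hleave : ∀ x, x ∈ B → 2 ≤ (TT.filter (fun w => r w.2 = r x)).card := by
    intro x hx
    refine (hout x hx).trans ?_
    rw [Set.ncard_eq_toFinset_card']
    apply Finset.card_le_card_of_injOn Prod.swap
    · intro z hz
      rw [Finset.mem_coe, Set.mem_toFinset] at hz
      obtain ⟨h4, h5, h6⟩ := hz
      have hy : z.1 ∈ B := by
        by_contra hy
        have h7 := hInv z.1 hy x h5.symm
        exact hy (h7 ▸ hx)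
      have hz2 : z.2 ∉ B := by
        intro hz2
        apply h6
        rw [← h5]
        exact (hBB z.1 z.2 hy hz2 h4).symm
      rw [Finset.mem_coe, Finset.mem_filter]
      exact ⟨(mTT _).2 ⟨hz2, hy, h4.symm⟩, h5⟩
    · intro z _ z' _ h
      exact Prod.swap_injective h
  -- bodies
  have hmT : 2 * Bo.card ≤ TT.card := by
    have e1 : TT.card = ∑ c ∈ Bo, (TT.filter (fun w => r w.2 = c)).card := by
      apply Finset.card_eq_sum_card_fiberwise
      intro w hw
      rw [Finset.mem_coe, mBo]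
      exact ⟨w.2, ((mTT w).1 hw).2.1, rfl⟩
    rw [e1, mul_comm, ← smul_eq_mul, ← Finset.sum_const]
    apply Finset.sum_le_sum
    intro c hc
    obtain ⟨x, hx, rfl⟩ := (mBo c).1 hc
    exact hleave x hx
  -- nonempty
  have hs1 : 1 ≤ Pl.card := by
    by_contra hcon
    have h0 : Pl.card = 0 := by omega
    obtain ⟨x⟩ := hne
    have hx : x ∈ B := by
      by_contra hx
      have h1 : x ∈ Pl := (mPl x).2 hx
      rw [Finset.card_eq_zero.1 h0] at h1
      exact absurd h1 (Finset.notMem_empty _)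
    have h1 := hleave x hx
    obtain ⟨w, hw⟩ := Finset.card_pos.1 (show 0 < (TT.filter (fun w => r w.2 = r x)).card by omega)
    have h2 : w.1 ∈ Pl := (mPl _).2 ((mTT w).1 (Finset.mem_filter.1 hw).1).1
    rw [Finset.card_eq_zero.1 h0] at h2
    exact absurd h2 (Finset.notMem_empty _)
  -- degrees
  have hdeg : ∀ x, x ∉ B → 3 ≤ (Pl.card - 1) + (Finset.univ.filter (fun y => y ∈ B ∧ G.Adj x y)).card := by
    intro x hx
    refine (h3 x hx).trans ?_
    rw [Set.ncard_eq_toFinset_card']
    have e1 : ({y | G.Adj x y}).toFinset ⊆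
        Pl.erase x ∪ (Finset.univ.filter (fun y => y ∈ B ∧ G.Adj x y)) := by
      intro y hy
      rw [Set.mem_toFinset] at hy
      have hy' : G.Adj x y := hy
      rw [Finset.mem_union, Finset.mem_erase, Finset.mem_filter, mPl]
      by_cases hyB : y ∈ B
      · exact Or.inr ⟨Finset.mem_univ _, hyB, hy'⟩
      · exact Or.inl ⟨hy'.ne', hyB⟩
    refine (Finset.card_le_card e1).trans ((Finset.card_union_le _ _).trans ?_)
    rw [Finset.card_erase_of_mem ((mPl x).2 hx)]
  -- two plates
  have hs2 : 2 ≤ Pl.card := by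
    by_contra hcon
    have h0 : Pl.card = 1 := by omega
    obtain ⟨x0, hx0⟩ := Finset.card_eq_one.1 h0
    have hx0' : x0 ∉ B := (mPl x0).1 (by rw [hx0]; exact Finset.mem_singleton_self _)
    have h5 := hdeg x0 hx0'
    obtain ⟨y, hy⟩ := Finset.card_pos.1
      (show 0 < (Finset.univ.filter (fun y => y ∈ B ∧ G.Adj x0 y)).card by omega)
    have hy' := (Finset.mem_filter.1 hy).2
    have h6 := hleave y hy'.1
    obtain ⟨w, hw, w', hw', hne'⟩ := Finset.one_lt_card.1
      (show 1 < (TT.filter (fun w => r w.2 = r y)).card by omega)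
    rw [Finset.mem_filter, mTT] at hw hw'
    have h7 : w.1 = x0 := by
      have : w.1 ∈ Pl := (mPl _).2 hw.1.1
      rwa [hx0, Finset.mem_singleton] at this
    have h8 : w'.1 = x0 := by
      have : w'.1 ∈ Pl := (mPl _).2 hw'.1.1
      rwa [hx0, Finset.mem_singleton] at this
    apply hne'
    refine Prod.ext (h7.trans h8.symm) ?_
    refine huniq x0 w.2 w'.2 hx0' hw.1.2.1 hw'.1.2.1 ?_ ?_ (hw.2.trans hw'.2.symm)
    · rw [← h7]
      exact hw.1.2.2
    · rw [← h8]
      exact hw'.1.2.2
  -- pairs counted from the plates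
  have hTsum : TT.card = ∑ x ∈ Pl, (Finset.univ.filter (fun y => y ∈ B ∧ G.Adj x y)).card := by
    rw [Finset.card_eq_sum_card_fiberwise (f := Prod.fst) (t := Pl)]
    · apply Finset.sum_congr rfl
      intro x hx
      apply Finset.card_bij (fun z _ => z.2)
      · intro z hz
        rw [Finset.mem_filter, mTT] at hz
        rw [Finset.mem_filter]
        refine ⟨Finset.mem_univ _, hz.1.2.1, ?_⟩
        rw [← hz.2]
        exact hz.1.2.2
      · intro z hz z' hz' h
        rw [Finset.mem_filter] at hz hz'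
        exact Prod.ext (hz.2.trans hz'.2.symm) h
      · intro y hy
        rw [Finset.mem_filter] at hy
        refine ⟨(x, y), ?_, rfl⟩
        rw [Finset.mem_filter, mTT]
        exact ⟨⟨(mPl x).1 hx, hy.2.1, hy.2.2⟩, rfl⟩
    · intro z hz
      rw [Finset.mem_coe, mPl]
      exact ((mTT z).1 hz).1
  have hs2' : Pl.card = 2 → 4 ≤ TT.card := by
    intro h2s
    have h5 : Pl.card * 2 ≤ TT.card := by
      rw [hTsum, ← smul_eq_mul, ← Finset.sum_const]
      apply Finset.sum_le_sum
      intro x hx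
      have := hdeg x ((mPl x).1 hx)
      omega
    omega
  have hs3' : Pl.card = 3 → 3 ≤ TT.card := by
    intro h3s
    have h5 : Pl.card * 1 ≤ TT.card := by
      rw [hTsum, ← smul_eq_mul, ← Finset.sum_const]
      apply Finset.sum_le_sum
      intro x hx
      have := hdeg x ((mPl x).1 hx)
      omega
    omega
  rw [hcls, hsing]
  push_cast
  exact cnt2_arith n k D Pl.card TT.card Bo.card (pr G r) (by exact_mod_cast hDn)
    (by exact_mod_cast h2k) (by exact_mod_cast h4k) (by positivity) (by positivity)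
    (by exact_mod_cast hpr)
    (by exact_mod_cast hmT) (by positivity) (by exact_mod_cast hs2)
    (fun h => by exact_mod_cast hs2' (by exact_mod_cast h))
    (fun h => by exact_mod_cast hs3' (by exact_mod_cast h))

end Pool.Agent.T2h34.RK
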