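import Mathlib
import Pool.Agent.T2h34.RK.T_REMA
import Pool.Agent.T2h34.RK.Stm2

set_option autoImplicit false

/-! Task PEN (helper54): adding a body as a class of its own, edges leaving the body allowed. -/

namespace Pool.Agent.T2h34.RK

theorem t_PEN : S_PEN := by
  intro V _ G B n k D r c hB hc f'
  classical
  let f : V → ℕ := fun x => if h : r x = c then 0 else f' ⟨x, h⟩ + 1
  have f2 : ∀ x, r x = c → f x = 0 := fun x h => dif_pos h
  have f3 : ∀ x (h : r x ≠ c), f x = f' ⟨x, h⟩ + 1 := fun x h => dif_neg h
  have f1 : ∀ y : {x // r x ≠ c}, f y = f' y + 1 := fun y => f3 y.1 y.2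
  obtain ⟨a, ha⟩ := hc
  refine ⟨f, ?_, ?_, ?_⟩
  · intro x y
    rw [f1, f1]
    omega
  · intro x y hx hy
    rw [f2 x hx, f2 y hy]
  · have c1 : cls f = cls f' + 1 := by
      apply rng_add f' f Subtype.val f1
      · intro x
        by_cases h : r x = c
        · right
          exact f2 x h
        · left
          exact ⟨⟨x, h⟩, rfl⟩
      · exact ⟨a, f2 a ha⟩
    have c2 : sing B f = sing (Subtype.val ⁻¹' B) f' := by
      unfold sing
      have e : {x | x ∉ B ∧ ∀ y, f y = f x → y = x} =
          (Subtype.val '' {x : {x // r x ≠ c} | x ∉ (Subtype.val ⁻¹' B : Set {x // r x ≠ c}) ∧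
            ∀ y, f' y = f' x → y = x}) := by
        ext x
        constructor
        · rintro ⟨hx1, hx2⟩
          by_cases h : r x = c
          · exact absurd (hB x h) hx1
          · refine ⟨⟨x, h⟩, ⟨hx1, ?_⟩, rfl⟩
            intro y hy
            apply Subtype.ext
            apply hx2
            rw [f1, hy, f3 x h]
        · rintro ⟨x, ⟨hx1, hx2⟩, rfl⟩
          refine ⟨hx1, ?_⟩
          intro y hy
          by_cases h : r y = c
          · exfalso
            rw [f2 y h, f1] at hy
            omega
          · rw [f3 y h, f1] at hy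
            exact congrArg Subtype.val (hx2 ⟨y, h⟩ (by omega))
      rw [e, Set.ncard_image_of_injective _ Subtype.val_injective]
    have c3 : pr G f = pr (G.comap (Subtype.val : {x // r x ≠ c} → V)) f' +
        2 * {z : V × V | G.Adj z.1 z.2 ∧ r z.1 = c ∧ r z.2 ≠ c}.ncard := by
      unfold pr
      have e : {z : V × V | G.Adj z.1 z.2 ∧ f z.1 ≠ f z.2} =
          (Prod.map Subtype.val Subtype.val '' {z : {x // r x ≠ c} × {x // r x ≠ c} |
            (G.comap (Subtype.val : {x // r x ≠ c} → V)).Adj z.1 z.2 ∧ f' z.1 ≠ f' z.2}) ∪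
          ({z : V × V | G.Adj z.1 z.2 ∧ r z.1 = c ∧ r z.2 ≠ c} ∪
            Prod.swap '' {z : V × V | G.Adj z.1 z.2 ∧ r z.1 = c ∧ r z.2 ≠ c}) := by
        ext z
        obtain ⟨x, y⟩ := z
        constructor
        · rintro ⟨h1, h2⟩
          simp only at h1 h2
          by_cases hx : r x = c
          · by_cases hy : r y = c
            · exfalso
              apply h2
              rw [f2 x hx, f2 y hy]
            · right
              left
              exact ⟨h1, hx, hy⟩
          · by_cases hy : r y = c
            · right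
              right
              exact ⟨(y, x), ⟨h1.symm, hy, hx⟩, rfl⟩
            · left
              refine ⟨(⟨x, hx⟩, ⟨y, hy⟩), ⟨h1, ?_⟩, rfl⟩
              intro h3
              apply h2
              rw [f3 x hx, f3 y hy]
              simp only at h3
              rw [h3]
        · rintro (⟨⟨x', y'⟩, ⟨h1, h2⟩, h3⟩ | ⟨h1, h2, h3⟩ | ⟨⟨x', y'⟩, ⟨h1, h2, h3⟩, h4⟩)
          · simp only [Prod.map_apply, Prod.mk.injEq] at h3
            obtain ⟨rfl, rfl⟩ := h3
            refine ⟨h1, ?_⟩
            simp only at h2 ⊢
            rw [f1, f1]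
            omega
          · simp only at h1 h2 h3
            refine ⟨h1, ?_⟩
            simp only
            rw [f2 x h2, f3 y h3]
            omega
          · simp only at h1 h2 h3
            simp only [Prod.swap_prod_mk, Prod.mk.injEq] at h4
            obtain ⟨rfl, rfl⟩ := h4
            refine ⟨h1.symm, ?_⟩
            simp only
            rw [f2 x' h2, f3 y' h3]
            omega
      rw [e, Set.ncard_union_eq, Set.ncard_union_eq, Set.ncard_image_of_injective,
        Set.ncard_image_of_injective, two_mul]
      · exact Prod.swap_injective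
      · exact Function.Injective.prodMap Subtype.val_injective Subtype.val_injective
      · rw [Set.disjoint_left]
        rintro ⟨x, y⟩ ⟨_, h2, h3⟩ ⟨⟨x', y'⟩, ⟨_, h5, h6⟩, h4⟩
        simp only [Prod.swap_prod_mk, Prod.mk.injEq] at h4
        obtain ⟨rfl, rfl⟩ := h4
        exact h3 h5
      · rw [Set.disjoint_left]
        rintro _ ⟨⟨x', y'⟩, _, rfl⟩ (⟨_, h2, h3⟩ | ⟨⟨x, y⟩, ⟨_, h5, h6⟩, h4⟩)
        · exact x'.2 h2
        · simp only [Prod.swap_prod_mk, Prod.map_apply, Prod.mk.injEq] at h4
          apply y'.2
          rw [← h4.2]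
          exact h5
    unfold val
    rw [c1, c2, c3]
    push_cast
    ring

end Pool.Agent.T2h34.RK
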